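import Mathlib

/-!
# Polynomial bound for generalized diagonals: the abstract discharging (helper67's note 2663; typed by helper27)

`A` is the finite set of generalized diagonals, `l` the length, `rho` the angle at the vertex closest to the
diagonal, `d` the distance of directions (arc length on the circle), `e x`, `g x` the shorter and the longer part of a composite
diagonal (`rho x < r1`; the bound `r1 ≤ 1/100` may depend on `n`, for example `r1 = c/n^3`). The theorem `Stmt_ABS` bounds the number of elements from the packing inequality. A module proves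
`theorem m_X (h : ..) ... : Stmt_X`; the hypotheses are the statements named under USES.
-/

set_option autoImplicit false

namespace Pool.Agent.BGD

/-- the data -/
structure Sys (A : Type) where
  l : A → ℝ
  rho : A → ℝ
  d : A → A → ℝ
  e : A → A
  g : A → A
  c0 : ℝ
  n : ℝ
  r1 : ℝ

/-- the axioms; `r1` is the bound for composite elements, for the others `e x`, `g x` are junk -/
structure Ax {A : Type} (S : Sys A) : Prop where
  c0pos : 0 < S.c0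
  r1pos : 0 < S.r1
  r1le : S.r1 ≤ 1 / 100
  lc : ∀ x, S.c0 ≤ S.l x
  ln : ∀ x, S.l x ≤ S.n
  rpos : ∀ x, 0 < S.rho x
  dself : ∀ x, S.d x x = 0
  dsymm : ∀ x y, S.d x y = S.d y x
  dtri : ∀ x y z, S.d x z ≤ S.d x y + S.d y z
  /-- the shorter part has at most (about) half of the length -/
  le51 : ∀ x, S.rho x < S.r1 → S.l (S.e x) ≤ 51 / 100 * S.l x
  glt : ∀ x, S.rho x < S.r1 → S.l (S.g x) < S.l x
  dlow : ∀ x, S.rho x < S.r1 → 49 / 100 * S.rho x ≤ S.d (S.e x) x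
  dup : ∀ x, S.rho x < S.r1 → S.d (S.e x) x ≤ 101 / 100 * S.rho x
  dpart : ∀ x p, S.rho x < S.r1 → (p = S.e x ∨ p = S.g x) →
    S.d p x ≤ 2 * S.rho x * (1 - S.l p / S.l x)
  /-- one of the two parts is farther from `z`, and exactly by its distance from `x` -/
  far : ∀ x z, S.rho x < S.r1 → 0 < S.d x z → S.d x z ≤ S.r1 →
    ∃ p, (p = S.e x ∨ p = S.g x) ∧ S.d p z = S.d x z + S.d p x

/-- `u` is obtained from `x` by taking parts, `V` is the total variation of the direction -/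
inductive Chain {A : Type} (S : Sys A) : A → A → ℝ → Prop
  | refl (x : A) : Chain S x x 0
  | step {x y p : A} {V : ℝ} : Chain S x y V → S.rho y < S.r1 → (p = S.e y ∨ p = S.g y) →
      Chain S x p (V + S.d p y)

/-- the packing inequality -/
def Pack {A : Type} (S : Sys A) (C : ℝ) : Prop :=
  ∀ (u : A) (D R h : ℝ), 0 < D → D ≤ S.r1 → 0 < R → 0 < h → ∀ s : Finset A,
    (∀ x ∈ s, (∃ V ≤ D, Chain S x u V) ∧ S.l x ≤ R ∧ h ≤ S.rho x * S.l (S.e x) ∧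
      S.rho x < S.r1) → (s.card : ℝ) ≤ C * (1 + D * R / h) ^ 2

/-- the ratio of the weights -/
noncomputable def Qr {A : Type} (S : Sys A) (x v u u' : A) : ℝ :=
  (S.l x / S.l u) * (S.l v / S.l u')

/-- `(x, v)` may be charged to the linked pair `(u, u')` -/
structure Chg {A : Type} (S : Sys A) (x v u u' : A) : Prop where
  cx : ∃ V ≤ 5 * S.d u u', Chain S x u V
  cv : ∃ V ≤ 5 * S.d u u', Chain S v u' V
  dpos : 0 < S.d u u'
  sm : 5 * S.d u u' ≤ S.r1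
  lk : S.d u u' ≤ S.rho u / 5
  lk' : S.d u u' ≤ S.rho u' / 5
  Q : 3 / 2 ≤ Qr S x v u u'
  lx : S.l u ≤ S.l x
  lv : S.l u' ≤ S.l v
  rx : S.rho x < S.r1
  clx : S.d u u' * S.l x ≤ 8 * Qr S x v u u' ^ 21 * (S.rho x * S.l (S.e x))
  clv : v = u' ∨ (S.rho v < S.r1 ∧
    S.d u u' * S.l v ≤ 8 * Qr S x v u u' ^ 21 * (S.rho v * S.l (S.e v)))

/-- (DES) the two-sided descent.

PROOF. `d ≥ 0` (`0 = d x x ≤ 2 d x y`). Induction on `#{a : l a < l y} + #{a : l a < l z}` (parts of composite elements are strictly shorter). Let `δ = d y z`; the hypothesis gives `5 δ ≤ r1` (`l ≥ c0`). If `ρ y < 5 δ` then `y` is composite; `far` gives a part `p` of `y` with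
`d p z = δ + d p y`. With `q = l p/l y ∈ (0, 1)`: `d p z ≤ δ + 2 ρ(y) (1 - q) ≤ δ (1 + 10 (1 - q)) ≤ δ (1/q)^10` (Bernoulli: `(1/q)^10 ≥ 1 + 10 (1/q - 1) ≥ 1 + 10 (1 - q)`, `one_add_mul_le_pow`). So the hypothesis holds for `(p, z)` (`l p = q l y`), use the induction
hypothesis; prepend the step to the chain (`Chain p u V → Chain y u (d p y + V)`, induction on the chain). The last alternative is about the same `z`. If `ρ z < 5 δ`: the same on the other side (`dsymm`), now `ρ z < 5 δ ≤ 5 d u u'`. Otherwise `u = y`, `u' = z`. -/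
def Stmt_DES : Prop :=
  ∀ (A : Type) [Fintype A] (S : Sys A), Ax S → ∀ y z : A, 0 < S.d y z →
    5 * S.d y z * ((S.l y * S.l z) / S.c0 ^ 2) ^ 10 ≤ S.r1 →
    ∃ (u u' : A) (V V' : ℝ), Chain S y u V ∧ Chain S z u' V' ∧ 0 ≤ V ∧ 0 ≤ V' ∧
      S.d u u' ≤ S.rho u / 5 ∧ S.d u u' ≤ S.rho u' / 5 ∧ S.d u u' = S.d y z + V + V' ∧
      S.d u u' ≤ S.d y z * ((S.l y / S.l u) * (S.l z / S.l u')) ^ 10 ∧
      S.l u ≤ S.l y ∧ S.l u' ≤ S.l z ∧ 5 * S.d u u' ≤ S.r1 ∧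
      (z = u' ∨ S.rho z < 5 * S.d u u')

/-- (CHG) every linked pair with a small angle is charged to a linked pair.

USES DES. PROOF. `N = n/c0 ≥ 1`, `ρ x < r1 N^(-40)/100`, so `x` is composite. FIRST DESCENT from `(e x, v)`: `δ₀ = d (e x) v` is between `0.49 ρx - 0.2 ρx = 0.29 ρx` and `1.21 ρx`; `5 δ₀ N^20 ≤ r1`. DES: `(u₁, u₁')`, `δ₁ = d u₁ u₁'`. `Q₁ = (l x/l u₁)(l v/l u₁')`; `δ₀ ≤ δ₁ ≤ 1.21 ρx Q₁^10` (`l (e x) ≤ l x`),
`l x/l u₁ ≥ l x/l (e x) ≥ 100/51`, `Q₁ ≥ 3/2`, `Q₁ ≤ N²`. Case 1: `v = u₁'` or `l v ≤ Q₁ l (e v)`. Take `(u₁, u₁')`: chain from `x` (prepend `e x`): `V ≤ 1.01 ρx + (δ₁ - δ₀) ≤ 5 δ₁` as `ρx ≤ δ₀/0.29`. `clx`: `ρx ≥ δ₁/(1.21 Q₁^10)`, `l (e x) ≥ l u₁ ≥ l x/Q₁`. `clv`, if `v ≠ u₁'`: `ρ v < 5 δ₁ ≤ r1`,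
`ρv ≥ ρx ≥ δ₁/(1.21 Q₁^10)`, `l (e v) ≥ l v/Q₁`. (`Q^11 ≤ Q^21`.) Case 2: `v ≠ u₁'` and `l v > Q₁ l (e v)`: `ρv < 5 δ₁ ≤ 6.05 ρx Q₁^10` (`≤ r1`, composite). SECOND DESCENT from `(x, e v)`: `δ₀' = d x (e v)` is between `0.29 ρv` and `1.21 ρv`; `5 δ₀' N^20 ≤ 6.05 · 6.05 ρx N^20 N^20 ≤ 37 r1/100 ≤ r1`. DES: `(u, u')`, `δ`,
`Q = (l x/l u)(l v/l u')`, `δ ≤ 1.21 ρv Q^10`, `0.29 ρv ≤ δ`. `l v/l u' ≥ l v/l (e v) ≥ 100/51`, so `Q ≥ 3/2`, and `Q₁ < l v/l (e v) ≤ Q`. `clv`: `ρv ≥ δ/(1.21 Q^10)`, `l (e v) ≥ l u' ≥ l v/Q`. `clx`: `ρx ≥ ρv/(6.05 Q₁^10) ≥ ρv/(6.05 Q^10) ≥ δ/(7.4 Q^20)`, `l (e x) ≥ l u₁ ≥ l x/Q₁ ≥ l x/Q`.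
Chains: `V ≤ δ`, `V' ≤ 1.01 ρv + δ - δ₀' ≤ 5 δ`. -/
def Stmt_CHG : Prop :=
  ∀ (A : Type) [Fintype A] (S : Sys A), Ax S → ∀ x v : A, S.d x v ≤ S.rho x / 5 →
    S.rho x ≤ S.rho v → S.rho x < S.r1 * (S.c0 / S.n) ^ 40 / 100 → ∃ u u' : A, Chg S x v u u'

/-- (CNT) the number of pairs charged to `(u, u')` with a given ratio.

PROOF. `δ = d u u'`, `B = (3/2)^(k+1) ≥ Qr`. The set of the first components: `Pack` with `D = 5 δ`, `R = B l u` (`l x = (l x/l u) l u ≤ Qr l u`, `l v/l u' ≥ 1`), `h = δ l u/(8 B^21)` (`ρx l (e x) ≥ δ l x/(8 Qr^21)`, `l x ≥ l u`): at most `C (1 + 40 B^22)² ≤ C 41² B^44`. The set of the second components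
different from `u'`: the same with `l u'`; together with `u'` at most `1 + C 41² B^44 ≤ 2 C 41² B^44`. Product. -/
def Stmt_CNT : Prop :=
  ∀ (A : Type) [Fintype A] (S : Sys A) (C : ℝ), Ax S → 1 ≤ C → Pack S C →
    ∀ (u u' : A) (k : ℕ) (s : Finset (A × A)),
    (∀ z ∈ s, Chg S z.1 z.2 u u' ∧ Qr S z.1 z.2 u u' ≤ (3 / 2) ^ (k + 1)) →
    (s.card : ℝ) ≤ 2 * C ^ 2 * 41 ^ 4 * ((3 / 2 : ℝ) ^ (k + 1)) ^ 88

/-- (ABS) the number of elements.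

USES CHG, CNT (helper27). PROOF. `w x = (n/l x)^a`, `T = Σ w x w v` over the linked pairs. Linked pairs with both `ρ ≥ ρ₀`: at most `(N0 (n/c0)^a)²`. The others: by symmetry twice the sum over `ρ x ≤ ρ v`, `ρ x < ρ₀`, charged (CHG) to linked pairs: `w x w v = w u w u' Qr^(-a)`, summed over the levels `(3/2)^k ≤ Qr < (3/2)^(k+1)`, `k ≥ 1`, with CNT: at most
`T/4`. So `T ≤ 2 (N0 (n/c0)^a)²`, and `card A ≤ T` (`(x, x)` is linked, `w ≥ 1`). The exponent `a` is explicit and depends only on the packing constant `C` (for `C ≤ 10^4`: `a = 265`). -/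
def Stmt_ABS : Prop :=
  ∀ (C : ℝ) (a : ℕ), 1 ≤ C → 16 * C ^ 2 * 41 ^ 4 * (3 / 2 : ℝ) ^ 176 ≤ (3 / 2) ^ a →
    ∀ (A : Type) [Fintype A] (S : Sys A), Ax S → Pack S C → ∀ N0 : ℝ,
    (∀ s : Finset A, (∀ x ∈ s, S.r1 * (S.c0 / S.n) ^ 40 / 100 ≤ S.rho x) → (s.card : ℝ) ≤ N0) →
    (Fintype.card A : ℝ) ≤ 2 * (N0 * (S.n / S.c0) ^ a) ^ 2

end Pool.Agent.BGD
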