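import Pool.Agent.BGD.Abs

/-!
# Abstract discharging: every linked pair with a small angle is charged (helper26)
-/

set_option autoImplicit false

namespace Pool.Agent.BGD

namespace Chg

variable {A : Type} {S : Sys A}

theorem trans {x y z : A} {V W : ℝ} (h1 : Chain S x y V)
    (h2 : Chain S y z W) : Chain S x z (V + W) := by
  induction h2 with
  | refl => rwa [add_zero]
  | step _ hr hp ih =>
    rw [← add_assoc]
    exact Chain.step ih hr hp

theorem one {y p u : A} {V : ℝ} (hr : S.rho y < S.r1)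
    (hp : p = S.e y ∨ p = S.g y) (h : Chain S p u V) : Chain S y u (S.d p y + V) := by
  have h1 : Chain S y p (0 + S.d p y) := Chain.step (Chain.refl y) hr hp
  rw [zero_add] at h1
  exact trans h1 h

theorem lpos (hS : Ax S) (a : A) : 0 < S.l a := hS.c0pos.trans_le (hS.lc a)

theorem npos (hS : Ax S) (a : A) : 0 < S.n := (lpos hS a).trans_le (hS.ln a)

theorem one_le_N (hS : Ax S) (a : A) : 1 ≤ S.n / S.c0 := by
  rw [one_le_div hS.c0pos]
  exact (hS.lc a).trans (hS.ln a)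

theorem pow_bd (hS : Ax S) (a b : A) :
    ((S.l a * S.l b) / S.c0 ^ 2) ^ 10 ≤ (S.n / S.c0) ^ 20 := by
  have hc := hS.c0pos
  have ha := lpos hS a
  have hb := lpos hS b
  have hn := npos hS a
  have e1 : (S.n / S.c0) ^ 20 = ((S.n * S.n) / S.c0 ^ 2) ^ 10 := by
    rw [← sq, ← div_pow, ← pow_mul]
  rw [e1]
  apply pow_le_pow_left₀ (by positivity)
  apply div_le_div_of_nonneg_right _ (by positivity)
  exact mul_le_mul (hS.ln a) (hS.ln b) hb.le hn.le

theorem ratio_bd (hS : Ax S) (a b : A) : S.l a / S.l b ≤ S.n / S.c0 :=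
  div_le_div₀ (npos hS a).le (hS.ln a) hS.c0pos (hS.lc b)

theorem small (hS : Ax S) {x : A} (h : S.rho x < S.r1 * (S.c0 / S.n) ^ 40 / 100) :
    S.rho x * (S.n / S.c0) ^ 40 < S.r1 / 100 := by
  have hc := hS.c0pos
  have hn := npos hS x
  have h1 : (0 : ℝ) < (S.n / S.c0) ^ 40 := by positivity
  have h2 := mul_lt_mul_of_pos_right h h1
  have h3 : S.r1 * (S.c0 / S.n) ^ 40 / 100 * (S.n / S.c0) ^ 40 = S.r1 / 100 := by
    have : (S.c0 / S.n) ^ 40 * (S.n / S.c0) ^ 40 = 1 := by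
      rw [← mul_pow, div_mul_div_cancel₀ hn.ne', div_self hc.ne', one_pow]
    calc S.r1 * (S.c0 / S.n) ^ 40 / 100 * (S.n / S.c0) ^ 40
        = S.r1 * ((S.c0 / S.n) ^ 40 * (S.n / S.c0) ^ 40) / 100 := by ring
      _ = S.r1 / 100 := by rw [this, mul_one]
  rwa [h3] at h2

/-- `δ ≤ 1.21 ρ Q^10` from the bound of `DES`. -/
theorem up {δ δ₀ ρ q Q : ℝ} (hρ : 0 ≤ ρ) (hq : 0 ≤ q) (hqQ : q ≤ Q)
    (h1 : δ₀ ≤ 121 / 100 * ρ) (h : δ ≤ δ₀ * q ^ 10) :
    δ ≤ 121 / 100 * ρ * Q ^ 10 := by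
  have h2 : δ₀ * q ^ 10 ≤ 121 / 100 * ρ * q ^ 10 :=
    mul_le_mul_of_nonneg_right h1 (by positivity)
  have h3 : 121 / 100 * ρ * q ^ 10 ≤ 121 / 100 * ρ * Q ^ 10 := by
    apply mul_le_mul_of_nonneg_left _ (by positivity)
    exact pow_le_pow_left₀ hq hqQ 10
  linarith

/-- the closing bound -/
theorem clo {δ l e ρ Q c : ℝ} (hQ : 1 ≤ Q) (hρ : 0 ≤ ρ) (he : 0 ≤ e) (hl : 0 ≤ l) (hc : 0 ≤ c)
    (hc8 : c ≤ 8) (h1 : δ ≤ c * ρ * Q ^ 20) (h2 : l ≤ Q * e) :
    δ * l ≤ 8 * Q ^ 21 * (ρ * e) := by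
  have h3 : δ * l ≤ (c * ρ * Q ^ 20) * (Q * e) :=
    mul_le_mul h1 h2 hl (by positivity)
  have h4 : (c * ρ * Q ^ 20) * (Q * e) = c * (Q ^ 21 * (ρ * e)) := by ring
  have h5 : c * (Q ^ 21 * (ρ * e)) ≤ 8 * (Q ^ 21 * (ρ * e)) :=
    mul_le_mul_of_nonneg_right hc8 (by positivity)
  have h6 : 8 * (Q ^ 21 * (ρ * e)) = 8 * Q ^ 21 * (ρ * e) := by ring
  linarith

theorem pow_10_20 {Q : ℝ} (hQ : 1 ≤ Q) : Q ^ 10 ≤ Q ^ 20 :=
  pow_le_pow_right₀ hQ (by norm_num)

end Chg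

open Chg in
theorem m_CHG (hDES : Stmt_DES) : Stmt_CHG := by
  intro A _ S hS x v hxv hρ hρx
  have hc := hS.c0pos
  have pl : ∀ a : A, 0 < S.l a := lpos hS
  have hρx0 := hS.rpos x
  have hρv0 := hS.rpos v
  set N := S.n / S.c0 with hNdef
  have hN1 : 1 ≤ N := one_le_N hS x
  have hN0 : 0 < N := by linarith
  have hr1 := hS.r1pos
  have hsm : S.rho x * N ^ 40 < S.r1 / 100 := small hS hρx
  have hN40 : 1 ≤ N ^ 40 := one_le_pow₀ hN1
  have hN20 : N ^ 20 ≤ N ^ 40 := pow_le_pow_right₀ hN1 (by norm_num)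
  have hx100 : S.rho x < S.r1 := by
    have h1 : S.rho x ≤ S.rho x * N ^ 40 := le_mul_of_one_le_right hρx0.le hN40
    linarith
  -- first descent
  have a1 := hS.dlow x hx100
  have a2 := hS.dup x hx100
  have a3 := hS.dtri (S.e x) v x
  have a4 := hS.dtri (S.e x) x v
  have a5 := hS.dsymm v x
  set δ₀ := S.d (S.e x) v with hδ₀
  have b1 : 29 / 100 * S.rho x ≤ δ₀ := by linarith
  have b2 : δ₀ ≤ 121 / 100 * S.rho x := by linarith
  have b3 : 0 < δ₀ := by linarith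
  have b4 : 5 * δ₀ * ((S.l (S.e x) * S.l v) / S.c0 ^ 2) ^ 10 ≤ S.r1 := by
    have h1 := pow_bd hS (S.e x) v
    rw [← hNdef] at h1
    have h2 : 5 * δ₀ * ((S.l (S.e x) * S.l v) / S.c0 ^ 2) ^ 10 ≤
        (605 / 100 * S.rho x) * N ^ 40 := by
      have hex := pl (S.e x)
      have hv := pl v
      exact mul_le_mul (by linarith) (h1.trans hN20) (by positivity) (by positivity)
    have h3 : (605 / 100 * S.rho x) * N ^ 40 = 605 / 100 * (S.rho x * N ^ 40) := by ring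
    linarith
  obtain ⟨u₁, u₁', V₁, V₁', c1, c2, c3, c4, c5, c6, c7, c8, c9, c10, c11, c12⟩ :=
    hDES A S hS (S.e x) v b3 b4
  set δ₁ := S.d u₁ u₁' with hδ₁
  have hex : S.l (S.e x) ≤ 51 / 100 * S.l x := hS.le51 x hx100
  have hlx := pl x
  have hlv := pl v
  have hlex := pl (S.e x)
  have hlev := pl (S.e v)
  have hu₁ := pl u₁
  have hu₁' := pl u₁'
  have hexx : S.l (S.e x) ≤ S.l x := by linarith
  set Q₁ := (S.l x / S.l u₁) * (S.l v / S.l u₁') with hQ₁
  have r1 : 1 ≤ S.l v / S.l u₁' := by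
    rw [one_le_div hu₁']
    exact c10
  have r2 : (100 : ℝ) / 51 ≤ S.l x / S.l u₁ := by
    rw [le_div_iff₀ hu₁]
    linarith
  have r3 : S.l x / S.l u₁ ≤ Q₁ := le_mul_of_one_le_right (by positivity) r1
  have hQ32 : (3 : ℝ) / 2 ≤ Q₁ := by
    have : (3 : ℝ) / 2 ≤ 100 / 51 := by norm_num
    linarith
  have hQ1 : 1 ≤ Q₁ := by linarith
  have hQN : Q₁ ≤ N ^ 2 := by
    rw [sq]
    exact mul_le_mul (ratio_bd hS x u₁) (ratio_bd hS v u₁') (by positivity) hN0.le
  have hxQ : S.l x ≤ Q₁ * S.l (S.e x) := by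
    have h1 : S.l x ≤ Q₁ * S.l u₁ := (div_le_iff₀ hu₁).1 r3
    have h2 : Q₁ * S.l u₁ ≤ Q₁ * S.l (S.e x) := mul_le_mul_of_nonneg_left c9 (by linarith)
    linarith
  have hδ₁u : δ₁ ≤ 121 / 100 * S.rho x * Q₁ ^ 10 := by
    refine up hρx0.le (by positivity) ?_ b2 c8
    apply mul_le_mul_of_nonneg_right _ (by positivity)
    exact div_le_div_of_nonneg_right hexx hu₁.le
  have hδ₁l : δ₀ ≤ δ₁ := by linarith
  by_cases hcase : v = u₁' ∨ S.l v ≤ Q₁ * S.l (S.e v)
  · -- case 1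
    refine ⟨u₁, u₁', ?_⟩
    have hP := pow_10_20 hQ1
    have hδ20 : δ₁ ≤ 121 / 100 * S.rho x * Q₁ ^ 20 :=
      hδ₁u.trans (mul_le_mul_of_nonneg_left hP (by positivity))
    refine ⟨⟨S.d (S.e x) x + V₁, by linarith, one hx100 (Or.inl rfl) c1⟩,
      ⟨V₁', by linarith, c2⟩, by linarith, c11, c5, c6, hQ32, c9.trans hexx, c10, hx100, ?_, ?_⟩
    · exact clo hQ1 hρx0.le hlex.le hlx.le (by norm_num) (by norm_num) hδ20 hxQ
    · rcases hcase with h | h
      · exact Or.inl h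
      · rcases c12 with h' | h'
        · exact Or.inl h'
        · refine Or.inr ⟨by linarith, ?_⟩
          refine clo (c := 121 / 100) hQ1 hρv0.le hlev.le hlv.le (by norm_num) (by norm_num) ?_ h
          refine hδ20.trans ?_
          apply mul_le_mul_of_nonneg_right _ (by positivity)
          linarith
  · -- case 2
    push Not at hcase
    obtain ⟨hne, hgt⟩ := hcase
    have hρv5 : S.rho v < 5 * δ₁ := by
      rcases c12 with h | h
      · exact absurd h hne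
      · exact h
    have hv100 : S.rho v < S.r1 := by linarith
    have hρvx : S.rho v ≤ 605 / 100 * S.rho x * Q₁ ^ 10 := by
      have : 605 / 100 * S.rho x * Q₁ ^ 10 = 5 * (121 / 100 * S.rho x * Q₁ ^ 10) := by ring
      linarith
    have hQ20 : Q₁ ^ 10 ≤ N ^ 20 := by
      have h1 := pow_le_pow_left₀ (by linarith : (0 : ℝ) ≤ Q₁) hQN 10
      rwa [← pow_mul] at h1
    have hρvN : S.rho v ≤ 605 / 100 * S.rho x * N ^ 20 :=
      hρvx.trans (mul_le_mul_of_nonneg_left hQ20 (by positivity))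
    have d1 := hS.dlow v hv100
    have d2 := hS.dup v hv100
    have d3 := hS.dtri (S.e v) x v
    have d4 := hS.dtri x v (S.e v)
    have d5 := hS.dsymm v (S.e v)
    have d6 := hS.dsymm (S.e v) x
    set δ₀' := S.d x (S.e v) with hδ₀'
    have e1 : 29 / 100 * S.rho v ≤ δ₀' := by linarith
    have e2 : δ₀' ≤ 121 / 100 * S.rho v := by linarith
    have e3 : 0 < δ₀' := by linarith
    have e4 : 5 * δ₀' * ((S.l x * S.l (S.e v)) / S.c0 ^ 2) ^ 10 ≤ S.r1 := by
      have h1 := pow_bd hS x (S.e v)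
      rw [← hNdef] at h1
      have h2 : 5 * δ₀' * ((S.l x * S.l (S.e v)) / S.c0 ^ 2) ^ 10 ≤
          (5 * (121 / 100 * (605 / 100 * S.rho x * N ^ 20))) * N ^ 20 := by
        refine mul_le_mul ?_ h1 (by positivity) (by positivity)
        linarith
      have h3 : (5 * (121 / 100 * (605 / 100 * S.rho x * N ^ 20))) * N ^ 20 =
          (605 / 100) ^ 2 * (S.rho x * N ^ 40) := by ring
      have h4 : ((605 : ℝ) / 100) ^ 2 * (S.rho x * N ^ 40) ≤ (605 / 100) ^ 2 * (S.r1 / 100) :=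
        mul_le_mul_of_nonneg_left hsm.le (by positivity)
      linarith
    obtain ⟨u, u', V, V', f1, f2, f3, f4, f5, f6, f7, f8, f9, f10, f11, -⟩ :=
      hDES A S hS x (S.e v) e3 e4
    refine ⟨u, u', ?_⟩
    set δ := S.d u u' with hδ
    have hev : S.l (S.e v) ≤ 51 / 100 * S.l v := hS.le51 v hv100
    have hevv : S.l (S.e v) ≤ S.l v := by linarith
    have hu := pl u
    have hu' := pl u'
    set Q := (S.l x / S.l u) * (S.l v / S.l u') with hQ
    have s1 : 1 ≤ S.l x / S.l u := by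
      rw [one_le_div hu]
      exact f9
    have s2 : (100 : ℝ) / 51 ≤ S.l v / S.l u' := by
      rw [le_div_iff₀ hu']
      linarith
    have s3 : S.l v / S.l u' ≤ Q := le_mul_of_one_le_left (by positivity) s1
    have hQ32' : (3 : ℝ) / 2 ≤ Q := by
      have : (3 : ℝ) / 2 ≤ 100 / 51 := by norm_num
      linarith
    have hQ1' : 1 ≤ Q := by linarith
    have hvQ : S.l v ≤ Q * S.l (S.e v) := by
      have h1 : S.l v ≤ Q * S.l u' := (div_le_iff₀ hu').1 s3
      have h2 : Q * S.l u' ≤ Q * S.l (S.e v) := mul_le_mul_of_nonneg_left f10 (by linarith)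
      linarith
    have hQQ : Q₁ ≤ Q := by
      have h1 : Q₁ * S.l (S.e v) < Q * S.l (S.e v) := hgt.trans_le hvQ
      exact (lt_of_mul_lt_mul_right h1 hlev.le).le
    have hδu : δ ≤ 121 / 100 * S.rho v * Q ^ 10 := by
      refine up hρv0.le (by positivity) ?_ e2 f8
      apply mul_le_mul_of_nonneg_left _ (by positivity)
      exact div_le_div_of_nonneg_right hevv hu'.le
    have hP := pow_10_20 hQ1'
    have hδ20 : δ ≤ 121 / 100 * S.rho v * Q ^ 20 :=
      hδu.trans (mul_le_mul_of_nonneg_left hP (by positivity))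
    have hQp : Q₁ ^ 10 ≤ Q ^ 10 := pow_le_pow_left₀ (by linarith) hQQ 10
    have hδx : δ ≤ 7321 / 1000 * S.rho x * Q ^ 20 := by
      have h1 : 121 / 100 * S.rho v * Q ^ 10 ≤
          121 / 100 * (605 / 100 * S.rho x * Q ^ 10) * Q ^ 10 := by
        apply mul_le_mul_of_nonneg_right _ (by positivity)
        apply mul_le_mul_of_nonneg_left _ (by norm_num)
        exact hρvx.trans (mul_le_mul_of_nonneg_left hQp (by positivity))
      have h2 : 121 / 100 * (605 / 100 * S.rho x * Q ^ 10) * Q ^ 10 =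
          (73205 / 10000) * (S.rho x * Q ^ 20) := by ring
      have h3 : (7321 / 1000) * S.rho x * Q ^ 20 = (7321 / 1000) * (S.rho x * Q ^ 20) := by ring
      have h4 : 0 ≤ S.rho x * Q ^ 20 := by positivity
      rw [h3]
      linarith
    refine ⟨⟨V, by linarith, f1⟩, ⟨S.d (S.e v) v + V', by linarith, one hv100 (Or.inl rfl) f2⟩,
      by linarith, f11, f5, f6, hQ32', f9, f10.trans hevv, hx100, ?_, Or.inr ⟨hv100, ?_⟩⟩
    · refine clo hQ1' hρx0.le hlex.le hlx.le (by norm_num) (by norm_num) hδx ?_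
      exact hxQ.trans (mul_le_mul_of_nonneg_right hQQ hlex.le)
    · exact clo hQ1' hρv0.le hlev.le hlv.le (by norm_num) (by norm_num) hδ20 hvQ

end Pool.Agent.BGD
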