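import Pool.Agent.BGD.Abs

/-!
# BGD, module CNT: the number of pairs charged to a linked pair with a given ratio
-/

set_option autoImplicit false

namespace Pool.Agent.BGD

namespace Cnt

/-- One side: the elements which may be charged to `u`. -/
theorem side {A : Type} (S : Sys A) (C : ℝ) (hA : Ax S) (hC : 1 ≤ C) (hP : Pack S C) (u : A)
    (δ B : ℝ) (hδ : 0 < δ) (hδr : 5 * δ ≤ S.r1) (hB : 1 ≤ B) (s : Finset A)
    (hs : ∀ x ∈ s, (∃ V ≤ 5 * δ, Chain S x u V) ∧ S.l x ≤ B * S.l u ∧ S.l u ≤ S.l x ∧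
      S.rho x < S.r1 ∧ δ * S.l x ≤ 8 * B ^ 21 * (S.rho x * S.l (S.e x))) :
    (s.card : ℝ) ≤ C * 41 ^ 2 * B ^ 44 := by
  have hlu : 0 < S.l u := lt_of_lt_of_le hA.c0pos (hA.lc u)
  have hB0 : 0 < B := by linarith
  have hh : 0 < δ * S.l u / (8 * B ^ 21) := by positivity
  have h1 := hP u (5 * δ) (B * S.l u) (δ * S.l u / (8 * B ^ 21)) (by positivity) hδr
    (by positivity) hh s ?_
  · refine h1.trans ?_
    have h2 : 5 * δ * (B * S.l u) / (δ * S.l u / (8 * B ^ 21)) = 40 * B ^ 22 := by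
      field_simp
      ring
    rw [h2]
    have h3 : 1 ≤ B ^ 22 := one_le_pow₀ hB
    have h4 : 1 + 40 * B ^ 22 ≤ 41 * B ^ 22 := by linarith
    have h5 : (1 + 40 * B ^ 22) ^ 2 ≤ (41 * B ^ 22) ^ 2 :=
      pow_le_pow_left₀ (by positivity) h4 2
    calc C * (1 + 40 * B ^ 22) ^ 2 ≤ C * (41 * B ^ 22) ^ 2 :=
          mul_le_mul_of_nonneg_left h5 (by linarith)
      _ = C * 41 ^ 2 * B ^ 44 := by ring
  · intro x hx
    obtain ⟨hc, hl, hl', hr, hm⟩ := hs x hx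
    refine ⟨hc, hl, ?_, hr⟩
    rw [div_le_iff₀ (by positivity)]
    have h6 : δ * S.l u ≤ δ * S.l x := mul_le_mul_of_nonneg_left hl' hδ.le
    linarith

end Cnt

theorem m_CNT : Stmt_CNT := by
  intro A _ S C hA hC hP u u' k s hs
  classical
  set B : ℝ := (3 / 2 : ℝ) ^ (k + 1) with hBdef
  have hB1 : 1 ≤ B := one_le_pow₀ (by norm_num)
  have hB0 : 0 < B := by linarith
  rcases s.eq_empty_or_nonempty with rfl | ⟨z₀, hz₀⟩
  · simp only [Finset.card_empty, Nat.cast_zero]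
    positivity
  have hδ : 0 < S.d u u' := (hs z₀ hz₀).1.dpos
  have hδr : 5 * S.d u u' ≤ S.r1 := (hs z₀ hz₀).1.sm
  have hpos : ∀ x, 0 < S.l x := fun x => lt_of_lt_of_le hA.c0pos (hA.lc x)
  have hQ : ∀ z ∈ s, (S.l z.1 / S.l u ≤ B ∧ S.l z.2 / S.l u' ≤ B) ∧
      0 ≤ Qr S z.1 z.2 u u' ^ 21 ∧ Qr S z.1 z.2 u u' ^ 21 ≤ B ^ 21 := by
    intro z hz
    obtain ⟨hc, hq⟩ := hs z hz
    have h1 : 1 ≤ S.l z.1 / S.l u := (one_le_div (hpos u)).2 hc.lx
    have h2 : 1 ≤ S.l z.2 / S.l u' := (one_le_div (hpos u')).2 hc.lv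
    have hq' : S.l z.1 / S.l u * (S.l z.2 / S.l u') ≤ B := hq
    have hQ0 : 0 ≤ Qr S z.1 z.2 u u' := by
      have := hc.Q
      linarith
    refine ⟨⟨?_, ?_⟩, by positivity, pow_le_pow_left₀ hQ0 hq 21⟩
    · nlinarith
    · nlinarith
  have hfst : ((s.image Prod.fst).card : ℝ) ≤ C * 41 ^ 2 * B ^ 44 := by
    refine Cnt.side S C hA hC hP u (S.d u u') B hδ hδr hB1 _ ?_
    intro x hx
    obtain ⟨z, hz, rfl⟩ := Finset.mem_image.1 hx
    obtain ⟨hc, -⟩ := hs z hz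
    obtain ⟨⟨hq1, -⟩, hq0, hq21⟩ := hQ z hz
    refine ⟨hc.cx, (div_le_iff₀ (hpos u)).1 hq1, hc.lx, hc.rx, hc.clx.trans ?_⟩
    have h3 : 0 ≤ S.rho z.1 * S.l (S.e z.1) := mul_nonneg (hA.rpos _).le (hpos _).le
    exact mul_le_mul_of_nonneg_right (by linarith) h3
  have hsnd : (((s.image Prod.snd).erase u').card : ℝ) ≤ C * 41 ^ 2 * B ^ 44 := by
    refine Cnt.side S C hA hC hP u' (S.d u u') B hδ hδr hB1 _ ?_
    intro x hx
    obtain ⟨hne, hx⟩ := Finset.mem_erase.1 hx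
    obtain ⟨z, hz, rfl⟩ := Finset.mem_image.1 hx
    obtain ⟨hc, -⟩ := hs z hz
    obtain ⟨⟨-, hq2⟩, hq0, hq21⟩ := hQ z hz
    rcases hc.clv with h | ⟨hr, hm⟩
    · exact absurd h hne
    · refine ⟨hc.cv, (div_le_iff₀ (hpos u')).1 hq2, hc.lv, hr, hm.trans ?_⟩
      have h3 : 0 ≤ S.rho z.2 * S.l (S.e z.2) := mul_nonneg (hA.rpos _).le (hpos _).le
      exact mul_le_mul_of_nonneg_right (by linarith) h3
  have hsnd' : ((s.image Prod.snd).card : ℝ) ≤ 2 * (C * 41 ^ 2 * B ^ 44) := by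
    have h1 : (s.image Prod.snd).card ≤ ((s.image Prod.snd).erase u').card + 1 :=
      Nat.sub_le_iff_le_add.1 Finset.pred_card_le_card_erase
    have h2 : ((s.image Prod.snd).card : ℝ) ≤ (((s.image Prod.snd).erase u').card : ℝ) + 1 := by
      exact_mod_cast h1
    have h3 : 1 ≤ B ^ 44 := one_le_pow₀ hB1
    have h4 : 1 ≤ C * 41 ^ 2 * B ^ 44 := by nlinarith
    linarith
  have hsub : s ⊆ (s.image Prod.fst) ×ˢ (s.image Prod.snd) := by
    intro z hz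
    exact Finset.mem_product.2 ⟨Finset.mem_image_of_mem _ hz, Finset.mem_image_of_mem _ hz⟩
  have hcard : (s.card : ℝ) ≤ ((s.image Prod.fst).card : ℝ) * ((s.image Prod.snd).card : ℝ) := by
    have := Finset.card_le_card hsub
    rw [Finset.card_product] at this
    exact_mod_cast this
  calc (s.card : ℝ) ≤ ((s.image Prod.fst).card : ℝ) * ((s.image Prod.snd).card : ℝ) := hcard
    _ ≤ (C * 41 ^ 2 * B ^ 44) * (2 * (C * 41 ^ 2 * B ^ 44)) :=
        mul_le_mul hfst hsnd' (by positivity) (by positivity)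
    _ = 2 * C ^ 2 * 41 ^ 4 * B ^ 88 := by ring

end Pool.Agent.BGD
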