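import Pool.Agent.BGD.Abs

/-! # BGD: the energy sum (ABS), helper27 -/

set_option autoImplicit false

namespace Pool.Agent.BGD.Tot

open Finset

/-- the weight of an element -/
noncomputable def w {A : Type} (S : Sys A) (a : ℕ) (x : A) : ℝ := (S.n / S.l x) ^ a

/-- the weight of a pair -/
noncomputable def W {A : Type} (S : Sys A) (a : ℕ) (z : A × A) : ℝ := w S a z.1 * w S a z.2

theorem lpos {A : Type} {S : Sys A} (hA : Ax S) (x : A) : 0 < S.l x := lt_of_lt_of_le hA.c0pos (hA.lc x)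

theorem npos {A : Type} {S : Sys A} (hA : Ax S) (x : A) : 0 < S.n := lt_of_lt_of_le (lpos hA x) (hA.ln x)

theorem wpos {A : Type} {S : Sys A} (hA : Ax S) (a : ℕ) (x : A) : 0 < w S a x :=
  pow_pos (div_pos (npos hA x) (lpos hA x)) a

theorem Wpos {A : Type} {S : Sys A} (hA : Ax S) (a : ℕ) (z : A × A) : 0 < W S a z :=
  mul_pos (wpos hA a _) (wpos hA a _)

theorem w_one {A : Type} {S : Sys A} (hA : Ax S) (a : ℕ) (x : A) : 1 ≤ w S a x :=
  one_le_pow₀ ((one_le_div (lpos hA x)).2 (hA.ln x))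

theorem w_le {A : Type} {S : Sys A} (hA : Ax S) (a : ℕ) (x : A) : w S a x ≤ (S.n / S.c0) ^ a := by
  unfold w
  have h1 : S.n / S.l x ≤ S.n / S.c0 :=
    div_le_div_of_nonneg_left (npos hA x).le hA.c0pos (hA.lc x)
  exact pow_le_pow_left₀ (div_pos (npos hA x) (lpos hA x)).le h1 a

theorem Qrpos {A : Type} {S : Sys A} (hA : Ax S) (x v u u' : A) : 0 < Qr S x v u u' :=
  mul_pos (div_pos (lpos hA x) (lpos hA u)) (div_pos (lpos hA v) (lpos hA u'))

theorem W_ratio {A : Type} {S : Sys A} (hA : Ax S) (a : ℕ) (x v u u' : A) :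
    W S a (x, v) * Qr S x v u u' ^ a = W S a (u, u') := by
  have h1 := (lpos hA x).ne'
  have h2 := (lpos hA v).ne'
  have h3 := (lpos hA u).ne'
  have h4 := (lpos hA u').ne'
  unfold W w Qr
  rw [← mul_pow, ← mul_pow, ← mul_pow]
  congr 1
  field_simp

theorem geom (y : ℝ) (h0 : 0 ≤ y) (h1 : y ≤ 1 / 2) (M : ℕ) :
    ∑ k ∈ range M, y ^ (k + 1) ≤ 2 * y := by
  have h : ∀ M : ℕ, ∑ k ∈ range M, y ^ (k + 1) ≤ 2 * y * (1 - (1 / 2) ^ M) := by
    intro M
    induction M with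
    | zero => simp
    | succ m ih =>
      rw [sum_range_succ]
      have h2 : y ^ (m + 1) ≤ y * (1 / 2) ^ m := by
        rw [pow_succ']
        exact mul_le_mul_of_nonneg_left (pow_le_pow_left₀ h0 h1 m) h0
      calc _ ≤ 2 * y * (1 - (1 / 2) ^ m) + y * (1 / 2) ^ m := add_le_add ih h2
        _ = 2 * y * (1 - (1 / 2) ^ (m + 1)) := by ring
  refine (h M).trans ?_
  have h3 : (0:ℝ) ≤ (1 / 2) ^ M := by positivity
  nlinarith

/-- the elements charged to one pair -/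
theorem fib {A : Type} [Fintype A] {S : Sys A} (hA : Ax S) (hCNT : Stmt_CNT) (C : ℝ) (a : ℕ)
    (hC : 1 ≤ C) (ha : 16 * C ^ 2 * 41 ^ 4 * (3 / 2 : ℝ) ^ 176 ≤ (3 / 2) ^ a) (hP : Pack S C)
    (t : A × A) (F : Finset (A × A)) (hF : ∀ z ∈ F, Chg S z.1 z.2 t.1 t.2) :
    ∑ z ∈ F, W S a z ≤ W S a t / 4 := by
  classical
  have hex : ∀ z : A × A, ∃ k : ℕ, Chg S z.1 z.2 t.1 t.2 →
      (3 / 2 : ℝ) ^ (k + 1) ≤ Qr S z.1 z.2 t.1 t.2 ∧ Qr S z.1 z.2 t.1 t.2 < (3 / 2) ^ (k + 2) := by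
    intro z
    by_cases hz : Chg S z.1 z.2 t.1 t.2
    · obtain ⟨k, hk1, hk2⟩ := exists_nat_pow_near (x := Qr S z.1 z.2 t.1 t.2) (y := (3 / 2 : ℝ))
        (by have := hz.Q; linarith) (by norm_num)
      rcases k with _ | k
      · exfalso
        have := hz.Q
        norm_num at hk2
        linarith
      · exact ⟨k, fun _ => ⟨hk1, hk2⟩⟩
    · exact ⟨0, fun h => absurd h hz⟩
  choose kf hkf using hex
  set M := F.sup kf + 1 with hM
  have hmaps : ∀ z ∈ F, kf z ∈ range M := by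
    intro z hz
    rw [mem_range, hM]
    exact Nat.lt_succ_of_le (Finset.le_sup (f := kf) hz)
  rw [← sum_fiberwise_of_maps_to hmaps]
  set y : ℝ := (3 / 2) ^ 88 / (3 / 2) ^ a with hy
  have hap : (0:ℝ) < (3 / 2) ^ a := by positivity
  have hy0 : 0 ≤ y := by positivity
  have hC2 : 1 ≤ C ^ 2 := one_le_pow₀ hC
  have hyb : y ≤ 1 / 2 := by
    rw [hy, div_le_iff₀ hap]
    have h1 : (16:ℝ) * 1 * 41 ^ 4 * (3 / 2 : ℝ) ^ 176 ≤ 16 * C ^ 2 * 41 ^ 4 * (3 / 2 : ℝ) ^ 176 := by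
      gcongr
    have h2 : (2:ℝ) * (3 / 2) ^ 88 ≤ 16 * 1 * 41 ^ 4 * (3 / 2 : ℝ) ^ 176 := by norm_num
    linarith
  have hstep : ∀ k ∈ range M, ∑ z ∈ F with kf z = k, W S a z ≤
      2 * C ^ 2 * 41 ^ 4 * (3 / 2) ^ 88 * W S a t * y ^ (k + 1) := by
    intro k _
    have hcard := hCNT A S C hA hC hP t.1 t.2 (k + 1) (F.filter (fun z => kf z = k)) (by
      intro z hz
      rw [mem_filter] at hz
      refine ⟨hF z hz.1, ?_⟩
      have := (hkf z (hF z hz.1)).2
      rw [hz.2] at this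
      exact this.le)
    have hbd : ∀ z ∈ F.filter (fun z => kf z = k), W S a z ≤ W S a t / ((3 / 2) ^ a) ^ (k + 1) := by
      intro z hz
      rw [mem_filter] at hz
      have h1 := (hkf z (hF z hz.1)).1
      rw [hz.2] at h1
      rw [le_div_iff₀ (by positivity)]
      have h2 := W_ratio hA a z.1 z.2 t.1 t.2
      calc W S a z * ((3 / 2) ^ a) ^ (k + 1) = W S a z * ((3 / 2) ^ (k + 1)) ^ a := by
            rw [← pow_mul, ← pow_mul, mul_comm a]
        _ ≤ W S a z * Qr S z.1 z.2 t.1 t.2 ^ a :=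
            mul_le_mul_of_nonneg_left (pow_le_pow_left₀ (by positivity) h1 a) (Wpos hA a z).le
        _ = W S a t := h2
    calc ∑ z ∈ F with kf z = k, W S a z
        ≤ ∑ z ∈ F with kf z = k, W S a t / ((3 / 2) ^ a) ^ (k + 1) := sum_le_sum hbd
      _ = ((F.filter (fun z => kf z = k)).card : ℝ) * (W S a t / ((3 / 2) ^ a) ^ (k + 1)) := by
          rw [sum_const, nsmul_eq_mul]
      _ ≤ (2 * C ^ 2 * 41 ^ 4 * ((3 / 2 : ℝ) ^ (k + 1 + 1)) ^ 88) *
            (W S a t / ((3 / 2) ^ a) ^ (k + 1)) :=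
          mul_le_mul_of_nonneg_right hcard (div_nonneg (Wpos hA a t).le (by positivity))
      _ = 2 * C ^ 2 * 41 ^ 4 * (3 / 2) ^ 88 * W S a t * y ^ (k + 1) := by
          rw [hy, div_pow ((3 / 2 : ℝ) ^ 88)]
          have e1 : ((3 / 2 : ℝ) ^ (k + 1 + 1)) ^ 88 = (3 / 2) ^ 88 * ((3 / 2) ^ 88) ^ (k + 1) := by
            rw [← pow_mul, ← pow_mul, ← pow_add]
            congr 1
            ring
          rw [e1]
          ring
  refine (sum_le_sum hstep).trans ?_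
  rw [← mul_sum]
  have hW := Wpos hA a t
  calc _ ≤ 2 * C ^ 2 * 41 ^ 4 * (3 / 2) ^ 88 * W S a t * (2 * y) :=
        mul_le_mul_of_nonneg_left (geom y hy0 hyb M) (by positivity)
    _ = (16 * C ^ 2 * 41 ^ 4 * (3 / 2 : ℝ) ^ 176) / (3 / 2) ^ a * (W S a t / 4) := by
        rw [hy]
        ring
    _ ≤ 1 * (W S a t / 4) := by
        apply mul_le_mul_of_nonneg_right _ (by positivity)
        rw [div_le_one hap]
        exact ha
    _ = W S a t / 4 := one_mul _

end Pool.Agent.BGD.Tot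

namespace Pool.Agent.BGD

open Finset Tot

/-- ABS -/
theorem m_ABS (hCHG : Stmt_CHG) (hCNT : Stmt_CNT) : Stmt_ABS := by
  classical
  intro C a hC ha A _ S hA hP N0 hN0
  rcases isEmpty_or_nonempty A with hE | ⟨⟨x0⟩⟩
  · rw [Fintype.card_eq_zero]
    push_cast
    positivity
  have hnp := npos hA x0
  set r0 : ℝ := S.r1 * (S.c0 / S.n) ^ 40 / 100 with hr0
  set L : Finset (A × A) := univ.filter (fun z => S.d z.1 z.2 ≤ S.rho z.1 / 5 ∧
    S.d z.1 z.2 ≤ S.rho z.2 / 5) with hL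
  set T : ℝ := ∑ z ∈ L, W S a z with hT
  set L0 := L.filter (fun z => r0 ≤ S.rho z.1 ∧ r0 ≤ S.rho z.2) with hL0
  set L1 := L.filter (fun z => S.rho z.1 ≤ S.rho z.2 ∧ S.rho z.1 < r0) with hL1
  set L2 := L.filter (fun z => S.rho z.2 ≤ S.rho z.1 ∧ S.rho z.2 < r0) with hL2
  -- the charged part
  have h1 : ∑ z ∈ L1, W S a z ≤ T / 4 := by
    have hex : ∀ z : A × A, ∃ t : A × A, z ∈ L1 → Chg S z.1 z.2 t.1 t.2 := by
      intro z
      by_cases hz : z ∈ L1
      · have hz' := hz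
        rw [hL1, mem_filter, hL, mem_filter] at hz'
        obtain ⟨u, u', hc⟩ := hCHG A S hA z.1 z.2 hz'.1.2.1 hz'.2.1 hz'.2.2
        exact ⟨(u, u'), fun _ => hc⟩
      · exact ⟨z, fun h => absurd h hz⟩
    choose f hf using hex
    have hmaps : ∀ z ∈ L1, f z ∈ L := by
      intro z hz
      have hc := hf z hz
      rw [hL, mem_filter]
      exact ⟨mem_univ _, hc.lk, hc.lk'⟩
    rw [← sum_fiberwise_of_maps_to hmaps, hT, sum_div]
    apply sum_le_sum
    intro t _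
    apply fib hA hCNT C a hC ha hP t
    intro z hz
    rw [mem_filter] at hz
    have := hf z hz.1
    rw [hz.2] at this
    exact this
  have h2 : ∑ z ∈ L2, W S a z = ∑ z ∈ L1, W S a z := by
    apply sum_nbij' (fun z => (z.2, z.1)) (fun z => (z.2, z.1))
    · intro z hz
      rw [hL2, mem_filter, hL, mem_filter] at hz
      rw [hL1, mem_filter, hL, mem_filter]
      refine ⟨⟨mem_univ _, ?_, ?_⟩, hz.2⟩
      · rw [hA.dsymm]; exact hz.1.2.2
      · rw [hA.dsymm]; exact hz.1.2.1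
    · intro z hz
      rw [hL1, mem_filter, hL, mem_filter] at hz
      rw [hL2, mem_filter, hL, mem_filter]
      refine ⟨⟨mem_univ _, ?_, ?_⟩, hz.2⟩
      · rw [hA.dsymm]; exact hz.1.2.2
      · rw [hA.dsymm]; exact hz.1.2.1
    · intro z _; rfl
    · intro z _; rfl
    · intro z _
      unfold W
      ring
  -- the initial part
  have h0 : ∑ z ∈ L0, W S a z ≤ (N0 * (S.n / S.c0) ^ a) ^ 2 := by
    set G : Finset A := univ.filter (fun x => r0 ≤ S.rho x) with hG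
    have hsub : L0 ⊆ G ×ˢ G := by
      intro z hz
      rw [hL0, mem_filter] at hz
      rw [mem_product, hG, mem_filter, mem_filter]
      exact ⟨⟨mem_univ _, hz.2.1⟩, ⟨mem_univ _, hz.2.2⟩⟩
    have hs1 : ∑ z ∈ L0, W S a z ≤ ∑ z ∈ G ×ˢ G, W S a z :=
      sum_le_sum_of_subset_of_nonneg hsub (fun z _ _ => (Wpos hA a z).le)
    have hs2 : ∑ z ∈ G ×ˢ G, W S a z = (∑ x ∈ G, w S a x) ^ 2 := by
      rw [sum_product, sq, sum_mul_sum]
      rfl
    have hs3 : ∑ x ∈ G, w S a x ≤ N0 * (S.n / S.c0) ^ a := by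
      calc ∑ x ∈ G, w S a x ≤ ∑ x ∈ G, (S.n / S.c0) ^ a := sum_le_sum (fun x _ => w_le hA a x)
        _ = (G.card : ℝ) * (S.n / S.c0) ^ a := by rw [sum_const, nsmul_eq_mul]
        _ ≤ N0 * (S.n / S.c0) ^ a := by
            apply mul_le_mul_of_nonneg_right _ (pow_nonneg (div_pos hnp hA.c0pos).le a)
            apply hN0
            intro x hx
            rw [hG, mem_filter] at hx
            exact hx.2
    have hs4 : 0 ≤ ∑ x ∈ G, w S a x := sum_nonneg (fun x _ => (wpos hA a x).le)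
    rw [hs2] at hs1
    exact hs1.trans (pow_le_pow_left₀ hs4 hs3 2)
  have hcov : T ≤ ∑ z ∈ L0, W S a z + ∑ z ∈ L1, W S a z + ∑ z ∈ L2, W S a z := by
    have hsub : L ⊆ L0 ∪ L1 ∪ L2 := by
      intro z hz
      rw [mem_union, mem_union]
      rcases le_total (S.rho z.1) (S.rho z.2) with h | h
      · rcases le_or_gt r0 (S.rho z.1) with h' | h'
        · exact Or.inl (Or.inl (mem_filter.2 ⟨hz, h', h'.trans h⟩))
        · exact Or.inl (Or.inr (mem_filter.2 ⟨hz, h, h'⟩))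
      · rcases le_or_gt r0 (S.rho z.2) with h' | h'
        · exact Or.inl (Or.inl (mem_filter.2 ⟨hz, h'.trans h, h'⟩))
        · exact Or.inr (mem_filter.2 ⟨hz, h, h'⟩)
    have hu : ∀ s t : Finset (A × A), ∑ z ∈ s ∪ t, W S a z ≤ ∑ z ∈ s, W S a z + ∑ z ∈ t, W S a z := by
      intro s t
      rw [← sum_union_inter]
      have : 0 ≤ ∑ z ∈ s ∩ t, W S a z := sum_nonneg (fun z _ => (Wpos hA a z).le)
      linarith
    calc T ≤ ∑ z ∈ L0 ∪ L1 ∪ L2, W S a z :=
          sum_le_sum_of_subset_of_nonneg hsub (fun z _ _ => (Wpos hA a z).le)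
      _ ≤ ∑ z ∈ L0 ∪ L1, W S a z + ∑ z ∈ L2, W S a z := hu _ _
      _ ≤ _ := by have := hu L0 L1; linarith
  have hT2 : T ≤ 2 * (N0 * (S.n / S.c0) ^ a) ^ 2 := by
    rw [h2] at hcov
    linarith
  refine le_trans ?_ hT2
  -- the diagonal
  have hdiag : (univ.image (fun x : A => (x, x))) ⊆ L := by
    intro z hz
    rw [mem_image] at hz
    obtain ⟨x, _, rfl⟩ := hz
    rw [hL, mem_filter]
    have := hA.rpos x
    refine ⟨mem_univ _, ?_, ?_⟩
    · simp only [hA.dself]; positivity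
    · simp only [hA.dself]; positivity
  have hd1 : ∑ z ∈ univ.image (fun x : A => (x, x)), W S a z ≤ T :=
    sum_le_sum_of_subset_of_nonneg hdiag (fun z _ _ => (Wpos hA a z).le)
  rw [sum_image (by intro x _ y _ h; exact (Prod.ext_iff.1 h).1)] at hd1
  refine le_trans ?_ hd1
  calc (Fintype.card A : ℝ) = ∑ _x : A, (1:ℝ) := by simp
    _ ≤ ∑ x : A, W S a (x, x) := by
        apply sum_le_sum
        intro x _
        have := w_one hA a x
        show 1 ≤ w S a x * w S a x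
        nlinarith

end Pool.Agent.BGD
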