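import Pool.Agent.BGD.DES
import Pool.Agent.BGD.CHG
import Pool.Agent.BGD.CNT
import Pool.Agent.BGD.Total

/-! # BGD: the abstract discharging theorem, without hypotheses -/

set_option autoImplicit false

namespace Pool.Agent.BGD

/-- the abstract discharging theorem -/
theorem x_ABS : Stmt_ABS := m_ABS (m_CHG m_DES) m_CNT

end Pool.Agent.BGD
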