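import Pool.Agent.BGD.Rooms
import Pool.Agent.Lib_helper45.Bil.Words

/-!
# Arrangements of lines, sign cells, and the arrangement of a polygon (helper63)

Definitions and easy lemmas for the block STR (rooms from a polygon).
-/

set_option autoImplicit false

open Set Filter Topology
open scoped ComplexConjugate

namespace Pool.Agent.BGD.Str

open Pool.Agent.Billiard Pool.Agent.Lib_helper45.Bil

theorem cx_sub_right (p q r : ℂ) : cx p (q - r) = cx p q - cx p r := by
  simp only [cx, Complex.sub_re, Complex.sub_im]; ring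

theorem cx_add_right (p q r : ℂ) : cx p (q + r) = cx p q + cx p r := by
  simp only [cx, Complex.add_re, Complex.add_im]; ring

theorem cx_sub_left (p q r : ℂ) : cx (p - q) r = cx p r - cx q r := by
  simp only [cx, Complex.sub_re, Complex.sub_im]; ring

theorem cx_add_left (p q r : ℂ) : cx (p + q) r = cx p r + cx q r := by
  simp only [cx, Complex.add_re, Complex.add_im]; ring

theorem cx_rmul_right (p q : ℂ) (t : ℝ) : cx p ((t : ℂ) * q) = t * cx p q := by
  simp only [cx, Complex.re_ofReal_mul, Complex.im_ofReal_mul]; ring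

theorem cx_rmul_left (p q : ℂ) (t : ℝ) : cx ((t : ℂ) * p) q = t * cx p q := by
  simp only [cx, Complex.re_ofReal_mul, Complex.im_ofReal_mul]; ring

theorem cx_self (p : ℂ) : cx p p = 0 := by simp only [cx]; ring

theorem cx_comm (p q : ℂ) : cx p q = -cx q p := by simp only [cx]; ring

theorem cx_zero_right (p : ℂ) : cx p 0 = 0 := by simp [cx]

theorem continuous_cx (p : ℂ) : Continuous (cx p) := by
  unfold cx; fun_prop

/-- A finite family of lines, any two different ones have at most one common point. -/
structure Arr where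
  I : Type
  fI : Fintype I
  dI : DecidableEq I
  c : I → ℂ
  d : I → ℂ
  d_ne : ∀ i, d i ≠ 0
  sub : ∀ i j, i ≠ j → ∀ z w : ℂ, cx (d i) (z - c i) = 0 → cx (d j) (z - c j) = 0 →
    cx (d i) (w - c i) = 0 → cx (d j) (w - c j) = 0 → z = w

/-- the sign of a Boolean -/
def sn (b : Bool) : ℝ := if b then 1 else -1

theorem sn_true : sn true = 1 := rfl
theorem sn_false : sn false = -1 := rfl
theorem sn_not (b : Bool) : sn (!b) = -sn b := by cases b <;> simp [sn]
theorem sn_sq (b : Bool) : sn b * sn b = 1 := by cases b <;> simp [sn]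
theorem sn_ne (b : Bool) : sn b ≠ 0 := by cases b <;> simp [sn]

namespace Arr

variable (A : Arr)

instance : Fintype A.I := A.fI
instance : DecidableEq A.I := A.dI

/-- the signed height over line `i` (not normalised) -/
noncomputable def f (i : A.I) (z : ℂ) : ℝ := cx (A.d i) (z - A.c i)

/-- the open cell with the signs `σ` -/
def cell (σ : A.I → Bool) : Set ℂ := {z | ∀ i, 0 < sn (σ i) * A.f i z}

/-- the closed cell with the signs `σ` -/
def ccell (σ : A.I → Bool) : Set ℂ := {z | ∀ i, 0 ≤ sn (σ i) * A.f i z}

/-- the open face of the cell `σ` on line `i` (does not depend on `σ i`) -/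
def oface (σ : A.I → Bool) (i : A.I) : Set ℂ :=
  {z | A.f i z = 0 ∧ ∀ j, j ≠ i → 0 < sn (σ j) * A.f j z}

/-- the closed face of the cell `σ` on line `i` -/
def face (σ : A.I → Bool) (i : A.I) : Set ℂ := {z | A.f i z = 0 ∧ z ∈ A.ccell σ}

/-- change the sign of line `i` -/
def flip (σ : A.I → Bool) (i : A.I) : A.I → Bool := Function.update σ i (!σ i)

/-- `p.1`, `p.2` are the left and the right end point of the face on line `i`: the cell is on the
left of the directed segment from `p.2` to `p.1`. -/
def Ends (σ : A.I → Bool) (i : A.I) (p : ℂ × ℂ) : Prop :=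
  (∃ l : ℝ, 0 < l ∧ p.1 - p.2 = ((l * sn (σ i) : ℝ) : ℂ) * A.d i) ∧
    A.face σ i = segment ℝ p.2 p.1

/-- the crossing points -/
def X : Set ℂ := {z | ∃ i j, i ≠ j ∧ A.f i z = 0 ∧ A.f j z = 0}

/-- the line `z + τ u` does not meet a crossing point -/
def Gen (z u : ℂ) : Prop := ∀ τ : ℝ, z + τ * u ∉ A.X

variable {A}

theorem f_line (i : A.I) (z u : ℂ) (t : ℝ) :
    A.f i (z + t * u) = A.f i z + t * cx (A.d i) u := by
  unfold f
  rw [add_sub_right_comm, cx_add_right, cx_rmul_right]

theorem f_add (i : A.I) (z u : ℂ) : A.f i (z + u) = A.f i z + cx (A.d i) u := by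
  unfold f
  rw [add_sub_right_comm, cx_add_right]

theorem f_dir (i : A.I) (z : ℂ) (t : ℝ) : A.f i (z + t * A.d i) = A.f i z := by
  rw [f_line, cx_self]; ring

theorem f_comb (i : A.I) (z w : ℂ) (a b : ℝ) (hab : a + b = 1) :
    A.f i (a • z + b • w) = a * A.f i z + b * A.f i w := by
  have hb : b = 1 - a := by linarith
  subst hb
  unfold f
  have : a • z + (1 - a) • w - A.c i = (a : ℂ) * (z - A.c i) + ((1 - a : ℝ) : ℂ) * (w - A.c i) := by
    simp only [Complex.real_smul]; push_cast; ring
  rw [this, cx_add_right, cx_rmul_right, cx_rmul_right]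

theorem continuous_f (i : A.I) : Continuous (A.f i) := by
  unfold f
  exact (continuous_cx _).comp (continuous_id.sub continuous_const)

theorem isOpen_cell (σ : A.I → Bool) : IsOpen (A.cell σ) := by
  have : A.cell σ = ⋂ i, {z | 0 < sn (σ i) * A.f i z} := by
    ext z; simp [cell]
  rw [this]
  exact isOpen_iInter_of_finite fun i => isOpen_lt continuous_const (continuous_const.mul (continuous_f i))

theorem isClosed_ccell (σ : A.I → Bool) : IsClosed (A.ccell σ) := by
  have : A.ccell σ = ⋂ i, {z | 0 ≤ sn (σ i) * A.f i z} := by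
    ext z; simp [ccell]
  rw [this]
  exact isClosed_iInter fun i => isClosed_le continuous_const (continuous_const.mul (continuous_f i))

theorem cell_subset (σ : A.I → Bool) : A.cell σ ⊆ A.ccell σ := fun _ h i => (h i).le

theorem convex_cell (σ : A.I → Bool) : Convex ℝ (A.cell σ) := by
  intro z hz w hw a b ha hb hab i
  rw [f_comb i z w a b hab]
  have : sn (σ i) * (a * A.f i z + b * A.f i w) =
    a * (sn (σ i) * A.f i z) + b * (sn (σ i) * A.f i w) := by ring
  rw [this]
  rcases eq_or_lt_of_le ha with h | h
  · subst h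
    rw [zero_add] at hab
    subst hab
    have := hw i
    linarith
  · have := mul_pos h (hz i)
    have := mul_nonneg hb (hw i).le
    linarith

theorem convex_ccell (σ : A.I → Bool) : Convex ℝ (A.ccell σ) := by
  intro z hz w hw a b ha hb hab i
  rw [f_comb i z w a b hab]
  have : sn (σ i) * (a * A.f i z + b * A.f i w) =
    a * (sn (σ i) * A.f i z) + b * (sn (σ i) * A.f i w) := by ring
  rw [this]
  have := mul_nonneg ha (hz i)
  have := mul_nonneg hb (hw i)
  linarith

theorem flip_same (σ : A.I → Bool) (i : A.I) : A.flip σ i i = !σ i := by simp [flip]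

theorem flip_other (σ : A.I → Bool) {i j : A.I} (h : j ≠ i) : A.flip σ i j = σ j := by
  simp [flip, h]

theorem flip_flip (σ : A.I → Bool) (i : A.I) : A.flip (A.flip σ i) i = σ := by
  funext j
  by_cases h : j = i
  · subst h; simp [flip]
  · simp [flip, h]

theorem oface_flip (σ : A.I → Bool) (i : A.I) : A.oface (A.flip σ i) i = A.oface σ i := by
  ext z
  simp only [oface, Set.mem_setOf_eq]
  constructor
  · rintro ⟨h1, h2⟩
    refine ⟨h1, fun j hj => ?_⟩
    have := h2 j hj
    rwa [flip_other σ hj] at this
  · rintro ⟨h1, h2⟩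
    refine ⟨h1, fun j hj => ?_⟩
    rw [flip_other σ hj]
    exact h2 j hj

theorem oface_subset (σ : A.I → Bool) (i : A.I) : A.oface σ i ⊆ A.face σ i := by
  rintro z ⟨h1, h2⟩
  refine ⟨h1, fun j => ?_⟩
  by_cases h : j = i
  · subst h; rw [h1, mul_zero]
  · exact (h2 j h).le

theorem face_flip (σ : A.I → Bool) (i : A.I) : A.face (A.flip σ i) i = A.face σ i := by
  ext z
  simp only [face, ccell, Set.mem_setOf_eq]
  constructor
  · rintro ⟨h1, h2⟩
    refine ⟨h1, fun j => ?_⟩
    by_cases h : j = i
    · subst h; rw [h1, mul_zero]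
    · have := h2 j
      rwa [flip_other σ h] at this
  · rintro ⟨h1, h2⟩
    refine ⟨h1, fun j => ?_⟩
    by_cases h : j = i
    · subst h; rw [h1, mul_zero]
    · rw [flip_other σ h]
      exact h2 j

theorem convex_oface (σ : A.I → Bool) (i : A.I) : Convex ℝ (A.oface σ i) := by
  intro z hz w hw a b ha hb hab
  refine ⟨?_, fun j hj => ?_⟩
  · rw [f_comb i z w a b hab, hz.1, hw.1]; ring
  · rw [f_comb j z w a b hab]
    have : sn (σ j) * (a * A.f j z + b * A.f j w) =
      a * (sn (σ j) * A.f j z) + b * (sn (σ j) * A.f j w) := by ring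
    rw [this]
    rcases eq_or_lt_of_le ha with h | h
    · subst h
      rw [zero_add] at hab
      subst hab
      have := hw.2 j hj
      linarith
    · have := mul_pos h (hz.2 j hj)
      have := mul_nonneg hb (hw.2 j hj).le
      linarith

end Arr

/-! ### The arrangement of a polygon -/

/-- An arrangement adapted to the polygon `P`: every side lies on a line of the arrangement and
every vertex is a crossing point. -/
structure ArrP (P : Polygon) where
  A : Arr
  ι : ZMod P.k → A.I
  side_iff : ∀ a z, A.f (ι a) z = 0 ↔ H P a z = 0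
  vert : ∀ a, P.vertex a ∈ A.X

/-- a room: a nonempty cell inside the open polygon -/
def IsRoom {P : Polygon} (Q : ArrP P) (σ : Q.A.I → Bool) : Prop :=
  (Q.A.cell σ).Nonempty ∧ Q.A.cell σ ⊆ U P

/-- the reflection in side `a` as a motion -/
noncomputable def rM (P : Polygon) (a : ZMod P.k) : Mot where
  fl := true
  u := dir P a / conj (dir P a)
  t := P.vertex a - dir P a / conj (dir P a) * conj (P.vertex a)
  hu := by
    rw [norm_div, RCLike.norm_conj]
    exact div_self (norm_ne_zero_iff.2 (dir_ne a))

end Pool.Agent.BGD.Str
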