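import Pool.Agent.BGD.Rooms

/-!
# Descents: where a part of a part of `x` sits in the corridor of `x` (helper82)

`Desc c x u a V`: the diagonal `u` is obtained from `x` by taking parts, it starts after the doors `a`, all
splitting angles are less than `c`, and `V` is the sum of the angles between consecutive diagonals.
-/

set_option autoImplicit false

open InnerProductGeometry

namespace Pool.Agent.BGD

theorem cx_add_right (p q r : ℂ) : cx p (q + r) = cx p q + cx p r := by
  simp only [cx, Complex.add_re, Complex.add_im]; ring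

theorem cx_sub_right (p q r : ℂ) : cx p (q - r) = cx p q - cx p r := by
  simp only [cx, Complex.sub_re, Complex.sub_im]; ring

theorem dt_add_right (p q r : ℂ) : dt p (q + r) = dt p q + dt p r := by
  simp only [dt, Complex.add_re, Complex.add_im]; ring

theorem dt_sub_right (p q r : ℂ) : dt p (q - r) = dt p q - dt p r := by
  simp only [dt, Complex.sub_re, Complex.sub_im]; ring

theorem dt_comm (p q : ℂ) : dt p q = dt q p := by
  simp only [dt]; ring

theorem norm_sq_eq (p : ℂ) : ‖p‖ ^ 2 = p.re * p.re + p.im * p.im := by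
  rw [← Complex.normSq_eq_norm_sq, Complex.normSq_apply]

theorem dt_self (p : ℂ) : dt p p = ‖p‖ ^ 2 := by
  rw [norm_sq_eq]; rfl

theorem cx_self (p : ℂ) : cx p p = 0 := by
  simp only [cx]; ring

theorem cx_sq_add_dt_sq (p q : ℂ) : cx p q ^ 2 + dt p q ^ 2 = ‖p‖ ^ 2 * ‖q‖ ^ 2 := by
  rw [norm_sq_eq, norm_sq_eq]; simp only [cx, dt]; ring

theorem abs_cx_le (p q : ℂ) : |cx p q| ≤ ‖p‖ * ‖q‖ := by
  apply abs_le_of_sq_le_sq _ (by positivity)
  nlinarith [cx_sq_add_dt_sq p q, sq_nonneg (dt p q)]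

theorem abs_dt_le (p q : ℂ) : |dt p q| ≤ ‖p‖ * ‖q‖ := by
  apply abs_le_of_sq_le_sq _ (by positivity)
  nlinarith [cx_sq_add_dt_sq p q, sq_nonneg (cx p q)]

theorem inner_eq_dt (p q : ℂ) : inner ℝ p q = dt p q := by
  rw [Complex.inner, dt]; simp; ring

theorem abs_cx_eq (p q : ℂ) : |cx p q| = Real.sin (angle p q) * (‖p‖ * ‖q‖) := by
  have h0 : 0 ≤ Real.sin (angle p q) * (‖p‖ * ‖q‖) :=
    mul_nonneg (sin_angle_nonneg p q) (by positivity)
  have h1 := cos_angle_mul_norm_mul_norm p q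
  rw [inner_eq_dt] at h1
  have h2 := cx_sq_add_dt_sq p q
  have h3 := Real.sin_sq_add_cos_sq (angle p q)
  rw [← abs_of_nonneg h0]
  apply (sq_eq_sq_iff_abs_eq_abs _ _).1
  rw [← h1] at h2
  linear_combination h2 - (‖p‖ * ‖q‖) ^ 2 * h3

theorem abs_cx_le_angle (p q : ℂ) : |cx p q| ≤ ‖p‖ * ‖q‖ * angle p q := by
  rw [abs_cx_eq]
  have h := Real.sin_le (angle_nonneg p q)
  have h1 : 0 ≤ ‖p‖ * ‖q‖ := by positivity
  nlinarith

theorem dt_nonneg_of_angle {p q : ℂ} (h : angle p q ≤ 1) : 0 ≤ dt p q := by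
  have h1 := cos_angle_mul_norm_mul_norm p q
  rw [inner_eq_dt] at h1
  rw [← h1]
  have h2 : 0 ≤ Real.cos (angle p q) :=
    Real.cos_nonneg_of_mem_Icc ⟨by linarith [angle_nonneg p q, Real.pi_pos], by
      linarith [Real.pi_gt_three]⟩
  positivity

theorem angle_lin (m : Mot) (p q : ℂ) : angle (m.lin p) (m.lin q) = angle p q := by
  rw [angle, angle, inner_eq_dt, inner_eq_dt, m.dt_lin, m.norm_lin, m.norm_lin]

theorem angle_sum_left (p q : ℂ) (h : p + q ≠ 0) : angle (p + q) q ≤ angle p q := by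
  have h1 := angle_eq_angle_add_add_angle_add_of_mem_span (x := p) (y := p + q) (z := q) h
    (Submodule.add_mem _ (Submodule.subset_span (by simp)) (Submodule.subset_span (by simp)))
  linarith [angle_nonneg p (p + q)]

theorem angle_sum_right (p q : ℂ) (h : p + q ≠ 0) : angle (p + q) p ≤ angle p q := by
  have h1 := angle_eq_angle_add_add_angle_add_of_mem_span (x := p) (y := p + q) (z := q) h
    (Submodule.add_mem _ (Submodule.subset_span (by simp)) (Submodule.subset_span (by simp)))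
  rw [angle_comm]
  linarith [angle_nonneg (p + q) q]

/-- a part with an acute angle to the other part is shorter than the sum -/
theorem norm_le_of_acute {p q : ℂ} (h : 0 ≤ dt p q) : ‖p‖ ≤ ‖p + q‖ := by
  apply le_of_sq_le_sq _ (norm_nonneg _)
  rw [norm_sq_eq, norm_sq_eq]
  simp only [dt] at h
  simp only [Complex.add_re, Complex.add_im]
  nlinarith [mul_self_nonneg q.re, mul_self_nonneg q.im]

namespace Obj

variable {S : Rooms}

theorem ht_sub (x : Obj S) (p q : ℂ) : x.ht p - x.ht q = cx x.hol (p - q) / ‖x.hol‖ := by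
  rw [ht, ht, ← sub_div, ← cx_sub_right]
  congr 2
  ring

theorem tm_sub (x : Obj S) (p q : ℂ) : x.tm p - x.tm q = dt x.hol (p - q) / ‖x.hol‖ := by
  rw [tm, tm, ← sub_div, ← dt_sub_right]
  congr 2
  ring

theorem ht_A (x : Obj S) : x.ht x.A = 0 := by
  rw [ht, sub_self]; simp [cx]

theorem tm_A (x : Obj S) : x.tm x.A = 0 := by
  rw [tm, sub_self]; simp [dt]

theorem ht_Q (x : Obj S) : x.ht x.Q = 0 := by
  rw [ht]
  have : x.Q - x.A = x.hol := rfl
  rw [this, cx_self, zero_div]

theorem tm_Q (x : Obj S) (h : x.hol ≠ 0) : x.tm x.Q = ‖x.hol‖ := by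
  rw [tm]
  have : x.Q - x.A = x.hol := rfl
  have h1 : ‖x.hol‖ ≠ 0 := norm_ne_zero_iff.2 h
  rw [this, dt_self]
  field_simp

/-- the foot of `q` is inside the segment from `P0` to `P1` -/
theorem ht_foot (x : Obj S) (hx : x.hol ≠ 0) (P0 P1 q : ℂ) (m : ℝ) (hne : P1 - P0 ≠ 0)
    (h0 : 0 ≤ dt (P1 - P0) (q - P0)) (h1 : 0 ≤ dt (P1 - P0) (P1 - q))
    (hm0 : |x.ht P0| ≤ m) (hm1 : |x.ht P1| ≤ m) :
    |x.ht q| ≤ m + |cx (P1 - P0) (q - P0)| / ‖P1 - P0‖ := by
  set v := P1 - P0 with hv
  set w := q - P0 with hw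
  have hn : 0 < ‖v‖ := norm_pos_iff.2 hne
  have hn2 : 0 < ‖v‖ ^ 2 := by positivity
  have hxn : 0 < ‖x.hol‖ := norm_pos_iff.2 hx
  set t := dt v w / ‖v‖ ^ 2 with ht'
  set s := cx v w / ‖v‖ ^ 2 with hs'
  have ht0 : 0 ≤ t := div_nonneg h0 hn2.le
  have ht1 : t ≤ 1 := by
    rw [ht', div_le_one hn2]
    have e : P1 - q = v - w := by rw [hv, hw]; ring
    rw [e, dt_sub_right, dt_self] at h1
    linarith
  have hdec : w = (t : ℂ) * v + (s : ℂ) * (Complex.I * v) := by
    have e1 : ‖v‖ ^ 2 = v.re * v.re + v.im * v.im := norm_sq_eq v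
    apply Complex.ext
    · simp only [Complex.add_re, Complex.mul_re, Complex.mul_im, Complex.ofReal_re,
        Complex.ofReal_im, Complex.I_re, Complex.I_im, ht', hs']
      field_simp
      simp only [dt, cx, e1]
      ring
    · simp only [Complex.add_im, Complex.mul_re, Complex.mul_im, Complex.ofReal_re,
        Complex.ofReal_im, Complex.I_re, Complex.I_im, ht', hs']
      field_simp
      simp only [dt, cx, e1]
      ring
  have e1 : x.ht q - x.ht P0 = cx x.hol w / ‖x.hol‖ := x.ht_sub q P0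
  have e2 : x.ht P1 - x.ht P0 = cx x.hol v / ‖x.hol‖ := x.ht_sub P1 P0
  have e3 : cx x.hol w = t * cx x.hol v + s * cx x.hol (Complex.I * v) := by
    rw [hdec, cx_add_right]
    simp only [cx, Complex.mul_re, Complex.mul_im, Complex.ofReal_re, Complex.ofReal_im]
    ring
  have e4 : x.ht q = (1 - t) * x.ht P0 + t * x.ht P1 + s * (cx x.hol (Complex.I * v) / ‖x.hol‖) := by
    have : x.ht q = x.ht P0 + cx x.hol w / ‖x.hol‖ := by linarith
    rw [this, e3]
    have h5 : x.ht P1 = x.ht P0 + cx x.hol v / ‖x.hol‖ := by linarith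
    rw [h5]
    ring
  have h6 : |cx x.hol (Complex.I * v) / ‖x.hol‖| ≤ ‖v‖ := by
    rw [abs_div, abs_of_pos hxn, div_le_iff₀ hxn]
    have := abs_cx_le x.hol (Complex.I * v)
    rw [norm_mul, Complex.norm_I, one_mul] at this
    linarith
  have h7 : |s * (cx x.hol (Complex.I * v) / ‖x.hol‖)| ≤ |cx v w| / ‖v‖ := by
    rw [abs_mul, hs', abs_div, abs_of_pos hn2]
    calc |cx v w| / ‖v‖ ^ 2 * |cx x.hol (Complex.I * v) / ‖x.hol‖|
        ≤ |cx v w| / ‖v‖ ^ 2 * ‖v‖ := by
          apply mul_le_mul_of_nonneg_left h6 (by positivity)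
      _ = |cx v w| / ‖v‖ := by field_simp
  have h8 : |(1 - t) * x.ht P0 + t * x.ht P1| ≤ m := by
    have h9 := abs_le.1 hm0
    have h10 := abs_le.1 hm1
    rw [abs_le]
    constructor <;> nlinarith
  rw [e4]
  exact (abs_add_le _ _).trans (add_le_add h8 h7)

end Obj

variable {S : Rooms}

namespace Split

variable {x y z : Obj S} {q : ℂ} {a : List S.D}

theorem zQ (h : Split x q y z a) : (frame S a).ap z.Q = x.Q := by
  rw [Obj.Q, Obj.Q, ← Mot.ap_mul, ← frame_append, ← h.ax, h.zB]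

theorem yhol (h : Split x q y z a) : y.hol = q - x.A := by
  rw [Obj.hol, h.yQ, h.yA]

theorem zhol (h : Split x q y z a) : (frame S a).lin z.hol = x.Q - q := by
  rw [Obj.hol, ← Mot.ap_sub_ap, h.zQ, h.zA]

theorem hol_eq (h : Split x q y z a) : x.hol = y.hol + (frame S a).lin z.hol := by
  rw [h.yhol, h.zhol, Obj.hol]; ring

end Split

/-- `p` is a part of `y`, after the doors `a`, the splitting angle is less than `c` -/
inductive Part (c : ℝ) (y p : Obj S) (a : List S.D) : Prop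
  | left (q : ℂ) (z : Obj S) (a' : List S.D) : Split y q p z a' → a = [] →
      angle p.hol ((frame S a').lin z.hol) < c → Part c y p a
  | right (q : ℂ) (y' : Obj S) : Split y q y' p a →
      angle y'.hol ((frame S a).lin p.hol) < c → Part c y p a

/-- `u` is obtained from `x` by taking parts; it starts after the doors `a`, and `V` is the sum of the
angles between consecutive diagonals -/
inductive Desc (c : ℝ) (x : Obj S) : Obj S → List S.D → ℝ → Prop
  | refl : Desc c x x [] 0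
  | step {y p : Obj S} {a a' : List S.D} {V : ℝ} : Desc c x y a V → Part c y p a' →
      Desc c x p (a ++ a') (V + angle y.hol ((frame S a').lin p.hol))

/-- the facts about one step -/
theorem part_facts {c : ℝ} (hc : c ≤ 1) {y p : Obj S} {a : List S.D} (hy : y.hol ≠ 0)
    (h : Part c y p a) :
    p.GD ∧ p.r = endR S y.r a ∧ (∃ b, y.ds = a ++ p.ds ++ b) ∧ ‖p.hol‖ ≤ ‖y.hol‖ ∧
    angle y.hol ((frame S a).lin p.hol) ≤ c ∧
    (∀ X : Obj S, X.hol ≠ 0 → ∀ F : Mot, ∀ m : ℝ, |X.ht (F.ap y.A)| ≤ m → |X.ht (F.ap y.Q)| ≤ m →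
      |X.ht (F.ap ((frame S a).ap p.A))| ≤ m + ‖p.hol‖ * angle y.hol ((frame S a).lin p.hol) ∧
      |X.ht (F.ap ((frame S a).ap p.Q))| ≤ m + ‖p.hol‖ * angle y.hol ((frame S a).lin p.hol)) ∧
    (∀ X : Obj S, X.hol ≠ 0 → ∀ F : Mot, angle X.hol (F.lin y.hol) + c ≤ 1 →
      X.tm (F.ap y.A) ≤ X.tm (F.ap ((frame S a).ap p.A)) ∧
      X.tm (F.ap ((frame S a).ap p.A)) ≤ X.tm (F.ap ((frame S a).ap p.Q)) ∧
      X.tm (F.ap ((frame S a).ap p.Q)) ≤ X.tm (F.ap y.Q)) := by
  obtain ⟨q, z, a', hS, ha, hang⟩ | ⟨q, y', hS, hang⟩ := h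
  · -- left part
    subst ha
    have e0 := hS.hol_eq
    have hne : p.hol + (frame S a').lin z.hol ≠ 0 := by rw [← e0]; exact hy
    have hdt : 0 ≤ dt p.hol ((frame S a').lin z.hol) := dt_nonneg_of_angle (hang.le.trans hc)
    have hang1 := angle_sum_right _ _ hne
    have hang2 := angle_sum_left _ _ hne
    rw [← e0] at hang1 hang2
    have eQ : y.Q - y.A = y.hol := rfl
    have e1 : frame S ([] : List S.D) = 1 := rfl
    simp only [e1, Mot.ap_one, Mot.lin_one]
    refine ⟨hS.gy, by rw [hS.yr]; rfl, ?_, ?_, by linarith, ?_, ?_⟩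
    · obtain ⟨b, hb⟩ := hS.ya
      exact ⟨b ++ z.ds, by rw [hS.ax, ← hb]; simp⟩
    · rw [e0]; exact norm_le_of_acute hdt
    · intro X hX F m h1 h2
      have hcx : |cx y.hol p.hol| / ‖y.hol‖ ≤ ‖p.hol‖ * angle y.hol p.hol := by
        rw [div_le_iff₀ (norm_pos_iff.2 hy)]
        have := abs_cx_le_angle y.hol p.hol
        linarith
      have hnn : 0 ≤ ‖p.hol‖ * angle y.hol p.hol := mul_nonneg (norm_nonneg _) (angle_nonneg _ _)
      refine ⟨by rw [hS.yA]; linarith, ?_⟩
      rw [hS.yQ]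
      have f1 : F.ap y.Q - F.ap y.A = F.lin y.hol := by rw [Mot.ap_sub_ap]; rfl
      have f2 : F.ap q - F.ap y.A = F.lin p.hol := by rw [Mot.ap_sub_ap, hS.yhol]
      have f3 : F.ap y.Q - F.ap q = F.lin ((frame S a').lin z.hol) := by
        rw [Mot.ap_sub_ap, hS.zhol]
      have := X.ht_foot hX (F.ap y.A) (F.ap y.Q) (F.ap q) m
        (by rw [f1]; intro h; apply hy; rw [← norm_eq_zero, ← F.norm_lin, h, norm_zero])
        (by rw [f1, f2, F.dt_lin]; exact dt_nonneg_of_angle (by linarith))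
        (by rw [f1, f3, F.dt_lin]; exact dt_nonneg_of_angle (by linarith)) h1 h2
      rw [f1, f2, F.cx_lin, F.norm_lin, abs_mul] at this
      have hsg : |F.sg| = 1 := by
        rw [Mot.sg]; split <;> simp
      rw [hsg, one_mul] at this
      linarith
    · intro X hX F hF
      have hXn : 0 < ‖X.hol‖ := norm_pos_iff.2 hX
      have g1 : 0 ≤ dt X.hol (F.lin p.hol) := by
        apply dt_nonneg_of_angle
        have := angle_le_angle_add_angle X.hol (F.lin y.hol) (F.lin p.hol)
        rw [angle_lin] at this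
        linarith
      have g2 : 0 ≤ dt X.hol (F.lin ((frame S a').lin z.hol)) := by
        apply dt_nonneg_of_angle
        have := angle_le_angle_add_angle X.hol (F.lin y.hol) (F.lin ((frame S a').lin z.hol))
        rw [angle_lin] at this
        linarith
      have k1 := X.tm_sub (F.ap q) (F.ap y.A)
      have k2 := X.tm_sub (F.ap y.Q) (F.ap q)
      rw [Mot.ap_sub_ap, ← hS.yhol] at k1
      rw [Mot.ap_sub_ap, ← hS.zhol] at k2
      rw [hS.yA, hS.yQ]
      have k3 := div_nonneg g1 hXn.le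
      have k4 := div_nonneg g2 hXn.le
      refine ⟨le_refl _, by linarith, by linarith⟩
  · -- right part
    have e0 := hS.hol_eq
    have hne : y'.hol + (frame S a).lin p.hol ≠ 0 := by rw [← e0]; exact hy
    have hdt : 0 ≤ dt ((frame S a).lin p.hol) y'.hol := by
      rw [dt_comm]; exact dt_nonneg_of_angle (hang.le.trans hc)
    have hang1 := angle_sum_right _ _ hne
    have hang2 := angle_sum_left _ _ hne
    rw [← e0] at hang1 hang2
    refine ⟨hS.gz, hS.zr, ⟨[], by rw [hS.ax]; simp⟩, ?_, by linarith, ?_, ?_⟩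
    · rw [e0, add_comm, ← (frame S a).norm_lin p.hol]; exact norm_le_of_acute hdt
    · intro X hX F m h1 h2
      have hcx : |cx y.hol y'.hol| / ‖y.hol‖ ≤ ‖p.hol‖ * angle y.hol ((frame S a).lin p.hol) := by
        rw [div_le_iff₀ (norm_pos_iff.2 hy)]
        have h3 := abs_cx_le_angle y.hol ((frame S a).lin p.hol)
        rw [Mot.norm_lin] at h3
        have h4 : cx y.hol y'.hol = - cx y.hol ((frame S a).lin p.hol) := by
          have : y'.hol = y.hol - (frame S a).lin p.hol := by rw [e0]; ring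
          rw [this, cx_sub_right, cx_self]; ring
        rw [h4, abs_neg]
        linarith
      have hnn : 0 ≤ ‖p.hol‖ * angle y.hol ((frame S a).lin p.hol) :=
        mul_nonneg (norm_nonneg _) (angle_nonneg _ _)
      refine ⟨?_, by rw [hS.zQ]; linarith⟩
      rw [hS.zA]
      have f1 : F.ap y.Q - F.ap y.A = F.lin y.hol := by rw [Mot.ap_sub_ap]; rfl
      have f2 : F.ap q - F.ap y.A = F.lin y'.hol := by rw [Mot.ap_sub_ap, hS.yhol]
      have f3 : F.ap y.Q - F.ap q = F.lin ((frame S a).lin p.hol) := by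
        rw [Mot.ap_sub_ap, hS.zhol]
      have := X.ht_foot hX (F.ap y.A) (F.ap y.Q) (F.ap q) m
        (by rw [f1]; intro h; apply hy; rw [← norm_eq_zero, ← F.norm_lin, h, norm_zero])
        (by rw [f1, f2, F.dt_lin]; exact dt_nonneg_of_angle (by linarith))
        (by rw [f1, f3, F.dt_lin]; exact dt_nonneg_of_angle (by linarith)) h1 h2
      rw [f1, f2, F.cx_lin, F.norm_lin, abs_mul] at this
      have hsg : |F.sg| = 1 := by
        rw [Mot.sg]; split <;> simp
      rw [hsg, one_mul] at this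
      linarith
    · intro X hX F hF
      have hXn : 0 < ‖X.hol‖ := norm_pos_iff.2 hX
      have g1 : 0 ≤ dt X.hol (F.lin y'.hol) := by
        apply dt_nonneg_of_angle
        have := angle_le_angle_add_angle X.hol (F.lin y.hol) (F.lin y'.hol)
        rw [angle_lin] at this
        linarith
      have g2 : 0 ≤ dt X.hol (F.lin ((frame S a).lin p.hol)) := by
        apply dt_nonneg_of_angle
        have := angle_le_angle_add_angle X.hol (F.lin y.hol) (F.lin ((frame S a).lin p.hol))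
        rw [angle_lin] at this
        linarith
      have k1 := X.tm_sub (F.ap q) (F.ap y.A)
      have k2 := X.tm_sub (F.ap y.Q) (F.ap q)
      rw [Mot.ap_sub_ap, ← hS.yhol] at k1
      rw [Mot.ap_sub_ap, ← hS.zhol] at k2
      rw [hS.zA, hS.zQ]
      have k3 := div_nonneg g1 hXn.le
      have k4 := div_nonneg g2 hXn.le
      refine ⟨by linarith, by linarith, le_refl _⟩

/-- ATT: the place of `u` in the corridor of `x` -/
theorem att {c : ℝ} (hc : c ≤ 1) {x u : Obj S} {a : List S.D} {V : ℝ} (hx : x.GD)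
    (h : Desc c x u a V) :
    u.GD ∧ (∃ b, Att x u a b) ∧ 0 ≤ V ∧ ‖u.hol‖ ≤ ‖x.hol‖ ∧
    angle x.hol ((frame S a).lin u.hol) ≤ V ∧
    |x.ht ((frame S a).ap u.A)| ≤ V * ‖x.hol‖ ∧ |x.ht ((frame S a).ap u.Q)| ≤ V * ‖x.hol‖ ∧
    (V + c ≤ 1 → 0 ≤ x.tm ((frame S a).ap u.A) ∧
      x.tm ((frame S a).ap u.A) ≤ x.tm ((frame S a).ap u.Q) ∧
      x.tm ((frame S a).ap u.Q) ≤ ‖x.hol‖) := by
  induction h with
  | refl =>
    refine ⟨hx, ⟨[], ⟨by simp, rfl⟩⟩, le_refl _, le_refl _, ?_, ?_, ?_, ?_⟩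
    · have : frame S ([] : List S.D) = 1 := rfl
      rw [this, Mot.lin_one, angle_self hx.ne]
    · have : frame S ([] : List S.D) = 1 := rfl
      rw [this, Mot.ap_one, x.ht_A]; simp
    · have : frame S ([] : List S.D) = 1 := rfl
      rw [this, Mot.ap_one, x.ht_Q]; simp
    · intro _
      have : frame S ([] : List S.D) = 1 := rfl
      rw [this, Mot.ap_one, Mot.ap_one, x.tm_A, x.tm_Q hx.ne]
      exact ⟨le_refl _, norm_nonneg _, le_refl _⟩
  | @step y p a a' V hD hP ih =>
    obtain ⟨hy, ⟨b, hb⟩, hV, hn, hang, hA, hQ, htm⟩ := ih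
    obtain ⟨p1, p2, ⟨b', hb'⟩, p3, p4, p5, p6⟩ := part_facts hc hy.ne hP
    have hθ := angle_nonneg y.hol ((frame S a').lin p.hol)
    refine ⟨p1, ⟨b' ++ b, ⟨?_, ?_⟩⟩, by linarith, p3.trans hn, ?_, ?_, ?_, ?_⟩
    · rw [hb.ds, hb']; simp
    · rw [p2, hb.r, endR_append]
    · have h1 := angle_le_angle_add_angle x.hol ((frame S a).lin y.hol)
        ((frame S a).lin ((frame S a').lin p.hol))
      rw [angle_lin] at h1
      rw [frame_append, Mot.lin_mul]
      linarith
    · have h1 := (p5 x hx.ne (frame S a) _ hA hQ).1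
      rw [frame_append, Mot.ap_mul]
      have h2 : ‖p.hol‖ * angle y.hol ((frame S a').lin p.hol) ≤
          ‖x.hol‖ * angle y.hol ((frame S a').lin p.hol) :=
        mul_le_mul_of_nonneg_right (p3.trans hn) hθ
      linarith
    · have h1 := (p5 x hx.ne (frame S a) _ hA hQ).2
      rw [frame_append, Mot.ap_mul]
      have h2 : ‖p.hol‖ * angle y.hol ((frame S a').lin p.hol) ≤
          ‖x.hol‖ * angle y.hol ((frame S a').lin p.hol) :=
        mul_le_mul_of_nonneg_right (p3.trans hn) hθ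
      linarith
    · intro hVc
      obtain ⟨t1, t2, t3⟩ := htm (by linarith)
      obtain ⟨s1, s2, s3⟩ := p6 x hx.ne (frame S a) (by linarith)
      rw [frame_append, Mot.ap_mul, Mot.ap_mul]
      exact ⟨by linarith, s2, by linarith⟩

end Pool.Agent.BGD
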