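import Pool.Agent.BGD.StA
import Pool.Agent.BGD.Att

/-!
# The number of clear diagonals (helper19)

`m_CLR : Stmt_CLR`. The constant `kap` is not needed: two clear diagonals with the same start and close directions
have the same list of doors (`ds_eq`), and the end vertex is counted.

* `exit_unique`: a line leaves a room through at most one door.
* `Run_prefix`: of two lists of doors crossed by the same line one is an initial part of the other.
* `no_exit`: the line of a diagonal does not leave the last room through a door.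
* `Run_pert`: a line close to the line of a clear diagonal crosses the same doors.
-/

set_option autoImplicit false

open scoped ComplexConjugate

namespace Pool.Agent.BGD

variable {S : Rooms}

namespace Clr

theorem cx_add_left (p q r : ℂ) : cx (p + q) r = cx p r + cx q r := by
  simp only [cx, Complex.add_re, Complex.add_im]; ring

theorem cx_sub_left (p q r : ℂ) : cx (p - q) r = cx p r - cx q r := by
  simp only [cx, Complex.sub_re, Complex.sub_im]; ring

theorem cx_smul_right (p q : ℂ) (s : ℝ) : cx p ((s : ℂ) * q) = s * cx p q := by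
  simp only [cx, Complex.mul_re, Complex.mul_im, Complex.ofReal_re, Complex.ofReal_im]; ring

theorem cx_smul_left (p q : ℂ) (s : ℝ) : cx ((s : ℂ) * p) q = s * cx p q := by
  simp only [cx, Complex.mul_re, Complex.mul_im, Complex.ofReal_re, Complex.ofReal_im]; ring

theorem cx_swap (p q : ℂ) : cx q p = -cx p q := by
  simp only [cx]; ring

/-- parallel vectors -/
theorem par_of_cx {v w : ℂ} (hv : v ≠ 0) (h : cx v w = 0) : ∃ s : ℝ, w = (s : ℂ) * v := by
  have hn : ‖v‖ ^ 2 ≠ 0 := pow_ne_zero _ (norm_ne_zero_iff.2 hv)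
  refine ⟨dt v w / ‖v‖ ^ 2, ?_⟩
  have e1 := norm_sq_eq v
  simp only [cx] at h
  apply Complex.ext
  · rw [Complex.mul_re, Complex.ofReal_re, Complex.ofReal_im, zero_mul, sub_zero,
      div_mul_eq_mul_div, eq_div_iff hn, e1]
    simp only [dt]
    linear_combination (-v.im) * h
  · rw [Complex.mul_im, Complex.ofReal_re, Complex.ofReal_im, zero_mul, add_zero,
      div_mul_eq_mul_div, eq_div_iff hn, e1]
    simp only [dt]
    linear_combination v.re * h

/-- the crossing point of the line `(p, v)` with the segment from `b` to `a`, seen from a point `B`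
of the line -/
theorem cross_pt {v p a b B : ℂ} (hb : cx v (b - p) < 0) (ha : 0 < cx v (a - p))
    (hB : cx v (B - p) = 0) :
    ∃ t s : ℝ, 0 < t ∧ t < 1 ∧ b + (t : ℂ) * (a - b) - B = (s : ℂ) * v ∧
      cx (a - b) (B - b) = s * cx v (a - b) := by
  have hab : 0 < cx v (a - b) := by
    have : a - b = (a - p) - (b - p) := by ring
    rw [this, cx_sub_right]
    linarith
  have hv : v ≠ 0 := by
    rintro rfl
    simp [cx] at hab
  set t : ℝ := -cx v (b - p) / cx v (a - b) with ht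
  have ht0 : 0 < t := div_pos (by linarith) hab
  have ht1 : t < 1 := by
    rw [ht, div_lt_one hab]
    have : cx v (a - b) = cx v (a - p) - cx v (b - p) := by
      rw [← cx_sub_right]; congr 1; ring
    rw [this]
    linarith
  have h0 : cx v (b + (t : ℂ) * (a - b) - B) = 0 := by
    have e : b + (t : ℂ) * (a - b) - B = (b - p) + (t : ℂ) * (a - b) - (B - p) := by ring
    rw [e, cx_sub_right, cx_add_right, cx_smul_right, hB, ht, div_mul_cancel₀ _ hab.ne']
    ring
  obtain ⟨s, hs⟩ := par_of_cx hv h0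
  refine ⟨t, s, ht0, ht1, hs, ?_⟩
  have e : B - b = (t : ℂ) * (a - b) - (s : ℂ) * v := by
    rw [← hs]; ring
  rw [e, cx_sub_right, cx_smul_right, cx_smul_right, cx_self, cx_swap v (a - b)]
  ring

theorem cx_pos_ab {v p a b : ℂ} (hb : cx v (b - p) < 0) (ha : 0 < cx v (a - p)) :
    0 < cx v (a - b) := by
  have : a - b = (a - p) - (b - p) := by ring
  rw [this, cx_sub_right]
  linarith

theorem lineMap_mem_hull {s : Set ℂ} {a b : ℂ} (hb : b ∈ s) (ha : a ∈ s) {t : ℝ} (h0 : 0 ≤ t)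
    (h1 : t ≤ 1) : b + (t : ℂ) * (a - b) ∈ convexHull ℝ s := by
  have h2 := (convex_convexHull ℝ s) (subset_convexHull ℝ s hb) (subset_convexHull ℝ s ha)
    (sub_nonneg.2 h1) h0 (by ring)
  have e : b + (t : ℂ) * (a - b) = (1 - t) • b + t • a := by
    simp only [Complex.real_smul]
    push_cast
    ring
  rw [e]
  exact h2

/-- the side condition for all vertices -/
theorem side_nonneg (d : S.D) {p : ℂ} (hp : p ∈ S.V (S.src d)) :
    0 ≤ cx (S.pa d - S.pb d) (p - S.pb d) := by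
  by_cases h1 : p = S.pa d
  · rw [h1, cx_self]
  by_cases h2 : p = S.pb d
  · rw [h2, sub_self]; simp [cx]
  exact (S.side d p hp h1 h2).le

/-- a line leaves a room through at most one door -/
theorem exit_unique (d d' : S.D) (h : S.src d = S.src d') (p v : ℂ)
    (hb : cx v (S.pb d - p) < 0) (ha : 0 < cx v (S.pa d - p))
    (hb' : cx v (S.pb d' - p) < 0) (ha' : 0 < cx v (S.pa d' - p)) : d = d' := by
  obtain ⟨t', s₀, ht0', ht1', e1, -⟩ := cross_pt hb' ha' (B := p) (by rw [sub_self]; simp [cx])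
  set c' := S.pb d' + (t' : ℂ) * (S.pa d' - S.pb d') with hc'
  have h0 : cx v (c' - p) = 0 := by rw [e1, cx_smul_right, cx_self, mul_zero]
  obtain ⟨t, s, ht0, ht1, e2, e3⟩ := cross_pt hb ha (B := c') h0
  have hpos := cx_pos_ab hb ha
  have hpos' := cx_pos_ab hb' ha'
  -- `c'` in the half plane of `d`
  have hXb : 0 ≤ cx (S.pa d - S.pb d) (S.pb d' - S.pb d) :=
    side_nonneg d (by rw [h]; exact S.mem_b d')
  have hXa : 0 ≤ cx (S.pa d - S.pb d) (S.pa d' - S.pb d) :=
    side_nonneg d (by rw [h]; exact S.mem_a d')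
  have hX : cx (S.pa d - S.pb d) (c' - S.pb d) =
      (1 - t') * cx (S.pa d - S.pb d) (S.pb d' - S.pb d) +
        t' * cx (S.pa d - S.pb d) (S.pa d' - S.pb d) := by
    have : c' - S.pb d = (((1 - t' : ℝ)) : ℂ) * (S.pb d' - S.pb d) +
        (t' : ℂ) * (S.pa d' - S.pb d) := by
      rw [hc']; push_cast; ring
    rw [this, cx_add_right, cx_smul_right, cx_smul_right]
  have hs0 : 0 ≤ s := by
    by_contra hneg
    have h1 : s * cx v (S.pa d - S.pb d) < 0 := mul_neg_of_neg_of_pos (not_le.1 hneg) hpos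
    rw [← e3, hX] at h1
    have h2 := mul_nonneg (sub_nonneg.2 ht1'.le) hXb
    have h3 := mul_nonneg ht0'.le hXa
    linarith
  -- `c` in the half plane of `d'`
  set c := S.pb d + (t : ℂ) * (S.pa d - S.pb d) with hc
  have hYb : 0 ≤ cx (S.pa d' - S.pb d') (S.pb d - S.pb d') :=
    side_nonneg d' (by rw [← h]; exact S.mem_b d)
  have hYa : 0 ≤ cx (S.pa d' - S.pb d') (S.pa d - S.pb d') :=
    side_nonneg d' (by rw [← h]; exact S.mem_a d)
  have hY : cx (S.pa d' - S.pb d') (c - S.pb d') =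
      (1 - t) * cx (S.pa d' - S.pb d') (S.pb d - S.pb d') +
        t * cx (S.pa d' - S.pb d') (S.pa d - S.pb d') := by
    have : c - S.pb d' = (((1 - t : ℝ)) : ℂ) * (S.pb d - S.pb d') +
        (t : ℂ) * (S.pa d - S.pb d') := by
      rw [hc]; push_cast; ring
    rw [this, cx_add_right, cx_smul_right, cx_smul_right]
  have hY' : cx (S.pa d' - S.pb d') (c - S.pb d') = -(s * cx v (S.pa d' - S.pb d')) := by
    have : c - S.pb d' = (t' : ℂ) * (S.pa d' - S.pb d') + (s : ℂ) * v := by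
      rw [← e2, hc']; ring
    rw [this, cx_add_right, cx_smul_right, cx_smul_right, cx_self, cx_swap v]
    ring
  have hs1 : s ≤ 0 := by
    by_contra hneg
    have h1 : 0 < s * cx v (S.pa d' - S.pb d') := mul_pos (not_le.1 hneg) hpos'
    rw [hY] at hY'
    have h2 := mul_nonneg (sub_nonneg.2 ht1.le) hYb
    have h3 := mul_nonneg ht0.le hYa
    linarith
  have hs : s = 0 := le_antisymm hs1 hs0
  rw [hs, zero_mul, hX] at e3
  have h2 := mul_nonneg (sub_nonneg.2 ht1'.le) hXb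
  have h3 := mul_nonneg ht0'.le hXa
  have h4 : cx (S.pa d - S.pb d) (S.pb d' - S.pb d) = 0 := by
    have : (1 - t') * cx (S.pa d - S.pb d) (S.pb d' - S.pb d) = 0 := by linarith
    rcases mul_eq_zero.1 this with h5 | h5
    · linarith
    · exact h5
  have h5 : cx (S.pa d - S.pb d) (S.pa d' - S.pb d) = 0 := by
    have : t' * cx (S.pa d - S.pb d) (S.pa d' - S.pb d) = 0 := by linarith
    rcases mul_eq_zero.1 this with h6 | h6
    · linarith
    · exact h6
  have ea : S.pa d' = S.pa d := by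
    by_contra hne
    have h6 : S.pa d' ≠ S.pb d := by
      intro h7
      rw [h7] at ha'
      linarith
    have := S.side d _ (by rw [h]; exact S.mem_a d') hne h6
    linarith
  have eb : S.pb d' = S.pb d := by
    by_contra hne
    have h6 : S.pb d' ≠ S.pa d := by
      intro h7
      rw [h7] at hb'
      linarith
    have := S.side d _ (by rw [h]; exact S.mem_b d') h6 hne
    linarith
  exact S.inj d d' h ea.symm eb.symm

/-- of two lists of doors crossed by the same line one is an initial part of the other -/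
theorem Run_prefix (ds : List S.D) : ∀ (ds' : List S.D) (r : S.R) (p v : ℂ),
    Run S r p v ds → Run S r p v ds' → ds <+: ds' ∨ ds' <+: ds := by
  induction ds with
  | nil => intro ds' r p v _ _; exact Or.inl (List.nil_prefix)
  | cons d ds ih =>
    intro ds' r p v h h'
    cases ds' with
    | nil => exact Or.inr (List.nil_prefix)
    | cons d' ds' =>
      obtain ⟨h1, h2, h3, h4⟩ := h
      obtain ⟨h1', h2', h3', h4'⟩ := h'
      have e := exit_unique d d' (h1.trans h1'.symm) p v h2 h3 h2' h3'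
      subst e
      rcases ih ds' _ _ _ h4 h4' with h5 | h5
      · exact Or.inl ((List.prefix_cons_inj d).2 h5)
      · exact Or.inr ((List.prefix_cons_inj d).2 h5)

/-- a line which leaves a room through a door enters the next room through the inverse door -/
theorem enter_door (d : S.D) (p v : ℂ) (hb : cx v (S.pb d - p) < 0)
    (ha : 0 < cx v (S.pa d - p)) :
    cx ((S.M d)⁻¹.lin v) (S.pa (S.inv d) - (S.M d)⁻¹.ap p) < 0 ∧
      0 < cx ((S.M d)⁻¹.lin v) (S.pb (S.inv d) - (S.M d)⁻¹.ap p) := by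
  have e1 : S.pa (S.inv d) = (S.M d)⁻¹.ap (if (S.M d).fl then S.pa d else S.pb d) := by
    rw [← S.a_inv d, Mot.ap_inv_ap]
  have e2 : S.pb (S.inv d) = (S.M d)⁻¹.ap (if (S.M d).fl then S.pb d else S.pa d) := by
    rw [← S.b_inv d, Mot.ap_inv_ap]
  rw [e1, e2, Mot.ap_sub_ap, Mot.ap_sub_ap, Mot.cx_lin, Mot.cx_lin, Mot.sg_inv, Mot.sg]
  by_cases h : (S.M d).fl = true
  · simp only [h, if_true]
    constructor <;> linarith
  · simp only [h]
    constructor <;> simp <;> linarith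

/-- the end vertex in the last room, seen from the line -/
theorem B_sub (x : Obj S) : x.B - (frame S x.ds)⁻¹.ap x.A = (frame S x.ds)⁻¹.lin x.hol := by
  have h1 : x.B = (frame S x.ds)⁻¹.ap x.Q := by rw [Obj.Q, Mot.ap_inv_ap]
  rw [h1, Mot.ap_sub_ap, Obj.hol]

/-- the line of a diagonal enters the last room before the end vertex, at a point of the hull of the other
vertices -/
theorem entry_pt (x : Obj S) (hx : x.GD) :
    ∃ c ∈ convexHull ℝ ((S.V (endR S x.r x.ds) : Set ℂ) \ {x.B}), ∃ s : ℝ, s < 0 ∧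
      c - x.B = (s : ℂ) * (frame S x.ds)⁻¹.lin x.hol := by
  have hB := B_sub x
  rcases List.eq_nil_or_concat x.ds with h | ⟨l, e, h⟩
  · have hmem := hx.memA
    rw [h] at hB ⊢
    have e1 : (frame S ([] : List S.D))⁻¹ = 1 := by simp [frame]
    rw [e1, Mot.ap_one, Mot.lin_one] at hB
    rw [e1, Mot.lin_one]
    refine ⟨x.A, subset_convexHull ℝ _ ⟨hmem, ?_⟩, -1, by norm_num, ?_⟩
    · intro h2
      rw [Set.mem_singleton_iff] at h2
      apply hx.ne
      rw [← hB, h2, sub_self]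
    · rw [← hB]; push_cast; ring
  · have hrun := hx.run
    have hmemB := hx.memB
    rw [h] at hB hrun hmemB ⊢
    rw [List.concat_eq_append] at hB hrun hmemB ⊢
    rw [Run_append] at hrun
    obtain ⟨-, h1, h2, h3, -⟩ := hrun
    have e1 : (frame S (l ++ [e]))⁻¹ = (S.M e)⁻¹ * (frame S l)⁻¹ := by
      rw [frame_append]; simp [frame]
    have e2 : endR S x.r (l ++ [e]) = S.dst e := by
      rw [endR_append]; rfl
    rw [e1, Mot.ap_mul, Mot.lin_mul] at hB
    rw [e2] at hmemB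
    rw [e1, e2, Mot.lin_mul]
    set p := (frame S l)⁻¹.ap x.A with hp
    set v := (frame S l)⁻¹.lin x.hol with hv
    obtain ⟨h4, h5⟩ := enter_door e p v h2 h3
    set p' := (S.M e)⁻¹.ap p with hp'
    set v' := (S.M e)⁻¹.lin v with hv'
    have hline : cx v' (x.B - p') = 0 := by rw [hB, cx_self]
    obtain ⟨t, s, ht0, ht1, e3, e4⟩ := cross_pt h4 h5 hline
    have hna : x.B ≠ S.pa (S.inv e) := by
      intro h6; rw [← h6, hline] at h4; exact lt_irrefl _ h4
    have hnb : x.B ≠ S.pb (S.inv e) := by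
      intro h6; rw [← h6, hline] at h5; exact lt_irrefl _ h5
    have hsrc := S.src_inv e
    have hside := S.side (S.inv e) x.B (by rw [hsrc]; exact hmemB) hna hnb
    have hpos := cx_pos_ab h4 h5
    refine ⟨_, lineMap_mem_hull ?_ ?_ ht0.le ht1.le, s, ?_, e3⟩
    · exact ⟨by have := S.mem_a (S.inv e); rw [hsrc] at this; exact this,
        fun h6 => hna (Set.mem_singleton_iff.1 h6).symm⟩
    · exact ⟨by have := S.mem_b (S.inv e); rw [hsrc] at this; exact this,
        fun h6 => hnb (Set.mem_singleton_iff.1 h6).symm⟩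
    · have e5 : cx (S.pb (S.inv e) - S.pa (S.inv e)) (x.B - S.pa (S.inv e)) =
          -cx (S.pa (S.inv e) - S.pb (S.inv e)) (x.B - S.pb (S.inv e)) := by
        simp only [cx, Complex.sub_re, Complex.sub_im]; ring
      rw [e5] at e4
      by_contra hneg
      have := mul_nonneg (not_lt.1 hneg) hpos.le
      linarith

/-- the line of a diagonal does not leave the last room through a door -/
theorem no_exit (x : Obj S) (hx : x.GD) (d : S.D) (l : List S.D)
    (h : Run S x.r x.A x.hol (x.ds ++ d :: l)) : False := by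
  rw [Run_append] at h
  obtain ⟨-, h1, h2, h3, -⟩ := h
  obtain ⟨c, hc, s, hs, e1⟩ := entry_pt x hx
  have hB := B_sub x
  have hmemB := hx.memB
  set p := (frame S x.ds)⁻¹.ap x.A
  set v := (frame S x.ds)⁻¹.lin x.hol
  have hline : cx v (x.B - p) = 0 := by rw [hB, cx_self]
  obtain ⟨t, s', ht0, ht1, e3, e4⟩ := cross_pt h2 h3 hline
  have hna : x.B ≠ S.pa d := by
    intro h6; rw [← h6, hline] at h3; exact lt_irrefl _ h3
  have hnb : x.B ≠ S.pb d := by
    intro h6; rw [← h6, hline] at h2; exact lt_irrefl _ h2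
  have hside := S.side d x.B (by rw [h1]; exact hmemB) hna hnb
  have hpos := cx_pos_ab h2 h3
  have hs' : 0 < s' := by
    by_contra hneg
    have := mul_nonpos_of_nonpos_of_nonneg (not_lt.1 hneg) hpos.le
    linarith
  have hc' : S.pb d + (t : ℂ) * (S.pa d - S.pb d) ∈
      convexHull ℝ ((S.V (endR S x.r x.ds) : Set ℂ) \ {x.B}) := by
    refine lineMap_mem_hull ?_ ?_ ht0.le ht1.le
    · exact ⟨by have := S.mem_b d; rw [h1] at this; exact this,
        fun h6 => hnb (Set.mem_singleton_iff.1 h6).symm⟩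
    · exact ⟨by have := S.mem_a d; rw [h1] at this; exact this,
        fun h6 => hna (Set.mem_singleton_iff.1 h6).symm⟩
  refine S.extr _ x.B hmemB ?_
  have hd : 0 < s' - s := by linarith
  have h7 := (convex_convexHull ℝ _) hc hc' (a := s' / (s' - s)) (b := -s / (s' - s))
    (by positivity) (div_nonneg (by linarith) hd.le) (by field_simp; ring)
  have e5 : (s' / (s' - s)) • c + (-s / (s' - s)) • (S.pb d + (t : ℂ) * (S.pa d - S.pb d)) =
      x.B := by
    have hc1 : c = x.B + (s : ℂ) * v := by rw [← e1]; ring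
    have hc2 : S.pb d + (t : ℂ) * (S.pa d - S.pb d) = x.B + (s' : ℂ) * v := by rw [← e3]; ring
    have hdC : (s' : ℂ) - (s : ℂ) ≠ 0 := by
      rw [← Complex.ofReal_sub]
      exact Complex.ofReal_ne_zero.2 hd.ne'
    rw [hc1, hc2, Complex.real_smul, Complex.real_smul]
    push_cast
    field_simp
    ring
  rw [e5] at h7
  exact h7

/-- the end points of a list of doors -/
def endsL (S : Rooms) (ds : List S.D) : Set ℂ :=
  {q | ∃ i, ∃ h : i < ds.length,
    q = (frame S (ds.take i)).ap (S.pa ds[i]) ∨ q = (frame S (ds.take i)).ap (S.pb ds[i])}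

theorem endsL_ends (x : Obj S) : endsL S x.ds = x.ends := rfl

theorem endsL_head_a (d : S.D) (ds : List S.D) : S.pa d ∈ endsL S (d :: ds) :=
  ⟨0, by simp, Or.inl (by simp [frame, Mot.ap_one])⟩

theorem endsL_head_b (d : S.D) (ds : List S.D) : S.pb d ∈ endsL S (d :: ds) :=
  ⟨0, by simp, Or.inr (by simp [frame, Mot.ap_one])⟩

theorem endsL_tail (d : S.D) (ds : List S.D) (q : ℂ) (hq : q ∈ endsL S ds) :
    (S.M d).ap q ∈ endsL S (d :: ds) := by
  obtain ⟨i, hi, h⟩ := hq
  refine ⟨i + 1, by simpa using hi, ?_⟩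
  simp only [List.take_succ_cons, List.getElem_cons_succ, frame, Mot.ap_mul]
  rcases h with h | h
  · exact Or.inl (by rw [h])
  · exact Or.inr (by rw [h])

theorem endsL_cases (d : S.D) (ds : List S.D) (q : ℂ) (hq : q ∈ endsL S (d :: ds)) :
    q = S.pa d ∨ q = S.pb d ∨ ∃ q' ∈ endsL S ds, q = (S.M d).ap q' := by
  obtain ⟨i, hi, h⟩ := hq
  cases i with
  | zero =>
    simp only [List.take_zero, List.getElem_cons_zero, frame, Mot.ap_one] at h
    tauto
  | succ i =>
    simp only [List.take_succ_cons, List.getElem_cons_succ, frame, Mot.ap_mul] at h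
    have hi' : i < ds.length := by simpa using hi
    rcases h with h | h
    · exact Or.inr (Or.inr ⟨_, ⟨i, hi', Or.inl rfl⟩, h⟩)
    · exact Or.inr (Or.inr ⟨_, ⟨i, hi', Or.inr rfl⟩, h⟩)

/-- a small perturbation of a line crosses the same doors -/
theorem Run_pert (ds : List S.D) : ∀ (r : S.R) (p v v' : ℂ), Run S r p v ds →
    (∀ q ∈ endsL S ds, |cx (v' - v) (q - p)| < |cx v (q - p)|) → Run S r p v' ds := by
  induction ds with
  | nil => intro r p v v' _ _; exact trivial
  | cons d ds ih =>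
    intro r p v v' h hq
    obtain ⟨h1, h2, h3, h4⟩ := h
    refine ⟨h1, ?_, ?_, ?_⟩
    · have h5 := hq _ (endsL_head_b d ds)
      rw [abs_of_neg h2, cx_sub_left] at h5
      have := (abs_lt.1 h5).2
      linarith
    · have h5 := hq _ (endsL_head_a d ds)
      rw [abs_of_pos h3, cx_sub_left] at h5
      have := (abs_lt.1 h5).1
      linarith
    · refine ih _ _ _ _ h4 fun q hq' => ?_
      have h5 := hq _ (endsL_tail d ds q hq')
      have e1 : q - (S.M d)⁻¹.ap p = (S.M d)⁻¹.lin ((S.M d).ap q - p) := by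
        rw [← Mot.ap_sub_ap, Mot.ap_inv_ap]
      rw [e1, ← Mot.lin_sub, Mot.cx_lin, Mot.cx_lin, abs_mul, abs_mul]
      have hsg : |((S.M d)⁻¹).sg| = 1 := by
        rw [Mot.sg]; split <;> simp
      rw [hsg, one_mul, one_mul]
      exact h5

/-- scaling of the direction -/
theorem Run_smul (ds : List S.D) : ∀ (r : S.R) (p v : ℂ) (t : ℝ), 0 < t → Run S r p v ds →
    Run S r p ((t : ℂ) * v) ds := by
  induction ds with
  | nil => intro r p v t _ _; exact trivial
  | cons d ds ih =>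
    intro r p v t ht h
    obtain ⟨h1, h2, h3, h4⟩ := h
    refine ⟨h1, ?_, ?_, ?_⟩
    · rw [cx_smul_left]; exact mul_neg_of_pos_of_neg ht h2
    · rw [cx_smul_left]; exact mul_pos ht h3
    · rw [Mot.lin_smul]
      exact ih _ _ _ _ ht h4

/-- the end points of the crossed doors are not far -/
theorem endsL_bound (Dm : ℝ) (hD : ∀ r, ∀ p ∈ S.V r, ∀ q ∈ S.V r, ‖p - q‖ ≤ Dm)
    (ds : List S.D) : ∀ (r : S.R) (p v : ℂ), Run S r p v ds → ∀ A ∈ S.V r, ∀ q ∈ endsL S ds,
    ‖q - A‖ ≤ Dm * ds.length := by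
  induction ds with
  | nil =>
    intro r p v _ A _ q hq
    obtain ⟨i, hi, _⟩ := hq
    simp at hi
  | cons d ds ih =>
    intro r p v h A hA q hq
    obtain ⟨h1, h2, h3, h4⟩ := h
    have hDm : 0 ≤ Dm := (norm_nonneg _).trans (hD r A hA A hA)
    have hlen : ((d :: ds).length : ℝ) = ds.length + 1 := by simp
    rw [hlen]
    have hnn : 0 ≤ Dm * ds.length := by positivity
    have ha : ‖S.pa d - A‖ ≤ Dm := hD r _ (by rw [← h1]; exact S.mem_a d) _ hA
    have hb : ‖S.pb d - A‖ ≤ Dm := hD r _ (by rw [← h1]; exact S.mem_b d) _ hA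
    rcases endsL_cases d ds q hq with h5 | h5 | ⟨q', hq', h5⟩
    · rw [h5]; linarith
    · rw [h5]; linarith
    · have h6 := ih _ _ _ h4 (S.pa (S.inv d))
        (by have := S.mem_a (S.inv d); rw [S.src_inv] at this; exact this) q' hq'
      have h7 : ‖(S.M d).ap (S.pa (S.inv d)) - A‖ ≤ Dm := by
        rw [S.a_inv]
        split
        · exact ha
        · exact hb
      have h8 : q - A = (S.M d).lin (q' - S.pa (S.inv d)) +
          ((S.M d).ap (S.pa (S.inv d)) - A) := by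
        rw [← Mot.ap_sub_ap, h5]; ring
      rw [h8]
      refine (norm_add_le _ _).trans ?_
      rw [Mot.norm_lin]
      linarith

/-- the direction of a diagonal -/
noncomputable def dir (x : Obj S) : ℂ := (((1 / ‖x.hol‖ : ℝ)) : ℂ) * x.hol

theorem norm_dir (x : Obj S) (hx : x.hol ≠ 0) : ‖dir x‖ = 1 := by
  have h : 0 < ‖x.hol‖ := norm_pos_iff.2 hx
  rw [dir, norm_mul, Complex.norm_real, Real.norm_of_nonneg (by positivity)]
  field_simp

theorem ht_dir (x : Obj S) (q : ℂ) : x.ht q = cx (dir x) (q - x.A) := by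
  rw [dir, cx_smul_left, Obj.ht]; ring

/-- clear diagonals with the same start and close directions: one direction -/
theorem ds_prefix (Dm : ℝ) (hD : ∀ r, ∀ p ∈ S.V r, ∀ q ∈ S.V r, ‖p - q‖ ≤ Dm) (N : ℕ) (h : ℝ)
    (x x' : Obj S) (hx : x.GD) (hx' : x'.GD) (hr : x.r = x'.r) (hA : x.A = x'.A)
    (hl : x.ds.length ≤ N) (hc : x.Clear h) (hu : ‖dir x' - dir x‖ * (Dm * N) < h) :
    x.ds <+: x'.ds := by
  have hxn : 0 < ‖x.hol‖ := norm_pos_iff.2 hx.ne
  have hxn' : 0 < ‖x'.hol‖ := norm_pos_iff.2 hx'.ne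
  have hDm : 0 ≤ Dm := (norm_nonneg _).trans (hD x.r x.A hx.memA x.A hx.memA)
  have h1 : Run S x.r x.A (dir x) x.ds := Run_smul _ _ _ _ _ (by positivity) hx.run
  have h2 : Run S x'.r x'.A (dir x') x'.ds := Run_smul _ _ _ _ _ (by positivity) hx'.run
  have h3 : Run S x.r x.A (dir x') x.ds := by
    refine Run_pert _ _ _ _ _ h1 fun q hq => ?_
    rw [← ht_dir]
    refine lt_of_lt_of_le ?_ (hc q hq)
    refine lt_of_le_of_lt (abs_cx_le _ _) (lt_of_le_of_lt ?_ hu)
    refine mul_le_mul_of_nonneg_left ?_ (norm_nonneg _)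
    refine (endsL_bound Dm hD x.ds _ _ _ hx.run x.A hx.memA q hq).trans ?_
    exact mul_le_mul_of_nonneg_left (by exact_mod_cast hl) hDm
  rw [hr, hA] at h3
  rcases Run_prefix _ _ _ _ _ h3 h2 with h4 | h4
  · exact h4
  · obtain ⟨l, h5⟩ := h4
    cases l with
    | nil => rw [← h5, List.append_nil]
    | cons d l =>
      exfalso
      rw [← h5] at h3
      refine no_exit x' hx' d l ?_
      have h6 := Run_smul _ _ _ _ ‖x'.hol‖ hxn' h3
      have e : ((‖x'.hol‖ : ℝ) : ℂ) * dir x' = x'.hol := by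
        rw [dir, ← mul_assoc, ← Complex.ofReal_mul, mul_one_div_cancel hxn'.ne',
          Complex.ofReal_one, one_mul]
      rw [e] at h6
      exact h6

/-- clear diagonals with the same start and close directions have the same list of doors -/
theorem ds_eq (Dm : ℝ) (hD : ∀ r, ∀ p ∈ S.V r, ∀ q ∈ S.V r, ‖p - q‖ ≤ Dm) (N : ℕ) (h : ℝ)
    (x x' : Obj S) (hx : x.GD) (hx' : x'.GD) (hr : x.r = x'.r) (hA : x.A = x'.A)
    (hl : x.ds.length ≤ N) (hl' : x'.ds.length ≤ N) (hc : x.Clear h) (hc' : x'.Clear h)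
    (hu : ‖dir x' - dir x‖ * (Dm * N) < h) : x.ds = x'.ds := by
  have h1 := ds_prefix Dm hD N h x x' hx hx' hr hA hl hc hu
  have h2 := ds_prefix Dm hD N h x' x hx' hx hr.symm hA.symm hl' hc' (by rwa [norm_sub_rev])
  exact h1.eq_of_length (le_antisymm h1.length_le h2.length_le)

/-- distances of the vertices of a room -/
theorem exists_Dm (S : Rooms) : ∃ Dm : ℝ, 1 ≤ Dm ∧
    ∀ r, ∀ p ∈ S.V r, ∀ q ∈ S.V r, ‖p - q‖ ≤ Dm := by
  classical
  have := S.fR
  refine ⟨1 + ∑ r : S.R, ∑ p ∈ S.V r, ∑ q ∈ S.V r, ‖p - q‖, ?_, ?_⟩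
  · have : 0 ≤ ∑ r : S.R, ∑ p ∈ S.V r, ∑ q ∈ S.V r, ‖p - q‖ := by positivity
    linarith
  · intro r p hp q hq
    have h1 : ‖p - q‖ ≤ ∑ q ∈ S.V r, ‖p - q‖ :=
      Finset.single_le_sum (f := fun q => ‖p - q‖) (fun _ _ => norm_nonneg _) hq
    have h2 : ∑ q ∈ S.V r, ‖p - q‖ ≤ ∑ p ∈ S.V r, ∑ q ∈ S.V r, ‖p - q‖ :=
      Finset.single_le_sum (f := fun p => ∑ q ∈ S.V r, ‖p - q‖)
        (fun _ _ => Finset.sum_nonneg fun _ _ => norm_nonneg _) hp
    have h3 : ∑ p ∈ S.V r, ∑ q ∈ S.V r, ‖p - q‖ ≤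
        ∑ r : S.R, ∑ p ∈ S.V r, ∑ q ∈ S.V r, ‖p - q‖ :=
      Finset.single_le_sum (f := fun r => ∑ p ∈ S.V r, ∑ q ∈ S.V r, ‖p - q‖)
        (fun _ _ => Finset.sum_nonneg fun _ _ => Finset.sum_nonneg fun _ _ => norm_nonneg _)
        (Finset.mem_univ r)
    linarith

/-- the number of the cells -/
theorem card_cells (δ : ℝ) (hδ : 0 < δ) (hδ1 : 1 ≤ 1 / δ) :
    ((Finset.Icc (-⌈1 / δ⌉) ⌈1 / δ⌉).card : ℝ) ≤ 5 / δ := by
  have h0 : 0 ≤ ⌈1 / δ⌉ := Int.ceil_nonneg (by positivity)
  rw [Int.card_Icc]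
  have h1 : (((⌈1 / δ⌉ + 1 - -⌈1 / δ⌉).toNat : ℕ) : ℝ) = 2 * (⌈1 / δ⌉ : ℝ) + 1 := by
    have : ((⌈1 / δ⌉ + 1 - -⌈1 / δ⌉).toNat : ℤ) = 2 * ⌈1 / δ⌉ + 1 := by
      rw [Int.toNat_of_nonneg (by omega)]; ring
    exact_mod_cast this
  rw [h1]
  have h2 := Int.ceil_lt_add_one (1 / δ)
  have h3 : 5 / δ = 5 * (1 / δ) := by ring
  rw [h3]
  linarith

theorem floor_mem (δ t : ℝ) (hδ : 0 < δ) (ht : |t| ≤ 1) :
    ⌊t / δ⌋ ∈ Finset.Icc (-⌈1 / δ⌉) ⌈1 / δ⌉ := by
  have h1 := abs_le.1 ht
  have h2 : t / δ ≤ 1 / δ := div_le_div_of_nonneg_right h1.2 hδ.le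
  have h3 : -(1 / δ) ≤ t / δ := by
    rw [← neg_div]
    exact div_le_div_of_nonneg_right h1.1 hδ.le
  have h4 := Int.le_ceil (1 / δ)
  rw [Finset.mem_Icc]
  constructor
  · rw [Int.le_floor]
    push_cast
    linarith
  · have h5 := Int.floor_le (t / δ)
    have h6 : ((⌊t / δ⌋ : ℤ) : ℝ) ≤ ((⌈1 / δ⌉ : ℤ) : ℝ) := by linarith
    exact_mod_cast h6

theorem abs_sub_lt_of_floor (δ t t' : ℝ) (hδ : 0 < δ) (h : ⌊t / δ⌋ = ⌊t' / δ⌋) :
    |t' - t| < δ := by
  have h1 := Int.abs_sub_lt_one_of_floor_eq_floor h.symm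
  rw [← sub_div, abs_div, abs_of_pos hδ, div_lt_one hδ] at h1
  exact h1

end Clr

open Clr in
theorem m_CLR : Stmt_CLR := by
  classical
  intro S
  have := S.fR
  obtain ⟨Dm, hD1, hD⟩ := exists_Dm S
  set VA : Finset ℂ := (Finset.univ : Finset S.R).biUnion S.V with hVA
  have hmemVA : ∀ r, ∀ p ∈ S.V r, p ∈ VA := fun r p hp =>
    Finset.mem_biUnion.2 ⟨r, Finset.mem_univ _, hp⟩
  refine ⟨(Fintype.card S.R : ℝ) * (VA.card : ℝ) ^ 2 * (10 * Dm) ^ 2 + 1, by positivity, ?_⟩
  intro N h hh hh1 s hs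
  set δ : ℝ := h / (2 * Dm * (N + 1)) with hδdef
  have hDpos : 0 < Dm := by linarith
  have hN0 : (0 : ℝ) ≤ N := Nat.cast_nonneg N
  have hδ : 0 < δ := by positivity
  have hinv : 1 / δ = 2 * Dm * ((N + 1) / h) := by
    rw [hδdef]; field_simp
  have hNh : 1 ≤ ((N : ℝ) + 1) / h := by
    rw [le_div_iff₀ hh]; linarith
  have hδ1 : 1 ≤ 1 / δ := by
    rw [hinv]; nlinarith
  set I := Finset.Icc (-⌈1 / δ⌉) ⌈1 / δ⌉ with hI
  let f : Obj S → S.R × ℂ × (ℤ × ℤ) × ℂ := fun x =>
    (x.r, x.A, (⌊(dir x).re / δ⌋, ⌊(dir x).im / δ⌋), x.B)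
  have hcard : s.card ≤ ((Finset.univ : Finset S.R) ×ˢ VA ×ˢ (I ×ˢ I) ×ˢ VA).card := by
    refine Finset.card_le_card_of_injOn f ?_ ?_
    · intro x hx
      obtain ⟨hg, _, _⟩ := hs x hx
      have hn := norm_dir x hg.ne
      simp only [f, Finset.coe_product, Set.mem_prod, Finset.mem_coe]
      refine ⟨Finset.mem_univ _, hmemVA _ _ hg.memA, ⟨?_, ?_⟩, hmemVA _ _ hg.memB⟩
      · exact floor_mem δ _ hδ (by rw [← hn]; exact Complex.abs_re_le_norm _)
      · exact floor_mem δ _ hδ (by rw [← hn]; exact Complex.abs_im_le_norm _)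
    · intro x hx x' hx' he
      obtain ⟨hg, hl, hc⟩ := hs x hx
      obtain ⟨hg', hl', hc'⟩ := hs x' hx'
      simp only [f, Prod.mk.injEq] at he
      obtain ⟨e1, e2, ⟨e3, e4⟩, e5⟩ := he
      have h1 := abs_sub_lt_of_floor δ _ _ hδ e3
      have h2 := abs_sub_lt_of_floor δ _ _ hδ e4
      have h3 : ‖dir x' - dir x‖ ≤ 2 * δ := by
        refine (Complex.norm_le_abs_re_add_abs_im _).trans ?_
        rw [Complex.sub_re, Complex.sub_im]
        linarith
      have h4 : ‖dir x' - dir x‖ * (Dm * N) < h := by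
        have h5 : ‖dir x' - dir x‖ * (Dm * N) ≤ 2 * δ * (Dm * N) :=
          mul_le_mul_of_nonneg_right h3 (by positivity)
        have h6 : 2 * δ * (Dm * N) = h * (N / (N + 1)) := by
          rw [hδdef]; field_simp
        have h7 : (N : ℝ) / (N + 1) < 1 := by
          rw [div_lt_one (by positivity)]; linarith
        have h8 : h * (N / (N + 1)) < h * 1 := mul_lt_mul_of_pos_left h7 hh
        linarith
      have h5 := ds_eq Dm hD N h x x' hg hg' e1 e2 hl hl' hc hc' h4
      cases x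
      cases x'
      simp only at e1 e2 e5 h5
      subst e1 e2 e5 h5
      rfl
  have h1 : (s.card : ℝ) ≤ (Fintype.card S.R : ℝ) * ((VA.card : ℝ) *
      (((I.card : ℝ) * (I.card : ℝ)) * (VA.card : ℝ))) := by
    have h2 : ((((Finset.univ : Finset S.R) ×ˢ VA ×ˢ (I ×ˢ I) ×ˢ VA).card : ℕ) : ℝ) =
        (Fintype.card S.R : ℝ) * ((VA.card : ℝ) *
      (((I.card : ℝ) * (I.card : ℝ)) * (VA.card : ℝ))) := by
      simp only [Finset.card_product, Finset.card_univ]
      push_cast
      ring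
    rw [← h2]
    exact_mod_cast hcard
  have h2 : (I.card : ℝ) ≤ 10 * Dm * ((N + 1) / h) := by
    have h3 : (I.card : ℝ) ≤ 5 / δ := card_cells δ hδ hδ1
    have h4 : 5 / δ = 5 * (1 / δ) := by ring
    have h5 : 5 * (1 / δ) = 10 * Dm * ((N + 1) / h) := by rw [hinv]; ring
    linarith
  have h3 : (I.card : ℝ) * (I.card : ℝ) ≤ (10 * Dm) ^ 2 * ((N + 1) / h) ^ 2 := by
    have h4 : (I.card : ℝ) * (I.card : ℝ) ≤
        (10 * Dm * ((N + 1) / h)) * (10 * Dm * ((N + 1) / h)) :=
      mul_le_mul h2 h2 (Nat.cast_nonneg _) (by positivity)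
    linarith [h4, mul_pow (10 * Dm) (((N : ℝ) + 1) / h) 2,
      sq (10 * Dm * (((N : ℝ) + 1) / h))]
  have h4 : (Fintype.card S.R : ℝ) * ((VA.card : ℝ) *
      (((I.card : ℝ) * (I.card : ℝ)) * (VA.card : ℝ))) =
      ((Fintype.card S.R : ℝ) * (VA.card : ℝ) ^ 2) * ((I.card : ℝ) * (I.card : ℝ)) := by ring
  have h5 : ((Fintype.card S.R : ℝ) * (VA.card : ℝ) ^ 2) * ((I.card : ℝ) * (I.card : ℝ)) ≤
      ((Fintype.card S.R : ℝ) * (VA.card : ℝ) ^ 2) * ((10 * Dm) ^ 2 * ((N + 1) / h) ^ 2) :=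
    mul_le_mul_of_nonneg_left h3 (by positivity)
  have h6 : 0 ≤ (((N : ℝ) + 1) / h) ^ 2 := by positivity
  calc (s.card : ℝ) ≤ _ := h1
    _ = _ := h4
    _ ≤ _ := h5
    _ ≤ _ := by linarith [h6]

end Pool.Agent.BGD
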