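import Mathlib

/-!
# Counting points that are separated in a box (helper82)
-/

set_option autoImplicit false

namespace Pool.Agent.BGD

theorem card_Icc_floor (F ε : ℝ) (hF : 0 ≤ F) (hε : 0 < ε) :
    (((Finset.Icc ⌊-(F / ε)⌋ ⌊F / ε⌋).card : ℕ) : ℝ) ≤ 2 * (F / ε) + 2 := by
  rw [Int.card_Icc]
  have h1 : 0 ≤ F / ε := div_nonneg hF hε.le
  have h2 : ⌊-(F / ε)⌋ ≤ ⌊F / ε⌋ := Int.floor_le_floor (by linarith)
  have h3 : 0 ≤ ⌊F / ε⌋ + 1 - ⌊-(F / ε)⌋ := by linarith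
  have h4 : (((⌊F / ε⌋ + 1 - ⌊-(F / ε)⌋).toNat : ℕ) : ℝ) =
      ((⌊F / ε⌋ + 1 - ⌊-(F / ε)⌋ : ℤ) : ℝ) := by
    rw [← Int.cast_natCast, Int.toNat_of_nonneg h3]
  rw [h4]
  push_cast
  have h5 := Int.floor_le (F / ε)
  have h6 := Int.lt_floor_add_one (-(F / ε))
  linarith

/-- points of a box with two parameters that are determined by their parameters up to `ε₁`, `ε₂` -/
theorem card_le_cells {α : Type*} (s : Finset α) (f g : α → ℝ) (F G ε₁ ε₂ : ℝ) (hF : 0 ≤ F)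
    (hG : 0 ≤ G) (h1 : 0 < ε₁) (h2 : 0 < ε₂) (hf : ∀ x ∈ s, |f x| ≤ F) (hg : ∀ x ∈ s, |g x| ≤ G)
    (hinj : ∀ x ∈ s, ∀ y ∈ s, |f x - f y| < ε₁ → |g x - g y| < ε₂ → x = y) :
    (s.card : ℝ) ≤ (2 * (F / ε₁) + 2) * (2 * (G / ε₂) + 2) := by
  classical
  have key : s.card ≤
      ((Finset.Icc ⌊-(F / ε₁)⌋ ⌊F / ε₁⌋) ×ˢ (Finset.Icc ⌊-(G / ε₂)⌋ ⌊G / ε₂⌋)).card := by
    apply Finset.card_le_card_of_injOn (fun x => (⌊f x / ε₁⌋, ⌊g x / ε₂⌋))
    · intro x hx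
      have a1 := abs_le.1 (hf x hx)
      have a2 := abs_le.1 (hg x hx)
      simp only [Finset.coe_product, Finset.coe_Icc, Set.mem_prod, Set.mem_Icc]
      refine ⟨⟨Int.floor_le_floor ?_, Int.floor_le_floor ?_⟩,
        Int.floor_le_floor ?_, Int.floor_le_floor ?_⟩
      · rw [← neg_div]; exact div_le_div_of_nonneg_right a1.1 h1.le
      · exact div_le_div_of_nonneg_right a1.2 h1.le
      · rw [← neg_div]; exact div_le_div_of_nonneg_right a2.1 h2.le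
      · exact div_le_div_of_nonneg_right a2.2 h2.le
    · intro x hx y hy hxy
      simp only [Prod.mk.injEq] at hxy
      have b1 := Int.abs_sub_lt_one_of_floor_eq_floor hxy.1
      have b2 := Int.abs_sub_lt_one_of_floor_eq_floor hxy.2
      rw [← sub_div, abs_div, abs_of_pos h1, div_lt_one h1] at b1
      rw [← sub_div, abs_div, abs_of_pos h2, div_lt_one h2] at b2
      exact hinj x hx y hy b1 b2
  rw [Finset.card_product] at key
  have k1 := card_Icc_floor F ε₁ hF h1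
  have k2 := card_Icc_floor G ε₂ hG h2
  have k3 : (s.card : ℝ) ≤ (((Finset.Icc ⌊-(F / ε₁)⌋ ⌊F / ε₁⌋).card : ℕ) : ℝ) *
      (((Finset.Icc ⌊-(G / ε₂)⌋ ⌊G / ε₂⌋).card : ℕ) : ℝ) := by exact_mod_cast key
  refine k3.trans (mul_le_mul k1 k2 (by positivity) ?_)
  have := div_nonneg hF h1.le
  linarith

end Pool.Agent.BGD
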