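import Pool.Agent.BGD.Abs

/-!
# Abstract discharging: the two-sided descent (helper26)
-/

set_option autoImplicit false

namespace Pool.Agent.BGD

namespace Des

theorem bern {q : ℝ} (h0 : 0 < q) (h1 : q ≤ 1) : 1 + 10 * (1 - q) ≤ (1 / q) ^ 10 := by
  have hr : 1 ≤ 1 / q := by
    rw [le_div_iff₀ h0]
    linarith
  have h2 := one_add_mul_le_pow (show (-2 : ℝ) ≤ 1 / q - 1 by linarith) 10
  have h3 : (1 : ℝ) + (1 / q - 1) = 1 / q := by ring
  rw [h3] at h2
  have h4 : 1 - q ≤ 1 / q - 1 := by
    have h5 : (1 / q - 1) - (1 - q) = (1 - q) ^ 2 / q := by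
      have h8 : q ≠ 0 := h0.ne'
      rw [eq_div_iff h8]
      have h9 : 1 / q * q = 1 := by rw [one_div, inv_mul_cancel₀ h8]
      linear_combination h9
    have h6 : 0 ≤ (1 - q) ^ 2 / q := by positivity
    linarith
  have h7 : ((10 : ℕ) : ℝ) = 10 := by norm_num
  rw [h7] at h2
  linarith

theorem step_bd {δ ρ q t : ℝ} (hδ : 0 < δ) (hρ : ρ < 5 * δ) (h0 : 0 < q) (h1 : q ≤ 1)
    (ht : t ≤ 2 * ρ * (1 - q)) : δ + t ≤ δ * (1 / q) ^ 10 := by
  have h2 := mul_le_mul_of_nonneg_left (bern h0 h1) hδ.le
  have h3 : 2 * ρ * (1 - q) ≤ 2 * (5 * δ) * (1 - q) := by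
    apply mul_le_mul_of_nonneg_right _ (by linarith)
    linarith
  have h4 : 2 * (5 * δ) * (1 - q) = δ * (10 * (1 - q)) := by ring
  have h5 : δ * (1 + 10 * (1 - q)) = δ + δ * (10 * (1 - q)) := by ring
  linarith

theorem trans {A : Type} {S : Sys A} {x y z : A} {V W : ℝ} (h1 : Chain S x y V)
    (h2 : Chain S y z W) : Chain S x z (V + W) := by
  induction h2 with
  | refl => rwa [add_zero]
  | step _ hr hp ih =>
    rw [← add_assoc]
    exact Chain.step ih hr hp

theorem one {A : Type} {S : Sys A} {y p u : A} {V : ℝ} (hr : S.rho y < S.r1)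
    (hp : p = S.e y ∨ p = S.g y) (h : Chain S p u V) : Chain S y u (S.d p y + V) := by
  have h1 : Chain S y p (0 + S.d p y) := Chain.step (Chain.refl y) hr hp
  rw [zero_add] at h1
  exact trans h1 h

variable {A : Type} [Fintype A] (S : Sys A)

open scoped Classical in
/-- the number of shorter elements -/
noncomputable def rk (y : A) : ℕ := (Finset.univ.filter (fun a => S.l a < S.l y)).card

variable {S}

theorem rk_lt {p y : A} (h : S.l p < S.l y) : rk S p < rk S y := by
  classical
  unfold rk
  apply Finset.card_lt_card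
  rw [Finset.ssubset_iff_of_subset]
  · exact ⟨p, by simpa using h, by simp⟩
  · intro a ha
    rw [Finset.mem_filter] at ha ⊢
    exact ⟨ha.1, ha.2.trans h⟩

theorem part_lt (hS : Ax S) {p y : A} (hr : S.rho y < S.r1) (hp : p = S.e y ∨ p = S.g y) :
    S.l p < S.l y := by
  rcases hp with rfl | rfl
  · have h1 := hS.le51 y hr
    have h2 := hS.lc y
    have h3 := hS.c0pos
    linarith
  · exact hS.glt y hr

theorem d_nonneg (hS : Ax S) (x y : A) : 0 ≤ S.d x y := by
  have h1 := hS.dtri x y x
  rw [hS.dself, hS.dsymm y x] at h1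
  linarith

theorem main (hS : Ax S) : ∀ (N : ℕ) (y z : A), rk S y + rk S z ≤ N → 0 < S.d y z →
    5 * S.d y z * ((S.l y * S.l z) / S.c0 ^ 2) ^ 10 ≤ S.r1 →
    ∃ (u u' : A) (V V' : ℝ), Chain S y u V ∧ Chain S z u' V' ∧ 0 ≤ V ∧ 0 ≤ V' ∧
      S.d u u' ≤ S.rho u / 5 ∧ S.d u u' ≤ S.rho u' / 5 ∧ S.d u u' = S.d y z + V + V' ∧
      S.d u u' ≤ S.d y z * ((S.l y / S.l u) * (S.l z / S.l u')) ^ 10 ∧
      S.l u ≤ S.l y ∧ S.l u' ≤ S.l z ∧ 5 * S.d u u' ≤ S.r1 ∧
      (z = u' ∨ S.rho z < 5 * S.d u u') := by
  intro N
  induction N using Nat.strong_induction_on with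
  | _ N ih =>
    intro y z hN hδ hb
    have hc := hS.c0pos
    have pl : ∀ a : A, 0 < S.l a := fun a => hc.trans_le (hS.lc a)
    have hge1 : (1 : ℝ) ≤ ((S.l y * S.l z) / S.c0 ^ 2) ^ 10 := by
      apply one_le_pow₀
      rw [le_div_iff₀ (by positivity), one_mul, sq]
      exact mul_le_mul (hS.lc y) (hS.lc z) hc.le (pl y).le
    have hδ5 : 5 * S.d y z ≤ S.r1 := by
      have h1 := mul_le_mul_of_nonneg_left hge1 (show 0 ≤ 5 * S.d y z by linarith)
      linarith
    by_cases cy : S.rho y < 5 * S.d y z
    · -- descend on the left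
      have hry : S.rho y < S.r1 := by linarith
      obtain ⟨p, hp, hpz⟩ := hS.far y z hry hδ (by linarith)
      have hlt := part_lt hS hry hp
      have hp0 := pl p
      have hy0 := pl y
      have hq0 : 0 < S.l p / S.l y := by positivity
      have hq1 : S.l p / S.l y ≤ 1 := by
        rw [div_le_one hy0]
        exact hlt.le
      have hst := step_bd hδ cy hq0 hq1 (hS.dpart y p hry hp)
      rw [← hpz, one_div_div] at hst
      have hdp := d_nonneg hS p y
      have hrk : rk S p + rk S z < N := by
        have := rk_lt hlt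
        omega
      have hb' : 5 * S.d p z * ((S.l p * S.l z) / S.c0 ^ 2) ^ 10 ≤ S.r1 := by
        refine le_trans ?_ hb
        have e1 : 5 * S.d y z * ((S.l y * S.l z) / S.c0 ^ 2) ^ 10 =
            5 * (S.d y z * (S.l y / S.l p) ^ 10) * ((S.l p * S.l z) / S.c0 ^ 2) ^ 10 := by
          have : S.l y * S.l z / S.c0 ^ 2 = (S.l y / S.l p) * ((S.l p * S.l z) / S.c0 ^ 2) := by
            field_simp
          rw [this, mul_pow]
          ring
        rw [e1]
        have hz0 := pl z
        apply mul_le_mul_of_nonneg_right _ (by positivity)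
        linarith
      obtain ⟨u, u', V, V', c1, c2, c3, c4, c5, c6, c7, c8, c9, c10, c11, c12⟩ :=
        ih _ hrk p z le_rfl (by linarith) hb'
      refine ⟨u, u', S.d p y + V, V', one hry hp c1, c2, by linarith, c4, c5, c6, by linarith, ?_,
        c9.trans hlt.le, c10, c11, c12⟩
      refine c8.trans ?_
      have hu0 := pl u
      have hu0' := pl u'
      have hz0 := pl z
      have e2 : S.d y z * (S.l y / S.l u * (S.l z / S.l u')) ^ 10 =
          S.d y z * (S.l y / S.l p) ^ 10 * (S.l p / S.l u * (S.l z / S.l u')) ^ 10 := by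
        have : S.l y / S.l u * (S.l z / S.l u') =
            (S.l y / S.l p) * (S.l p / S.l u * (S.l z / S.l u')) := by
          field_simp
        rw [this, mul_pow (S.l y / S.l p)]
        ring
      rw [e2]
      exact mul_le_mul_of_nonneg_right hst (by positivity)
    · by_cases cz : S.rho z < 5 * S.d y z
      · -- descend on the right
        have hrz : S.rho z < S.r1 := by linarith
        have hsym := hS.dsymm z y
        obtain ⟨p, hp, hpy⟩ := hS.far z y hrz (by rw [hsym]; exact hδ) (by rw [hsym]; linarith)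
        have hlt := part_lt hS hrz hp
        have hp0 := pl p
        have hz0 := pl z
        have hq0 : 0 < S.l p / S.l z := by positivity
        have hq1 : S.l p / S.l z ≤ 1 := by
          rw [div_le_one hz0]
          exact hlt.le
        have hst := step_bd hδ cz hq0 hq1 (hS.dpart z p hrz hp)
        rw [hsym] at hpy
        rw [← hpy, hS.dsymm p y, one_div_div] at hst
        rw [hS.dsymm p y] at hpy
        have hdp := d_nonneg hS p z
        have hrk : rk S y + rk S p < N := by
          have := rk_lt hlt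
          omega
        have hb' : 5 * S.d y p * ((S.l y * S.l p) / S.c0 ^ 2) ^ 10 ≤ S.r1 := by
          refine le_trans ?_ hb
          have e1 : 5 * S.d y z * ((S.l y * S.l z) / S.c0 ^ 2) ^ 10 =
              5 * (S.d y z * (S.l z / S.l p) ^ 10) * ((S.l y * S.l p) / S.c0 ^ 2) ^ 10 := by
            have : S.l y * S.l z / S.c0 ^ 2 = (S.l z / S.l p) * ((S.l y * S.l p) / S.c0 ^ 2) := by
              field_simp
            rw [this, mul_pow]
            ring
          rw [e1]
          have hy0 := pl y
          apply mul_le_mul_of_nonneg_right _ (by positivity)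
          linarith
        obtain ⟨u, u', V, V', c1, c2, c3, c4, c5, c6, c7, c8, c9, c10, c11, c12⟩ :=
          ih _ hrk y p le_rfl (by linarith) hb'
        refine ⟨u, u', V, S.d p z + V', c1, one hrz hp c2, c3, by linarith, c5, c6, by linarith, ?_,
          c9, c10.trans hlt.le, c11, Or.inr (by linarith)⟩
        refine c8.trans ?_
        have hu0 := pl u
        have hu0' := pl u'
        have hy0 := pl y
        have e2 : S.d y z * (S.l y / S.l u * (S.l z / S.l u')) ^ 10 =
            S.d y z * (S.l z / S.l p) ^ 10 * (S.l y / S.l u * (S.l p / S.l u')) ^ 10 := by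
          have : S.l y / S.l u * (S.l z / S.l u') =
              (S.l z / S.l p) * (S.l y / S.l u * (S.l p / S.l u')) := by
            field_simp
          rw [this, mul_pow (S.l z / S.l p)]
          ring
        rw [e2]
        exact mul_le_mul_of_nonneg_right hst (by positivity)
      · refine ⟨y, z, 0, 0, Chain.refl y, Chain.refl z, le_rfl, le_rfl, by linarith, by linarith,
          by ring, ?_, le_rfl, le_rfl, hδ5, Or.inl rfl⟩
        rw [div_self (pl y).ne', div_self (pl z).ne']
        norm_num

end Des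

theorem m_DES : Stmt_DES := by
  intro A _ S hS y z h1 h2
  exact Des.main hS _ y z le_rfl h1 h2

end Pool.Agent.BGD
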