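import Pool.Agent.BGD.Split3

/-!
# Low door ends have their foot strictly inside (helper54)
-/

set_option autoImplicit false

open scoped ComplexConjugate

namespace Pool.Agent.BGD

variable {S : Rooms}

namespace Spl

/-- Abstract version: a sequence of gates with ends `E i` on the side `κ` of the line and directions
`N i`. -/
theorem end_aux (n : ℕ) (E N : ℕ → ℂ) (A v : ℂ) (κ r0 : ℝ) (hκ : κ * κ = 1) (h0 : 0 < r0)
    (hv : v ≠ 0) (H1 : ∀ i < n, cx (N i) v < 0) (H2 : ∀ i < n, 0 < κ * cx v (E i - A))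
    (H3 : 0 < n → r0 * ‖N 0‖ ≤ cx (N 0) (A - E 0)) (H4 : ∀ i < n, 0 < cx (N i) (A - E i))
    (H5 : ∀ i, i + 1 < n → E i ≠ E (i + 1) → r0 * ‖N (i + 1)‖ ≤ cx (N (i + 1)) (E i - E (i + 1)))
    (H6 : ∀ i, i + 1 < n → ∀ z, 0 ≤ κ * cx v (z - A) → κ * cx v (z - A) ≤ κ * cx v (E i - A) →
      0 ≤ cx (N i) (z - E i) → 0 ≤ cx (N (i + 1)) (z - E (i + 1))) :
    ∀ i < n, dt v (E i - A) ≤ 0 → r0 * ‖v‖ ≤ κ * cx v (E i - A) := by
  have hvn : 0 < ‖v‖ := norm_pos_iff.2 hv
  have hκa : |κ| = 1 := by
    have h1 : |κ| * |κ| = 1 := by rw [← abs_mul, hκ, abs_one]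
    nlinarith [abs_nonneg κ]
  -- the point over `A`
  set G : ℂ := A + ((κ * r0 / ‖v‖ : ℝ) : ℂ) * (Complex.I * v) with hG
  have hGcx : ∀ M : ℂ, cx M (G - A) = κ * r0 / ‖v‖ * dt M v := by
    intro M
    have h1 : G - A = ((κ * r0 / ‖v‖ : ℝ) : ℂ) * (Complex.I * v) := by rw [hG]; ring
    rw [h1]
    simp only [cx, dt, Complex.mul_re, Complex.mul_im, Complex.ofReal_re, Complex.ofReal_im,
      Complex.I_re, Complex.I_im]
    ring
  have hGv : κ * cx v (G - A) = r0 * ‖v‖ := by
    rw [hGcx]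
    have h1 : dt v v = ‖v‖ ^ 2 := by rw [norm_sq']; rfl
    rw [h1]
    have h2 : κ * (κ * r0 / ‖v‖ * ‖v‖ ^ 2) = κ * κ * (r0 * ‖v‖) := by
      field_simp
    rw [h2, hκ, one_mul]
  have hcn : ∀ M : ℂ, cx v M = -cx M v := by
    intro M; simp only [cx]; ring
  -- value at `G`
  have hval : ∀ i, cx (N i) (G - E i) = cx (N i) (A - E i) + κ * r0 / ‖v‖ * dt (N i) v := by
    intro i
    rw [← hGcx, ← cx_add_right]
    congr 1; ring
  have hmulv : ∀ i, ‖v‖ * cx (N i) (G - E i) =
      ‖v‖ * cx (N i) (A - E i) + r0 * (κ * dt (N i) v) := by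
    intro i
    rw [hval]
    field_simp
  have hL : ∀ i < n, dt v (E i - A) ≤ 0 → 0 ≤ cx (N i) (G - E i) →
      r0 * ‖v‖ ≤ κ * cx v (E i - A) := by
    intro i hi ht hg
    have id := cx_dt_id v (N i) (E i - A)
    have e1 : cx (N i) (E i - A) = -cx (N i) (A - E i) := by
      rw [← neg_sub A (E i)]
      simp only [cx, Complex.neg_re, Complex.neg_im]; ring
    rw [e1, hcn (N i)] at id
    have p1 := H4 i hi
    have p2 := H1 i hi
    have p3 := H2 i hi
    have q1 : 0 ≤ -(dt v (E i - A) * -cx (N i) v) := by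
      have := mul_nonneg (neg_nonneg.2 ht) (neg_nonneg.2 p2.le)
      linarith
    have q2 : (κ * cx v (E i - A)) * (κ * dt (N i) v) = cx v (E i - A) * dt (N i) v := by
      linear_combination (cx v (E i - A) * dt (N i) v) * hκ
    have q3 : (κ * cx v (E i - A)) * (κ * dt (N i) v) ≤ -(‖v‖ ^ 2 * cx (N i) (A - E i)) := by
      rw [q2]; linarith
    have q4 : 0 < ‖v‖ ^ 2 * cx (N i) (A - E i) := by positivity
    have q5 : κ * dt (N i) v < 0 := by
      by_contra hcon
      have := mul_nonneg p3.le (not_lt.1 hcon)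
      linarith
    have q6 : 0 ≤ ‖v‖ * cx (N i) (A - E i) + r0 * (κ * dt (N i) v) := by
      rw [← hmulv]; positivity
    -- (κ cx) * (-κ dt) ≥ ‖v‖² α ≥ ‖v‖ r0 (-κ dt)
    have q7 : (r0 * ‖v‖) * (-(κ * dt (N i) v)) ≤ (κ * cx v (E i - A)) * (-(κ * dt (N i) v)) := by
      have := mul_le_mul_of_nonneg_left q6 hvn.le
      nlinarith
    exact le_of_mul_le_mul_right q7 (by linarith)
  have hK : ∀ i, i < n → dt v (E i - A) ≤ 0 → 0 ≤ cx (N i) (G - E i) := by
    intro i
    induction i with
    | zero =>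
      intro hi _
      have h1 := H3 hi
      have h2 := hmulv 0
      have h3 : |κ * dt (N 0) v| ≤ ‖N 0‖ * ‖v‖ := by
        rw [abs_mul, hκa, one_mul]; exact abs_dt_le _ _
      have h4 := (abs_le.1 h3).1
      have h5 : 0 ≤ ‖v‖ * cx (N 0) (G - E 0) := by
        rw [h2]
        have h6 := mul_le_mul_of_nonneg_left h1 hvn.le
        have h7 := mul_le_mul_of_nonneg_left h4 h0.le
        nlinarith
      exact nonneg_of_mul_nonneg_right h5 hvn
    | succ i ih =>
      intro hi ht
      by_cases hc : dt v (E i - A) ≤ 0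
      · have h1 := ih (by omega) hc
        have h2 := hL i (by omega) hc h1
        exact H6 i hi G (by rw [hGv]; positivity) (by rw [hGv]; exact h2) h1
      · have hne : E i ≠ E (i + 1) := by
          intro he
          rw [he] at hc
          exact hc ht
        have h1 := H5 i hi hne
        by_contra hcon
        have hcon' := not_le.1 hcon
        have h2 : ‖v‖ * cx (N (i + 1)) (A - E (i + 1)) + r0 * (κ * dt (N (i + 1)) v) < 0 := by
          rw [← hmulv]
          exact mul_neg_of_pos_of_neg hvn hcon'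
        have p1 := H4 (i + 1) hi
        have p2 := H1 (i + 1) hi
        have p3 := H2 i (by omega)
        have h3 : |κ * dt (N (i + 1)) v| ≤ ‖N (i + 1)‖ * ‖v‖ := by
          rw [abs_mul, hκa, one_mul]; exact abs_dt_le _ _
        have h4 := (abs_le.1 h3).1
        have h5 : κ * dt (N (i + 1)) v < 0 := by
          by_contra hc2
          have a1 : 0 ≤ r0 * (κ * dt (N (i + 1)) v) := mul_nonneg h0.le (not_lt.1 hc2)
          have a2 : 0 < ‖v‖ * cx (N (i + 1)) (A - E (i + 1)) := by positivity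
          linarith
        -- α_A < r0 ‖N‖
        have h6 : cx (N (i + 1)) (A - E (i + 1)) < r0 * ‖N (i + 1)‖ := by
          have a1 := mul_le_mul_of_nonneg_left h4 h0.le
          have a2 : ‖v‖ * cx (N (i + 1)) (A - E (i + 1)) < ‖v‖ * (r0 * ‖N (i + 1)‖) := by
            nlinarith
          exact lt_of_mul_lt_mul_left a2 hvn.le
        have id := cx_dt_id v (N (i + 1)) (E i - A)
        rw [hcn (N (i + 1))] at id
        have q2 : (κ * cx v (E i - A)) * (κ * dt (N (i + 1)) v) =
            cx v (E i - A) * dt (N (i + 1)) v := by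
          linear_combination (cx v (E i - A) * dt (N (i + 1)) v) * hκ
        have q3 : (κ * cx v (E i - A)) * (κ * dt (N (i + 1)) v) ≤ 0 :=
          mul_nonpos_of_nonneg_of_nonpos p3.le h5.le
        have q4 : -(dt v (E i - A) * -cx (N (i + 1)) v) ≤ 0 := by
          have := mul_nonneg (not_le.1 hc).le (neg_nonneg.2 p2.le)
          linarith
        have q5 : ‖v‖ ^ 2 * cx (N (i + 1)) (E i - A) ≤ 0 := by
          rw [id]; linarith
        have q6 : cx (N (i + 1)) (E i - A) ≤ 0 := by
          by_contra hc2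
          have := mul_pos (show 0 < ‖v‖ ^ 2 by positivity) (not_le.1 hc2)
          linarith
        have q7 : cx (N (i + 1)) (E i - E (i + 1)) =
            cx (N (i + 1)) (E i - A) + cx (N (i + 1)) (A - E (i + 1)) := by
          rw [← cx_add_right]; congr 1; ring
        linarith
  intro i hi ht
  exact hL i hi ht (hK i hi ht)

theorem prop_right_weak {v A P Q P' Q' z : ℂ}
    (hP : 0 < cx v (P - A)) (hQ : cx v (Q - A) < 0)
    (hP' : 0 < cx v (P' - A)) (hQ' : cx v (Q' - A) < 0)
    (h1 : cx (P - Q) (P' - Q) ≤ 0) (h2 : cx (P - Q) (Q' - Q) ≤ 0)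
    (hz : cx (P' - Q') (z - Q') ≤ 0)
    (hz1 : cx v (Q' - A) ≤ cx v (z - A)) (hz2 : cx v (z - A) ≤ cx v (P' - A)) :
    cx (P - Q) (z - Q) ≤ 0 := by
  have key : (cx v (P' - A) - cx v (Q' - A)) * cx (P - Q) (z - Q) =
      (cx v (z - A) - cx v (Q' - A)) * cx (P - Q) (P' - Q) +
      (cx v (P' - A) - cx v (z - A)) * cx (P - Q) (Q' - Q) +
      cx (P' - Q') (z - Q') * (cx v (P - A) - cx v (Q - A)) := by
    simp only [cx, Complex.sub_re, Complex.sub_im]
    ring
  have h3 : (cx v (z - A) - cx v (Q' - A)) * cx (P - Q) (P' - Q) ≤ 0 :=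
    mul_nonpos_of_nonneg_of_nonpos (by linarith) h1
  have h4 : (cx v (P' - A) - cx v (z - A)) * cx (P - Q) (Q' - Q) ≤ 0 :=
    mul_nonpos_of_nonneg_of_nonpos (by linarith) h2
  have h5 : cx (P' - Q') (z - Q') * (cx v (P - A) - cx v (Q - A)) ≤ 0 :=
    mul_nonpos_of_nonpos_of_nonneg hz (by linarith)
  by_contra hcon
  have h7 : 0 < (cx v (P' - A) - cx v (Q' - A)) * cx (P - Q) (z - Q) :=
    mul_pos (by linarith) (not_le.1 hcon)
  linarith

theorem prop_left_weak {v A P Q P' Q' z : ℂ}
    (hP : 0 < cx v (P - A)) (hQ : cx v (Q - A) < 0)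
    (hP' : 0 < cx v (P' - A)) (hQ' : cx v (Q' - A) < 0)
    (h1 : 0 ≤ cx (P' - Q') (P - Q')) (h2 : 0 ≤ cx (P' - Q') (Q - Q'))
    (hz : 0 ≤ cx (P - Q) (z - Q))
    (hz1 : cx v (Q - A) ≤ cx v (z - A)) (hz2 : cx v (z - A) ≤ cx v (P - A)) :
    0 ≤ cx (P' - Q') (z - Q') := by
  have key : (cx v (P - A) - cx v (Q - A)) * cx (P' - Q') (z - Q') =
      (cx v (z - A) - cx v (Q - A)) * cx (P' - Q') (P - Q') +
      (cx v (P - A) - cx v (z - A)) * cx (P' - Q') (Q - Q') +
      cx (P - Q) (z - Q) * (cx v (P' - A) - cx v (Q' - A)) := by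
    simp only [cx, Complex.sub_re, Complex.sub_im]
    ring
  have h3 : 0 ≤ (cx v (z - A) - cx v (Q - A)) * cx (P' - Q') (P - Q') :=
    mul_nonneg (by linarith) h1
  have h4 : 0 ≤ (cx v (P - A) - cx v (z - A)) * cx (P' - Q') (Q - Q') :=
    mul_nonneg (by linarith) h2
  have h5 : 0 ≤ cx (P - Q) (z - Q) * (cx v (P' - A) - cx v (Q' - A)) :=
    mul_nonneg hz (by linarith)
  by_contra hcon
  have h7 : (cx v (P - A) - cx v (Q - A)) * cx (P' - Q') (z - Q') < 0 :=
    mul_neg_of_pos_of_neg (by linarith) (not_le.1 hcon)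
  linarith

/-- one end of the door, `b = true`: left, `b = false`: right -/
noncomputable def ed (ds : List S.D) (b : Bool) (i : ℕ) (h : i < ds.length) : ℂ :=
  if b then up ds i h else dn ds i h

/-- the sign of the side -/
noncomputable def kp (b : Bool) : ℝ := if b then 1 else -1

theorem kp_sq (b : Bool) : kp b * kp b = 1 := by cases b <;> simp [kp]

theorem kp_ed {ds : List S.D} {A v : ℂ} {i : ℕ} {h : i < ds.length} (hp : Ps ds A v i h)
    (b : Bool) : 0 < kp b * cx v (ed ds b i h - A) := by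
  cases b
  · simp only [kp, ed, Bool.false_eq_true, if_false]; linarith [hp.2]
  · simp only [kp, ed, if_true]; linarith [hp.1]

theorem cx_ed (ds : List S.D) (b : Bool) (i : ℕ) (h : i < ds.length) (z : ℂ) :
    cx (up ds i h - dn ds i h) (z - ed ds b i h) = cx (up ds i h - dn ds i h) (z - dn ds i h) := by
  cases b
  · rfl
  · simp only [ed, if_true, cx, Complex.sub_re, Complex.sub_im]; ring

theorem ed_mem (r : S.R) (ds : List S.D) (b : Bool) (i : ℕ) (h : i < ds.length) (hf : Fit r ds) :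
    ed ds b i h ∈ Vx r ds i := by
  cases b
  · exact dn_mem r ds i h hf
  · exact up_mem r ds i h hf

theorem ed_mem' (r : S.R) (ds : List S.D) (b : Bool) (i : ℕ) (h : i < ds.length) :
    ed ds b i h ∈ Vx r ds (i + 1) := by
  cases b
  · exact dn_mem' r ds i h
  · exact up_mem' r ds i h

theorem ed_ne_up {ds : List S.D} {A v : ℂ} {i j : ℕ} {h : i < ds.length} {h' : j < ds.length}
    (hp : Ps ds A v i h) (hp' : Ps ds A v j h') (b : Bool) (hne : ed ds b i h ≠ ed ds b j h') :
    ed ds b i h ≠ up ds j h' := by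
  cases b
  · intro he
    have h1 := hp.2
    have h2 := hp'.1
    have he' : dn ds i h = up ds j h' := he
    rw [← he'] at h2
    linarith
  · exact hne

theorem ed_ne_dn {ds : List S.D} {A v : ℂ} {i j : ℕ} {h : i < ds.length} {h' : j < ds.length}
    (hp : Ps ds A v i h) (hp' : Ps ds A v j h') (b : Bool) (hne : ed ds b i h ≠ ed ds b j h') :
    ed ds b i h ≠ dn ds j h' := by
  cases b
  · exact hne
  · intro he
    have h1 := hp.1
    have h2 := hp'.2
    have he' : up ds i h = dn ds j h' := he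
    rw [← he'] at h2
    linarith

/-- the range conditions from the side condition -/
theorem rng_of {ds : List S.D} {A v : ℂ} {i : ℕ} {h : i < ds.length} (hp : Ps ds A v i h)
    (b : Bool) {t : ℝ} (h1 : 0 ≤ kp b * t) (h2 : kp b * t ≤ kp b * cx v (ed ds b i h - A)) :
    cx v (dn ds i h - A) ≤ t ∧ t ≤ cx v (up ds i h - A) := by
  cases b
  · simp only [kp, ed, Bool.false_eq_true, if_false] at h1 h2
    have := hp.1
    constructor <;> linarith
  · simp only [kp, ed, if_true] at h1 h2
    have := hp.2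
    constructor <;> linarith

theorem end_left {r0 : ℝ} (h0 : 0 < r0) (hr : R0 S r0) {r : S.R} {ds : List S.D} (hf : Fit r ds)
    {A v : ℂ} (hv : v ≠ 0) (hp : ∀ i (h : i < ds.length), Ps ds A v i h) (hA : A ∈ Vx r ds 0)
    (hAL : ∀ i (h : i < ds.length), 0 < cx (up ds i h - dn ds i h) (A - dn ds i h))
    (hAup : ∀ i (h : i < ds.length), A ≠ up ds i h) (hAdn : ∀ i (h : i < ds.length), A ≠ dn ds i h)
    (b : Bool) (i : ℕ) (h : i < ds.length) (ht : dt v (ed ds b i h - A) ≤ 0) :
    r0 * ‖v‖ ≤ kp b * cx v (ed ds b i h - A) := by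
  classical
  let E : ℕ → ℂ := fun i => if h : i < ds.length then ed ds b i h else 0
  let N : ℕ → ℂ := fun i => if h : i < ds.length then up ds i h - dn ds i h else 0
  have hE : ∀ i (h : i < ds.length), E i = ed ds b i h := fun i h => dif_pos h
  have hN : ∀ i (h : i < ds.length), N i = up ds i h - dn ds i h := fun i h => dif_pos h
  have := end_aux ds.length E N A v (kp b) r0 (kp_sq b) h0 hv
    (by
      intro i hi
      rw [hN i hi]
      have h1 := (hp i hi).1
      have h2 := (hp i hi).2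
      have h3 : cx (up ds i hi - dn ds i hi) v = cx v (dn ds i hi - A) - cx v (up ds i hi - A) := by
        simp only [cx, Complex.sub_re, Complex.sub_im]; ring
      rw [h3]; linarith)
    (by
      intro i hi
      rw [hE i hi]
      exact kp_ed (hp i hi) b)
    (by
      intro hn
      rw [hE 0 hn, hN 0 hn, cx_ed]
      exact left_of hr r ds 0 hn hf hA (hAup 0 hn) (hAdn 0 hn))
    (by
      intro i hi
      rw [hE i hi, hN i hi, cx_ed]
      exact hAL i hi)
    (by
      intro i hi hne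
      have hi' : i < ds.length := by omega
      rw [hE i hi', hE (i + 1) hi] at hne ⊢
      rw [hN (i + 1) hi, cx_ed]
      exact left_of hr r ds (i + 1) hi hf (ed_mem' r ds b i hi')
        (ed_ne_up (hp i hi') (hp (i + 1) hi) b hne) (ed_ne_dn (hp i hi') (hp (i + 1) hi) b hne))
    (by
      intro i hi z hz1 hz2 hz3
      have hi' : i < ds.length := by omega
      rw [hE i hi'] at hz2
      rw [hE i hi', hN i hi', cx_ed] at hz3
      rw [hE (i + 1) hi, hN (i + 1) hi, cx_ed]
      obtain ⟨c1, c2⟩ := rng_of (hp i hi') b hz1 hz2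
      exact prop_left_weak (hp i hi').1 (hp i hi').2 (hp (i + 1) hi).1 (hp (i + 1) hi).2
        (weak_left h0 hr hf (i + 1) hi (up_mem' r ds i hi'))
        (weak_left h0 hr hf (i + 1) hi (dn_mem' r ds i hi')) hz3 c1 c2)
    i h (by rw [hE i h]; exact ht)
  rwa [hE i h] at this

theorem end_right {r0 : ℝ} (h0 : 0 < r0) (hr : R0 S r0) {r : S.R} {ds : List S.D} (hf : Fit r ds)
    {B v : ℂ} (hv : v ≠ 0) (hp : ∀ i (h : i < ds.length), Ps ds B v i h)
    (hB : B ∈ Vx r ds ds.length)
    (hBR : ∀ i (h : i < ds.length), cx (up ds i h - dn ds i h) (B - dn ds i h) < 0)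
    (hBup : ∀ i (h : i < ds.length), B ≠ up ds i h) (hBdn : ∀ i (h : i < ds.length), B ≠ dn ds i h)
    (b : Bool) (i : ℕ) (h : i < ds.length) (ht : 0 ≤ dt v (ed ds b i h - B)) :
    r0 * ‖v‖ ≤ kp b * cx v (ed ds b i h - B) := by
  classical
  let n := ds.length
  let E : ℕ → ℂ := fun i => if h : n - 1 - i < ds.length then ed ds b (n - 1 - i) h else 0
  let N : ℕ → ℂ := fun i => if h : n - 1 - i < ds.length then
    -(up ds (n - 1 - i) h - dn ds (n - 1 - i) h) else 0
  have hE : ∀ i (h : n - 1 - i < ds.length), E i = ed ds b (n - 1 - i) h := fun i h => dif_pos h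
  have hN : ∀ i (h : n - 1 - i < ds.length),
    N i = -(up ds (n - 1 - i) h - dn ds (n - 1 - i) h) := fun i h => dif_pos h
  have hneg : ∀ a c : ℂ, cx (-a) c = -cx a c := by
    intro a c; simp only [cx, Complex.neg_re, Complex.neg_im]; ring
  have hlt : ∀ i, i < n → n - 1 - i < ds.length := fun i hi => by
    show n - 1 - i < n
    omega
  have key := end_aux n E N B (-v) (-kp b) r0 (by linarith [kp_sq b]) h0 (neg_ne_zero.2 hv)
    (by
      intro i hi
      rw [hN i (hlt i hi)]
      have h1 := (hp _ (hlt i hi)).1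
      have h2 := (hp _ (hlt i hi)).2
      have h3 : cx (-(up ds _ (hlt i hi) - dn ds _ (hlt i hi))) (-v) =
          cx v (dn ds _ (hlt i hi) - B) - cx v (up ds _ (hlt i hi) - B) := by
        simp only [cx, Complex.sub_re, Complex.sub_im, Complex.neg_re, Complex.neg_im]; ring
      rw [h3]; linarith)
    (by
      intro i hi
      rw [hE i (hlt i hi), hneg]
      have := kp_ed (hp _ (hlt i hi)) b
      linarith)
    (by
      intro hn
      rw [hE 0 (hlt 0 hn), hN 0 (hlt 0 hn), hneg, cx_ed, norm_neg]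
      have h1 : B ∈ Vx r ds (n - 1 - 0 + 1) := by
        have : n - 1 - 0 + 1 = ds.length := by
          show n - 1 - 0 + 1 = n
          omega
        rw [this]; exact hB
      have := right_of hr r ds _ (hlt 0 hn) h1 (hBup _ _) (hBdn _ _)
      linarith)
    (by
      intro i hi
      rw [hE i (hlt i hi), hN i (hlt i hi), hneg, cx_ed]
      have := hBR _ (hlt i hi)
      linarith)
    (by
      intro i hi hne
      have hi' : i < n := by omega
      have l1 := hlt i hi'
      have l2 := hlt (i + 1) hi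
      rw [hE i l1, hE (i + 1) l2] at hne ⊢
      rw [hN (i + 1) l2, hneg, cx_ed, norm_neg]
      have h1 : ed ds b (n - 1 - i) l1 ∈ Vx r ds (n - 1 - (i + 1) + 1) := by
        have : n - 1 - (i + 1) + 1 = n - 1 - i := by omega
        rw [this]
        exact ed_mem r ds b _ l1 hf
      have := right_of hr r ds _ l2 h1 (ed_ne_up (hp _ l1) (hp _ l2) b hne)
        (ed_ne_dn (hp _ l1) (hp _ l2) b hne)
      linarith)
    (by
      intro i hi z hz1 hz2 hz3
      have hi' : i < n := by omega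
      have l1 := hlt i hi'
      have l2 := hlt (i + 1) hi
      rw [hE i l1] at hz2
      rw [hE i l1, hN i l1, hneg, cx_ed] at hz3
      rw [hE (i + 1) l2, hN (i + 1) l2, hneg, cx_ed]
      have hz1' : 0 ≤ kp b * cx v (z - B) := by
        have : -kp b * cx (-v) (z - B) = kp b * cx v (z - B) := by rw [hneg]; ring
        rwa [this] at hz1
      have hz2' : kp b * cx v (z - B) ≤ kp b * cx v (ed ds b _ l1 - B) := by
        have e1 : -kp b * cx (-v) (z - B) = kp b * cx v (z - B) := by rw [hneg]; ring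
        have e2 : -kp b * cx (-v) (ed ds b _ l1 - B) = kp b * cx v (ed ds b _ l1 - B) := by
          rw [hneg]; ring
        rwa [e1, e2] at hz2
      obtain ⟨c1, c2⟩ := rng_of (hp _ l1) b hz1' hz2'
      have hidx : n - 1 - (i + 1) + 1 = n - 1 - i := by omega
      have m1 : up ds _ l1 ∈ Vx r ds (n - 1 - (i + 1) + 1) := by
        rw [hidx]; exact up_mem r ds _ l1 hf
      have m2 : dn ds _ l1 ∈ Vx r ds (n - 1 - (i + 1) + 1) := by
        rw [hidx]; exact dn_mem r ds _ l1 hf
      have := prop_right_weak (hp _ l2).1 (hp _ l2).2 (hp _ l1).1 (hp _ l1).2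
        (weak_right h0 hr _ l2 m1) (weak_right h0 hr _ l2 m2)
        (show cx (up ds _ l1 - dn ds _ l1) (z - dn ds _ l1) ≤ 0 by linarith) c1 c2
      linarith)
    (n - 1 - i) (by show n - 1 - i < n; have : i < n := h; omega)
  have l3 : n - 1 - (n - 1 - i) < ds.length := by
    show _ < n
    have : i < n := h
    omega
  have hidx : n - 1 - (n - 1 - i) = i := by have : i < n := h; omega
  have hEi : E (n - 1 - i) = ed ds b i h := by
    rw [hE _ l3]
    congr 1
  rw [hEi] at key
  have hdt : dt (-v) (ed ds b i h - B) = -dt v (ed ds b i h - B) := by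
    simp only [dt, Complex.neg_re, Complex.neg_im]; ring
  have := key (by rw [hdt]; linarith)
  rw [hneg, norm_neg] at this
  linarith

theorem end_core {r0 : ℝ} (h0 : 0 < r0) (hr : R0 S r0) {x : Obj S} (hx : x.GD) {q : ℂ}
    (hq : q ∈ x.ends) (hlow : |x.ht q| < r0) : 0 < x.tm q ∧ x.tm q < ‖x.hol‖ := by
  obtain ⟨hf, hp⟩ := run_conds hx.run
  have hv0 : x.hol ≠ 0 := hx.ne
  have hvn : 0 < ‖x.hol‖ := norm_pos_iff.2 hv0
  have hQA : cx x.hol (x.Q - x.A) = 0 := cx_hol_Q x
  have hlow' : |cx x.hol (q - x.A)| < r0 * ‖x.hol‖ := by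
    unfold Obj.ht at hlow
    rw [abs_div, abs_of_pos hvn] at hlow
    exact (div_lt_iff₀ hvn).1 hlow
  have hrng0 : ∀ w : ℂ, cx x.hol (w - x.A) = 0 → Rng x.ds x.A x.hol w := by
    intro w hw i h
    obtain ⟨h3, h4⟩ := hp i h
    rw [hw]
    exact ⟨h4.le, h3.le⟩
  have hAup : ∀ i (h : i < x.ds.length), x.A ≠ up x.ds i h := by
    intro i h he
    have := (hp i h).1
    rw [← he, sub_self, cx_zero_right] at this
    linarith
  have hAdn : ∀ i (h : i < x.ds.length), x.A ≠ dn x.ds i h := by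
    intro i h he
    have := (hp i h).2
    rw [← he, sub_self, cx_zero_right] at this
    linarith
  have hBup : ∀ i (h : i < x.ds.length), x.Q ≠ up x.ds i h := by
    intro i h he
    have := (hp i h).1
    rw [← he, hQA] at this
    linarith
  have hBdn : ∀ i (h : i < x.ds.length), x.Q ≠ dn x.ds i h := by
    intro i h he
    have := (hp i h).2
    rw [← he, hQA] at this
    linarith
  obtain ⟨i, hi, hqi⟩ := (mem_ends_iff x q).1 hq
  have hn : 0 < x.ds.length := by omega
  have hlast : x.ds.length - 1 < x.ds.length := by omega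
  have hlast1 : x.ds.length - 1 + 1 = x.ds.length := by omega
  have hAL : ∀ i (h : i < x.ds.length),
      0 < cx (up x.ds i h - dn x.ds i h) (x.A - dn x.ds i h) := by
    intro i h
    exact left_all h0 hr hf hp (hrng0 x.A (by rw [sub_self, cx_zero_right])) 0 hn (A_mem hx)
      (hAup 0 hn) (hAdn 0 hn) i h (Nat.zero_le _)
  have hBR : ∀ i (h : i < x.ds.length),
      cx (up x.ds i h - dn x.ds i h) (x.Q - dn x.ds i h) < 0 := by
    intro i h
    exact right_all h0 hr hf hp (hrng0 x.Q hQA) (x.ds.length - 1) hlast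
      (by rw [hlast1]; exact Q_mem hx) (hBup _ hlast) (hBdn _ hlast) (x.ds.length - 1 - i) i h
      (by omega)
  have e1 : ∀ w : ℂ, cx x.hol (w - x.Q) = cx x.hol (w - x.A) := by
    intro w
    have : w - x.Q = (w - x.A) - (x.Q - x.A) := by ring
    rw [this, cx_sub_right, hQA, sub_zero]
  have hp' : ∀ i (h : i < x.ds.length), Ps x.ds x.Q x.hol i h := by
    intro i h
    exact ⟨by rw [e1]; exact (hp i h).1, by rw [e1]; exact (hp i h).2⟩
  obtain ⟨b, hb⟩ : ∃ b : Bool, q = ed x.ds b i hi := by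
    rcases hqi with h | h
    · exact ⟨true, h⟩
    · exact ⟨false, h⟩
  have hkabs : |kp b| = 1 := by cases b <;> simp [kp]
  have hkap : kp b * cx x.hol (q - x.A) ≤ |cx x.hol (q - x.A)| := by
    have := le_abs_self (kp b * cx x.hol (q - x.A))
    rwa [abs_mul, hkabs, one_mul] at this
  constructor
  · have h1 : 0 < dt x.hol (q - x.A) := by
      by_contra hcon
      have := end_left h0 hr hf hv0 hp (A_mem hx) hAL hAup hAdn b i hi
        (by rw [← hb]; exact not_lt.1 hcon)
      rw [← hb] at this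
      linarith
    exact div_pos h1 hvn
  · have h1 : dt x.hol (q - x.Q) < 0 := by
      by_contra hcon
      have := end_right h0 hr hf hv0 hp' (Q_mem hx) hBR hBup hBdn b i hi
        (by rw [← hb]; exact not_lt.1 hcon)
      rw [← hb, e1] at this
      linarith
    have h2 : dt x.hol (q - x.A) = dt x.hol (q - x.Q) + ‖x.hol‖ ^ 2 := by
      have h3 : ‖x.hol‖ ^ 2 = dt x.hol (x.Q - x.A) := by
        rw [norm_sq']
        rfl
      rw [h3]
      simp only [dt, Complex.sub_re, Complex.sub_im]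
      ring
    show dt x.hol (q - x.A) / ‖x.hol‖ < ‖x.hol‖
    rw [div_lt_iff₀ hvn, h2]
    nlinarith

end Spl

/-- Low ends of crossed doors have their foot strictly inside (same constant as for the splitting). -/
theorem end_exists (S : Rooms) : ∃ r0 : ℝ, 0 < r0 ∧
    (∀ x : Obj S, x.GD → ∀ q ∈ x.ends, |x.ht q| < r0 → 0 < x.tm q ∧ x.tm q < ‖x.hol‖) ∧
    ∀ x : Obj S, x.GD → ∀ q ∈ x.ends,
      (∀ q' ∈ x.ends, |x.ht q| ≤ |x.ht q'|) → |x.ht q| < r0 →
      ∃ y z a, Split x q y z a ∧ 0 < x.tm q ∧ x.tm q < ‖x.hol‖ := by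
  obtain ⟨r0, h0, hr⟩ := Spl.exists_r0 S
  exact ⟨r0, h0, fun x hx q hq hlow => Spl.end_core h0 hr hx hq hlow,
    fun x hx q hq hmin hlow => Spl.split_core h0 hr hx hq hmin hlow⟩

end Pool.Agent.BGD
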