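import Pool.Agent.BGD.StA

/-!
# Polynomial bound for generalized diagonals: finiteness (helper75)
-/

set_option autoImplicit false

namespace Pool.Agent.BGD

namespace FIN

variable {S : Rooms}

/-- words of length at most `N` -/
theorem words_finite (S : Rooms) (N : ℕ) : {w : List S.D | w.length ≤ N}.Finite := by
  have : Fintype S.D := S.fD
  exact List.finite_length_le S.D N

/-- all vertices of all rooms -/
theorem verts_finite (S : Rooms) : {p : ℂ | ∃ r, p ∈ S.V r}.Finite := by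
  have : Fintype S.R := S.fR
  have h : {p : ℂ | ∃ r, p ∈ S.V r} = ⋃ r, (S.V r : Set ℂ) := by
    ext p
    simp
  rw [h]
  exact Set.finite_iUnion fun r => (S.V r).finite_toSet

end FIN

open FIN

theorem m_FIN (S : Rooms) (N : ℕ) : {x : Obj S | x.GD ∧ x.ds.length ≤ N}.Finite := by
  have hR : Finite S.R := by
    have : Fintype S.R := S.fR
    infer_instance
  have h1 : ((Set.univ : Set S.R) ×ˢ ({p : ℂ | ∃ r, p ∈ S.V r} ×ˢ
      ({w : List S.D | w.length ≤ N} ×ˢ {p : ℂ | ∃ r, p ∈ S.V r}))).Finite :=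
    Set.finite_univ.prod ((verts_finite S).prod ((words_finite S N).prod (verts_finite S)))
  refine (h1.image (fun t => (⟨t.1, t.2.1, t.2.2.1, t.2.2.2⟩ : Obj S))).subset ?_
  rintro ⟨r, A, ds, B⟩ ⟨hx, hl⟩
  exact ⟨(r, A, ds, B), ⟨Set.mem_univ _, ⟨_, hx.memA⟩, hl, ⟨_, hx.memB⟩⟩, rfl⟩

theorem m_FINA (S : Rooms) (N : ℕ) : Finite (LA S N) := by
  have h1 : (((fun w : List S.D => (frame S w).lp) '' {w : List S.D | w.length ≤ N}) ×ˢ
      {x : Obj S | x.GD ∧ x.ds.length ≤ N}).Finite :=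
    ((words_finite S N).image _).prod (m_FIN S N)
  have h2 : {X : Lift S | InA S N X}.Finite := by
    refine (h1.image (fun t => (⟨t.1, t.2⟩ : Lift S))).subset ?_
    rintro ⟨g, x⟩ ⟨hx, w, hg, hw⟩
    refine ⟨(g, x), ⟨⟨w, ?_, hg.symm⟩, hx, ?_⟩, rfl⟩
    · exact le_trans (Nat.le_add_right _ _) hw
    · exact le_trans (Nat.le_add_left _ _) hw
  exact h2.to_subtype

theorem ends_finite {S : Rooms} (x : Obj S) : x.ends.Finite := by
  refine ((Set.finite_range (fun i : Fin x.ds.length =>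
    (frame S (x.ds.take i)).ap (S.pa x.ds[i]))).union (Set.finite_range (fun i : Fin x.ds.length =>
    (frame S (x.ds.take i)).ap (S.pb x.ds[i])))).subset ?_
  rintro q ⟨i, h, hq | hq⟩
  · exact Or.inl ⟨⟨i, h⟩, hq.symm⟩
  · exact Or.inr ⟨⟨i, h⟩, hq.symm⟩

end Pool.Agent.BGD
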