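import Pool.Agent.BGD.Rooms

/-!
# Packing, part A: vertices near a line in a room (helper92)

`hgt p v q`, `tim p v q`: signed distance of `q` from the line `p + τ v` and abscissa on it.
`exit_unique`: a line leaves a room through at most one door. `exists_kap`: the constant `κ`.
`OutP`: the line leaves the room `r` through the port `P` (a door whose ends are at distance
at least `h` from the line, or a vertex). `vtx`: a vertex of the room at distance `< h ≤ κ` from the line
is the vertex through which the line enters or leaves the room.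
-/

set_option autoImplicit false

open scoped ComplexConjugate

namespace Pool.Agent.BGD

namespace Pk

/-! ### Coordinates of a line -/

/-- signed distance from the line, positive on the left -/
noncomputable def hgt (p v q : ℂ) : ℝ := cx v (q - p) / ‖v‖

/-- abscissa on the line -/
noncomputable def tim (p v q : ℂ) : ℝ := dt v (q - p) / ‖v‖

theorem cx_sub (v a b : ℂ) : cx v (a - b) = cx v a - cx v b := by
  simp only [cx, Complex.sub_re, Complex.sub_im]; ring

theorem cx_add (v a b : ℂ) : cx v (a + b) = cx v a + cx v b := by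
  simp only [cx, Complex.add_re, Complex.add_im]; ring

theorem dt_sub (v a b : ℂ) : dt v (a - b) = dt v a - dt v b := by
  simp only [dt, Complex.sub_re, Complex.sub_im]; ring

theorem dt_add (v a b : ℂ) : dt v (a + b) = dt v a + dt v b := by
  simp only [dt, Complex.add_re, Complex.add_im]; ring

theorem cx_smul (v a : ℂ) (t : ℝ) : cx v (t * a) = t * cx v a := by
  simp only [cx, Complex.mul_re, Complex.mul_im, Complex.ofReal_re, Complex.ofReal_im]; ring

theorem dt_smul (v a : ℂ) (t : ℝ) : dt v (t * a) = t * dt v a := by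
  simp only [dt, Complex.mul_re, Complex.mul_im, Complex.ofReal_re, Complex.ofReal_im]; ring

theorem cx_neg_left (v a : ℂ) : cx (-v) a = -cx v a := by
  simp only [cx, Complex.neg_re, Complex.neg_im]; ring

theorem dt_neg_left (v a : ℂ) : dt (-v) a = -dt v a := by
  simp only [dt, Complex.neg_re, Complex.neg_im]; ring

theorem cx_swap (v a : ℂ) : cx v a = -cx a v := by
  simp only [cx]; ring

theorem cx_self (v : ℂ) : cx v v = 0 := by
  simp only [cx]; ring

theorem cx_zero (v : ℂ) : cx v 0 = 0 := by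
  simp only [cx, Complex.zero_re, Complex.zero_im]; ring

theorem sq_sum (v a : ℂ) : cx v a ^ 2 + dt v a ^ 2 = ‖v‖ ^ 2 * ‖a‖ ^ 2 := by
  rw [Complex.sq_norm, Complex.sq_norm, Complex.normSq_apply, Complex.normSq_apply]
  simp only [cx, dt]; ring

theorem hgt_neg (p v q : ℂ) : hgt p (-v) q = -hgt p v q := by
  rw [hgt, hgt, cx_neg_left, norm_neg]; ring

theorem tim_neg (p v q : ℂ) : tim p (-v) q = -tim p v q := by
  rw [tim, tim, dt_neg_left, norm_neg]; ring

theorem hgt_sub (p v q q' : ℂ) : hgt p v q - hgt p v q' = cx v (q - q') / ‖v‖ := by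
  rw [hgt, hgt, cx_sub, cx_sub, cx_sub]; ring

theorem tim_sub (p v q q' : ℂ) : tim p v q - tim p v q' = dt v (q - q') / ‖v‖ := by
  rw [tim, tim, dt_sub, dt_sub, dt_sub]; ring

theorem dist_sq {v : ℂ} (hv : v ≠ 0) (p q q' : ℂ) :
    ‖q - q'‖ ^ 2 = (hgt p v q - hgt p v q') ^ 2 + (tim p v q - tim p v q') ^ 2 := by
  rw [hgt_sub, tim_sub, div_pow, div_pow, ← add_div, sq_sum]
  have : ‖v‖ ^ 2 ≠ 0 := pow_ne_zero 2 (norm_ne_zero_iff.2 hv)
  field_simp

theorem dist_of_tim {v : ℂ} (hv : v ≠ 0) {p q q' : ℂ} (h : tim p v q = tim p v q') :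
    dist q q' = |hgt p v q - hgt p v q'| := by
  have h1 := dist_sq hv p q q'
  rw [h, sub_self, zero_pow two_ne_zero, add_zero] at h1
  rw [dist_eq_norm, ← abs_of_nonneg (norm_nonneg (q - q'))]
  exact abs_eq_abs.2 (sq_eq_sq_iff_eq_or_eq_neg.1 h1)

/-- convex combinations -/
theorem hgt_comb (p v a b : ℂ) (t : ℝ) :
    hgt p v ((1 - t : ℝ) * a + (t : ℝ) * b) = (1 - t) * hgt p v a + t * hgt p v b := by
  have : ((1 - t : ℝ) * a + (t : ℝ) * b) - p = (1 - t : ℝ) * (a - p) + (t : ℝ) * (b - p) := by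
    push_cast; ring
  rw [hgt, this, cx_add, cx_smul, cx_smul, hgt, hgt]; ring

theorem tim_comb (p v a b : ℂ) (t : ℝ) :
    tim p v ((1 - t : ℝ) * a + (t : ℝ) * b) = (1 - t) * tim p v a + t * tim p v b := by
  have : ((1 - t : ℝ) * a + (t : ℝ) * b) - p = (1 - t : ℝ) * (a - p) + (t : ℝ) * (b - p) := by
    push_cast; ring
  rw [tim, this, dt_add, dt_smul, dt_smul, tim, tim]; ring

theorem comb_mem {K : Set ℂ} (hK : Convex ℝ K) {a b : ℂ} (ha : a ∈ K) (hb : b ∈ K) {t : ℝ}
    (h0 : 0 ≤ t) (h1 : t ≤ 1) : ((1 - t : ℝ) * a + (t : ℝ) * b : ℂ) ∈ K := by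
  have := hK ha hb (sub_nonneg.2 h1) h0 (by ring)
  rwa [Complex.real_smul, Complex.real_smul] at this

/-- the point of the segment `[a, b]` over the abscissa of `q` -/
theorem vert_near {v : ℂ} (hv : v ≠ 0) {K : Set ℂ} (hK : Convex ℝ K) {p a b q : ℂ} (ha : a ∈ K)
    (hb : b ∈ K) (h1 : tim p v a ≤ tim p v q) (h2 : tim p v q ≤ tim p v b) :
    ∃ m ∈ K, ∃ t : ℝ, 0 ≤ t ∧ t ≤ 1 ∧ hgt p v m = (1 - t) * hgt p v a + t * hgt p v b ∧
      dist q m = |hgt p v q - hgt p v m| := by
  rcases eq_or_lt_of_le (h1.trans h2) with h | h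
  · refine ⟨a, ha, 0, le_rfl, zero_le_one, by ring, ?_⟩
    exact dist_of_tim hv (le_antisymm (h2.trans h.ge) h1)
  · have h3 : 0 < tim p v b - tim p v a := sub_pos.2 h
    set t := (tim p v q - tim p v a) / (tim p v b - tim p v a) with ht
    have ht0 : 0 ≤ t := div_nonneg (sub_nonneg.2 h1) h3.le
    have ht1 : t ≤ 1 := (div_le_one h3).2 (by linarith)
    refine ⟨((1 - t : ℝ) * a + (t : ℝ) * b : ℂ), comb_mem hK ha hb ht0 ht1, t, ht0, ht1,
      hgt_comb p v a b t, ?_⟩
    apply dist_of_tim hv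
    rw [tim_comb]
    have : t * (tim p v b - tim p v a) = tim p v q - tim p v a := by
      rw [ht]; field_simp
    linarith

theorem abs_comb_lt {x y h t : ℝ} (hx : |x| < h) (hy : |y| < h) (h0 : 0 ≤ t) (h1 : t ≤ 1) :
    |(1 - t) * x + t * y| < h := by
  have hx' := abs_lt.1 hx
  have hy' := abs_lt.1 hy
  have h2 : 0 ≤ 1 - t := sub_nonneg.2 h1
  rcases eq_or_lt_of_le h0 with h3 | h3
  · rw [← h3]; simpa using hx
  · rw [abs_lt]
    constructor <;> nlinarith [mul_pos h3 (by linarith : (0:ℝ) < h - y),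
      mul_pos h3 (by linarith : (0:ℝ) < h + y), mul_nonneg h2 (by linarith : (0:ℝ) ≤ h - x),
      mul_nonneg h2 (by linarith : (0:ℝ) ≤ h + x)]

/-! ### Doors -/

variable {S : Rooms}

/-- all vertices are weakly on the inner side of a door -/
theorem side_le (d : S.D) {p : ℂ} (hp : p ∈ S.V (S.src d)) :
    0 ≤ cx (S.pa d - S.pb d) (p - S.pb d) := by
  by_cases h1 : p = S.pa d
  · rw [h1, cx_self]
  by_cases h2 : p = S.pb d
  · rw [h2, sub_self, cx_zero]
  exact (S.side d p hp h1 h2).le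

theorem side_zero (d : S.D) {p : ℂ} (hp : p ∈ S.V (S.src d))
    (h : cx (S.pa d - S.pb d) (p - S.pb d) = 0) : p = S.pa d ∨ p = S.pb d := by
  by_contra hcon
  push Not at hcon
  exact absurd h (S.side d p hp hcon.1 hcon.2).ne'

theorem exit_id (v p A B A' B' : ℂ) :
    (cx v (A' - p) * cx (A - B) (B' - B) + -cx v (B' - p) * cx (A - B) (A' - B)) +
      (cx v (A - p) * cx (A' - B') (B - B') + -cx v (B - p) * cx (A' - B') (A - B')) = 0 := by
  simp only [cx, Complex.sub_re, Complex.sub_im]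
  ring

/-- a line leaves a room through at most one door -/
theorem exit_unique {d d' : S.D} (hs : S.src d = S.src d') {p v : ℂ}
    (h1 : cx v (S.pb d - p) < 0) (h2 : 0 < cx v (S.pa d - p))
    (h1' : cx v (S.pb d' - p) < 0) (h2' : 0 < cx v (S.pa d' - p)) : d = d' := by
  have a1 := side_le d (hs ▸ S.mem_a d')
  have a2 := side_le d (hs ▸ S.mem_b d')
  have b1 := side_le d' (hs ▸ S.mem_a d)
  have b2 := side_le d' (hs ▸ S.mem_b d)
  have id1 := exit_id v p (S.pa d) (S.pb d) (S.pa d') (S.pb d')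
  have pα : 0 < -cx v (S.pb d - p) := by linarith
  have pα' : 0 < -cx v (S.pb d' - p) := by linarith
  have n1 := mul_nonneg h2'.le a2
  have n2 := mul_nonneg pα'.le a1
  have n3 := mul_nonneg h2.le b2
  have n4 := mul_nonneg pα.le b1
  have z3 : cx (S.pa d - S.pb d) (S.pb d' - S.pb d) = 0 :=
    (mul_eq_zero.1 (le_antisymm (by linarith) n1)).resolve_left h2'.ne'
  have z4 : cx (S.pa d - S.pb d) (S.pa d' - S.pb d) = 0 :=
    (mul_eq_zero.1 (le_antisymm (by linarith) n2)).resolve_left pα'.ne'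
  have w1 := side_zero d (hs ▸ S.mem_b d') z3
  have w2 := side_zero d (hs ▸ S.mem_a d') z4
  have hne := S.ne d'
  rcases w2 with w2 | w2
  · rcases w1 with w1 | w1
    · exact absurd (w2.trans w1.symm) hne
    · exact S.inj d d' hs w2.symm w1.symm
  · exfalso
    rw [w2] at h2'
    linarith

/-! ### The constant -/

/-- every vertex has distance at least `κ` from the convex hull of the others -/
def KapOK (S : Rooms) (κ : ℝ) : Prop :=
  0 < κ ∧ ∀ r, ∀ p ∈ S.V r, ∀ q ∈ convexHull ℝ ((S.V r : Set ℂ) \ {p}), κ ≤ dist p q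

theorem exists_pos_le {ι : Type} (s : Finset ι) (f : ι → ℝ) (hf : ∀ i ∈ s, 0 < f i) :
    ∃ κ : ℝ, 0 < κ ∧ ∀ i ∈ s, κ ≤ f i := by
  classical
  induction s using Finset.induction_on with
  | empty => exact ⟨1, one_pos, by simp⟩
  | insert a s ha ih =>
    obtain ⟨κ, h1, h2⟩ := ih (fun i hi => hf i (Finset.mem_insert_of_mem hi))
    refine ⟨min κ (f a), lt_min h1 (hf a (Finset.mem_insert_self a s)), fun i hi => ?_⟩
    rcases Finset.mem_insert.1 hi with rfl | hi
    · exact min_le_right _ _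
    · exact (min_le_left _ _).trans (h2 i hi)

theorem exists_kap (S : Rooms) : ∃ κ : ℝ, KapOK S κ := by
  classical
  have h1 : ∀ r, ∀ p ∈ S.V r, 0 < Metric.infDist p (convexHull ℝ ((S.V r : Set ℂ) \ {p})) := by
    intro r p hp
    have hfin : ((S.V r : Set ℂ) \ {p}).Finite := (S.V r).finite_toSet.subset Set.sdiff_subset
    have hcl : IsClosed (convexHull ℝ ((S.V r : Set ℂ) \ {p})) := hfin.isClosed_convexHull ℝ
    have hne : (convexHull ℝ ((S.V r : Set ℂ) \ {p})).Nonempty := by
      rw [convexHull_nonempty_iff]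
      have h3 := S.three r
      obtain ⟨a, ha, hap⟩ := Finset.exists_mem_ne (by omega : 1 < (S.V r).card) p
      exact ⟨a, ha, hap⟩
    exact (hcl.notMem_iff_infDist_pos hne).1 (S.extr r p hp)
  have := S.fR
  obtain ⟨κ, h2, h3⟩ := exists_pos_le ((Finset.univ : Finset S.R).sigma S.V)
    (fun x => Metric.infDist x.2 (convexHull ℝ ((S.V x.1 : Set ℂ) \ {x.2}))) (by
      rintro ⟨r, p⟩ hx
      rw [Finset.mem_sigma] at hx
      exact h1 r p hx.2)
  refine ⟨κ, h2, fun r p hp q hq => (h3 ⟨r, p⟩ (Finset.mem_sigma.2 ⟨Finset.mem_univ r, hp⟩)).trans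
    (Metric.infDist_le_dist_of_mem hq)⟩

/-! ### Ports -/

/-- a place where a line enters or leaves a room -/
inductive Port (S : Rooms)
  | vert (B : ℂ)
  | door (d : S.D)

/-- the line leaves the room `r` through the port, with clearance `h` -/
def OutP (S : Rooms) (r : S.R) (p v : ℂ) (h : ℝ) : Port S → Prop
  | .vert B => B ∈ S.V r ∧ hgt p v B = 0
  | .door d => S.src d = r ∧ hgt p v (S.pb d) ≤ -h ∧ h ≤ hgt p v (S.pa d)

/-- the point where the line passes the port -/
def IsPt (p v : ℂ) : Port S → ℂ → Prop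
  | .vert B, c => c = B
  | .door d, c => hgt p v c = 0 ∧ ∃ t : ℝ, 0 ≤ t ∧ t ≤ 1 ∧
      c = ((1 - t : ℝ) * S.pb d + (t : ℝ) * S.pa d : ℂ)

variable {r : S.R} {p v : ℂ} {h : ℝ}

/-- the door at the height `y` -/
theorem door_at {d : S.D} (h1 : hgt p v (S.pb d) ≤ -h) (h2 : h ≤ hgt p v (S.pa d)) (h0 : 0 < h)
    {y : ℝ} (hy : |y| ≤ h) : ∃ t : ℝ, 0 ≤ t ∧ t ≤ 1 ∧
      hgt p v ((1 - t : ℝ) * S.pb d + (t : ℝ) * S.pa d : ℂ) = y := by
  have h3 := abs_le.1 hy
  have h4 : 0 < hgt p v (S.pa d) - hgt p v (S.pb d) := by linarith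
  refine ⟨(y - hgt p v (S.pb d)) / (hgt p v (S.pa d) - hgt p v (S.pb d)),
    div_nonneg (by linarith) h4.le, (div_le_one h4).2 (by linarith), ?_⟩
  rw [hgt_comb]
  field_simp
  ring

theorem exists_pt (h0 : 0 < h) {P : Port S} (hP : OutP S r p v h P) : ∃ c, IsPt p v P c := by
  cases P with
  | vert B => exact ⟨B, rfl⟩
  | door d =>
    obtain ⟨-, h1, h2⟩ := hP
    obtain ⟨t, ht0, ht1, ht⟩ := door_at h1 h2 h0 (y := 0) (by simpa using h0.le)
    exact ⟨_, ht, t, ht0, ht1, rfl⟩

theorem pt_hgt {P : Port S} (hP : OutP S r p v h P) {c : ℂ} (hc : IsPt p v P c) :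
    hgt p v c = 0 := by
  cases P with
  | vert B => rw [show c = B from hc]; exact hP.2
  | door d => exact hc.1

/-- the ends of a door are different from the vertices near the line -/
theorem pt_mem {P : Port S} (hP : OutP S r p v h P) {c w : ℂ} (hc : IsPt p v P c)
    (hw : |hgt p v w| < h) (hne : P ≠ Port.vert w) :
    c ∈ convexHull ℝ ((S.V r : Set ℂ) \ {w}) := by
  cases P with
  | vert B =>
    rw [show c = B from hc]
    apply subset_convexHull
    refine ⟨hP.1, fun h1 => hne ?_⟩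
    rw [Set.mem_singleton_iff] at h1
    rw [h1]
  | door d =>
    obtain ⟨h1, h2, h3⟩ := hP
    obtain ⟨-, t, ht0, ht1, rfl⟩ := hc
    have hw' := abs_lt.1 hw
    have hb : S.pb d ∈ (S.V r : Set ℂ) \ {w} := ⟨h1 ▸ S.mem_b d, by
      rintro h4
      rw [Set.mem_singleton_iff] at h4
      rw [h4] at h2
      linarith⟩
    have ha : S.pa d ∈ (S.V r : Set ℂ) \ {w} := ⟨h1 ▸ S.mem_a d, by
      rintro h4
      rw [Set.mem_singleton_iff] at h4
      rw [h4] at h3
      linarith⟩
    exact comb_mem (convex_convexHull ℝ _) (subset_convexHull ℝ _ hb)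
      (subset_convexHull ℝ _ ha) ht0 ht1

/-- `OutP` for the reversed line: the door ends -/
theorem outP_neg_door {d : S.D} : OutP S r p (-v) h (.door d) ↔
    S.src d = r ∧ h ≤ hgt p v (S.pb d) ∧ hgt p v (S.pa d) ≤ -h := by
  show (S.src d = r ∧ hgt p (-v) (S.pb d) ≤ -h ∧ h ≤ hgt p (-v) (S.pa d)) ↔ _
  rw [hgt_neg, hgt_neg]
  constructor
  · rintro ⟨h1, h2, h3⟩
    exact ⟨h1, by linarith, by linarith⟩
  · rintro ⟨h1, h2, h3⟩
    exact ⟨h1, by linarith, by linarith⟩

/-- one side of `vtx`: the vertex `w` is not beyond the exit -/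
theorem vtx_side {κ : ℝ} (hκ : KapOK S κ) (hv : v ≠ 0) (h0 : 0 < h) (hh : h ≤ κ) {Po : Port S}
    (ho : OutP S r p v h Po) {co ci w : ℂ} (hco : IsPt p v Po co) (hci : hgt p v ci = 0)
    (hle : tim p v ci ≤ tim p v co) (hw : w ∈ S.V r) (hwh : |hgt p v w| < h)
    (hciw : ci ∈ convexHull ℝ ((S.V r : Set ℂ) \ {w}))
    (hcib : ∀ B, Po = Port.vert B → ci ∈ convexHull ℝ ((S.V r : Set ℂ) \ {B}))
    (hne : Po ≠ Port.vert w) : tim p v w ≤ tim p v co := by
  by_contra hcon
  push Not at hcon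
  cases Po with
  | vert B =>
    have hcB : co = B := hco
    subst hcB
    have hBw : w ≠ co := fun h1 => hne (by rw [h1])
    -- `co` is near the segment from `ci` to `w`
    obtain ⟨m, hm, t, ht0, ht1, hmh, hd⟩ := vert_near hv (convex_convexHull ℝ _)
      (hcib co rfl) (subset_convexHull ℝ _ ⟨hw, hBw⟩ : w ∈ convexHull ℝ ((S.V r : Set ℂ) \ {co}))
      hle hcon.le
    have h1 := hκ.2 r co ho.1 m hm
    rw [hd, ho.2, hmh, hci, mul_zero, zero_add, zero_sub, abs_neg, abs_mul, abs_of_nonneg ht0] at h1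
    have h2 : t * |hgt p v w| ≤ 1 * |hgt p v w| := mul_le_mul_of_nonneg_right ht1 (abs_nonneg _)
    linarith
  | door d =>
    obtain ⟨h1, h2, h3⟩ := ho
    obtain ⟨t, ht0, ht1, hth⟩ := door_at h2 h3 h0 (y := hgt p v w) hwh.le
    set q : ℂ := ((1 - t : ℝ) * S.pb d + (t : ℝ) * S.pa d : ℂ) with hq
    have hw' := abs_lt.1 hwh
    have hwa : w ≠ S.pa d := by rintro rfl; linarith
    have hwb : w ≠ S.pb d := by rintro rfl; linarith
    have hside := S.side d w (h1.symm ▸ hw) hwa hwb
    have hn : 0 < ‖v‖ := norm_pos_iff.2 hv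
    -- `w` is before `q`
    have hqt : tim p v w < tim p v q := by
      by_contra hge
      push Not at hge
      have e1 : cx (S.pa d - S.pb d) (q - S.pb d) = 0 := by
        rw [hq]
        simp only [cx, Complex.add_re, Complex.add_im, Complex.sub_re, Complex.sub_im,
          Complex.mul_re, Complex.mul_im, Complex.ofReal_re, Complex.ofReal_im]
        ring
      have e2 : 0 < cx (S.pa d - S.pb d) (w - q) := by
        have : cx (S.pa d - S.pb d) (w - q) =
            cx (S.pa d - S.pb d) (w - S.pb d) - cx (S.pa d - S.pb d) (q - S.pb d) := by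
          rw [← cx_sub]; congr 1; ring
        rw [this, e1, sub_zero]
        exact hside
      have e3 : cx v (w - q) = 0 := by
        have := hgt_sub p v w q
        rw [hth, sub_self] at this
        have h5 := (div_eq_zero_iff.1 this.symm).resolve_right hn.ne'
        exact h5
      have e4 : 0 ≤ dt v (w - q) := by
        have := tim_sub p v w q
        have h5 : 0 ≤ dt v (w - q) / ‖v‖ := by rw [← this]; linarith
        by_contra h6
        push Not at h6
        have := div_neg_of_neg_of_pos h6 hn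
        linarith
      have e5 : 0 < cx v (S.pa d - S.pb d) := by
        have := hgt_sub p v (S.pa d) (S.pb d)
        have h5 : 0 < cx v (S.pa d - S.pb d) / ‖v‖ := by rw [← this]; linarith
        by_contra h6
        push Not at h6
        have := div_nonpos_of_nonpos_of_nonneg h6 hn.le
        linarith
      -- the identity `‖v‖² cx a z = dt v z * cx a v + cx v z * ...`
      have e6 : ‖v‖ ^ 2 * cx (S.pa d - S.pb d) (w - q) =
          -(dt v (w - q) * cx v (S.pa d - S.pb d)) + cx v (w - q) * dt v (S.pa d - S.pb d) := by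
        rw [Complex.sq_norm, Complex.normSq_apply]
        simp only [cx, dt]
        ring
      rw [e3, zero_mul, add_zero] at e6
      have e7 : 0 < ‖v‖ ^ 2 * cx (S.pa d - S.pb d) (w - q) := mul_pos (pow_pos hn 2) e2
      have e8 : 0 ≤ dt v (w - q) * cx v (S.pa d - S.pb d) := mul_nonneg e4 e5.le
      linarith
    have hb : S.pb d ∈ (S.V r : Set ℂ) \ {w} := ⟨h1 ▸ S.mem_b d, hwb.symm⟩
    have ha : S.pa d ∈ (S.V r : Set ℂ) \ {w} := ⟨h1 ▸ S.mem_a d, hwa.symm⟩
    have hqm : q ∈ convexHull ℝ ((S.V r : Set ℂ) \ {w}) :=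
      comb_mem (convex_convexHull ℝ _) (subset_convexHull ℝ _ hb)
        (subset_convexHull ℝ _ ha) ht0 ht1
    obtain ⟨m, hm, t', ht0', ht1', hmh, hd⟩ := vert_near hv (convex_convexHull ℝ _) hciw hqm
      (hle.trans hcon.le) hqt.le
    have h4 := hκ.2 r w hw m hm
    rw [hd, hmh, hci, hth, mul_zero, zero_add] at h4
    have h5 : hgt p v w - t' * hgt p v w = (1 - t') * hgt p v w := by ring
    rw [h5, abs_mul, abs_of_nonneg (sub_nonneg.2 ht1')] at h4
    have h6 : (1 - t') * |hgt p v w| ≤ 1 * |hgt p v w| :=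
      mul_le_mul_of_nonneg_right (by linarith) (abs_nonneg _)
    linarith

/-- A vertex of the room near the line is the one through which the line enters or leaves. -/
theorem vtx {κ : ℝ} (hκ : KapOK S κ) (hv : v ≠ 0) (h0 : 0 < h) (hh : h ≤ κ) {Pi Po : Port S}
    (hi : OutP S r p (-v) h Pi) (ho : OutP S r p v h Po) {ci co w : ℂ} (hci : IsPt p (-v) Pi ci)
    (hco : IsPt p v Po co) (hle : tim p v ci ≤ tim p v co) (hno : ∀ B, ¬(Pi = .vert B ∧ Po = .vert B))
    (hw : w ∈ S.V r) (hwh : |hgt p v w| < h) : Pi = Port.vert w ∨ Po = Port.vert w := by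
  by_contra hcon
  push Not at hcon
  obtain ⟨c1, c2⟩ := hcon
  have hwh' : |hgt p (-v) w| < h := by rw [hgt_neg, abs_neg]; exact hwh
  have hi0 : hgt p v ci = 0 := by
    have := pt_hgt hi hci
    rwa [hgt_neg, neg_eq_zero] at this
  have ho0 : hgt p v co = 0 := pt_hgt ho hco
  have hciw := pt_mem hi hci hwh' c1
  have hcow := pt_mem ho hco hwh c2
  have hv' : -v ≠ 0 := neg_ne_zero.2 hv
  have s1 := vtx_side hκ hv h0 hh ho hco hi0 hle hw hwh hciw (by
    intro B hB
    refine pt_mem hi hci ?_ (fun h1 => hno B ⟨h1, hB⟩)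
    rw [hB] at ho
    rw [hgt_neg, ho.2, neg_zero, abs_zero]
    exact h0) c2
  have s2 := vtx_side hκ hv' h0 hh hi hci (by rw [hgt_neg, ho0, neg_zero])
    (by rw [tim_neg, tim_neg]; linarith) hw hwh' hcow (by
    intro B hB
    refine pt_mem ho hco ?_ (fun h1 => hno B ⟨hB, h1⟩)
    rw [hB] at hi
    have := hi.2
    rw [hgt_neg, neg_eq_zero] at this
    rw [this, abs_zero]
    exact h0) c1
  rw [tim_neg, tim_neg] at s2
  obtain ⟨m, hm, t, ht0, ht1, hmh, hd⟩ := vert_near hv (convex_convexHull ℝ _) hciw hcow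
    (by linarith) s1
  have h4 := hκ.2 r w hw m hm
  rw [hd, hmh, hi0, ho0, mul_zero, mul_zero, zero_add, sub_zero] at h4
  linarith

end Pk

end Pool.Agent.BGD
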