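import Pool.Agent.BGD.Att
import Pool.Agent.BGD.PkA

/-!
# Two nearby lines run through the same doors (helper82)

The lines (p, v) and (p', v') run from the room `r` through the doors `b` and `b'` and end in the
vertices `B` and `B'`. If they have the same sign at every end point of the doors of `b` and of `b'`, and if
each passes near the end vertex of the other one, then `b = b'` and `B = B'`.
-/

set_option autoImplicit false

namespace Pool.Agent.BGD

variable {S : Rooms}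

/-- the end points of the doors, in the coordinates of the first room -/
def endsL (b : List S.D) : Set ℂ :=
  {q | ∃ i, ∃ h : i < b.length,
    q = (frame S (b.take i)).ap (S.pa b[i]) ∨ q = (frame S (b.take i)).ap (S.pb b[i])}

theorem ends_eq (x : Obj S) : x.ends = endsL x.ds := rfl

theorem pa_mem_endsL (d : S.D) (b : List S.D) : S.pa d ∈ endsL (d :: b) :=
  ⟨0, by simp, Or.inl (by simp [frame, Mot.ap_one])⟩

theorem pb_mem_endsL (d : S.D) (b : List S.D) : S.pb d ∈ endsL (d :: b) :=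
  ⟨0, by simp, Or.inr (by simp [frame, Mot.ap_one])⟩

theorem mem_endsL_cons {d : S.D} {b : List S.D} {q : ℂ} (h : q ∈ endsL b) :
    (S.M d).ap q ∈ endsL (d :: b) := by
  obtain ⟨i, hi, hq⟩ := h
  refine ⟨i + 1, by simpa using hi, ?_⟩
  rcases hq with rfl | rfl
  · left; simp [frame, Mot.ap_mul]
  · right; simp [frame, Mot.ap_mul]

/-- the line enters the room before it passes the vertex `w` -/
def Ent (S : Rooms) (r : S.R) (p v w : ℂ) : Prop :=
  ∃ c ∈ convexHull ℝ ((S.V r : Set ℂ) \ {w}), cx v (c - p) = 0 ∧ 0 < dt v (w - c)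

theorem cx_chart (m : Mot) (v q p : ℂ) :
    cx (m⁻¹.lin v) (m⁻¹.ap q - m⁻¹.ap p) = m.sg * cx v (q - p) := by
  rw [Mot.ap_sub_ap, Mot.cx_lin, Mot.sg_inv]

theorem cx_chart' (m : Mot) (v q p : ℂ) :
    cx (m⁻¹.lin v) (q - m⁻¹.ap p) = m.sg * cx v (m.ap q - p) := by
  rw [← cx_chart, m.ap_inv_ap]

theorem vec_id (v a z : ℂ) : ‖v‖ ^ 2 * cx a z = -(dt v z * cx v a) + cx v z * dt v a := by
  rw [norm_sq_eq]
  simp only [cx, dt]
  ring

/-- the point of the door `d` on a line that separates its ends -/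
theorem door_pt {d : S.D} {p v w : ℂ}
    (h : (cx v (S.pb d - p) < 0 ∧ 0 < cx v (S.pa d - p)) ∨
      (cx v (S.pa d - p) < 0 ∧ 0 < cx v (S.pb d - p)))
    (hw : w ∈ S.V (S.src d)) (hwl : cx v (w - p) = 0) :
    ∃ c ∈ convexHull ℝ ((S.V (S.src d) : Set ℂ) \ {w}), cx v (c - p) = 0 ∧
      0 < cx (S.pa d - S.pb d) (w - c) := by
  have hwa : w ≠ S.pa d := by
    rintro rfl
    rcases h with h | h <;> linarith [h.1, h.2]
  have hwb : w ≠ S.pb d := by
    rintro rfl
    rcases h with h | h <;> linarith [h.1, h.2]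
  have hb : S.pb d ∈ (S.V (S.src d) : Set ℂ) \ {w} := ⟨S.mem_b d, fun h => hwb h.symm⟩
  have ha : S.pa d ∈ (S.V (S.src d) : Set ℂ) \ {w} := ⟨S.mem_a d, fun h => hwa h.symm⟩
  set x := cx v (S.pa d - p) with hx
  set y := cx v (S.pb d - p) with hy
  have hxy : y - x ≠ 0 := by
    rcases h with h | h
    · intro h1; linarith [h.1, h.2]
    · intro h1; linarith [h.1, h.2]
  set t := y / (y - x) with ht
  have ht0 : 0 ≤ t := by
    rcases h with h | h
    · exact div_nonneg_of_nonpos h.1.le (by linarith [h.1, h.2])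
    · exact div_nonneg h.2.le (by linarith [h.1, h.2])
  have ht1 : t ≤ 1 := by
    rcases h with h | h
    · rw [ht, div_le_one_of_neg (by linarith [h.1, h.2])]; linarith [h.2]
    · rw [ht, div_le_one (by linarith [h.1, h.2])]; linarith [h.1]
  refine ⟨((1 - t : ℝ) * S.pb d + (t : ℝ) * S.pa d : ℂ),
    Pk.comb_mem (convex_convexHull ℝ _) (subset_convexHull ℝ _ hb) (subset_convexHull ℝ _ ha)
      ht0 ht1, ?_, ?_⟩
  · have e : ((1 - t : ℝ) * S.pb d + (t : ℝ) * S.pa d : ℂ) - p =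
        (1 - t : ℝ) * (S.pb d - p) + (t : ℝ) * (S.pa d - p) := by push_cast; ring
    rw [e, Pk.cx_add, Pk.cx_smul, Pk.cx_smul, ← hx, ← hy, ht]
    field_simp
    ring
  · have hs := S.side d w hw hwa hwb
    have e : cx (S.pa d - S.pb d) (w - ((1 - t : ℝ) * S.pb d + (t : ℝ) * S.pa d : ℂ)) =
        cx (S.pa d - S.pb d) (w - S.pb d) := by
      simp only [cx, Complex.add_re, Complex.add_im, Complex.sub_re, Complex.sub_im,
          Complex.mul_re, Complex.mul_im, Complex.ofReal_re, Complex.ofReal_im]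
      ring
    rw [e]
    exact hs

/-- a line leaves the room through `d` after it has passed the vertex `w` -/
theorem exit_pt {d : S.D} {p v w : ℂ} (h1 : cx v (S.pb d - p) < 0)
    (h2 : 0 < cx v (S.pa d - p)) (hw : w ∈ S.V (S.src d)) (hwl : cx v (w - p) = 0) :
    ∃ c ∈ convexHull ℝ ((S.V (S.src d) : Set ℂ) \ {w}), cx v (c - p) = 0 ∧ 0 < dt v (c - w) := by
  obtain ⟨c, hc, hcl, hs⟩ := door_pt (Or.inl ⟨h1, h2⟩) hw hwl
  refine ⟨c, hc, hcl, ?_⟩
  have id := vec_id v (S.pa d - S.pb d) (w - c)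
  have e1 : cx v (w - c) = 0 := by
    have : w - c = (w - p) - (c - p) := by ring
    rw [this, cx_sub_right, hwl, hcl, sub_zero]
  have e2 : 0 < cx v (S.pa d - S.pb d) := by
    have : S.pa d - S.pb d = (S.pa d - p) - (S.pb d - p) := by ring
    rw [this, cx_sub_right]; linarith
  have hv : v ≠ 0 := by
    rintro rfl
    simp [cx] at h2
  have e3 : 0 < ‖v‖ ^ 2 * cx (S.pa d - S.pb d) (w - c) :=
    mul_pos (pow_pos (norm_pos_iff.2 hv) 2) hs
  rw [id, e1, zero_mul, add_zero] at e3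
  have e4 : dt v (w - c) < 0 := by
    by_contra h
    push Not at h
    have := mul_nonneg h e2.le
    linarith
  have e5 : dt v (c - w) = - dt v (w - c) := by
    simp only [dt, Complex.sub_re, Complex.sub_im]; ring
  rw [e5]; linarith

/-- a line enters the room `dst d` through the door `d` -/
theorem ent_of_door {d : S.D} {p v w : ℂ} (h1 : cx v (S.pb d - p) < 0)
    (h2 : 0 < cx v (S.pa d - p)) (hw : w ∈ S.V (S.dst d))
    (hwl : cx ((S.M d)⁻¹.lin v) (w - (S.M d)⁻¹.ap p) = 0) :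
    Ent S (S.dst d) ((S.M d)⁻¹.ap p) ((S.M d)⁻¹.lin v) w := by
  have ea := S.a_inv d
  have eb := S.b_inv d
  have ca := cx_chart' (S.M d) v (S.pa (S.inv d)) p
  have cb := cx_chart' (S.M d) v (S.pb (S.inv d)) p
  have k1 : cx ((S.M d)⁻¹.lin v) (S.pa (S.inv d) - (S.M d)⁻¹.ap p) < 0 := by
    rw [ca, ea, Mot.sg]
    by_cases hf : (S.M d).fl = true
    · simp only [hf, if_true]; linarith
    · simp only [hf]; simpa using h1
  have k2 : 0 < cx ((S.M d)⁻¹.lin v) (S.pb (S.inv d) - (S.M d)⁻¹.ap p) := by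
    rw [cb, eb, Mot.sg]
    by_cases hf : (S.M d).fl = true
    · simp only [hf, if_true]; linarith
    · simp only [hf]; simpa using h2
  have hsrc := S.src_inv d
  have hw' : w ∈ S.V (S.src (S.inv d)) := by rw [hsrc]; exact hw
  obtain ⟨c, hc, hcl, hs⟩ := door_pt (Or.inr ⟨k1, k2⟩) hw' hwl
  rw [hsrc] at hc
  refine ⟨c, hc, hcl, ?_⟩
  set v1 := (S.M d)⁻¹.lin v
  set p1 := (S.M d)⁻¹.ap p
  have id := vec_id v1 (S.pa (S.inv d) - S.pb (S.inv d)) (w - c)
  have e1 : cx v1 (w - c) = 0 := by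
    have : w - c = (w - p1) - (c - p1) := by ring
    rw [this, cx_sub_right, hwl, hcl, sub_zero]
  have e2 : cx v1 (S.pa (S.inv d) - S.pb (S.inv d)) < 0 := by
    have : S.pa (S.inv d) - S.pb (S.inv d) = (S.pa (S.inv d) - p1) - (S.pb (S.inv d) - p1) := by ring
    rw [this, cx_sub_right]; linarith
  have hv : v1 ≠ 0 := by
    intro h
    rw [h] at k2
    simp [cx] at k2
  have e3 : 0 < ‖v1‖ ^ 2 * cx (S.pa (S.inv d) - S.pb (S.inv d)) (w - c) :=
    mul_pos (pow_pos (norm_pos_iff.2 hv) 2) hs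
  rw [id, e1, zero_mul, add_zero] at e3
  by_contra h
  push Not at h
  have := mul_nonneg_of_nonpos_of_nonpos h e2.le
  linarith

/-- points of a line: coordinates -/
theorem line_pt {p v a b : ℂ} (hv : v ≠ 0) (ha : cx v (a - p) = 0) (hb : cx v (b - p) = 0) :
    (b - a : ℂ) = ((dt v (b - a) / ‖v‖ ^ 2 : ℝ) : ℂ) * v := by
  have h0 : cx v (b - a) = 0 := by
    have : b - a = (b - p) - (a - p) := by ring
    rw [this, cx_sub_right, ha, hb, sub_zero]
  have hn : ‖v‖ ^ 2 ≠ 0 := pow_ne_zero 2 (norm_ne_zero_iff.2 hv)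
  have e1 := norm_sq_eq v
  set z := b - a
  have h1 : ‖v‖ ^ 2 * z.re = dt v z * v.re := by
    rw [e1]; simp only [cx] at h0; simp only [dt]
    linear_combination (-v.im) * h0
  have h2 : ‖v‖ ^ 2 * z.im = dt v z * v.im := by
    rw [e1]; simp only [cx] at h0; simp only [dt]
    linear_combination (v.re) * h0
  apply Complex.ext
  · simp only [Complex.mul_re, Complex.ofReal_re, Complex.ofReal_im]
    field_simp
    linarith
  · simp only [Complex.mul_im, Complex.ofReal_re, Complex.ofReal_im]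
    field_simp
    linarith

/-- a vertex is not strictly between two points of the hull of the others -/
theorem not_between {r : S.R} {p v w c c' : ℂ} (hv : v ≠ 0) (hw : w ∈ S.V r)
    (hwl : cx v (w - p) = 0) (hc : c ∈ convexHull ℝ ((S.V r : Set ℂ) \ {w}))
    (hcl : cx v (c - p) = 0) (hc1 : 0 < dt v (w - c))
    (hc' : c' ∈ convexHull ℝ ((S.V r : Set ℂ) \ {w})) (hcl' : cx v (c' - p) = 0)
    (hc1' : 0 < dt v (c' - w)) : False := by
  apply S.extr r w hw
  have hn : 0 < ‖v‖ ^ 2 := pow_pos (norm_pos_iff.2 hv) 2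
  set s := dt v (w - c)
  set s' := dt v (c' - w)
  have e1 : w - c = ((s / ‖v‖ ^ 2 : ℝ) : ℂ) * v := line_pt hv hcl hwl
  have e2 : c' - w = ((s' / ‖v‖ ^ 2 : ℝ) : ℂ) * v := line_pt hv hwl hcl'
  set t := s / (s + s') with ht
  have hss : 0 < s + s' := by linarith
  have e3 : w = ((1 - t : ℝ) * c + (t : ℝ) * c' : ℂ) := by
    have e4 : c = w - ((s / ‖v‖ ^ 2 : ℝ) : ℂ) * v := by rw [← e1]; ring
    have e5 : c' = w + ((s' / ‖v‖ ^ 2 : ℝ) : ℂ) * v := by rw [← e2]; ring
    rw [e4, e5]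
    have e6 : (1 - t) * (s / ‖v‖ ^ 2) = t * (s' / ‖v‖ ^ 2) := by
      rw [ht]; field_simp; ring
    have e7 : (((1 - t) * (s / ‖v‖ ^ 2) : ℝ) : ℂ) = ((t * (s' / ‖v‖ ^ 2) : ℝ) : ℂ) := by rw [e6]
    push_cast at e7 ⊢
    linear_combination e7 * v
  have ht1 : t ≤ 1 := (div_le_one hss).2 (by linarith)
  have e8 := Pk.comb_mem (convex_convexHull ℝ _) hc hc' (div_nonneg hc1.le hss.le) ht1
  rw [← ht, ← e3] at e8
  exact e8

/-- the vertex `w'` is not beyond the end vertex `w` of a line close to `w'` -/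
theorem near_end {κ : ℝ} (hκ : Pk.KapOK S κ) {r : S.R} {p v w w' : ℂ} (hv : v ≠ 0)
    (hw : w ∈ S.V r) (hw' : w' ∈ S.V r) (hwl : cx v (w - p) = 0) (hE : Ent S r p v w)
    (hk : |cx v (w' - p)| < κ * ‖v‖) (hne : w ≠ w') (h : 0 ≤ dt v (w' - w)) : False := by
  obtain ⟨c, hc, hcl, hc1⟩ := hE
  have hn : 0 < ‖v‖ := norm_pos_iff.2 hv
  have t1 : Pk.tim p v c ≤ Pk.tim p v w := by
    have := Pk.tim_sub p v w c
    have h2 : 0 < dt v (w - c) / ‖v‖ := div_pos hc1 hn
    linarith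
  have t2 : Pk.tim p v w ≤ Pk.tim p v w' := by
    have := Pk.tim_sub p v w' w
    have h2 : 0 ≤ dt v (w' - w) / ‖v‖ := div_nonneg h hn.le
    linarith
  obtain ⟨m, hm, t, ht0, ht1, hmh, hd⟩ := Pk.vert_near hv (convex_convexHull ℝ _) hc
    (subset_convexHull ℝ _ ⟨hw', fun h => hne h.symm⟩ : w' ∈ convexHull ℝ ((S.V r : Set ℂ) \ {w}))
    t1 t2
  have h1 := hκ.2 r w hw m hm
  have g1 : Pk.hgt p v w = 0 := by rw [Pk.hgt, hwl, zero_div]
  have g2 : Pk.hgt p v c = 0 := by rw [Pk.hgt, hcl, zero_div]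
  have g3 : |Pk.hgt p v w'| < κ := by
    rw [Pk.hgt, abs_div, abs_of_pos hn, div_lt_iff₀ hn]; exact hk
  rw [hd, g1, hmh, g2, mul_zero, zero_add, zero_sub, abs_neg, abs_mul, abs_of_nonneg ht0] at h1
  have h2 : t * |Pk.hgt p v w'| ≤ 1 * |Pk.hgt p v w'| :=
    mul_le_mul_of_nonneg_right ht1 (abs_nonneg _)
  linarith

/-- two directions that are almost equal and a vector between their normals -/
theorem small_of_dir {v v' w : ℂ} {κ : ℝ} (hκ : 0 < κ) (hv : v ≠ 0) (hv' : v' ≠ 0)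
    (hdir : ‖v / ‖v‖ - v' / ‖v'‖‖ ≤ 1 / 2) (h1 : dt v w < 0) (h2 : 0 < dt v' w)
    (h3 : |cx v w| < κ / 2 * ‖v‖) : ‖w‖ < κ := by
  have hn : 0 < ‖v‖ := norm_pos_iff.2 hv
  have hn' : 0 < ‖v'‖ := norm_pos_iff.2 hv'
  set e := v / ‖v‖
  set e' := v' / ‖v'‖
  have d1 : dt e w = dt v w / ‖v‖ := by
    simp only [dt, e, Complex.div_ofReal_re, Complex.div_ofReal_im]; ring
  have d2 : dt e' w = dt v' w / ‖v'‖ := by
    simp only [dt, e', Complex.div_ofReal_re, Complex.div_ofReal_im]; ring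
  have d3 : cx e w = cx v w / ‖v‖ := by
    simp only [cx, e, Complex.div_ofReal_re, Complex.div_ofReal_im]; ring
  have hen : ‖e‖ = 1 := by
    rw [norm_div, Complex.norm_real, norm_norm, div_self hn.ne']
  have g1 : dt e w < 0 := by rw [d1]; exact div_neg_of_neg_of_pos h1 hn
  have g2 : 0 < dt e' w := by rw [d2]; exact div_pos h2 hn'
  have g3 : |cx e w| < κ / 2 := by
    rw [d3, abs_div, abs_of_pos hn, div_lt_iff₀ hn]; exact h3
  have g4 : |dt e w| ≤ 1 / 2 * ‖w‖ := by
    have h4 : dt e w - dt e' w = dt (e - e') w := by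
      simp only [dt, Complex.sub_re, Complex.sub_im]; ring
    have h5 := abs_dt_le (e - e') w
    rw [← h4] at h5
    have h6 : ‖e - e'‖ * ‖w‖ ≤ 1 / 2 * ‖w‖ := mul_le_mul_of_nonneg_right hdir (norm_nonneg _)
    rw [abs_of_neg g1]
    have h7 := (abs_le.1 (h5.trans h6)).1
    linarith
  have g5 := cx_sq_add_dt_sq e w
  rw [hen, one_pow, one_mul] at g5
  have g6 : cx e w ^ 2 ≤ (κ / 2) ^ 2 := sq_le_sq' (by linarith [(abs_lt.1 g3).1]) (abs_lt.1 g3).2.le
  have g7 : dt e w ^ 2 ≤ (1 / 2 * ‖w‖) ^ 2 := sq_le_sq' (by linarith [(abs_le.1 g4).1]) (abs_le.1 g4).2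
  by_contra hcon
  push Not at hcon
  nlinarith [norm_nonneg w]

/-- FWD -/
theorem fwd {κ : ℝ} (hκ : Pk.KapOK S κ) (b : List S.D) : ∀ (b' : List S.D) (r : S.R)
    (p v p' v' B B' : ℂ), v ≠ 0 → v' ≠ 0 → ‖v / ‖v‖ - v' / ‖v'‖‖ ≤ 1 / 2 →
    Run S r p v b → Run S r p' v' b' →
    B ∈ S.V (endR S r b) → B' ∈ S.V (endR S r b') →
    cx v ((frame S b).ap B - p) = 0 → cx v' ((frame S b').ap B' - p') = 0 →
    (∀ q ∈ endsL b, 0 < cx v (q - p) * cx v' (q - p')) →
    (∀ q ∈ endsL b', 0 < cx v (q - p) * cx v' (q - p')) →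
    (b = [] → Ent S r p v B) → (b' = [] → Ent S r p' v' B') →
    |cx v ((frame S b').ap B' - p)| < κ / 2 * ‖v‖ → |cx v' ((frame S b).ap B - p')| < κ / 2 * ‖v'‖ →
    b = b' ∧ B = B' := by
  induction b with
  | nil =>
    intro b' r p v p' v' B B' hv hv' hdir hR hR' hB hB' hL hL' hs hs' hE hE' hk hk'
    have f1 : frame S ([] : List S.D) = 1 := rfl
    cases b' with
    | nil =>
      refine ⟨rfl, ?_⟩
      simp only [f1, Mot.ap_one, endR] at hB hB' hL hL' hk hk'
      by_contra hne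
      have hκ0 := hκ.1
      have hn : 0 < ‖v‖ := norm_pos_iff.2 hv
      have hn' : 0 < ‖v'‖ := norm_pos_iff.2 hv'
      rcases le_or_gt 0 (dt v (B' - B)) with c1 | c1
      · exact near_end hκ hv hB hB' hL (hE rfl) (by nlinarith) hne c1
      rcases le_or_gt 0 (dt v' (B - B')) with c2 | c2
      · exact near_end hκ hv' hB' hB hL' (hE' rfl) (by nlinarith) (Ne.symm hne) c2
      have c3 : 0 < dt v' (B' - B) := by
        have : dt v' (B' - B) = - dt v' (B - B') := by
          simp only [dt, Complex.sub_re, Complex.sub_im]; ring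
        linarith
      have c4 : |cx v (B' - B)| < κ / 2 * ‖v‖ := by
        have : B' - B = (B' - p) - (B - p) := by ring
        rw [this, cx_sub_right, hL, sub_zero]; exact hk
      have c5 := small_of_dir hκ0 hv hv' hdir c1 c3 c4
      have c6 := hκ.2 r B hB B' (subset_convexHull ℝ _ ⟨hB', fun h => hne h.symm⟩)
      rw [dist_comm, dist_eq_norm] at c6
      linarith
    | cons d' b1' =>
      exfalso
      simp only [f1, Mot.ap_one, endR] at hB hL
      obtain ⟨r1, r2, r3, -⟩ := hR'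
      have s1 := hs' _ (pb_mem_endsL d' b1')
      have s2 := hs' _ (pa_mem_endsL d' b1')
      have q1 : cx v (S.pb d' - p) < 0 := by
        by_contra h
        push Not at h
        have := mul_nonpos_of_nonneg_of_nonpos h r2.le
        linarith
      have q2 : 0 < cx v (S.pa d' - p) := by
        by_contra h
        push Not at h
        have := mul_nonpos_of_nonpos_of_nonneg h r3.le
        linarith
      have hB2 : B ∈ S.V (S.src d') := by rw [r1]; exact hB
      obtain ⟨c, hc, hcl, hc1⟩ := hE rfl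
      obtain ⟨c', hc', hcl', hc1'⟩ := exit_pt q1 q2 hB2 hL
      rw [r1] at hc'
      exact not_between hv hB hL hc hcl hc1 hc' hcl' hc1'
  | cons d b1 ih =>
    intro b' r p v p' v' B B' hv hv' hdir hR hR' hB hB' hL hL' hs hs' hE hE' hk hk'
    have f1 : frame S ([] : List S.D) = 1 := rfl
    obtain ⟨r1, r2, r3, hRun⟩ := hR
    have s1 := hs _ (pb_mem_endsL d b1)
    have s2 := hs _ (pa_mem_endsL d b1)
    have q1 : cx v' (S.pb d - p') < 0 := by
      by_contra h
      push Not at h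
      have := mul_nonpos_of_nonpos_of_nonneg r2.le h
      linarith
    have q2 : 0 < cx v' (S.pa d - p') := by
      by_contra h
      push Not at h
      have := mul_nonpos_of_nonneg_of_nonpos r3.le h
      linarith
    cases b' with
    | nil =>
      exfalso
      simp only [f1, Mot.ap_one, endR] at hB' hL'
      have hB2 : B' ∈ S.V (S.src d) := by rw [r1]; exact hB'
      obtain ⟨c, hc, hcl, hc1⟩ := hE' rfl
      obtain ⟨c', hc', hcl', hc1'⟩ := exit_pt q1 q2 hB2 hL'
      rw [r1] at hc'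
      exact not_between hv' hB' hL' hc hcl hc1 hc' hcl' hc1'
    | cons d' b1' =>
      obtain ⟨r1', r2', r3', hRun'⟩ := hR'
      have hdd : d = d' := Pk.exit_unique (r1.trans r1'.symm) q1 q2 r2' r3'
      subst hdd
      have hvm : ∀ z : ℂ, ‖(S.M d)⁻¹.lin z‖ = ‖z‖ := fun z => Mot.norm_lin _ _
      have hne1 : (S.M d)⁻¹.lin v ≠ 0 := by
        rw [← norm_ne_zero_iff, hvm]; exact norm_ne_zero_iff.2 hv
      have hne2 : (S.M d)⁻¹.lin v' ≠ 0 := by
        rw [← norm_ne_zero_iff, hvm]; exact norm_ne_zero_iff.2 hv'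
      have hfr : ∀ (l : List S.D) (z : ℂ), (frame S (d :: l)).ap z = (S.M d).ap ((frame S l).ap z) := by
        intro l z
        show (S.M d * frame S l).ap z = _
        rw [Mot.ap_mul]
      have hch : ∀ (w z q : ℂ), cx ((S.M d)⁻¹.lin w) (z - (S.M d)⁻¹.ap q) =
          (S.M d).sg * cx w ((S.M d).ap z - q) := fun w z q => cx_chart' _ _ _ _
      have hsg2 : (S.M d).sg * (S.M d).sg = 1 := (S.M d).sg_sq
      have hsgabs : |(S.M d).sg| = 1 := by rw [Mot.sg]; split <;> simp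
      have hL1 : cx ((S.M d)⁻¹.lin v) ((frame S b1).ap B - (S.M d)⁻¹.ap p) = 0 := by
        rw [hch, ← hfr, hL, mul_zero]
      have hL1' : cx ((S.M d)⁻¹.lin v') ((frame S b1').ap B' - (S.M d)⁻¹.ap p') = 0 := by
        rw [hch, ← hfr, hL', mul_zero]
      have key := ih b1' (S.dst d) ((S.M d)⁻¹.ap p) ((S.M d)⁻¹.lin v) ((S.M d)⁻¹.ap p')
        ((S.M d)⁻¹.lin v') B B' hne1 hne2 ?_ hRun hRun' hB hB' hL1 hL1' ?_ ?_ ?_ ?_ ?_ ?_
      · exact ⟨by rw [key.1], key.2⟩
      · have e : (S.M d)⁻¹.lin v / ‖(S.M d)⁻¹.lin v‖ - (S.M d)⁻¹.lin v' / ‖(S.M d)⁻¹.lin v'‖ =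
            (S.M d)⁻¹.lin (v / ‖v‖ - v' / ‖v'‖) := by
          rw [hvm, hvm, Mot.lin_sub]
          have h1 : v / (‖v‖ : ℂ) = ((‖v‖⁻¹ : ℝ) : ℂ) * v := by push_cast; field_simp
          have h2 : v' / (‖v'‖ : ℂ) = ((‖v'‖⁻¹ : ℝ) : ℂ) * v' := by push_cast; field_simp
          rw [h1, h2, Mot.lin_smul, Mot.lin_smul]
          push_cast
          field_simp
        rw [e, hvm]
        exact hdir
      · intro q hq
        rw [hch, hch]
        have := hs _ (mem_endsL_cons (d := d) hq)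
        nlinarith
      · intro q hq
        rw [hch, hch]
        have := hs' _ (mem_endsL_cons (d := d) hq)
        nlinarith
      · intro hb
        subst hb
        simp only [f1, Mot.ap_one] at hL1
        exact ent_of_door r2 r3 hB hL1
      · intro hb
        subst hb
        simp only [f1, Mot.ap_one] at hL1'
        exact ent_of_door r2' r3' hB' hL1'
      · rw [hch, ← hfr, abs_mul, hsgabs, one_mul, hvm]; exact hk
      · rw [hch, ← hfr, abs_mul, hsgabs, one_mul, hvm]; exact hk'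

end Pool.Agent.BGD
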