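import Pool.Agent.BGD.StA
import Pool.Agent.BGD.Att
import Pool.Agent.BGD.AbsAll

/-!
# Polynomial bound for generalized diagonals: parts of lifted diagonals, the axioms, the final count
(helper60)
-/

set_option autoImplicit false

open scoped ComplexConjugate
open InnerProductGeometry

namespace Pool.Agent.BGD

variable {S : Rooms}

theorem lp_mul_lp (g h : Mot) : g.lp * h.lp = (g * h).lp := by
  ext
  · simp [Mot.lp, Mot.mul_fl]
  · simp [Mot.lp, Mot.mul_u]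
  · simp only [Mot.lp, Mot.mul_t, Mot.ap, Mot.lin]
    cases g.fl <;> simp

theorem lp_one : (1 : Mot).lp = 1 := rfl

/-- the signs of the door ends -/
theorem run_signs (x : Obj S) (hx : x.GD) (i : ℕ) (hi : i < x.ds.length) :
    (frame S (x.ds.take i)).sg * cx x.hol ((frame S (x.ds.take i)).ap (S.pb x.ds[i]) - x.A) < 0 ∧
    0 < (frame S (x.ds.take i)).sg * cx x.hol ((frame S (x.ds.take i)).ap (S.pa x.ds[i]) - x.A) := by
  have h := hx.run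
  have e : x.ds = x.ds.take i ++ (x.ds[i] :: x.ds.drop (i + 1)) := by
    rw [List.getElem_cons_drop, List.take_append_drop]
  rw [e, Run_append] at h
  obtain ⟨_, h1, h2, h3, h4⟩ := h
  set F := frame S (x.ds.take i) with hF
  have key : ∀ z : ℂ, cx ((F⁻¹).lin x.hol) (z - (F⁻¹).ap x.A) = F.sg * cx x.hol (F.ap z - x.A) := by
    intro z
    have : z - (F⁻¹).ap x.A = (F⁻¹).lin (F.ap z - x.A) := by
      rw [← Mot.ap_sub_ap, Mot.ap_inv_ap]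
    rw [this, Mot.cx_lin, Mot.sg_inv]
  rw [key] at h2 h3
  exact ⟨h2, h3⟩

theorem ends_ne (x : Obj S) (hx : x.GD) (q : ℂ) (hq : q ∈ x.ends) : cx x.hol (q - x.A) ≠ 0 := by
  obtain ⟨i, hi, h⟩ := hq
  obtain ⟨h1, h2⟩ := run_signs x hx i hi
  intro h0
  rcases h with h | h
  · rw [← h, h0, mul_zero] at h2; exact lt_irrefl _ h2
  · rw [← h, h0, mul_zero] at h1; exact lt_irrefl _ h1

theorem im_mul_conj (p q : ℂ) : (p * conj q).im = cx q p := by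
  simp [cx, Complex.mul_im]; ring

theorem re_mul_conj (p q : ℂ) : (p * conj q).re = dt q p := by
  simp [dt, Complex.mul_re]; ring

theorem cx_swap (p q : ℂ) : cx p q = - cx q p := by
  simp only [cx]; ring

/-- the facts about the parts -/
theorem parts_facts {X Y Z : Lift S} {q : ℂ} (hX : X.x.GD) (hq : q ∈ X.x.ends)
    (h0 : 0 < X.x.tm q) (h1 : X.x.tm q < ‖X.x.hol‖) (h : Parts X Y Z q) :
    X.vec = Y.vec + Z.vec ∧ (Y.vec * conj Z.vec).im ≠ 0 ∧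
    0 < (Y.vec * conj X.vec).re ∧ 0 < (Z.vec * conj X.vec).re ∧
    |(Y.vec * conj X.vec).im| / ‖X.vec‖ = |X.x.ht q| ∧
    |(Z.vec * conj X.vec).im| / ‖X.vec‖ = |X.x.ht q| := by
  obtain ⟨a, hS, hY, hZ⟩ := h
  have eY : Y.vec = X.g.lin (q - X.x.A) := by rw [Lift.vec, hY, hS.yhol]
  have eZ : Z.vec = X.g.lin (X.x.Q - q) := by
    rw [Lift.vec, hZ, Mot.lin_mul, Mot.lp_lin, hS.zhol]
  have eX : X.vec = X.g.lin X.x.hol := rfl
  have hs : X.x.hol = (q - X.x.A) + (X.x.Q - q) := by rw [Obj.hol]; ring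
  have hsg : |X.g.sg| = 1 := by rw [Mot.sg]; split <;> simp
  have hsg0 : X.g.sg ≠ 0 := by
    intro h; rw [h] at hsg; simp at hsg
  have hn : 0 < ‖X.x.hol‖ := norm_pos_iff.2 hX.ne
  have c1 : cx (X.x.Q - q) (q - X.x.A) = cx X.x.hol (q - X.x.A) := by
    have e : X.x.Q - q = X.x.hol - (q - X.x.A) := by rw [Obj.hol]; ring
    rw [e]
    simp only [cx, Complex.sub_re, Complex.sub_im]; ring
  have c2 : cx X.x.hol (X.x.Q - q) = - cx X.x.hol (q - X.x.A) := by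
    have e : X.x.Q - q = X.x.hol - (q - X.x.A) := by rw [Obj.hol]; ring
    rw [e, cx_sub_right, cx_self]; ring
  have d1 : dt X.x.hol (q - X.x.A) = X.x.tm q * ‖X.x.hol‖ := by
    rw [Obj.tm]; field_simp
  have d2 : dt X.x.hol (X.x.Q - q) = ‖X.x.hol‖ ^ 2 - X.x.tm q * ‖X.x.hol‖ := by
    have e : X.x.Q - q = X.x.hol - (q - X.x.A) := by rw [Obj.hol]; ring
    rw [e, dt_sub_right, dt_self, d1]
  have hht : |cx X.x.hol (q - X.x.A)| / ‖X.x.hol‖ = |X.x.ht q| := by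
    rw [Obj.ht, abs_div, abs_norm]
  refine ⟨?_, ?_, ?_, ?_, ?_, ?_⟩
  · rw [eX, eY, eZ, ← Mot.lin_add, ← hs]
  · rw [im_mul_conj, eY, eZ, Mot.cx_lin, c1]
    exact mul_ne_zero hsg0 (ends_ne _ hX q hq)
  · rw [re_mul_conj, eX, eY, Mot.dt_lin, d1]
    positivity
  · rw [re_mul_conj, eX, eZ, Mot.dt_lin, d2]
    nlinarith
  · rw [im_mul_conj, eX, eY, Mot.cx_lin, Mot.norm_lin, abs_mul, hsg, one_mul, hht]
  · rw [im_mul_conj, eX, eZ, Mot.cx_lin, Mot.norm_lin, c2, abs_mul, hsg, one_mul, abs_neg, hht]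

/-- parts of lifted diagonals are lifted diagonals -/
theorem parts_exist {N : ℕ} (X : LA S N) {q : ℂ} {y z : Obj S} {a : List S.D}
    (h : Split X.1.x q y z a) : ∃ Y Z : LA S N, Parts X.1 Y.1 Z.1 q := by
  obtain ⟨w, hw, hN⟩ := X.2.lab
  have hlen : X.1.x.ds.length = a.length + z.ds.length := by rw [h.ax]; simp
  have hy : y.ds.length ≤ a.length := h.ya.length_le
  refine ⟨⟨⟨X.1.g, y⟩, ⟨h.gy, w, hw, ?_⟩⟩, ⟨⟨X.1.g * (frame S a).lp, z⟩, ⟨h.gz, w ++ a, ?_, ?_⟩⟩,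
    a, h, rfl, rfl⟩
  · show w.length + y.ds.length ≤ N
    omega
  · show X.1.g * (frame S a).lp = (frame S (w ++ a)).lp
    rw [hw, lp_mul_lp, frame_append]
  · show (w ++ a).length + z.ds.length ≤ N
    rw [List.length_append]
    omega

theorem ends_fin (x : Obj S) : x.ends.Finite := by
  have : x.ends ⊆ ⋃ i : Fin x.ds.length, {(frame S (x.ds.take i)).ap (S.pa x.ds[i]),
      (frame S (x.ds.take i)).ap (S.pb x.ds[i])} := by
    rintro q ⟨i, hi, h⟩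
    rw [Set.mem_iUnion]
    refine ⟨⟨i, hi⟩, ?_⟩
    simpa using h
  exact (Set.finite_iUnion fun i => Set.toFinite _).subset this

/-- the parts can be chosen -/
theorem pspec_exists {r0 : ℝ} (hS : ∀ x : Obj S, x.GD → ∀ q ∈ x.ends,
    (∀ q' ∈ x.ends, |x.ht q| ≤ |x.ht q'|) → |x.ht q| < r0 →
    (∃ y z a, Split x q y z a) ∧ 0 < x.tm q ∧ x.tm q < ‖x.hol‖) (N : ℕ) :
    ∃ e g : LA S N → LA S N, PSpec S N r0 e g := by
  classical
  have key : ∀ X : LA S N, ∃ Y Z : LA S N, Low S r0 X.1.x → ∃ q ∈ X.1.x.ends,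
      (∀ q' ∈ X.1.x.ends, |X.1.x.ht q| ≤ |X.1.x.ht q'|) ∧
      |X.1.x.ht q| < r0 ∧ 0 < X.1.x.tm q ∧ X.1.x.tm q < ‖X.1.x.hol‖ ∧
      (Parts X.1 Y.1 Z.1 q ∨ Parts X.1 Z.1 Y.1 q) ∧ ‖Y.1.vec‖ ≤ ‖Z.1.vec‖ := by
    intro X
    by_cases hL : Low S r0 X.1.x
    · obtain ⟨q1, hq1, hlt⟩ := hL
      obtain ⟨q, hq, hmin⟩ := Set.exists_min_image X.1.x.ends (fun q => |X.1.x.ht q|)
        (ends_fin _) ⟨q1, hq1⟩
      have hq0 : |X.1.x.ht q| < r0 := lt_of_le_of_lt (hmin q1 hq1) hlt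
      obtain ⟨⟨y, z, a, hsp⟩, t0, t1⟩ := hS X.1.x X.2.gd q hq hmin hq0
      obtain ⟨Y, Z, hP⟩ := parts_exist X hsp
      rcases le_total ‖Y.1.vec‖ ‖Z.1.vec‖ with h | h
      · exact ⟨Y, Z, fun _ => ⟨q, hq, hmin, hq0, t0, t1, Or.inl hP, h⟩⟩
      · exact ⟨Z, Y, fun _ => ⟨q, hq, hmin, hq0, t0, t1, Or.inr hP, h⟩⟩
    · exact ⟨X, X, fun h => absurd h hL⟩
  choose e g h using key
  exact ⟨e, g, h⟩

variable {N : ℕ} {r0 c0 C1 r1 : ℝ} {e g : LA S N → LA S N}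

/-- the facts about `e`, `g` -/
theorem pspec_facts (hP : PSpec S N r0 e g) (X : LA S N) (hL : Low S r0 X.1.x) :
    ∃ q ∈ X.1.x.ends, (∀ q' ∈ X.1.x.ends, |X.1.x.ht q| ≤ |X.1.x.ht q'|) ∧ |X.1.x.ht q| < r0 ∧
    X.1.vec = (e X).1.vec + (g X).1.vec ∧ ((e X).1.vec * conj (g X).1.vec).im ≠ 0 ∧
    0 < ((e X).1.vec * conj X.1.vec).re ∧ 0 < ((g X).1.vec * conj X.1.vec).re ∧
    |((e X).1.vec * conj X.1.vec).im| / ‖X.1.vec‖ = |X.1.x.ht q| ∧
    ‖(e X).1.vec‖ ≤ ‖(g X).1.vec‖ := by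
  obtain ⟨q, hq, hmin, hq0, t0, t1, hP, hle⟩ := hP X hL
  refine ⟨q, hq, hmin, hq0, ?_⟩
  rcases hP with h | h
  · obtain ⟨f1, f2, f3, f4, f5, f6⟩ := parts_facts X.2.gd hq t0 t1 h
    exact ⟨f1, f2, f3, f4, f5, hle⟩
  · obtain ⟨f1, f2, f3, f4, f5, f6⟩ := parts_facts X.2.gd hq t0 t1 h
    refine ⟨by rw [f1, add_comm], ?_, f4, f3, f6, hle⟩
    rw [im_mul_conj] at f2 ⊢
    rw [cx_swap]
    exact neg_ne_zero.2 f2

/-- the axioms hold -/
theorem vax (hP : PSpec S N r0 e g) (hc0 : 0 < c0) (hC1 : 0 < C1) (hr1 : 0 < r1)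
    (hr1' : r1 ≤ 1 / 100)
    (hlen : ∀ x : Obj S, x.GD → c0 ≤ ‖x.hol‖ ∧ ‖x.hol‖ ≤ C1 * (x.ds.length + 1)) :
    VAx (VS S N r0 c0 C1 r1 e g) := by
  refine ⟨hc0, hr1, hr1', ?_, ?_, ?_, ?_, ?_⟩
  · intro X
    show c0 ≤ ‖X.1.g.lin X.1.x.hol‖
    rw [Mot.norm_lin]
    exact (hlen _ X.2.gd).1
  · intro X
    show ‖X.1.g.lin X.1.x.hol‖ ≤ C1 * (N + 1)
    rw [Mot.norm_lin]
    obtain ⟨w, _, hw⟩ := X.2.lab
    have h1 : (X.1.x.ds.length : ℝ) ≤ N := by exact_mod_cast (by omega : X.1.x.ds.length ≤ N)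
    calc ‖X.1.x.hol‖ ≤ C1 * (X.1.x.ds.length + 1) := (hlen _ X.2.gd).2
      _ ≤ C1 * (N + 1) := by gcongr
  · intro X hK
    obtain ⟨q, -, -, -, h, -⟩ := pspec_facts hP X hK
    exact h
  · intro X hK
    obtain ⟨q, -, -, -, -, -, -, -, -, h⟩ := pspec_facts hP X hK
    exact h
  · intro X hK
    obtain ⟨q, -, -, -, -, h, -⟩ := pspec_facts hP X hK
    exact h

/-- the clearance -/
theorem clear_of_rho (hP : PSpec S N r0 e g) (hV : VAx (VS S N r0 c0 C1 r1 e g)) (X : LA S N)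
    (h : ℝ) (h1 : h ≤ r0) (h2 : h ≤ (VS S N r0 c0 C1 r1 e g).toSys.rho X * c0 / 4) :
    X.1.x.Clear h := by
  intro q' hq'
  by_cases hL : Low S r0 X.1.x
  · obtain ⟨q, hq, hmin, hq0, f1, f2, f3, f4, f5, f6⟩ := pspec_facts hP X hL
    have h3 := hV.height X hL f3 f4
    have h4 : (VS S N r0 c0 C1 r1 e g).toSys.rho X * ‖(e X).1.vec‖ ≤ 4 * |X.1.x.ht q| := by
      rw [← f5]; exact h3
    have h5 : c0 ≤ ‖(e X).1.vec‖ := hV.lc (e X)
    have h6 := (hV.ax.rpos X)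
    have h7 : (VS S N r0 c0 C1 r1 e g).toSys.rho X * c0 ≤
        (VS S N r0 c0 C1 r1 e g).toSys.rho X * ‖(e X).1.vec‖ := by gcongr
    have h8 := hmin q' hq'
    linarith
  · have : ¬ |X.1.x.ht q'| < r0 := fun h0 => hL ⟨q', hq', h0⟩
    push Not at this
    linarith

/-- the clearance in the packing inequality -/
theorem clear_pack (hP : PSpec S N r0 e g) (hV : VAx (VS S N r0 c0 C1 r1 e g)) (X : LA S N)
    (hr : (VS S N r0 c0 C1 r1 e g).toSys.rho X < 1) (h : ℝ)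
    (h2 : h ≤ (VS S N r0 c0 C1 r1 e g).toSys.rho X * ‖(e X).1.vec‖) :
    X.1.x.Clear (h / 4) ∧ h / 4 < r0 := by
  have hL : Low S r0 X.1.x := by
    by_contra hc
    have : (VS S N r0 c0 C1 r1 e g).toSys.rho X = 1 := by
      simp only [VSys.toSys]
      exact if_neg hc
    rw [this] at hr
    exact lt_irrefl _ hr
  obtain ⟨q, hq, hmin, hq0, f1, f2, f3, f4, f5, f6⟩ := pspec_facts hP X hL
  have h3 := hV.height X hL f3 f4
  have h4 : (VS S N r0 c0 C1 r1 e g).toSys.rho X * ‖(e X).1.vec‖ ≤ 4 * |X.1.x.ht q| := by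
    rw [← f5]; exact h3
  refine ⟨fun q' hq' => ?_, by linarith⟩
  have h8 := hmin q' hq'
  linarith

end Pool.Agent.BGD
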