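import Pool.Agent.BGD.Glue

/-!
# Polynomial bound for generalized diagonals: the final count (helper60)
-/

set_option autoImplicit false

open scoped ComplexConjugate
open InnerProductGeometry

namespace Pool.Agent.BGD

theorem m_POLY (hSPLIT : Stmt_SPLIT) (hLEN : Stmt_LEN) (hCLR : Stmt_CLR)
    (hPACK : Stmt_PACK) (hFIN : ∀ (S : Rooms) (N : ℕ), Finite (LA S N)) : Stmt_POLY := by
  classical
  obtain ⟨C, hC, hpack⟩ := hPACK
  obtain ⟨a, ha⟩ : ∃ a : ℕ, 16 * C ^ 2 * 41 ^ 4 * (3 / 2 : ℝ) ^ 176 ≤ (3 / 2) ^ a := by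
    obtain ⟨a, ha⟩ := pow_unbounded_of_one_lt (16 * C ^ 2 * 41 ^ 4 * (3 / 2 : ℝ) ^ 176)
      (by norm_num : (1 : ℝ) < 3 / 2)
    exact ⟨a, ha.le⟩
  refine ⟨168 + 2 * a, ?_⟩
  intro S k hlab
  obtain ⟨CL, hCL, hlab⟩ := hlab
  obtain ⟨r0', hr0', hsplit⟩ := hSPLIT S
  obtain ⟨kap, hkap, hpack⟩ := hpack S
  obtain ⟨c0, C1, hc0, hC1, hlen⟩ := hLEN S
  obtain ⟨CR, hCR, hclr⟩ := hCLR S
  set r0 := min r0' kap with hr0def
  have hr0 : 0 < r0 := lt_min hr0' hkap
  obtain ⟨c1', hc1', hpack⟩ := hpack r0 c0 C1 hr0 (min_le_right _ _) hc0 hC1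
  set c1 := min c1' (1 / 100) with hc1def
  have hc1 : 0 < c1 := lt_min hc1' (by norm_num)
  set κ := min (min r0 1) (c1 * (c0 / C1) ^ 40 / 100 * c0 / 4) with hκdef
  have hκ : 0 < κ := lt_min (lt_min hr0 one_pos) (by positivity)
  have hκ1 : κ ≤ r0 := (min_le_left _ _).trans (min_le_left _ _)
  have hκ2 : κ ≤ 1 := (min_le_left _ _).trans (min_le_right _ _)
  have hκ3 : κ ≤ c1 * (c0 / C1) ^ 40 / 100 * c0 / 4 := min_le_right _ _
  refine ⟨2 * (CL * (CR * (1 / κ) ^ 2) * (C1 / c0) ^ a) ^ 2, by positivity, ?_⟩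
  intro N s hs
  have hN1 : (1 : ℝ) ≤ (N : ℝ) + 1 := by
    have : (0 : ℝ) ≤ N := Nat.cast_nonneg N
    linarith
  have hN0 : (0 : ℝ) < (N : ℝ) + 1 := by linarith
  have : Finite (LA S N) := hFIN S N
  let _ : Fintype (LA S N) := Fintype.ofFinite _
  set r1 : ℝ := c1 / (N + 1) with hr1def
  have hr1 : 0 < r1 := by positivity
  have hr1' : r1 ≤ 1 / 100 := (div_le_self hc1.le hN1).trans (min_le_right _ _)
  obtain ⟨e, g, hP⟩ := pspec_exists (S := S) (r0 := r0) (fun x hx q hq hmin hlt =>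
    hsplit x hx q hq hmin (lt_of_lt_of_le hlt (min_le_left _ _))) N
  have hV : VAx (VS S N r0 c0 C1 r1 e g) := vax hP hc0 hC1 hr1 hr1' hlen
  have hPk := hpack N e g r1 hr1 (by
    rw [hr1def]
    exact div_le_div_of_nonneg_right (min_le_left _ _) hN0.le) hP hV
  -- the initial count
  set N0 : ℝ := CL * (N + 1) ^ k * (CR * ((N + 1) ^ 42 / κ) ^ 2) with hN0def
  have hinit : ∀ t : Finset (LA S N), (∀ X ∈ t, (VS S N r0 c0 C1 r1 e g).toSys.r1 *
      ((VS S N r0 c0 C1 r1 e g).toSys.c0 / (VS S N r0 c0 C1 r1 e g).toSys.n) ^ 40 / 100 ≤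
      (VS S N r0 c0 C1 r1 e g).toSys.rho X) → (t.card : ℝ) ≤ N0 := by
    intro t ht
    set h : ℝ := κ / (N + 1) ^ 41 with hh
    have hpos : 0 < h := by positivity
    have hpow : (1 : ℝ) ≤ ((N : ℝ) + 1) ^ 41 := one_le_pow₀ hN1
    have hle : h ≤ κ := div_le_self hκ.le hpow
    have hcard1 : t.card ≤ (t.image fun X => X.1.g).card * (t.image fun X => X.1.x).card := by
      rw [← Finset.card_product]
      apply Finset.card_le_card_of_injOn (fun X => (X.1.g, X.1.x))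
      · intro X hX
        simp only [Finset.coe_product, Set.mem_prod, Finset.mem_coe, Finset.mem_image]
        exact ⟨⟨X, hX, rfl⟩, ⟨X, hX, rfl⟩⟩
      · intro X _ Y _ hXY
        simp only [Prod.mk.injEq] at hXY
        apply Subtype.ext
        exact Lift.ext hXY.1 hXY.2
    have hcard2 : ((t.image fun X => X.1.g).card : ℝ) ≤ CL * (N + 1) ^ k := by
      apply hlab N
      intro m hm
      rw [Finset.mem_image] at hm
      obtain ⟨X, -, rfl⟩ := hm
      obtain ⟨w, hw, hw'⟩ := X.2.lab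
      exact ⟨w, by omega, hw⟩
    have hcard3 : ((t.image fun X => X.1.x).card : ℝ) ≤ CR * ((N + 1) / h) ^ 2 := by
      apply hclr N h hpos (hle.trans hκ2)
      intro x hx
      rw [Finset.mem_image] at hx
      obtain ⟨X, hX, rfl⟩ := hx
      obtain ⟨w, hw, hw'⟩ := X.2.lab
      refine ⟨X.2.gd, by omega, clear_of_rho hP hV X h (hle.trans hκ1) ?_⟩
      have h1 := ht X hX
      have h2 : h ≤ (r1 * (c0 / (C1 * (N + 1))) ^ 40 / 100) * c0 / 4 := by
        rw [hh, div_le_iff₀ (by positivity)]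
        refine hκ3.trans (le_of_eq ?_)
        rw [hr1def, div_pow, div_pow, mul_pow]
        field_simp
      have h3 : (r1 * (c0 / (C1 * (N + 1))) ^ 40 / 100) ≤
          (VS S N r0 c0 C1 r1 e g).toSys.rho X := h1
      calc h ≤ (r1 * (c0 / (C1 * (N + 1))) ^ 40 / 100) * c0 / 4 := h2
        _ ≤ (VS S N r0 c0 C1 r1 e g).toSys.rho X * c0 / 4 := by gcongr
    have e1 : ((N : ℝ) + 1) / h = (N + 1) ^ 42 / κ := by
      rw [hh]
      field_simp
    rw [e1] at hcard3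
    calc (t.card : ℝ) ≤ ((t.image fun X => X.1.g).card : ℝ) * (t.image fun X => X.1.x).card := by
          exact_mod_cast hcard1
      _ ≤ (CL * (N + 1) ^ k) * (CR * ((N + 1) ^ 42 / κ) ^ 2) := by gcongr
      _ = N0 := by rw [hN0def]
  have hmain := x_ABS C a hC ha (LA S N) (VS S N r0 c0 C1 r1 e g).toSys hV.ax hPk N0 hinit
  have hn : (VS S N r0 c0 C1 r1 e g).toSys.n / (VS S N r0 c0 C1 r1 e g).toSys.c0 =
      C1 / c0 * (N + 1) := by
    show C1 * (N + 1) / c0 = _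
    ring
  rw [hn] at hmain
  have hle : s.card ≤ Fintype.card (LA S N) := by
    rw [← Finset.card_univ, ← Finset.card_attach]
    apply Finset.card_le_card_of_injOn (fun x : {x // x ∈ s} =>
      (⟨⟨1, x.1⟩, ⟨(hs x.1 x.2).1, [], rfl, by simpa using (hs x.1 x.2).2⟩⟩ : LA S N))
    · intro x _; simp
    · intro x _ y _ hxy
      have := congrArg (fun X : LA S N => X.1.x) hxy
      exact Subtype.ext this
  have hle' : (s.card : ℝ) ≤ Fintype.card (LA S N) := by exact_mod_cast hle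
  refine hle'.trans (hmain.trans (le_of_eq ?_))
  rw [hN0def]
  generalize ((N : ℝ) + 1) = M
  have e2 : M ^ (2 * k + (168 + 2 * a)) = (M ^ k * (M ^ 42) ^ 2 * M ^ a) ^ 2 := by
    rw [← pow_mul, ← pow_add, ← pow_add, ← pow_mul]
    congr 1
    ring
  rw [e2, div_pow, mul_pow (C1 / c0) M a, one_div]
  generalize M ^ k = A
  generalize M ^ 42 = B
  generalize M ^ a = D
  generalize (C1 / c0) ^ a = E
  rw [inv_pow, div_eq_mul_inv]
  generalize (κ ^ 2)⁻¹ = F
  ring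

end Pool.Agent.BGD
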