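import Pool.Agent.BGD.StA

/-!
# Polynomial bound for generalized diagonals: the number of linear parts of door words (helper73)

The linear part of the frame of a door word is a product of integer powers of the linear parts of the doors
with exponents at most the length of the word, and a flip.
-/

set_option autoImplicit false

open scoped ComplexConjugate

namespace Pool.Agent.BGD

theorem lab_conj_zpow (m : Mot) (n : ℤ) : conj (m.u ^ n) = m.u ^ (-n) := by
  have h : conj m.u = m.u⁻¹ := eq_inv_of_mul_eq_one_left m.conj_mul_self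
  rw [map_zpow₀, h, zpow_neg, inv_zpow]

theorem lab_ne_zero (m : Mot) : m.u ≠ 0 := by
  intro h
  have := m.hu
  rw [h, norm_zero] at this
  exact zero_ne_one this

/-- the rotation part of a frame is a product of powers -/
theorem lab_u (S : Rooms) [Fintype S.D] [DecidableEq S.D] (w : List S.D) :
    ∃ e : S.D → ℤ, (∀ d, |e d| ≤ w.length) ∧ (frame S w).u = ∏ d, (S.M d).u ^ (e d) := by
  induction w with
  | nil => exact ⟨fun _ => 0, by simp, by simp [frame, Mot.one_u]⟩
  | cons d ds ih =>
    obtain ⟨e, he, hu⟩ := ih
    have hd : (S.M d).u = ∏ c, (S.M c).u ^ (if c = d then (1 : ℤ) else 0) := by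
      rw [Finset.prod_eq_single d]
      · simp
      · intro b _ hb
        simp [hb]
      · intro h
        exact absurd (Finset.mem_univ d) h
    have hb : ∀ c, |(if c = d then (1 : ℤ) else 0)| ≤ 1 := by
      intro c
      split_ifs <;> simp
    by_cases hf : (S.M d).fl = true
    · refine ⟨fun c => (if c = d then (1 : ℤ) else 0) + -e c, ?_, ?_⟩
      · intro c
        have h1 := he c
        have h2 := hb c
        have h3 := abs_add_le (if c = d then (1 : ℤ) else 0) (-e c)
        rw [abs_neg] at h3
        rw [List.length_cons, Nat.cast_add, Nat.cast_one]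
        linarith
      · have h1 : frame S (d :: ds) = S.M d * frame S ds := rfl
        rw [h1, Mot.mul_u, if_pos hf, hu, map_prod]
        conv_lhs => rw [hd]
        rw [← Finset.prod_mul_distrib]
        apply Finset.prod_congr rfl
        intro c _
        rw [lab_conj_zpow, zpow_add₀ (lab_ne_zero _)]
    · refine ⟨fun c => (if c = d then (1 : ℤ) else 0) + e c, ?_, ?_⟩
      · intro c
        have h1 := he c
        have h2 := hb c
        have h3 := abs_add_le (if c = d then (1 : ℤ) else 0) (e c)
        rw [List.length_cons, Nat.cast_add, Nat.cast_one]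
        linarith
      · have h1 : frame S (d :: ds) = S.M d * frame S ds := rfl
        rw [h1, Mot.mul_u, if_neg hf, hu]
        conv_lhs => rw [hd]
        rw [← Finset.prod_mul_distrib]
        apply Finset.prod_congr rfl
        intro c _
        rw [zpow_add₀ (lab_ne_zero _)]

theorem m_LAB : Stmt_LAB := by
  intro S
  classical
  haveI := S.fD
  refine ⟨2 * 2 ^ Fintype.card S.D, Fintype.card S.D, by positivity, ?_⟩
  intro N s hs
  set B : Finset (S.D → ℤ) := Fintype.piFinset (fun _ => Finset.Icc (-(N : ℤ)) N) with hB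
  set T : Finset (Bool × (S.D → ℤ)) := Finset.univ ×ˢ B with hT
  have hinj : Set.InjOn (fun g : Mot => (g.fl, g.u)) (s : Set Mot) := by
    intro a ha b hb hab
    obtain ⟨w, -, hw⟩ := hs a ha
    obtain ⟨w', -, hw'⟩ := hs b hb
    have h1 : a.fl = b.fl := (Prod.ext_iff.1 hab).1
    have h2 : a.u = b.u := (Prod.ext_iff.1 hab).2
    have h3 : a.t = 0 := by rw [hw]; rfl
    have h4 : b.t = 0 := by rw [hw']; rfl
    exact Mot.ext h1 h2 (h3.trans h4.symm)
  have hsub : s.image (fun g : Mot => (g.fl, g.u)) ⊆
      T.image (fun p : Bool × (S.D → ℤ) => (p.1, ∏ d, (S.M d).u ^ (p.2 d))) := by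
    intro x hx
    rw [Finset.mem_image] at hx
    obtain ⟨g, hg, rfl⟩ := hx
    obtain ⟨w, hwN, hw⟩ := hs g hg
    obtain ⟨e, he, hu⟩ := lab_u S w
    rw [Finset.mem_image]
    refine ⟨(g.fl, e), ?_, ?_⟩
    · rw [hT, Finset.mem_product]
      refine ⟨Finset.mem_univ _, ?_⟩
      rw [hB, Fintype.mem_piFinset]
      intro d
      have h1 := he d
      have h2 : (w.length : ℤ) ≤ N := by exact_mod_cast hwN
      rw [Finset.mem_Icc]
      exact abs_le.1 (h1.trans h2)
    · have h5 : g.u = (frame S w).u := by rw [hw]; rfl
      rw [h5, hu]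
  have hcard : s.card ≤ T.card := by
    rw [← Finset.card_image_of_injOn hinj]
    exact (Finset.card_le_card hsub).trans Finset.card_image_le
  have hTc : T.card = 2 * (2 * N + 1) ^ Fintype.card S.D := by
    rw [hT, Finset.card_product, hB, Fintype.card_piFinset]
    have h6 : (Finset.Icc (-(N : ℤ)) N).card = 2 * N + 1 := by
      rw [Int.card_Icc]
      omega
    simp only [h6, Finset.prod_const, Finset.card_univ, Fintype.card_bool]
  rw [hTc] at hcard
  have h7 : (s.card : ℝ) ≤ 2 * (2 * (N : ℝ) + 1) ^ Fintype.card S.D := by exact_mod_cast hcard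
  refine h7.trans ?_
  have h8 : (2 * (N : ℝ) + 1) ^ Fintype.card S.D ≤ (2 * ((N : ℝ) + 1)) ^ Fintype.card S.D := by
    apply pow_le_pow_left₀ (by positivity)
    linarith
  rw [mul_pow] at h8
  linarith

end Pool.Agent.BGD
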