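import Pool.Agent.BGD.StA
import Pool.Agent.BGD.Arr
import Pool.Agent.BCX.Defs2

/-!
# Polynomial bound: the number of linear parts of door words in terms of the rank (helper82)

If the linear part of every door is `1` or the linear part of the reflection in a side of the polygon
`P`, and the directions of the sides generate a group of rank at most `r`, then the number of the linear
parts of the door words of length at most `N` is at most `C (N + 1) ^ r`.
-/

set_option autoImplicit false

open scoped ComplexConjugate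

namespace Pool.Agent.BGD

open Pool.Agent.Billiard Pool.Agent.Lib_helper45.Bil Pool.Agent.BCX

/-- the linear parts of the doors are trivial or reflections in the sides -/
def SideDoors (S : Rooms) (P : Polygon) : Prop :=
  ∀ d, (S.M d).lp = 1 ∨ ∃ a, (S.M d).lp = (Str.rM P a).lp

theorem mot_conj (m : Mot) : conj m.u = m.u⁻¹ := eq_inv_of_mul_eq_one_left m.conj_mul_self

theorem mot_ne (m : Mot) : m.u ≠ 0 := by
  intro h
  have := m.hu
  rw [h, norm_zero] at this
  exact zero_ne_one this

/-- the rotation part of a frame -/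
theorem labr_u {S : Rooms} {P : Polygon} (hS : SideDoors S P) {r : ℕ} {Nz : ℕ} {ζ : ℂ}
    {g : Fin r → ℂ} {z : ZMod P.k → ℕ} {f : ZMod P.k → Fin r → ℤ} (hN : 1 ≤ Nz) (hζ : ζ ^ Nz = 1)
    (hg : ∀ i, ‖g i‖ = 1)
    (hc : ∀ a, dir P a / conj (dir P a) =
        dir P 0 / conj (dir P 0) * ζ ^ (z a) * ∏ i, g i ^ (f a i)) (F : ℕ)
    (hF : ∀ a i, |f a i| ≤ F) (w : List S.D) :
    ∃ (m : ℤ) (e : Fin r → ℤ), (∀ i, |e i| ≤ F * w.length) ∧ (frame S w).u =
      (if (frame S w).fl then dir P 0 / conj (dir P 0) else 1) * ζ ^ m * ∏ i, g i ^ (e i) := by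
  have hζ0 : ζ ≠ 0 := by
    rintro rfl
    rw [zero_pow (by omega)] at hζ
    exact zero_ne_one hζ
  have hζn : ‖ζ‖ = 1 := by
    have h1 : ‖ζ‖ ^ Nz = 1 := by rw [← norm_pow, hζ, norm_one]
    exact (pow_eq_one_iff_of_nonneg (norm_nonneg _) (by omega)).1 h1
  have hg0 : ∀ i, g i ≠ 0 := fun i h => by
    have := hg i
    rw [h, norm_zero] at this
    exact zero_ne_one this
  have hcj : ∀ x : ℂ, ‖x‖ = 1 → conj x = x⁻¹ := fun x hx => by
    apply eq_inv_of_mul_eq_one_left
    rw [mul_comm, Complex.mul_conj, Complex.normSq_eq_norm_sq, hx]; simp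
  have hd0 : ‖dir P 0 / conj (dir P 0)‖ = 1 := by
    rw [norm_div, RCLike.norm_conj]
    exact div_self (norm_ne_zero_iff.2 (dir_ne 0))
  set c0 := dir P 0 / conj (dir P 0) with hc0
  have hc00 : c0 ≠ 0 := fun h => by
    rw [h, norm_zero] at hd0
    exact zero_ne_one hd0
  induction w with
  | nil => exact ⟨0, fun _ => 0, by simp, by simp [frame, Mot.one_u, Mot.one_fl]⟩
  | cons d w ih =>
    obtain ⟨m, e, he, hu⟩ := ih
    have hfr : frame S (d :: w) = S.M d * frame S w := rfl
    have hF0 : (0 : ℤ) ≤ F := Nat.cast_nonneg _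
    rcases hS d with h1 | ⟨a, h1⟩
    · have e1 : (S.M d).fl = false := congrArg Mot.fl h1
      have e2 : (S.M d).u = 1 := congrArg Mot.u h1
      refine ⟨m, e, ?_, ?_⟩
      · intro i
        have := he i
        rw [List.length_cons]
        push_cast
        nlinarith
      · rw [hfr, Mot.mul_u, Mot.mul_fl, e1, e2, one_mul]
        simp only [Bool.false_bne, Bool.false_eq_true, if_false, Bool.false_xor]
        exact hu
    · have e1 : (S.M d).fl = true := congrArg Mot.fl h1
      have e2 : (S.M d).u = dir P a / conj (dir P a) := congrArg Mot.u h1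
      refine ⟨(z a : ℤ) - m, fun i => f a i - e i, ?_, ?_⟩
      · intro i
        have h2 := he i
        have h3 := hF a i
        rw [List.length_cons]
        push_cast
        have h4 := abs_sub (f a i) (e i)
        nlinarith
      · rw [hfr, Mot.mul_u, Mot.mul_fl, e1, e2, hu, hc a]
        simp only [if_true, Bool.true_xor]
        have h5 : conj ((if (frame S w).fl = true then c0 else 1) * ζ ^ m * ∏ i, g i ^ e i) =
            (if (frame S w).fl = true then c0⁻¹ else 1) * ζ ^ (-m) * ∏ i, g i ^ (-(e i)) := by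
          rw [map_mul, map_mul, map_zpow₀, map_prod, hcj ζ hζn, zpow_neg, inv_zpow]
          congr 1
          · congr 1
            split
            · exact hcj c0 hd0
            · simp
          · apply Finset.prod_congr rfl
            intro i _
            rw [map_zpow₀, hcj (g i) (hg i), zpow_neg, inv_zpow]
        rw [h5]
        have h6 : ∏ i, g i ^ (f a i - e i) = (∏ i, g i ^ (f a i)) * ∏ i, g i ^ (-(e i)) := by
          rw [← Finset.prod_mul_distrib]
          apply Finset.prod_congr rfl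
          intro i _
          rw [sub_eq_add_neg, zpow_add₀ (hg0 i)]
        have h7 : ζ ^ ((z a : ℤ) - m) = ζ ^ (z a) * ζ ^ (-m) := by
          rw [sub_eq_add_neg, zpow_add₀ hζ0, zpow_natCast]
        rw [h6, h7]
        cases hfl : (frame S w).fl
        · simp only [Bool.false_eq_true, if_false, Bool.not_false, if_true]
          ring
        · simp only [if_true, Bool.not_true, Bool.false_eq_true, if_false]
          field_simp

/-- LABR -/
theorem labBound_rank {S : Rooms} {P : Polygon} (hS : SideDoors S P) {r : ℕ} (hr : RankLE P r) :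
    LabBound S r := by
  classical
  obtain ⟨Nz, ζ, g, z, f, hN, hζ, hg, hc⟩ := hr
  have hζ0 : ζ ≠ 0 := by
    rintro rfl
    rw [zero_pow (by omega)] at hζ
    exact zero_ne_one hζ
  -- a bound for the exponents
  have : NeZero P.k := ⟨by have := P.three_le; omega⟩
  obtain ⟨F, hF⟩ : ∃ F : ℕ, ∀ a i, |f a i| ≤ F := by
    refine ⟨∑ a, ∑ i, (f a i).natAbs, fun a i => ?_⟩
    have h1 : (f a i).natAbs ≤ ∑ i, (f a i).natAbs :=
      Finset.single_le_sum (f := fun i => (f a i).natAbs) (fun _ _ => Nat.zero_le _) (Finset.mem_univ i)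
    have h2 : ∑ i, (f a i).natAbs ≤ ∑ a, ∑ i, (f a i).natAbs :=
      Finset.single_le_sum (f := fun a => ∑ i, (f a i).natAbs) (fun _ _ => Nat.zero_le _)
        (Finset.mem_univ a)
    rw [Int.abs_eq_natAbs]
    exact_mod_cast h1.trans h2
  refine ⟨2 * Nz * (2 * F + 1) ^ r, by positivity, ?_⟩
  intro N s hs
  set B : Finset (Fin r → ℤ) := Fintype.piFinset (fun _ => Finset.Icc (-((F * N : ℕ) : ℤ)) (F * N : ℕ))
    with hB
  set T : Finset (Bool × Fin Nz × (Fin r → ℤ)) := Finset.univ ×ˢ Finset.univ ×ˢ B with hT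
  have hinj : Set.InjOn (fun g : Mot => (g.fl, g.u)) (s : Set Mot) := by
    intro a ha b hb hab
    obtain ⟨w, -, hw⟩ := hs a ha
    obtain ⟨w', -, hw'⟩ := hs b hb
    have h1 : a.fl = b.fl := (Prod.ext_iff.1 hab).1
    have h2 : a.u = b.u := (Prod.ext_iff.1 hab).2
    have h3 : a.t = 0 := by rw [hw]; rfl
    have h4 : b.t = 0 := by rw [hw']; rfl
    exact Mot.ext h1 h2 (h3.trans h4.symm)
  have hsub : s.image (fun g : Mot => (g.fl, g.u)) ⊆
      T.image (fun p : Bool × Fin Nz × (Fin r → ℤ) =>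
        (p.1, (if p.1 then dir P 0 / conj (dir P 0) else 1) * ζ ^ (p.2.1 : ℕ) *
          ∏ i, g i ^ (p.2.2 i))) := by
    intro x hx
    rw [Finset.mem_image] at hx
    obtain ⟨y, hy, rfl⟩ := hx
    obtain ⟨w, hwN, hw⟩ := hs y hy
    obtain ⟨m, e, he, hu⟩ := labr_u hS hN hζ hg hc F hF w
    rw [Finset.mem_image]
    have hNz : (0 : ℤ) < Nz := by exact_mod_cast hN
    have hm0 := Int.emod_nonneg m hNz.ne'
    have hm1 := Int.emod_lt_of_pos m hNz
    refine ⟨(y.fl, ⟨(m % Nz).toNat, by omega⟩, e), ?_, ?_⟩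
    · rw [hT, Finset.mem_product, Finset.mem_product]
      refine ⟨Finset.mem_univ _, Finset.mem_univ _, ?_⟩
      rw [hB, Fintype.mem_piFinset]
      intro i
      have h1 := he i
      have h2 : (w.length : ℤ) ≤ N := by exact_mod_cast hwN
      have h3 : (F : ℤ) * w.length ≤ F * N := mul_le_mul_of_nonneg_left h2 (Nat.cast_nonneg _)
      rw [Finset.mem_Icc]
      push_cast
      exact abs_le.1 (h1.trans h3)
    · have h5 : y.u = (frame S w).u := by rw [hw]; rfl
      have h6 : y.fl = (frame S w).fl := by rw [hw]; rfl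
      have h7 : ζ ^ ((m % Nz).toNat) = ζ ^ m := by
        rw [← zpow_natCast, Int.toNat_of_nonneg hm0]
        conv_rhs => rw [← Int.emod_add_mul_ediv m Nz]
        rw [zpow_add₀ hζ0, zpow_mul, zpow_natCast, hζ, one_zpow, mul_one]
      simp only [h5, h6, h7]
      rw [← hu]
  have hcard : s.card ≤ T.card := by
    rw [← Finset.card_image_of_injOn hinj]
    exact (Finset.card_le_card hsub).trans Finset.card_image_le
  have hTc : T.card = 2 * (Nz * (2 * (F * N) + 1) ^ r) := by
    rw [hT, Finset.card_product, Finset.card_product, hB, Fintype.card_piFinset]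
    have h6 : (Finset.Icc (-((F * N : ℕ) : ℤ)) (F * N : ℕ)).card = 2 * (F * N) + 1 := by
      rw [Int.card_Icc]
      omega
    simp only [h6, Finset.prod_const, Finset.card_univ, Fintype.card_bool, Fintype.card_fin]
  rw [hTc] at hcard
  have h7 : (s.card : ℝ) ≤ 2 * (Nz * (2 * ((F : ℝ) * N) + 1) ^ r) := by exact_mod_cast hcard
  refine h7.trans ?_
  have h8 : (2 * ((F : ℝ) * N) + 1) ^ r ≤ ((2 * F + 1) * ((N : ℝ) + 1)) ^ r := by
    apply pow_le_pow_left₀ (by positivity)
    have h9 : (0 : ℝ) ≤ N := Nat.cast_nonneg _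
    have h10 : (0 : ℝ) ≤ F := Nat.cast_nonneg _
    nlinarith
  rw [mul_pow] at h8
  have h11 : (0 : ℝ) ≤ Nz := Nat.cast_nonneg _
  calc 2 * (Nz * (2 * ((F : ℝ) * N) + 1) ^ r)
      ≤ 2 * (Nz * ((2 * F + 1) ^ r * ((N : ℝ) + 1) ^ r)) := by gcongr
    _ = 2 * Nz * (2 * F + 1) ^ r * ((N : ℝ) + 1) ^ r := by ring

end Pool.Agent.BGD
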