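import Pool.Agent.BGD.StA
import Pool.Agent.BGD.Att

/-!
# Polynomial bound for generalized diagonals: lengths of diagonals
-/

set_option autoImplicit false

open scoped ComplexConjugate

namespace Pool.Agent.BGD

namespace LEN

lemma exists_lb {α : Type*} (s : Finset α) (f : α → ℝ) :
    ∃ c : ℝ, 0 < c ∧ ∀ a ∈ s, 0 < f a → c ≤ f a := by
  classical
  induction s using Finset.induction_on with
  | empty => exact ⟨1, one_pos, by simp⟩
  | insert a s _ ih =>
    obtain ⟨c, hc, h⟩ := ih
    by_cases ha : 0 < f a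
    · refine ⟨min c (f a), lt_min hc ha, ?_⟩
      intro b hb hfb
      rcases Finset.mem_insert.1 hb with rfl | hb
      · exact min_le_right _ _
      · exact (min_le_left _ _).trans (h b hb hfb)
    · refine ⟨c, hc, ?_⟩
      intro b hb hfb
      rcases Finset.mem_insert.1 hb with rfl | hb
      · exact absurd hfb ha
      · exact h b hb hfb

lemma exists_ub {α : Type*} (s : Finset α) (f : α → ℝ) :
    ∃ C : ℝ, 0 < C ∧ ∀ a ∈ s, f a ≤ C := by
  classical
  induction s using Finset.induction_on with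
  | empty => exact ⟨1, one_pos, by simp⟩
  | insert a s _ ih =>
    obtain ⟨C, hC, h⟩ := ih
    refine ⟨max C (f a), lt_max_of_lt_left hC, ?_⟩
    intro b hb
    rcases Finset.mem_insert.1 hb with rfl | hb
    · exact le_max_right _ _
    · exact (h b hb).trans (le_max_left _ _)

/-- all vertices of a room are on the closed left side of a door -/
lemma side_le (S : Rooms) (d : S.D) (p : ℂ) (hp : p ∈ S.V (S.src d)) :
    0 ≤ cx (S.pa d - S.pb d) (p - S.pb d) := by
  by_cases h1 : p = S.pa d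
  · rw [h1, cx_self]
  by_cases h2 : p = S.pb d
  · rw [h2, sub_self]
    simp [cx]
  exact (S.side d p hp h1 h2).le

/-- an end of the next room which is the end `pa d` of the door `d` -/
lemma next_end (S : Rooms) (d : S.D) : ∃ p ∈ S.V (S.dst d), (S.M d).ap p = S.pa d := by
  have ha := S.a_inv d
  have hb := S.b_inv d
  by_cases hf : (S.M d).fl = true
  · refine ⟨S.pa (S.inv d), ?_, ?_⟩
    · have := S.mem_a (S.inv d)
      rwa [S.src_inv] at this
    · rw [ha, if_pos hf]
  · refine ⟨S.pb (S.inv d), ?_, ?_⟩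
    · have := S.mem_b (S.inv d)
      rwa [S.src_inv] at this
    · rw [hb, if_neg hf]

lemma len_ub (S : Rooms) (D : ℝ) (hD : ∀ r, ∀ p ∈ S.V r, ∀ q ∈ S.V r, ‖p - q‖ ≤ D)
    (ds : List S.D) : ∀ (r : S.R) (p v B A : ℂ), Run S r p v ds → A ∈ S.V r →
      B ∈ S.V (endR S r ds) → ‖(frame S ds).ap B - A‖ ≤ D * (ds.length + 1) := by
  induction ds with
  | nil =>
    intro r p v B A _ hA hB
    have := hD r B hB A hA
    simpa [frame, Mot.ap_one] using this
  | cons d ds ih =>
    intro r p v B A hrun hA hB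
    obtain ⟨h1, -, -, h4⟩ := hrun
    obtain ⟨p', hp', hp''⟩ := next_end S d
    have h5 := ih (S.dst d) _ _ B p' h4 hp' hB
    have h6 : S.pa d ∈ S.V r := by
      have := S.mem_a d
      rwa [h1] at this
    have h7 := hD r (S.pa d) h6 A hA
    have e : (frame S (d :: ds)).ap B - A =
        ((S.M d).ap ((frame S ds).ap B) - (S.M d).ap p') + (S.pa d - A) := by
      rw [hp'', frame, Mot.ap_mul]
      ring
    rw [e]
    refine (norm_add_le _ _).trans ?_
    rw [Mot.ap_sub_ap, Mot.norm_lin]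
    push_cast [List.length_cons]
    linarith

/-- the signs of the line at the inverse door -/
lemma signs_inv (S : Rooms) (d : S.D) (p v : ℂ) (h1 : cx v (S.pb d - p) < 0)
    (h2 : 0 < cx v (S.pa d - p)) :
    cx ((S.M d)⁻¹.lin v) (S.pa (S.inv d) - (S.M d)⁻¹.ap p) < 0 ∧
      0 < cx ((S.M d)⁻¹.lin v) (S.pb (S.inv d) - (S.M d)⁻¹.ap p) := by
  have ha := S.a_inv d
  have hb := S.b_inv d
  have e1 : S.pa (S.inv d) = (S.M d)⁻¹.ap (if (S.M d).fl then S.pa d else S.pb d) := by
    rw [← ha, Mot.ap_inv_ap]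
  have e2 : S.pb (S.inv d) = (S.M d)⁻¹.ap (if (S.M d).fl then S.pb d else S.pa d) := by
    rw [← hb, Mot.ap_inv_ap]
  rw [e1, e2, Mot.ap_sub_ap, Mot.ap_sub_ap, Mot.cx_lin, Mot.cx_lin, Mot.sg_inv, Mot.sg]
  by_cases hf : (S.M d).fl = true
  · rw [if_pos hf, if_pos hf, if_pos hf]
    constructor <;> linarith
  · rw [if_neg hf, if_neg hf, if_neg hf]
    constructor <;> linarith

/-- beyond the door -/
lemma side_inv (S : Rooms) (d : S.D) (q : ℂ)
    (h : 0 ≤ cx (S.pa (S.inv d) - S.pb (S.inv d)) (q - S.pb (S.inv d))) :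
    cx (S.pa d - S.pb d) ((S.M d).ap q - S.pb d) ≤ 0 := by
  have ha := S.a_inv d
  have hb := S.b_inv d
  have e1 : cx ((S.M d).ap (S.pa (S.inv d)) - (S.M d).ap (S.pb (S.inv d)))
      ((S.M d).ap q - (S.M d).ap (S.pb (S.inv d))) =
      (S.M d).sg * cx (S.pa (S.inv d) - S.pb (S.inv d)) (q - S.pb (S.inv d)) := by
    rw [Mot.ap_sub_ap, Mot.ap_sub_ap, Mot.cx_lin]
  rw [ha, hb, Mot.sg] at e1
  by_cases hf : (S.M d).fl = true
  · rw [if_pos hf, if_pos hf, if_pos hf] at e1
    rw [e1]
    linarith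
  · rw [if_neg hf, if_neg hf, if_neg hf] at e1
    have e2 : cx (S.pa d - S.pb d) ((S.M d).ap q - S.pb d) =
        -cx (S.pb d - S.pa d) ((S.M d).ap q - S.pa d) := by
      simp only [cx, Complex.sub_re, Complex.sub_im]
      ring
    rw [e2, e1]
    linarith

lemma cx_smul_right (A x : ℂ) (t : ℝ) : cx A ((t : ℂ) * x) = t * cx A x := by
  simp only [cx, Complex.mul_re, Complex.mul_im, Complex.ofReal_re, Complex.ofReal_im]
  ring

lemma plucker (A b v w : ℂ) (h : cx v w = 0) : cx A w * cx b v = cx A v * cx b w := by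
  simp only [cx] at h ⊢
  linear_combination (-(A.re * b.im - A.im * b.re)) * h

/-- the point `q` of a line which enters a room through `e` and leaves it through `d` is beyond `e` if it
is beyond `d` -/
lemma room (S : Rooms) (e d : S.D) (hed : S.src e = S.src d) (p v q : ℂ)
    (he1 : cx v (S.pa e - p) < 0) (he2 : 0 < cx v (S.pb e - p))
    (hd1 : cx v (S.pb d - p) < 0) (hd2 : 0 < cx v (S.pa d - p)) (hq : cx v (q - p) = 0)
    (h : cx (S.pa d - S.pb d) (q - S.pb d) ≤ 0) : 0 ≤ cx (S.pa e - S.pb e) (q - S.pb e) := by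
  have ma : S.pa d ∈ S.V (S.src e) := by
    rw [hed]; exact S.mem_a d
  have mb : S.pb d ∈ S.V (S.src e) := by
    rw [hed]; exact S.mem_b d
  have s1 := side_le S e _ ma
  have s2 := side_le S e _ mb
  set a := S.pa d with ha
  set b := S.pb d with hb
  set a' := S.pa e with ha'
  set b' := S.pb e with hb'
  obtain ⟨α, hα⟩ : ∃ α, α = cx v (a - p) := ⟨_, rfl⟩
  obtain ⟨β, hβ⟩ : ∃ β, β = -cx v (b - p) := ⟨_, rfl⟩
  have hα0 : 0 < α := by rw [hα]; exact hd2
  have hβ0 : 0 < β := by rw [hβ]; linarith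
  have hαβ : 0 < α + β := by linarith
  -- `W = (α + β) (q - X)`, `X` the crossing point with the door `d`
  set W : ℂ := ((α + β : ℝ) : ℂ) * (q - p) - (β : ℂ) * (a - p) - (α : ℂ) * (b - p) with hW
  have hvW : cx v W = 0 := by
    rw [hW, cx_sub_right, cx_sub_right, cx_smul_right, cx_smul_right, cx_smul_right, hq, ← hα]
    have : cx v (b - p) = -β := by rw [hβ]; ring
    rw [this]
    ring
  have hA : cx (a' - b') W = (α + β) * cx (a' - b') (q - b') -
      β * cx (a' - b') (a - b') - α * cx (a' - b') (b - b') := by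
    rw [hW, cx_sub_right, cx_sub_right, cx_smul_right, cx_smul_right, cx_smul_right]
    simp only [cx, Complex.sub_re, Complex.sub_im]
    ring
  have hB : cx (a - b) W = (α + β) * cx (a - b) (q - b) := by
    rw [hW, cx_sub_right, cx_sub_right, cx_smul_right, cx_smul_right, cx_smul_right]
    simp only [cx, Complex.sub_re, Complex.sub_im]
    ring
  have k1 : cx (a - b) v = -(α + β) := by
    rw [hα, hβ]
    simp only [cx, Complex.sub_re, Complex.sub_im]
    ring
  have k2 : 0 < cx (a' - b') v := by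
    have : cx (a' - b') v = -(cx v (a' - p)) + cx v (b' - p) := by
      simp only [cx, Complex.sub_re, Complex.sub_im]
      ring
    rw [this]
    linarith
  have key := plucker (a' - b') (a - b) v W hvW
  rw [k1, hB] at key
  have key2 : cx (a' - b') W = -(cx (a' - b') v * cx (a - b) (q - b)) := by
    have h1 : (α + β) * (cx (a' - b') W + cx (a' - b') v * cx (a - b) (q - b)) = 0 := by
      linear_combination -key
    have h2 := (mul_eq_zero.1 h1).resolve_left hαβ.ne'
    linarith
  have h3 : 0 ≤ cx (a' - b') W := by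
    rw [key2]
    nlinarith
  have h4 : 0 ≤ (α + β) * cx (a' - b') (q - b') := by
    rw [hA] at h3
    have h5 := mul_nonneg hβ0.le s1
    have h6 := mul_nonneg hα0.le s2
    linarith
  exact nonneg_of_mul_nonneg_right h4 hαβ

/-- the end of a corridor is beyond the door through which the line has entered the first room -/
lemma beyond (S : Rooms) (ds : List S.D) : ∀ (r : S.R) (p v B : ℂ) (e : S.D), S.src e = r →
    cx v (S.pa e - p) < 0 → 0 < cx v (S.pb e - p) → Run S r p v ds → B ∈ S.V (endR S r ds) →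
    cx v ((frame S ds).ap B - p) = 0 →
    0 ≤ cx (S.pa e - S.pb e) ((frame S ds).ap B - S.pb e) := by
  induction ds with
  | nil =>
    intro r p v B e he _ _ _ hB _
    have h1 : (frame S ([] : List S.D)).ap B = B := by rw [frame, Mot.ap_one]
    rw [h1]
    apply side_le
    rw [he]
    exact hB
  | cons d ds ih =>
    intro r p v B e he he1 he2 hrun hB hQ
    obtain ⟨h1, h2, h3, h4⟩ := hrun
    obtain ⟨i1, i2⟩ := signs_inv S d p v h2 h3
    have e1 : (frame S (d :: ds)).ap B = (S.M d).ap ((frame S ds).ap B) := by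
      rw [frame, Mot.ap_mul]
    have h5 : cx ((S.M d)⁻¹.lin v) ((frame S ds).ap B - (S.M d)⁻¹.ap p) = 0 := by
      have e2 : (frame S ds).ap B = (S.M d)⁻¹.ap ((frame S (d :: ds)).ap B) := by
        rw [e1, Mot.ap_inv_ap]
      rw [e2, Mot.ap_sub_ap, Mot.cx_lin, hQ, mul_zero]
    have h6 := ih (S.dst d) _ _ B (S.inv d) (S.src_inv d) i1 i2 h4 hB h5
    have h7 := side_inv S d _ h6
    rw [← e1] at h7
    exact room S e d (he.trans h1.symm) p v _ he1 he2 h2 h3 hQ h7

/-- the end of a corridor is beyond the first door -/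
lemma beyond_first (S : Rooms) (r : S.R) (p v B : ℂ) (d : S.D) (ds : List S.D)
    (hrun : Run S r p v (d :: ds)) (hB : B ∈ S.V (endR S r (d :: ds)))
    (hQ : cx v ((frame S (d :: ds)).ap B - p) = 0) :
    cx (S.pa d - S.pb d) ((frame S (d :: ds)).ap B - S.pb d) ≤ 0 := by
  obtain ⟨h1, h2, h3, h4⟩ := hrun
  obtain ⟨i1, i2⟩ := signs_inv S d p v h2 h3
  have e1 : (frame S (d :: ds)).ap B = (S.M d).ap ((frame S ds).ap B) := by
    rw [frame, Mot.ap_mul]
  have h5 : cx ((S.M d)⁻¹.lin v) ((frame S ds).ap B - (S.M d)⁻¹.ap p) = 0 := by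
    have e2 : (frame S ds).ap B = (S.M d)⁻¹.ap ((frame S (d :: ds)).ap B) := by
      rw [e1, Mot.ap_inv_ap]
    rw [e2, Mot.ap_sub_ap, Mot.cx_lin, hQ, mul_zero]
  have h6 := beyond S ds (S.dst d) _ _ B (S.inv d) (S.src_inv d) i1 i2 h4 hB h5
  rw [e1]
  exact side_inv S d _ h6

end LEN

open LEN in
theorem m_LEN : Stmt_LEN := by
  classical
  intro S
  have := S.fR
  have := S.fD
  set U : Finset ℂ := Finset.univ.biUnion S.V with hU
  have hmem : ∀ r, ∀ p ∈ S.V r, p ∈ U := fun r p hp =>
    Finset.mem_biUnion.2 ⟨r, Finset.mem_univ _, hp⟩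
  obtain ⟨D, hD0, hD⟩ := exists_ub (U ×ˢ U) (fun x => ‖x.1 - x.2‖)
  obtain ⟨c1, hc1, h1⟩ := exists_lb (U ×ˢ U) (fun x => ‖x.1 - x.2‖)
  obtain ⟨c2, hc2, h2⟩ := exists_lb ((Finset.univ : Finset S.D) ×ˢ U)
    (fun x => cx (S.pa x.1 - S.pb x.1) (x.2 - S.pb x.1) / ‖S.pa x.1 - S.pb x.1‖)
  refine ⟨min c1 c2, D, lt_min hc1 hc2, hD0, ?_⟩
  intro x hx
  refine ⟨?_, ?_⟩
  · obtain ⟨r, A, ds, B⟩ := x
    cases ds with
    | nil =>
      refine (min_le_left _ _).trans ?_
      have e1 : (⟨r, A, [], B⟩ : Obj S).hol = B - A := by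
        show (frame S ([] : List S.D)).ap B - A = B - A
        rw [frame, Mot.ap_one]
      have hne := hx.ne
      rw [e1] at hne ⊢
      exact h1 (B, A) (Finset.mk_mem_product (hmem r B hx.memB) (hmem r A hx.memA))
        (norm_pos_iff.2 hne)
    | cons d ds =>
      refine (min_le_right _ _).trans ?_
      set x : Obj S := ⟨r, A, d :: ds, B⟩ with hx'
      have hrun : Run S r A x.hol (d :: ds) := hx.run
      have hQ : cx x.hol (x.Q - A) = 0 := cx_self x.hol
      have h3 := beyond_first S r A x.hol B d ds hrun hx.memB hQ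
      obtain ⟨g1, g2, g3, -⟩ := hrun
      have hAa : A ≠ S.pa d := by
        rintro rfl
        rw [sub_self] at g3
        simp [cx] at g3
      have hAb : A ≠ S.pb d := by
        rintro rfl
        rw [sub_self] at g2
        simp [cx] at g2
      have hA : A ∈ S.V (S.src d) := by
        rw [g1]; exact hx.memA
      have h4 := S.side d A hA hAa hAb
      have hn : 0 < ‖S.pa d - S.pb d‖ := norm_pos_iff.2 (sub_ne_zero.2 (S.ne d))
      have h5 := h2 (d, A) (Finset.mk_mem_product (Finset.mem_univ _) (hmem _ A hA))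
        (div_pos h4 hn)
      refine h5.trans ?_
      rw [div_le_iff₀ hn]
      show cx (S.pa d - S.pb d) (A - S.pb d) ≤ ‖x.hol‖ * ‖S.pa d - S.pb d‖
      have h6 := abs_cx_le (S.pa d - S.pb d) x.hol
      have h7 : cx (S.pa d - S.pb d) x.hol =
          cx (S.pa d - S.pb d) (x.Q - S.pb d) - cx (S.pa d - S.pb d) (A - S.pb d) := by
        rw [← cx_sub_right]
        congr 1
        show x.Q - A = _
        ring
      have h8 := neg_abs_le (cx (S.pa d - S.pb d) x.hol)
      have h9 : cx (S.pa d - S.pb d) (x.Q - S.pb d) ≤ 0 := h3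
      rw [mul_comm]
      linarith
  · have h3 := len_ub S D (fun r p hp q hq => hD (p, q)
      (Finset.mk_mem_product (hmem r p hp) (hmem r q hq))) x.ds x.r x.A x.hol x.B x.A hx.run
      hx.memA hx.memB
    exact h3

end Pool.Agent.BGD
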