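import Pool.Agent.BGD.PackU
import Pool.Agent.BGD.Glue
import Pool.Agent.BGD.LEN
import Pool.Agent.BGD.EndAll

/-!
# The packing inequality (helper82, helper92)
-/

set_option autoImplicit false

open scoped ComplexConjugate
open InnerProductGeometry

namespace Pool.Agent.BGD

variable {S : Rooms}

/-- (END) every door end close to a diagonal is over it -/
def Stmt_END : Prop := ∀ S : Rooms, ∃ rE : ℝ, EndAll S rE

/-- the parts of a lifted diagonal as parts in one chart -/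
theorem parts_part {c : ℝ} {Y P Q : Lift S} {q : ℂ} (h : Parts Y P Q q)
    (hang : angle P.vec Q.vec < c) :
    (∃ a, Part c Y.x P.x a ∧ P.g = Y.g * (frame S a).lp ∧
      angle P.vec Y.vec = angle Y.x.hol ((frame S a).lin P.x.hol)) ∧
    (∃ a, Part c Y.x Q.x a ∧ Q.g = Y.g * (frame S a).lp ∧
      angle Q.vec Y.vec = angle Y.x.hol ((frame S a).lin Q.x.hol)) := by
  obtain ⟨a, hS, hP, hQ⟩ := h
  have f0 : frame S ([] : List S.D) = 1 := rfl
  have e1 : Q.vec = Y.g.lin ((frame S a).lin Q.x.hol) := by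
    rw [Lift.vec, hQ, Mot.lin_mul, Mot.lp_lin]
  have e2 : P.vec = Y.g.lin P.x.hol := by rw [Lift.vec, hP]
  have e3 : Y.vec = Y.g.lin Y.x.hol := rfl
  have e4 : angle P.x.hol ((frame S a).lin Q.x.hol) < c := by
    rw [e1, e2, angle_lin] at hang; exact hang
  refine ⟨⟨[], Part.left q Q.x a hS rfl e4, ?_, ?_⟩, ⟨a, Part.right q P.x hS e4, hQ, ?_⟩⟩
  · rw [f0, lp_one, mul_one]; exact hP
  · rw [f0, Mot.lin_one, e2, e3, angle_lin, angle_comm]
  · rw [e1, e3, angle_lin, angle_comm]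

variable {N : ℕ} {r0 c0 C1 r1 : ℝ} {e g : LA S N → LA S N}

/-- chains of lifted diagonals are descents -/
theorem chain_desc (hP : PSpec S N r0 e g) (hr1 : r1 ≤ 1) {x u : LA S N} {V : ℝ}
    (h : Chain (VS S N r0 c0 C1 r1 e g).toSys x u V) :
    ∃ a, Desc r1 x.1.x u.1.x a V ∧ u.1.g = x.1.g * (frame S a).lp := by
  induction h with
  | refl => exact ⟨[], Desc.refl, by
      have f0 : frame S ([] : List S.D) = 1 := rfl
      rw [f0, lp_one, mul_one]⟩
  | @step y p V hc hr hp ih =>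
    obtain ⟨a, hD, hg⟩ := ih
    have hr' : (VS S N r0 c0 C1 r1 e g).toSys.rho y < r1 := hr
    have hL : Low S r0 y.1.x := by
      by_contra hcon
      have h1 : (VS S N r0 c0 C1 r1 e g).toSys.rho y = 1 := by
        simp only [VSys.toSys]
        exact if_neg hcon
      rw [h1] at hr'
      linarith
    have hrho : (VS S N r0 c0 C1 r1 e g).toSys.rho y = angle (e y).1.vec (g y).1.vec := by
      simp only [VSys.toSys]
      exact if_pos hL
    rw [hrho] at hr'
    obtain ⟨q, -, -, -, -, -, hparts, -⟩ := hP y hL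
    have hd : (VS S N r0 c0 C1 r1 e g).toSys.d p y = angle p.1.vec y.1.vec := rfl
    have hp' : p = e y ∨ p = g y := hp
    have fin : ∀ a', Part r1 y.1.x p.1.x a' → p.1.g = y.1.g * (frame S a').lp →
        angle p.1.vec y.1.vec = angle y.1.x.hol ((frame S a').lin p.1.x.hol) →
        ∃ a, Desc r1 x.1.x p.1.x a (V + (VS S N r0 c0 C1 r1 e g).toSys.d p y) ∧
          p.1.g = x.1.g * (frame S a).lp := by
      intro a' h1 h2 h3
      refine ⟨a ++ a', ?_, ?_⟩
      · rw [hd, h3]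
        exact Desc.step hD h1
      · rw [h2, hg, mul_assoc, lp_mul_lp, frame_append]
    rcases hparts with hh | hh
    · obtain ⟨⟨a1, b1, b2, b3⟩, ⟨a2, d1, d2, d3⟩⟩ := parts_part hh hr'
      rcases hp' with rfl | rfl
      · exact fin a1 b1 b2 b3
      · exact fin a2 d1 d2 d3
    · rw [angle_comm] at hr'
      obtain ⟨⟨a1, b1, b2, b3⟩, ⟨a2, d1, d2, d3⟩⟩ := parts_part hh hr'
      rcases hp' with rfl | rfl
      · exact fin a2 d1 d2 d3
      · exact fin a1 b1 b2 b3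

theorem exists_Dm (S : Rooms) : ∃ Dm : ℝ, 0 < Dm ∧ ∀ r, ∀ p ∈ S.V r, ∀ q ∈ S.V r, ‖p - q‖ ≤ Dm := by
  classical
  have := S.fR
  obtain ⟨C, hC, h⟩ := LEN.exists_ub ((Finset.univ : Finset S.R).sigma fun r => S.V r ×ˢ S.V r)
    (fun x => ‖x.2.1 - x.2.2‖)
  refine ⟨C, hC, fun r p hp q hq => ?_⟩
  exact h ⟨r, (p, q)⟩ (Finset.mem_sigma.2 ⟨Finset.mem_univ _, Finset.mem_product.2 ⟨hp, hq⟩⟩)

/-- PACK -/
theorem m_PACK (hEND : Stmt_END) : Stmt_PACK := by
  refine ⟨8192, by norm_num, fun S => ⟨1, one_pos, ?_⟩⟩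
  intro r0 c0 C1 hr0 _ hc0 hC1
  obtain ⟨rE, hE⟩ := hEND S
  obtain ⟨κ, hκ⟩ := Pk.exists_kap S
  obtain ⟨Dm, hDm0, hDm⟩ := exists_Dm S
  set K := Dm + 3 * C1 with hK
  have hK0 : 0 < K := by positivity
  set m := min rE κ with hm
  have hm0 : 0 < m := lt_min hE.1 hκ.1
  refine ⟨m / (16 * K), by positivity, ?_⟩
  intro N e g r1 hr1 hr1' hP hV
  intro u D R h hD0 hD hR0 h0 s hs
  have hN : (0 : ℝ) ≤ N := Nat.cast_nonneg _
  have hr1c : r1 ≤ 1 / 100 := hV.r1le
  have hD' : D ≤ r1 := hD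
  have hD100 : D ≤ 1 / 100 := hD'.trans hr1c
  set R' := min R (C1 * (N + 1)) with hR'
  have hR'0 : 0 < R' := lt_min hR0 (by positivity)
  set L := K * (N + 1) with hLdef
  have hDL : D * L ≤ m / 16 := by
    have h1 : D ≤ m / (16 * K) / (N + 1) := hD'.trans hr1'
    calc D * L ≤ m / (16 * K) / (N + 1) * (K * (N + 1)) :=
          mul_le_mul_of_nonneg_right h1 (by positivity)
      _ = m / 16 := by field_simp
  have hm1 : m ≤ rE := min_le_left _ _
  have hm2 : m ≤ κ := min_le_right _ _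
  have key : ∀ x : LA S N, ∃ a : List S.D, x ∈ s → (∃ b, Over x.1.x u.1.x a b D R') ∧
      u.1.g = x.1.g * (frame S a).lp := by
    intro x
    by_cases hx : x ∈ s
    · obtain ⟨⟨V, hVD, hch⟩, hl, -, -⟩ := hs x hx
      obtain ⟨a, hDe, hga⟩ := chain_desc hP (by linarith) hch
      have hl1 : ‖x.1.x.hol‖ ≤ R' := by
        have e1 : ‖x.1.vec‖ = ‖x.1.x.hol‖ := Mot.norm_lin _ _
        rw [← e1]
        exact le_min hl (hV.ln x)
      obtain ⟨b, hb⟩ := over_of_desc hr1c x.2.gd hDe hVD hD100 hl1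
      exact ⟨a, fun _ => ⟨⟨b, hb⟩, hga⟩⟩
    · exact ⟨[], fun h => absurd h hx⟩
  choose a ha using key
  have hclear : ∀ x ∈ s, x.1.x.Clear (h / 4) := by
    intro x hx
    obtain ⟨-, -, h1, h2⟩ := hs x hx
    have h3 : (VS S N r0 c0 C1 r1 e g).toSys.rho x < r1 := h2
    exact (clear_pack hP hV x (by linarith) h h1).1
  have hlen : ∀ x : LA S N, Dm * x.1.x.ds.length + 2 * R' ≤ L := by
    intro x
    obtain ⟨w, -, hw⟩ := x.2.lab
    have h1 : (x.1.x.ds.length : ℝ) ≤ N := by exact_mod_cast (by omega : x.1.x.ds.length ≤ N)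
    have h2 : R' ≤ C1 * (N + 1) := min_le_right _ _
    have h3 : Dm * x.1.x.ds.length ≤ Dm * (N + 1) := by
      apply mul_le_mul_of_nonneg_left _ hDm0.le; linarith
    have h4 : 0 ≤ C1 * (N + 1) := by positivity
    rw [hLdef, hK]
    linarith
  have h3R : 3 * R' ≤ L := by
    have h2 : R' ≤ C1 * (N + 1) := min_le_right _ _
    have h4 : 0 ≤ Dm * (N + 1) := by positivity
    rw [hLdef, hK]
    linarith
  have hinj : ∀ x ∈ s, ∀ y ∈ s,
      |offU x.1.x u.1.x (a x) - offU y.1.x u.1.x (a y)| < h / 32 →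
      |sinU x.1.x u.1.x (a x) - sinU y.1.x u.1.x (a y)| < h / (64 * R') → x = y := by
    intro x hx y hy h1 h2
    obtain ⟨⟨b, hb⟩, hg⟩ := ha x hx
    obtain ⟨⟨b', hb'⟩, hg'⟩ := ha y hy
    have e1 : h / 32 = h / 4 / 8 := by ring
    have e2 : h / (64 * R') = h / 4 / (16 * R') := by
      field_simp; norm_num
    rw [e1] at h1
    rw [e2] at h2
    obtain ⟨f1, f2⟩ := cell_eq hκ hE hDm hb hb' hD0 hD100 hR'0 (by positivity) (hclear x hx)
      (hclear y hy) L (hlen x) (hlen y) h3R (by linarith) (by linarith) h1 h2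
    apply Subtype.ext
    apply Lift.ext
    · rw [hg, f2] at hg'
      exact mul_right_cancel hg'
    · exact f1
  have hoff : ∀ x ∈ s, |offU x.1.x u.1.x (a x)| ≤ D * R' := fun x hx => by
    obtain ⟨⟨b, hb⟩, hg⟩ := ha x hx
    exact hb.off
  have hsin : ∀ x ∈ s, |sinU x.1.x u.1.x (a x)| ≤ D := fun x hx => by
    obtain ⟨⟨b, hb⟩, hg⟩ := ha x hx
    exact (unit_angle (norm_uni hb.gu.ne) (norm_dirU hb.gx.ne (a x)) hb.ang (by linarith)).2.1
  have hcard := card_le_cells s (fun x => offU x.1.x u.1.x (a x)) (fun x => sinU x.1.x u.1.x (a x))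
    (D * R') D (h / 32) (h / (64 * R')) (by positivity) hD0.le (by positivity) (by positivity)
    hoff hsin hinj
  set X := D * R' / h with hX
  have hX0 : 0 ≤ X := by positivity
  have e1 : D * R' / (h / 32) = 32 * X := by rw [hX]; field_simp
  have e2 : D / (h / (64 * R')) = 64 * X := by rw [hX]; field_simp
  rw [e1, e2] at hcard
  have hXR : X ≤ D * R / h := by
    rw [hX]
    apply div_le_div_of_nonneg_right _ h0.le
    exact mul_le_mul_of_nonneg_left (min_le_left _ _) hD0.le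
  have h5 : (2 * (32 * X) + 2) * (2 * (64 * X) + 2) ≤ 8192 * (1 + X) ^ 2 := by nlinarith
  have h6 : (1 + X) ^ 2 ≤ (1 + D * R / h) ^ 2 := pow_le_pow_left₀ (by linarith) (by linarith) 2
  calc (s.card : ℝ) ≤ (2 * (32 * X) + 2) * (2 * (64 * X) + 2) := hcard
    _ ≤ 8192 * (1 + X) ^ 2 := h5
    _ ≤ 8192 * (1 + D * R / h) ^ 2 := by linarith

theorem m_END : Stmt_END := fun S => by
  obtain ⟨r0, h0, h1, -⟩ := end_exists S
  exact ⟨r0, h0, h1⟩

/-- the packing inequality, with an absolute constant -/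
theorem x_PACK : Stmt_PACK := m_PACK m_END

end Pool.Agent.BGD
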