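import Pool.Agent.BGD.Split2

/-!
# Splitting a generalized diagonal at its lowest door end: existence (helper54)
-/

set_option autoImplicit false

open scoped ComplexConjugate

namespace Pool.Agent.BGD

variable {S : Rooms}

namespace Spl

/-- the constant of the rooms -/
def R0 (S : Rooms) (r0 : ℝ) : Prop := ∀ d, ∀ p ∈ S.V (S.src d), p ≠ S.pa d →
  p ≠ S.pb d → r0 * ‖S.pa d - S.pb d‖ ≤ cx (S.pa d - S.pb d) (p - S.pb d)

theorem cx_self (z : ℂ) : cx z z = 0 := by simp [cx]; ring

theorem norm_ud_pos {ds : List S.D} {A v : ℂ} {i : ℕ} {h : i < ds.length} (hp : Ps ds A v i h) :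
    0 < ‖up ds i h - dn ds i h‖ := by
  rw [norm_pos_iff, sub_ne_zero]
  intro he
  obtain ⟨h1, h2⟩ := hp
  rw [he] at h1
  linarith

theorem weak_left {r0 : ℝ} (h0 : 0 < r0) (hr : R0 S r0) {r : S.R} {ds : List S.D} (hf : Fit r ds)
    (i : ℕ) (h : i < ds.length) {z : ℂ} (hz : z ∈ Vx r ds i) :
    0 ≤ cx (up ds i h - dn ds i h) (z - dn ds i h) := by
  by_cases h1 : z = up ds i h
  · rw [h1, cx_self]
  by_cases h2 : z = dn ds i h
  · rw [h2, sub_self, cx_zero_right]
  have := left_of hr r ds i h hf hz h1 h2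
  have h3 : 0 ≤ r0 * ‖up ds i h - dn ds i h‖ := by positivity
  linarith

theorem weak_right {r0 : ℝ} (h0 : 0 < r0) (hr : R0 S r0) {r : S.R} {ds : List S.D}
    (i : ℕ) (h : i < ds.length) {z : ℂ} (hz : z ∈ Vx r ds (i + 1)) :
    cx (up ds i h - dn ds i h) (z - dn ds i h) ≤ 0 := by
  by_cases h1 : z = up ds i h
  · rw [h1, cx_self]
  by_cases h2 : z = dn ds i h
  · rw [h2, sub_self, cx_zero_right]
  have := right_of hr r ds i h hz h1 h2
  have h3 : 0 ≤ r0 * ‖up ds i h - dn ds i h‖ := by positivity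
  linarith

/-- the height of `z` is between the heights of the two ends of every door -/
def Rng (ds : List S.D) (A v z : ℂ) : Prop :=
  ∀ i (h : i < ds.length), cx v (dn ds i h - A) ≤ cx v (z - A) ∧ cx v (z - A) ≤ cx v (up ds i h - A)

theorem left_all {r0 : ℝ} (h0 : 0 < r0) (hr : R0 S r0) {r : S.R} {ds : List S.D} (hf : Fit r ds)
    {A v : ℂ} (hp : ∀ i (h : i < ds.length), Ps ds A v i h) {z : ℂ} (hz : Rng ds A v z)
    (k : ℕ) (hk : k < ds.length) (hzk : z ∈ Vx r ds k) (h1 : z ≠ up ds k hk) (h2 : z ≠ dn ds k hk) :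
    ∀ i (h : i < ds.length), k ≤ i → 0 < cx (up ds i h - dn ds i h) (z - dn ds i h) := by
  intro i h hki
  induction i, hki using Nat.le_induction with
  | base =>
    have h3 := left_of hr r ds k hk hf hzk h1 h2
    have h4 := norm_ud_pos (hp k hk)
    have h5 : 0 < r0 * ‖up ds k hk - dn ds k hk‖ := by positivity
    linarith
  | succ i hki ih =>
    have hi : i < ds.length := by omega
    have h3 := ih hi
    exact prop_left (hp i hi).1 (hp i hi).2 (hp (i + 1) h).1 (hp (i + 1) h).2
      (weak_left h0 hr hf (i + 1) h (up_mem' r ds i hi))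
      (weak_left h0 hr hf (i + 1) h (dn_mem' r ds i hi)) h3 (hz i hi).1 (hz i hi).2

theorem right_all {r0 : ℝ} (h0 : 0 < r0) (hr : R0 S r0) {r : S.R} {ds : List S.D} (hf : Fit r ds)
    {A v : ℂ} (hp : ∀ i (h : i < ds.length), Ps ds A v i h) {z : ℂ} (hz : Rng ds A v z)
    (k : ℕ) (hk : k < ds.length) (hzk : z ∈ Vx r ds (k + 1)) (h1 : z ≠ up ds k hk)
    (h2 : z ≠ dn ds k hk) :
    ∀ m i (h : i < ds.length), i + m = k → cx (up ds i h - dn ds i h) (z - dn ds i h) < 0 := by
  intro m
  induction m with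
  | zero =>
    intro i h hik
    have hik' : i = k := by omega
    subst hik'
    have h3 := right_of hr r ds i hk hzk h1 h2
    have h4 := norm_ud_pos (hp i hk)
    have h5 : 0 < r0 * ‖up ds i hk - dn ds i hk‖ := by positivity
    linarith
  | succ m ih =>
    intro i h hik
    have hi : i + 1 < ds.length := by omega
    have h3 := ih (i + 1) hi (by omega)
    exact prop_right (hp i h).1 (hp i h).2 (hp (i + 1) hi).1 (hp (i + 1) hi).2
      (weak_right h0 hr i h (up_mem r ds (i + 1) hi hf))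
      (weak_right h0 hr i h (dn_mem r ds (i + 1) hi hf)) h3 (hz (i + 1) hi).1 (hz (i + 1) hi).2

theorem mem_ends_iff (x : Obj S) (q : ℂ) :
    q ∈ x.ends ↔ ∃ i, ∃ h : i < x.ds.length, q = up x.ds i h ∨ q = dn x.ds i h := by
  unfold Obj.ends up dn
  simp only [Set.mem_ofPred_eq]
  constructor
  · rintro ⟨i, h, hq⟩
    refine ⟨i, h, ?_⟩
    by_cases hfl : (frame S (x.ds.take i)).fl = true
    · rw [if_pos hfl, if_pos hfl]; tauto
    · rw [if_neg hfl, if_neg hfl]; tauto
  · rintro ⟨i, h, hq⟩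
    refine ⟨i, h, ?_⟩
    by_cases hfl : (frame S (x.ds.take i)).fl = true
    · rw [if_pos hfl, if_pos hfl] at hq; tauto
    · rw [if_neg hfl, if_neg hfl] at hq; tauto

theorem A_mem {x : Obj S} (hx : x.GD) : x.A ∈ Vx x.r x.ds 0 := by
  refine ⟨x.A, ?_, ?_⟩
  · simpa [endR] using hx.memA
  · simp [frame, Mot.ap_one]

theorem Q_mem {x : Obj S} (hx : x.GD) : x.Q ∈ Vx x.r x.ds x.ds.length := by
  refine ⟨x.B, ?_, ?_⟩
  · rw [List.take_length]; exact hx.memB
  · rw [List.take_length]; rfl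

theorem cx_hol_Q (x : Obj S) : cx x.hol (x.Q - x.A) = 0 := cx_self x.hol

/-- The data of the splitting. -/
theorem split_core {r0 : ℝ} (h0 : 0 < r0) (hr : R0 S r0) {x : Obj S} (hx : x.GD) {q : ℂ}
    (hq : q ∈ x.ends) (hmin : ∀ q' ∈ x.ends, |x.ht q| ≤ |x.ht q'|) (hlow : |x.ht q| < r0) :
    ∃ y z a, Split x q y z a ∧ 0 < x.tm q ∧ x.tm q < ‖x.hol‖ := by
  classical
  obtain ⟨hf, hp⟩ := run_conds hx.run
  set ds := x.ds with hds
  set r := x.r with hrr
  set A := x.A with hA
  set v := x.hol with hv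
  have hv0 : v ≠ 0 := hx.ne
  have hvn : 0 < ‖v‖ := norm_pos_iff.2 hv0
  have hQA : cx v (x.Q - A) = 0 := cx_hol_Q x
  -- heights
  have habs : ∀ q' ∈ x.ends, |cx v (q - A)| ≤ |cx v (q' - A)| := by
    intro q' hq'
    have h1 := hmin q' hq'
    unfold Obj.ht at h1
    rw [abs_div, abs_div, abs_of_pos hvn] at h1
    exact (div_le_div_iff_of_pos_right hvn).1 h1
  have hlow' : |cx v (q - A)| < r0 * ‖v‖ := by
    unfold Obj.ht at hlow
    rw [abs_div, abs_of_pos hvn] at hlow
    exact (div_lt_iff₀ hvn).1 hlow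
  have hupe : ∀ i (h : i < ds.length), up ds i h ∈ x.ends :=
    fun i h => (mem_ends_iff x _).2 ⟨i, h, Or.inl rfl⟩
  have hdne : ∀ i (h : i < ds.length), dn ds i h ∈ x.ends :=
    fun i h => (mem_ends_iff x _).2 ⟨i, h, Or.inr rfl⟩
  have hrng : Rng ds A v q := by
    intro i h
    have h1 := habs _ (hupe i h)
    have h2 := habs _ (hdne i h)
    obtain ⟨h3, h4⟩ := hp i h
    rw [abs_of_pos h3] at h1
    rw [abs_of_neg h4] at h2
    have h5 := abs_le.1 h1
    have h6 := abs_le.1 h2
    constructor <;> linarith [h5.1, h5.2, h6.1, h6.2]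
  have hrng0 : ∀ w : ℂ, cx v (w - A) = 0 → Rng ds A v w := by
    intro w hw i h
    obtain ⟨h3, h4⟩ := hp i h
    rw [hw]
    exact ⟨h4.le, h3.le⟩
  -- the indices
  let Is : ℕ → Prop := fun i => ∃ h : i < ds.length, q = up ds i h ∨ q = dn ds i h
  have hex : ∃ i, Is i := (mem_ends_iff x q).1 hq
  have hbd : ∀ i, Is i → i < ds.length := fun i hi => hi.1
  obtain ⟨j, hj, hjmin⟩ : ∃ j, Is j ∧ ∀ i < j, ¬ Is i :=
    ⟨Nat.find hex, Nat.find_spec hex, fun i hi => Nat.find_min hex hi⟩
  obtain ⟨j', hj', hjmax⟩ : ∃ j', Is j' ∧ ∀ i, j' < i → ¬ Is i := by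
    have hne : ((Finset.range ds.length).filter Is).Nonempty :=
      ⟨j, Finset.mem_filter.2 ⟨Finset.mem_range.2 (hbd j hj), hj⟩⟩
    refine ⟨_, (Finset.mem_filter.1 (Finset.max'_mem _ hne)).2, fun i hi hIs => ?_⟩
    have := Finset.le_max' _ i (Finset.mem_filter.2 ⟨Finset.mem_range.2 (hbd i hIs), hIs⟩)
    omega
  have hjj' : j ≤ j' := by
    by_contra hcon
    exact hjmin j' (not_le.1 hcon) hj'
  have hqj : q ∈ Vx r ds j := by
    obtain ⟨h, h1 | h1⟩ := hj
    · rw [h1]; exact up_mem r ds j h hf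
    · rw [h1]; exact dn_mem r ds j h hf
  have hqj' : q ∈ Vx r ds (j' + 1) := by
    obtain ⟨h, h1 | h1⟩ := hj'
    · rw [h1]; exact up_mem' r ds j' h
    · rw [h1]; exact dn_mem' r ds j' h
  have hqh : cx v (q - A) ≠ 0 := by
    obtain ⟨h, h1 | h1⟩ := hj
    · rw [h1]; exact (hp j h).1.ne'
    · rw [h1]; exact (hp j h).2.ne
  -- `q` is right of the doors before `j`
  have hqR : ∀ i (h : i < ds.length), i < j → cx (up ds i h - dn ds i h) (q - dn ds i h) < 0 := by
    intro i h hij
    have hk : j - 1 < ds.length := by have := hbd j hj; omega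
    have hk1 : j - 1 + 1 = j := by omega
    refine right_all h0 hr hf hp hrng (j - 1) hk (by rw [hk1]; exact hqj) ?_ ?_ (j - 1 - i) i h
      (by omega)
    · intro he
      exact hjmin (j - 1) (by omega) ⟨hk, Or.inl he⟩
    · intro he
      exact hjmin (j - 1) (by omega) ⟨hk, Or.inr he⟩
  have hqL : ∀ i (h : i < ds.length), j' < i → 0 < cx (up ds i h - dn ds i h) (q - dn ds i h) := by
    intro i h hij
    have hk : j' + 1 < ds.length := by omega
    refine left_all h0 hr hf hp hrng (j' + 1) hk hqj' ?_ ?_ i h (by omega)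
    · intro he
      exact hjmax (j' + 1) (by omega) ⟨hk, Or.inl he⟩
    · intro he
      exact hjmax (j' + 1) (by omega) ⟨hk, Or.inr he⟩
  have hn : 0 < ds.length := by have := hbd j hj; omega
  -- the ends of `x`
  have hAup : ∀ i (h : i < ds.length), A ≠ up ds i h := by
    intro i h he
    have := (hp i h).1
    rw [← he, sub_self, cx_zero_right] at this
    linarith
  have hAdn : ∀ i (h : i < ds.length), A ≠ dn ds i h := by
    intro i h he
    have := (hp i h).2
    rw [← he, sub_self, cx_zero_right] at this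
    linarith
  have hBup : ∀ i (h : i < ds.length), x.Q ≠ up ds i h := by
    intro i h he
    have := (hp i h).1
    rw [← he, hQA] at this
    linarith
  have hBdn : ∀ i (h : i < ds.length), x.Q ≠ dn ds i h := by
    intro i h he
    have := (hp i h).2
    rw [← he, hQA] at this
    linarith
  have hAL : ∀ i (h : i < ds.length), 0 < cx (up ds i h - dn ds i h) (A - dn ds i h) := by
    intro i h
    exact left_all h0 hr hf hp (hrng0 A (by rw [sub_self, cx_zero_right])) 0 hn (A_mem hx)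
      (hAup 0 hn) (hAdn 0 hn) i h (Nat.zero_le _)
  have hlast : ds.length - 1 < ds.length := by omega
  have hlast1 : ds.length - 1 + 1 = ds.length := by omega
  have hBR : ∀ i (h : i < ds.length), cx (up ds i h - dn ds i h) (x.Q - dn ds i h) < 0 := by
    intro i h
    exact right_all h0 hr hf hp (hrng0 x.Q hQA) (ds.length - 1) hlast
      (by rw [hlast1]; exact Q_mem hx) (hBup _ hlast) (hBdn _ hlast) (ds.length - 1 - i) i h
      (by omega)
  -- the objects
  let y : Obj S := ⟨r, A, ds.take j, (frame S (ds.take j))⁻¹.ap q⟩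
  let a := ds.take (j' + 1)
  let z : Obj S := ⟨endR S r a, (frame S a)⁻¹.ap q, ds.drop (j' + 1), x.B⟩
  have hyQ : y.Q = q := by
    show (frame S (ds.take j)).ap ((frame S (ds.take j))⁻¹.ap q) = q
    rw [Mot.ap_ap_inv]
  have hyhol : y.hol = q - A := by
    show y.Q - A = _
    rw [hyQ]
  have hds2 : a ++ ds.drop (j' + 1) = ds := List.take_append_drop _ _
  have hzQ : (frame S a).ap z.Q = x.Q := by
    show (frame S a).ap ((frame S (ds.drop (j' + 1))).ap x.B) = (frame S ds).ap x.B
    rw [← Mot.ap_mul, ← frame_append, hds2]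
  have hzA : (frame S a).ap z.A = q := by
    show (frame S a).ap ((frame S a)⁻¹.ap q) = q
    rw [Mot.ap_ap_inv]
  have hzhol : (frame S a).lin z.hol = x.Q - q := by
    show (frame S a).lin (z.Q - z.A) = _
    rw [← Mot.ap_sub_ap, hzQ, hzA]
  have hzhol' : z.hol = (frame S a)⁻¹.lin (x.Q - q) := by
    rw [← hzhol, Mot.lin_inv_lin]
  have hgy : y.GD := by
    refine ⟨hx.memA, ?_, ?_, ?_⟩
    · show (frame S (ds.take j))⁻¹.ap q ∈ S.V (endR S r (ds.take j))
      obtain ⟨p, hp1, hp2⟩ := hqj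
      rw [hp2, Mot.ap_inv_ap]
      exact hp1
    · rw [hyhol]
      intro he
      rw [he, cx_zero_right] at hqh
      exact hqh rfl
    · rw [hyhol]
      have h1 := run_of (p := A) (v := q - A) hf 0 j (by have := hbd j hj; omega) (by
        intro i hi _ hij
        obtain ⟨c1, c2⟩ := cross (hp i hi).1 (hp i hi).2 (hAL i hi) (hqR i hi (by omega))
          ((hrng0 A (by rw [sub_self, cx_zero_right])) i hi).1
          ((hrng0 A (by rw [sub_self, cx_zero_right])) i hi).2 (hrng i hi).1 (hrng i hi).2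
          (Or.inl (by rw [sub_self, cx_zero_right]))
        exact ⟨c1, c2⟩)
      simpa [frame, endR, Mot.ap_one, Mot.lin_one] using h1
  have hgz : z.GD := by
    refine ⟨?_, ?_, ?_, ?_⟩
    · show (frame S a)⁻¹.ap q ∈ S.V (endR S r a)
      obtain ⟨p, hp1, hp2⟩ := hqj'
      rw [hp2, Mot.ap_inv_ap]
      exact hp1
    · show x.B ∈ S.V (endR S (endR S r a) (ds.drop (j' + 1)))
      rw [← endR_append, hds2]
      exact hx.memB
    · intro he
      rw [he, Mot.lin_zero] at hzhol
      have h1 : x.Q = q := by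
        have := hzhol.symm
        exact sub_eq_zero.1 this
      rw [h1] at hQA
      exact hqh hQA
    · rw [hzhol']
      have h1 := run_of (p := q) (v := x.Q - q) hf (j' + 1) (ds.length - (j' + 1))
        (by have := hbd j' hj'; omega) (by
        intro i hi hij _
        obtain ⟨c1, c2⟩ := cross (hp i hi).1 (hp i hi).2 (hqL i hi (by omega)) (hBR i hi)
          (hrng i hi).1 (hrng i hi).2 ((hrng0 x.Q hQA) i hi).1 ((hrng0 x.Q hQA) i hi).2
          (Or.inr hQA)
        exact ⟨c1, c2⟩)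
      have h2 : (ds.drop (j' + 1)).take (ds.length - (j' + 1)) = ds.drop (j' + 1) := by
        apply List.take_of_length_le
        rw [List.length_drop]
      rw [h2] at h1
      exact h1
  refine ⟨y, z, a, ⟨hq, hgy, hgz, rfl, rfl, hyQ, ?_, hds2.symm, rfl, hzA, rfl⟩, ?_, ?_⟩
  · exact List.take_prefix_take_left (by omega)
  · -- the foot is after the start
    have h1 : 0 < dt v (q - A) := by
      refine foot_left hv0 (hp 0 hn).1 (hp 0 hn).2 ?_ ?_ hlow'
      · exact left_of hr r ds 0 hn hf (A_mem hx) (hAup 0 hn) (hAdn 0 hn)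
      · rcases Nat.eq_zero_or_pos j with hj0 | hj0
        · subst hj0
          obtain ⟨h, h1 | h1⟩ := hj
          · rw [h1, cx_self]
          · rw [h1, sub_self, cx_zero_right]
        · exact (hqR 0 hn hj0).le
    exact div_pos h1 hvn
  · have h1 : dt v (q - x.Q) < 0 := by
      have e1 : ∀ w : ℂ, cx v (w - x.Q) = cx v (w - A) := by
        intro w
        have : w - x.Q = (w - A) - (x.Q - A) := by ring
        rw [this, cx_sub_right, hQA, sub_zero]
      refine foot_right (P := up ds _ hlast) (Q := dn ds _ hlast) (r := r0) hv0 ?_ ?_ ?_ ?_ ?_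
      · rw [e1]; exact (hp _ hlast).1
      · rw [e1]; exact (hp _ hlast).2
      · exact right_of hr r ds _ hlast (by rw [hlast1]; exact Q_mem hx) (hBup _ hlast)
          (hBdn _ hlast)
      · rcases Nat.lt_or_ge j' (ds.length - 1) with hj1 | hj1
        · exact (hqL _ hlast hj1).le
        · have hj2 : j' = ds.length - 1 := by have := hbd j' hj'; omega
          obtain ⟨h, h1⟩ := hj'
          subst hj2
          rcases h1 with h1 | h1
          · rw [h1, cx_self]
          · rw [h1, sub_self, cx_zero_right]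
      · rw [e1]; exact hlow'
    have h2 : dt v (q - A) = dt v (q - x.Q) + ‖v‖ ^ 2 := by
      have h3 : ‖v‖ ^ 2 = dt v (x.Q - A) := by
        rw [norm_sq']
        rfl
      rw [h3]
      simp only [dt, Complex.sub_re, Complex.sub_im]
      ring
    show dt v (q - A) / ‖v‖ < ‖v‖
    rw [div_lt_iff₀ hvn, h2]
    nlinarith

end Spl

/-- The lowest end of the crossed doors splits a diagonal into two diagonals if it is low enough. -/
theorem split_exists (S : Rooms) : ∃ r0 : ℝ, 0 < r0 ∧ ∀ x : Obj S, x.GD → ∀ q ∈ x.ends,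
    (∀ q' ∈ x.ends, |x.ht q| ≤ |x.ht q'|) → |x.ht q| < r0 →
    ∃ y z a, Split x q y z a ∧ 0 < x.tm q ∧ x.tm q < ‖x.hol‖ := by
  obtain ⟨r0, h0, hr⟩ := Spl.exists_r0 S
  exact ⟨r0, h0, fun x hx q hq hmin hlow => Spl.split_core h0 hr hx hq hmin hlow⟩

end Pool.Agent.BGD
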