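import Pool.Agent.BGD.Arr

/-!
# Block STR: rooms from a polygon (helper63)

Statements, each with a complete proof in its doc string. Every statement that is used in a proof is a
hypothesis of the module (`theorem m_X (hY : Stmt_Y) : Stmt_X`, in the namespace `Pool.Agent.BGD.Str`), so all modules are
independent.
-/

set_option autoImplicit false

open Set Filter Topology
open scoped ComplexConjugate

namespace Pool.Agent.BGD.Str

open Pool.Agent.Billiard Pool.Agent.Lib_helper45.Bil

/-! ### Pure lemmas on arrangements -/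

/-- CLO. Proof: let `q` be in the open cell and `p` in the closed one. For `0 < t ≤ 1` the point
`(1-t) p + t q` is in the open cell (`f_comb`: `(1-t) * (≥ 0) + t * (> 0) > 0`), and it tends to `p` for
`t → 0`. Hence `p` is in the closure of the cell. -/
def Stmt_CLO : Prop := ∀ (A : Arr) (σ : A.I → Bool), (A.cell σ).Nonempty →
  A.ccell σ ⊆ closure (A.cell σ)

/-- XFIN. Proof: `X` is the union over the finitely many pairs `i ≠ j` of the sets
`{z | A.f i z = 0 ∧ A.f j z = 0}`, which are subsingletons by `A.sub`. -/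
def Stmt_XFIN : Prop := ∀ A : Arr, A.X.Finite

/-- EXTX. Every extreme point of a closed cell is a crossing point (if the arrangement is not empty).
Proof: let `p` be an extreme point, not in `X`. Choose `i` with `A.f i p = 0` if there is one, otherwise
any `i` (the index type is nonempty). Then `A.f j p ≠ 0`, hence `0 < sn (σ j) * A.f j p`, for all
`j ≠ i`. For small `t > 0` both points `p ± t d_i` are in the closed cell: `f i` does not change along
`d i` (`f_dir`), the finitely many other ones stay positive by continuity. `p` is their midpoint, and they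
are different, a contradiction to the definition of an extreme point. -/
def Stmt_EXTX : Prop := ∀ (A : Arr) (σ : A.I → Bool), Nonempty A.I →
  (A.ccell σ).extremePoints ℝ ⊆ A.X

/-- THR. Proof: `K = ccell σ` is closed and bounded (CLO: it lies in the closure of the bounded cell),
so compact, and convex. `E` = extreme points of `K`, finite. By `closure_convexHull_extremePoints` and
`Set.Finite.isCompact_convexHull` we have `convexHull E = K`. If `E.ncard ≤ 2` then `E ⊆ {p, q}` for some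
`p, q`, so every `z ∈ K` is in `segment ℝ p q` and has `cx (q - p) (z - p) = 0`. The cell is open and
nonempty: there are `z₀` and `ε > 0` with `z₀, z₀ + ε, z₀ + ε * I` in it. Subtracting,
`cx (q - p) ε = 0` and `cx (q - p) (ε * I) = 0`, so `q = p`, so `K ⊆ {p}`, but `z₀ ≠ z₀ + ε` are both
in `K`. -/
def Stmt_THR : Prop := ∀ (A : Arr) (σ : A.I → Bool), (A.cell σ).Nonempty →
  Bornology.IsBounded (A.cell σ) → ((A.ccell σ).extremePoints ℝ).Finite →
  3 ≤ ((A.ccell σ).extremePoints ℝ).ncard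

/-- ENDS. Proof (uses CLO): the closed face `F = A.face σ i` is closed, bounded (contained in
`ccell σ ⊆ closure (cell σ)`), so compact, convex, and nonempty (`oface_subset`). Put
`e = sn (σ i) * d i` and `g z = dt e z` (continuous). Let `a`, `b` be a maximum and a minimum of `g` on
`F` (`IsCompact.exists_isMaxOn`, `IsCompact.exists_isMinOn`). For `z` with `f i z = 0` we have
`cx e (z - b) = 0`, so `z - b = (dt e (z - b) / ‖e‖ ^ 2) * e` (identity
`‖e‖ ^ 2 * w = dt e w * e + cx e w * (I * e)`). `g a > g b`: if `q ∈ oface σ i`, then `q ± t e ∈ F` for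
small `t > 0` (as in EXTX) and `g` takes two different values. So `a - b = l * e` with
`l = (g a - g b) / ‖e‖ ^ 2 > 0`. `F = segment ℝ b a`: `⊇` by convexity; `⊆`: `z ∈ F` is
`b + θ (a - b)` with `θ = (g z - g b) / (g a - g b) ∈ [0, 1]`. Take `p = (a, b)`. -/
def Stmt_ENDS : Prop := ∀ (A : Arr) (σ : A.I → Bool) (i : A.I), (A.cell σ).Nonempty →
  Bornology.IsBounded (A.cell σ) → (A.oface σ i).Nonempty → ∃ p, A.Ends σ i p

/-- ENDX. Proof: write `s = sn (σ i)`, `e = s * d i`, `p.1 - p.2 = l e`, `l > 0`, so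
`cx (p.1 - p.2) (q - p.2) = l * s * (f i q - f i p.2) = l * (s * f i q)` (`p.2` is in the face, so
`f i p.2 = 0`).
(1) `p.1` is extreme: let `p.1 ∈ openSegment ℝ x y` with `x, y ∈ ccell σ`. `s f i x ≥ 0`, `s f i y ≥ 0`
and a positive combination of them is `s f i p.1 = 0`, so both vanish, so `x, y ∈ face = segment p.2 p.1`,
`x = p.2 + α (p.1 - p.2)`, `y = p.2 + β (p.1 - p.2)`, `α, β ≤ 1`, and a combination with positive weights
of `α` and `β` is `1`, so `α = β = 1`, `x = y = p.1`. The same for `p.2` (`α = β = 0`).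
(2) let `q` be extreme, `q ≠ p.1, p.2`. `s f i q ≥ 0`. If `f i q = 0` then `q ∈ face = segment p.2 p.1`,
and, being different from the end points, `q ∈ openSegment p.2 p.1` (`openSegment_eq_diff`/
`mem_openSegment_of_ne_left_right`), with `p.1, p.2 ∈ ccell σ` and `p.1 ≠ p.2`: contradiction to the
extremality of `q`. So `s f i q > 0`. -/
def Stmt_ENDX : Prop := ∀ (A : Arr) (σ : A.I → Bool) (i : A.I) (p : ℂ × ℂ), A.Ends σ i p →
  p.1 ≠ p.2 ∧ p.1 ∈ (A.ccell σ).extremePoints ℝ ∧ p.2 ∈ (A.ccell σ).extremePoints ℝ ∧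
  ∀ q ∈ (A.ccell σ).extremePoints ℝ, q ≠ p.1 → q ≠ p.2 → 0 < cx (p.1 - p.2) (q - p.2)

/-- OSEG. Proof (uses ENDX, EXTX): `⊆`: `q ∈ oface` lies on line `i` only, so `q ∉ X`; the end points
are in `X` (ENDX, EXTX), so `q ≠ p.1, p.2`, and `q ∈ face = segment`, so `q ∈ openSegment`.
`⊇`: let `z = (1-θ) p.2 + θ p.1`, `0 < θ < 1`. Both end points are in the face: `f i = 0` there, so
`f i z = 0`. For `j ≠ i`: `sn (σ j) * f j z = (1-θ) (≥ 0) + θ (≥ 0) ≥ 0`; if it vanished, then
`f j p.1 = f j p.2 = 0`, so `p.1 = p.2` by `A.sub i j`, but `p.1 ≠ p.2`. So it is positive. -/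
def Stmt_OSEG : Prop := ∀ (A : Arr) (σ : A.I → Bool) (i : A.I) (p : ℂ × ℂ), A.Ends σ i p →
  A.oface σ i = openSegment ℝ p.2 p.1

/-- UNQ. Proof: (1) `p.1 ∈ segment q.2 q.1`, `q.1 ∈ segment p.2 p.1`, and `p.1 - p.2 = l e`,
`q.1 - q.2 = m e` with `l, m > 0`, `e ≠ 0`: with `g z = dt e z` we get `g p.1 ≤ g q.1` and
`g q.1 ≤ g p.1`, so `p.1 = q.1`; the same for the second components. (2) `face_flip`, `segment_symm`,
`sn (flip σ i i) = - sn (σ i)`. -/
def Stmt_UNQ : Prop := (∀ (A : Arr) (σ : A.I → Bool) (i : A.I) (p q : ℂ × ℂ), A.Ends σ i p →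
    A.Ends σ i q → p = q) ∧
  ∀ (A : Arr) (σ : A.I → Bool) (i : A.I) (p : ℂ × ℂ), A.Ends σ i p →
    A.Ends (A.flip σ i) i (p.2, p.1)

/-- ENTER. Proof: for `τ > t`: `sn (σ i) * f i (z + τ u) = (τ - t) * (sn (σ i) * cx (d i) u) > 0`
(`f_line`). For `j ≠ i` the function `τ ↦ sn (σ j) * f j (z + τ u)` is continuous and positive at `t`, so
positive on a neighbourhood of `t`; intersect the finitely many neighbourhoods. -/
def Stmt_ENTER : Prop := ∀ (A : Arr) (σ : A.I → Bool) (i : A.I) (z u : ℂ) (t : ℝ),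
  z + t * u ∈ A.oface σ i → 0 < sn (σ i) * cx (A.d i) u →
  ∃ ε : ℝ, 0 < ε ∧ ∀ τ : ℝ, t < τ → τ < t + ε → z + τ * u ∈ A.cell σ

/-- EXIT. Proof: put `g j τ = sn (σ j) * f j (z + τ u) = g j t + (τ - t) * (sn (σ j) * cx (d j) u)`,
`g j t > 0`. Let `N` be the finite set of the `j` with `sn (σ j) * cx (d j) u < 0`. If `N` is empty, then
`z + τ u` is in the cell for all `τ ≥ t`, but the cell is bounded and `u ≠ 0`: contradiction. So let
`τ_j = t + g j t / (- sn (σ j) * cx (d j) u) > t` be the zero of `g j`, `j ∈ N`, and let `i ∈ N` be an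
index with the smallest `τ_i =: t'`. For `t ≤ τ < t'` all `g j τ > 0`. At `t'` all `g j t' ≥ 0` and
`g i t' = 0`; for `j ≠ i`, `g j t' = 0` would give `z + t' u ∈ X`, which `Gen` excludes. -/
def Stmt_EXIT : Prop := ∀ (A : Arr) (σ : A.I → Bool) (z u : ℂ) (t : ℝ),
  Bornology.IsBounded (A.cell σ) → u ≠ 0 → A.Gen z u → z + t * u ∈ A.cell σ →
  ∃ (i : A.I) (t' : ℝ), t < t' ∧ (∀ τ : ℝ, t ≤ τ → τ < t' → z + τ * u ∈ A.cell σ) ∧
    z + t' * u ∈ A.oface σ i ∧ sn (σ i) * cx (A.d i) u < 0

/-- LINES. Proof: `F j = {z | cx (d j) (z - c j) = 0}`, `I = Set.range F` (finite), for `L ∈ I` choose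
`r L` with `F (r L) = L`, and put `A.c L = c (r L)`, `A.d L = d (r L)`, `ι j = ⟨F j, _⟩`. Then
`A.f (ι j) z = 0 ↔ z ∈ F (r (ι j)) = F j`. `sub`: if `z ≠ w` are both in `F j` then
`F j = {x | cx (w - z) (x - z) = 0}` (because `w - z` is a nonzero real multiple of `d j`: both
`cx (d j) (w - z) = 0` and `d j ≠ 0`, `w ≠ z`), so two different lines of `I` have at most one common
point. -/
def Stmt_LINES : Prop := ∀ (J : Type) [Fintype J] (c d : J → ℂ), (∀ j, d j ≠ 0) →
  ∃ (A : Arr) (ι : J → A.I), ∀ j z, A.f (ι j) z = 0 ↔ cx (d j) (z - c j) = 0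

/-! ### Lemmas on polygons -/

/-- ARRP. Proof (uses LINES): `J = ZMod P.k × Bool` (`Fintype` by `Fintype.ofFinite` or from
`NeZero P.k`), `c (a, _) = vertex a`, `d (a, false) = dir P a`, `d (a, true) = I * dir P a`, both nonzero
(`dir_ne`). Let `A, ι'` be as in LINES and `ι a = ι' (a, false)`. `side_iff`:
`H P a z = ((z - vertex a) * conj (dir P a)).im = cx (dir P a) (z - vertex a)`. `vert`: the vertex `a` is
on the lines `ι' (a, false)` and `ι' (a, true)`, which are different: `vertex a + dir P a` is on the first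
(`cx_self`), not on the second, because `cx (I * d) d = - ‖d‖ ^ 2 ≠ 0`. -/
def Stmt_ARRP : Prop := ∀ P : Polygon, Nonempty (ArrP P)

/-- ROOMU. Proof: the cell is convex, so preconnected (`Convex.isPreconnected`). It avoids `Gam P`: by
`mem_Gam_iff` a point `z ∈ Gam P` is on a side `a`, so `H P a z = 0` (`H_of_mem_side`), so
`f (ι a) z = 0` (`side_iff`), which is not possible in the open cell. `subset_U` gives the claim. -/
def Stmt_ROOMU : Prop := ∀ (P : Polygon) (Q : ArrP P) (σ : Q.A.I → Bool),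
  (Q.A.cell σ ∩ U P).Nonempty → IsRoom Q σ

/-- DOORU. Proof (uses CLO, ENTER, ROOMU). No point of `oface σ i` is in `X` (it lies on line `i` only),
so none is a vertex (`Q.vert`).
Case 1: some `z ∈ oface σ i` is in `Gam P`. By `exists_rel_of_Gam` there is `a` with `z ∈ rel P a`, so
`H P a z = 0`, `f (ι a) z = 0`, so `ι a = i`. For every `x ∈ oface σ i`: `f i x = 0`, so `H P a x = 0`,
`x = vertex a + K x * dir a` (`eq_line`), and `K x ≠ 0, 1`, because `x` is not the vertex `a` nor
`a + 1` (`vertex_succ_eq`). `oface` is convex (`convex_oface`), so preconnected, `K` is continuous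
(`continuous_K`) and takes a value in `(0, 1)` at `z`; so `0 < K x < 1` for all `x ∈ oface`
(intermediate values, `IsPreconnected.intermediate_value` or convexity along the segment `z x`), and
`x ∈ rel P a` by `mem_rel_iff'`.
Case 2: `oface ∩ Gam P = ∅`. `oface ⊆ ccell ⊆ closure (cell) ⊆ closure (U P) = P.region` (`oface_subset`,
CLO, `closure_U`), so `oface ⊆ U P` (`Gam_eq`). Take `z ∈ oface σ i = oface (flip σ i) i`
(`oface_flip`), `u = sn (flip σ i i) * (I * d i)`, so `sn (flip σ i i) * cx (d i) u = ‖d i‖ ^ 2 > 0`.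
ENTER (with `t = 0`) gives points `z + τ u`, `τ > 0` small, in the cell `flip σ i`; they tend to `z ∈ U P`,
which is open; so the cell `flip σ i` meets `U P` and is a room by ROOMU. -/
def Stmt_DOORU : Prop := ∀ (P : Polygon) (Q : ArrP P) (σ : Q.A.I → Bool) (i : Q.A.I),
  IsRoom Q σ → (Q.A.oface σ i).Nonempty →
  (∃ a, i = Q.ι a ∧ Q.A.oface σ i ⊆ rel P a) ∨
  (Q.A.oface σ i ⊆ U P ∧ IsRoom Q (Q.A.flip σ i))

/-- RM. Proof: unfold; `(rM P a)⁻¹.u = u` and `(rM P a)⁻¹.t = -(u * conj t)` with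
`t = v - u * conj v`, `u * conj u = 1`, so `-(u * conj t) = -(u * conj v - u * conj u * v) = t`. -/
def Stmt_RM : Prop := ∀ (P : Polygon) (a : ZMod P.k), (∀ z, (rM P a).ap z = refl P a z) ∧
  (∀ z, (rM P a).lin z = lrefl P a z) ∧ (rM P a)⁻¹ = rM P a

/-! ### Rooms of a polygon -/

/-- The system of rooms of a polygon, with the data that relate it to the polygon. -/
structure PR (P : Polygon) where
  Q : ArrP P
  S : Rooms
  sig : S.R → (Q.A.I → Bool)
  room : ∀ r, IsRoom Q (sig r)
  surj : ∀ σ, IsRoom Q σ → ∃ r, sig r = σ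
  inj : ∀ r r', sig r = sig r' → r = r'
  idx : S.D → Q.A.I
  lab : S.D → Option (ZMod P.k)
  oseg : ∀ d, Q.A.oface (sig (S.src d)) (idx d) = openSegment ℝ (S.pb d) (S.pa d)
  ends : ∀ d, Q.A.Ends (sig (S.src d)) (idx d) (S.pa d, S.pb d)
  door : ∀ r i, (Q.A.oface (sig r) i).Nonempty → ∃ d, S.src d = r ∧ idx d = i
  bdry : ∀ d a, lab d = some a → idx d = Q.ι a ∧ S.M d = rM P a ∧ S.dst d = S.src d ∧
    openSegment ℝ (S.pb d) (S.pa d) ⊆ rel P a
  intr : ∀ d, lab d = none → S.M d = 1 ∧
    sig (S.dst d) = Q.A.flip (sig (S.src d)) (idx d) ∧ openSegment ℝ (S.pb d) (S.pa d) ⊆ U P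

/-- the line `z + τ u` is in the room `r` immediately after the time `t` -/
def Starts {P : Polygon} (Z : PR P) (r : Z.S.R) (z u : ℂ) (t : ℝ) : Prop :=
  ∃ ε : ℝ, 0 < ε ∧ ∀ τ : ℝ, t < τ → τ < t + ε → z + τ * u ∈ Z.Q.A.cell (Z.sig r)

/-- the unfolded line is generic along the word `w` -/
def GenW {P : Polygon} (Q : ArrP P) : ℂ → ℂ → List (ZMod P.k) → Prop
  | z, u, [] => Q.A.Gen z u
  | z, u, a :: w => Q.A.Gen z u ∧ GenW Q (refl P a z) (lrefl P a u) w

/-- PRE. Assembly (helper63). -/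
def Stmt_PRE : Prop := ∀ P : Polygon, Nonempty (PR P)

/-- STG: one stage, from a room to the next side of the polygon. Proof (uses ENTER, EXIT, RM): by
induction on `m`, for all `r`, `t`, where `m` is the number of the `i` with
`sn (sig r i) * cx (d i) u < 0`, with the bound `ds.length ≤ m + ds'.length`.
The rooms are bounded (contained in `U P ⊆ P.region`, compact). Take `t₀ ∈ (t, t + ε)`, `t₀ < t'`, and
apply EXIT at `t₀`: `i`, `t₁ > t₀`, `q = z + t₁ u ∈ oface (sig r) i`, slope `sn (sig r i) * cx (d i) u < 0`,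
and `z + τ u ∈ cell (sig r) ⊆ U P` for `t < τ < t₁` (before `t₀` by `Starts`, after `t₀` by EXIT). Let `d`
be the door with `src d = r`, `idx d = i` (`Z.door`). `q` is in `openSegment (pb d) (pa d)` (`Z.oseg`),
`q = pb + θ (pa - pb)`, `0 < θ < 1`, and `pa - pb = l * sn * d i`, `l > 0` (`Z.ends`), so
`cx u (pa - pb) = - l * (sn * cx (d i) u) > 0`, `cx u (pb - z) = cx u (pb - q) = - θ cx u (pa - pb) < 0`,
`cx u (pa - z) = (1 - θ) cx u (pa - pb) > 0` (because `cx u (q - z) = 0`). So the first door condition of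
`Run` holds for `d`.
Case `lab d = none`: `q ∈ U P`, so `t₁ ≠ t'` (`rel P a ⊆ Gam P`), and `t' < t₁` is impossible as well
(`z + t' u ∈ Gam P`); so `t₁ < t'`. `r₁ = dst d` has the signs `flip (sig r) i`; its `m` is smaller by
one (only the sign of `i` is changed and `sn * slope` becomes positive). `Starts Z r₁ z u t₁` by ENTER
(`oface_flip`). Induction at time `t₁` gives `r'` and for each `ds'` a list `ds₁`; take `ds = d :: ds₁`
(`M d = 1`, so `(M d)⁻¹.ap z = z`, `lab d = none` is skipped by `filterMap`).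
Case `lab d = some b`: `q ∈ rel P b ⊆ Gam P`, so `t₁ < t'` is impossible (before `t'` the line is in
`U P`), and `t' < t₁` is impossible, so `t₁ = t'`, `b = a` (`rel_unique`). Take `r' = dst d = r`. `Starts`
for the reflected line: `refl P a z + t' * lrefl P a u = z + t' u = q` (`refl_line`) is in `oface (sig r) i`
and `sn * cx (d i) (lrefl P a u) = - sn * cx (d i) u > 0`, because line `i = ι a` is the line of side `a`,
so that `d i` is a real multiple of `dir P a` (both `vertex a` and `vertex a + dir P a` are on line `i`)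
and `cx (dir P a) (lrefl P a u) = - cx (dir P a) u` (`tr_lrefl`); so ENTER applies. For `ds'` take
`ds = d :: ds'`: `(M d)⁻¹ = rM P a` (RM) maps `z` to `refl P a z` and `u` to `lrefl P a u`. Here `m ≥ 1`,
because `i` has negative slope, so the length `1 + ds'.length ≤ m + ds'.length`. -/
def Stmt_STG : Prop := ∀ (P : Polygon) (Z : PR P) (r : Z.S.R) (z u : ℂ) (t t' : ℝ) (a : ZMod P.k),
  u ≠ 0 → Z.Q.A.Gen z u → t < t' → Starts Z r z u t →
  (∀ τ : ℝ, t < τ → τ < t' → z + τ * u ∈ U P) → z + t' * u ∈ rel P a →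
  ∃ r', Starts Z r' (refl P a z) (lrefl P a u) t' ∧
    ∀ ds', Run Z.S r' (refl P a z) (lrefl P a u) ds' →
      ∃ ds, Run Z.S r z u ds ∧ ds.length ≤ Fintype.card Z.Q.A.I + ds'.length ∧
        ds.filterMap Z.lab = a :: ds'.filterMap Z.lab

/-- WRD. Proof (uses STG): induction on `w` for all `r, z, u, t`. `w = []`: `ds = []`. `w = a :: w'`:
`Path` gives `t'`; STG gives `r'`; the induction hypothesis for `w'`, `r'`, `refl P a z`, `lrefl P a u`,
`t'` gives `ds'`; STG gives `ds`. -/
def Stmt_WRD : Prop := ∀ (P : Polygon) (Z : PR P) (w : List (ZMod P.k)) (r : Z.S.R) (z u : ℂ) (t : ℝ),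
  u ≠ 0 → GenW Z.Q z u w → Starts Z r z u t → Path P z u t w →
  ∃ ds, Run Z.S r z u ds ∧ ds.length ≤ Fintype.card Z.Q.A.I * w.length ∧ ds.filterMap Z.lab = w

/-- GNR: every code has a generic realisation that starts in a room. Proof (uses XFIN, ROOMU):
`isCode_iff` gives `z, u, t` with `u ≠ 0`, `z + t u ∈ U P`, `Path P z u t w`. Put `v = I * u`, so
`cx u v = ‖u‖ ^ 2 ≠ 0`, and `z_ε = z + ε v` for real `ε`.
(1) By `Path.eventually` (composed with the continuous map `ε ↦ (z_ε, u)`) and `isOpen_U`: for all `ε`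
near `0`, `Path P z_ε u t w` and `z_ε + t u ∈ U P`.
(2) Lemma: if `cx u v ≠ 0` then `{ε : ℝ | ¬ GenW Q (z + ε v) u w}` is finite. Induction on `w` for all
`z, u, v`: `{ε | ¬ Gen (z + ε v) u}` is contained in the union over the finitely many `x ∈ X` of
`{ε | cx u (z + ε v - x) = 0}`, which has one element; and `refl P a (z + ε v) = refl P a z + ε lrefl P a v`
(`refl_add`), `cx (lrefl P a u) (lrefl P a v) = - cx u v` (`cx_lin` for `rM P a`, or directly).
(3) `{ε | ∃ i, ∀ τ, f i (z + ε v + τ u) = 0}` is finite: for such `i` (`f_line`) `cx (d i) u = 0`, so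
`cx (d i) v ≠ 0` (`u, v` are a basis and `d i ≠ 0`), and `f i (z + ε v) = f i z + ε cx (d i) v = 0` fixes
`ε`.
So there is `ε` (near `0`, outside two finite sets) with all good properties. For each `i` the affine
function `τ ↦ f i (z_ε + τ u)` is not identically zero, so it has at most one zero. Choose `t₀ > t` so close
to `t` that `z_ε + τ u ∈ U P` for `t ≤ τ ≤ t₀` and `t₀` is none of the zeros. `Path.of_start` gives
`Path P z_ε u t₀ w`. `σ i = decide (0 < f i (z_ε + t₀ u))`: the point is in the cell `σ`, which is a room by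
ROOMU. -/
def Stmt_GNR : Prop := ∀ (P : Polygon) (Q : ArrP P) (w : List (ZMod P.k)), P.IsCode w →
  ∃ (z u : ℂ) (t : ℝ) (σ : Q.A.I → Bool), u ≠ 0 ∧ GenW Q z u w ∧ IsRoom Q σ ∧
    z + t * u ∈ Q.A.cell σ ∧ Path P z u t w

/-- STR, the result of the block (helper63). -/
def Stmt_STR : Prop := ∀ P : Polygon, ∃ (S : Rooms) (C : ℕ),
  (∀ d, (S.M d).lp = 1 ∨ ∃ a, (S.M d).lp = (rM P a).lp) ∧
  ∀ n, P.complexity n ≤
    {X : S.R × List S.D | X.2.length ≤ C * n ∧ ∃ p v, v ≠ 0 ∧ Run S X.1 p v X.2}.ncard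

end Pool.Agent.BGD.Str
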