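import Pool.Agent.BGD.WRD2

/-!
# Door words and diagonals: the count (helper60)
-/

set_option autoImplicit false

open scoped ComplexConjugate

namespace Pool.Agent.BGD

variable {S : Rooms}

namespace Wrd

open Spl

theorem ap_mid (m : Mot) (a b : ℂ) : m.ap ((a + b) / 2) = (m.ap a + m.ap b) / 2 := by
  have h2 : (starRingEnd ℂ) 2 = 2 := map_ofNat _ 2
  simp only [Mot.ap, Mot.lin]
  cases m.fl <;> simp [h2] <;> ring

theorem lin_dir (m : Mot) (a : ℂ) (σ ε : ℝ) : m.lin (dir a σ ε) = dir (m.lin a) (m.sg * σ) ε := by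
  simp only [Mot.lin, dir, Mot.sg]
  cases m.fl <;> simp <;> ring

/-- the diagonal `x` sits in the word `w` after `k` doors, and all lines obtained from the line of `x`
by a small rotation run through `w` -/
def Sits (x : Obj S) (k : ℕ) (σ : ℝ) (w : List S.D) : Prop :=
  ∃ r, x.r = endR S r (w.take k) ∧ ∃ ε0 : ℝ, 0 < ε0 ∧ ∀ ε, 0 < ε → ε ≤ ε0 →
    Run S r ((frame S (w.take k)).ap ((x.A + x.Q) / 2)) ((frame S (w.take k)).lin (dir x.hol σ ε)) w

/-- the word is determined -/
theorem sits_unique {x : Obj S} {k : ℕ} {σ : ℝ} {w w' : List S.D} (h : Sits x k σ w)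
    (h' : Sits x k σ w') (hl : w.length = w'.length) : w = w' := by
  obtain ⟨r, hr, e, he, hrun⟩ := h
  obtain ⟨r', hr', e', he', hrun'⟩ := h'
  have hm : 0 < min e e' := lt_min he he'
  have g1 := hrun _ hm (min_le_left _ _)
  have g2 := hrun' _ hm (min_le_right _ _)
  set O := (x.A + x.Q) / 2 with hO
  set d := dir x.hol σ (min e e') with hd
  -- forwards
  have key : ∀ (r : S.R) (w : List S.D), x.r = endR S r (w.take k) →
      Run S r ((frame S (w.take k)).ap O) ((frame S (w.take k)).lin d) w →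
      Run S x.r O d (w.drop k) ∧ Run S x.r O (-d) (rev S (w.take k)) := by
    intro r w hr hw
    have e1 : w = w.take k ++ w.drop k := (List.take_append_drop k w).symm
    rw [e1, Run_append] at hw
    rw [← e1] at hw
    obtain ⟨h1, h2⟩ := hw
    rw [← hr, Mot.ap_inv_ap, Mot.lin_inv_lin] at h2
    have h3 := Run_rev h1
    rw [← hr, Mot.ap_inv_ap, Mot.lin_inv_lin] at h3
    exact ⟨h2, h3⟩
  obtain ⟨a1, a2⟩ := key r w hr g1
  obtain ⟨b1, b2⟩ := key r' w' hr' g2
  have c1 := run_eq a1 b1 (by rw [List.length_drop, List.length_drop, hl])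
  have c2 := run_eq a2 b2 (by
    rw [rev_length, rev_length, List.length_take, List.length_take, hl])
  have c3 : w.take k = w'.take k := by rw [← rev_rev (w.take k), c2, rev_rev]
  rw [← List.take_append_drop k w, ← List.take_append_drop k w', c1, c3]

/-- every word has a diagonal -/
theorem exists_sits {r : S.R} {w : List S.D} {V1 V2 : ℂ} {σ : ℝ} (hf : Fit r w)
    (hE : Ext w V1 V2 σ) : ∃ x : Obj S, x.GD ∧ x.ds.length + 2 ≤ max w.length 2 ∧
      ∃ k, k < w.length ∧ ∃ σ', (σ' = 1 ∨ σ' = -1) ∧ Sits x k σ' w := by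
  classical
  obtain ⟨r0, h0, hr⟩ := exists_r0 S
  obtain ⟨ε0, hε0, hpert⟩ := ext_pert hE
  obtain ⟨hp, hz1, hz2, hneg⟩ := hpert ε0 hε0 le_rfl
  set A := (V1 + V2) / 2 with hA
  set v := dir (V2 - V1) σ ε0 with hv
  obtain ⟨j1, hj1, hj1m⟩ := last_end hE.e1
  obtain ⟨j2, hj2, hj2m⟩ := first_end hE.e2
  -- the general construction
  have build : ∀ (k l : ℕ), k < w.length → l ≤ w.length → k ≤ l → V1 ∈ Vx r w k → V2 ∈ Vx r w l →
      (∀ i (hi : i < w.length), k ≤ i → i < l → Ps w V1 (V2 - V1) i hi) →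
      l - k + 2 ≤ max w.length 2 →
      ∃ x : Obj S, x.GD ∧ x.ds.length + 2 ≤ max w.length 2 ∧
      ∃ k, k < w.length ∧ ∃ σ', (σ' = 1 ∨ σ' = -1) ∧ Sits x k σ' w := by
    intro k l hk hl hkl m1 m2 hps hlen
    obtain ⟨A', hA', eA⟩ := m1
    obtain ⟨B', hB', eB⟩ := m2
    set F := frame S (w.take k) with hF
    have htl : w.take l = w.take k ++ (w.drop k).take (l - k) := by
      rw [← List.take_add]; congr 1; omega
    let x : Obj S := ⟨endR S r (w.take k), A', (w.drop k).take (l - k), B'⟩
    have hQ : F.ap x.Q = V2 := by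
      show F.ap ((frame S ((w.drop k).take (l - k))).ap B') = V2
      rw [eB, htl, frame_append, Mot.ap_mul]
    have hAx : F.ap x.A = V1 := eA.symm
    have hhol : F.lin x.hol = V2 - V1 := by
      rw [Obj.hol, ← Mot.ap_sub_ap, hQ, hAx]
    have hhol' : x.hol = F⁻¹.lin (V2 - V1) := by rw [← hhol, Mot.lin_inv_lin]
    have hA'' : A' = F⁻¹.ap V1 := by rw [← hAx, Mot.ap_inv_ap]
    have hGD : x.GD := by
      refine ⟨hA', ?_, ?_, ?_⟩
      · show B' ∈ S.V (endR S (endR S r (w.take k)) ((w.drop k).take (l - k)))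
        rw [← endR_append, ← htl]
        exact hB'
      · intro he
        rw [he, Mot.lin_zero] at hhol
        exact hE.ne (sub_eq_zero.1 hhol.symm)
      · have h1 := run_of (p := V1) (v := V2 - V1) hf k (l - k) (by omega)
          (fun i hi h2 h3 => hps i hi h2 (by omega))
        rw [← hhol', ← hF, ← hA''] at h1
        exact h1
    refine ⟨x, hGD, ?_, k, hk, F.sg * σ, ?_, r, rfl, ε0, hε0, fun ε hε hle => ?_⟩
    · show ((w.drop k).take (l - k)).length + 2 ≤ _
      rw [List.length_take]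
      exact le_trans (by omega) hlen
    · rcases hE.s1 with h1 | h1 <;> rw [h1, Mot.sg] <;> split <;> simp
    · have h1 := (hpert ε hε hle).1
      rw [← hF, ap_mid, hAx, hQ, lin_dir, hhol, ← mul_assoc, Mot.sg_sq, one_mul]
      have h2 := run_of (p := (V1 + V2) / 2) (v := dir (V2 - V1) σ ε) hf 0 w.length (by omega)
        (fun i hi _ _ => h1 i hi)
      simpa [frame, endR, Mot.ap_one, Mot.lin_one] using h2
  rcases lt_or_ge j1 j2 with hlt | hge
  · -- the doors strictly between
    refine build (j1 + 1) j2 (by have := hj2.lt; omega) hj2.lt.le hlt hj1.mem' (hj2.mem hf) ?_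
      (by have := hj2.lt; omega)
    intro i hi h1 h2
    have hk : j1 + 1 < w.length := by omega
    have hL := left_all h0 hr hf hp hz1 (j1 + 1) hk hj1.mem'
      (fun he => hj1m (j1 + 1) (by omega) ⟨hk, Or.inl he⟩)
      (fun he => hj1m (j1 + 1) (by omega) ⟨hk, Or.inr he⟩) i hi h1
    have hk2 : j2 - 1 < w.length := by have := hj2.lt; omega
    have hk2' : j2 - 1 + 1 = j2 := by omega
    have hR := right_all h0 hr hf hp hz2 (j2 - 1) hk2 (by rw [hk2']; exact hj2.mem hf)
      (fun he => hj2m (j2 - 1) (by omega) ⟨hk2, Or.inl he⟩)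
      (fun he => hj2m (j2 - 1) (by omega) ⟨hk2, Or.inr he⟩) (j2 - 1 - i) i hi (by omega)
    obtain ⟨q1, q2⟩ := hp i hi
    have hsig : cx v (V1 - A) < 0 ∨ cx v (V2 - A) < 0 := by
      by_contra hc
      push Not at hc
      have := mul_nonneg hc.1 hc.2
      linarith
    have hsig' : 0 < cx v (V1 - A) ∨ 0 < cx v (V2 - A) := by
      by_contra hc
      push Not at hc
      have := mul_nonneg_of_nonpos_of_nonpos hc.1 hc.2
      linarith
    exact cross2 q1 q2 hL hR (hz1 i hi).1 (hz1 i hi).2 (hz2 i hi).1 (hz2 i hi).2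
      (by rcases hsig with h | h; exacts [Or.inl (by linarith), Or.inr (by linarith)])
      (by rcases hsig' with h | h; exacts [Or.inl (by linarith), Or.inr (by linarith)])
  · -- a door along the line
    have hi := hj1.lt
    have hend : IsEnd w j1 V2 := by
      rcases weak_all h0 hr hf hp hz2 hj2 j1 hi hge with h | h
      · exact h
      · exfalso
        obtain ⟨hi', h1 | h1⟩ := hj1
        · have h2 := hE.d0 j1 hi
          have h3 : cx (up w j1 hi - dn w j1 hi) (V2 - dn w j1 hi) =
              cx (V2 - V1) (dn w j1 hi - V1) := by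
            rw [← h1]
            simp only [cx, Complex.sub_re, Complex.sub_im]; ring
          rw [h3] at h
          linarith
        · have h2 := hE.u0 j1 hi
          have h3 : cx (up w j1 hi - dn w j1 hi) (V2 - dn w j1 hi) =
              -cx (V2 - V1) (up w j1 hi - V1) := by
            rw [← h1]
            simp only [cx, Complex.sub_re, Complex.sub_im]; ring
          rw [h3] at h
          linarith
    exact build j1 j1 hi hi.le le_rfl (hj1.mem hf) (hend.mem hf) (fun i _ h1 h2 => by omega)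
      (by omega)

end Wrd

open Wrd in
/-- the number of door words is bounded by the number of diagonals -/
theorem m_WRD : Stmt_WRD := by
  classical
  intro S m G hG s hs
  have key : ∀ w : {w // w ∈ s}, ∃ (x : Obj S) (k : ℕ) (σ : ℝ), x.GD ∧ x.ds.length ≤ m ∧
      k < m + 2 ∧ (σ = 1 ∨ σ = -1) ∧ Sits x k σ w.1 := by
    rintro ⟨w, hw⟩
    obtain ⟨hl, r, p, v, -, hrun⟩ := hs w hw
    obtain ⟨hf, hp⟩ := Spl.run_conds hrun
    obtain ⟨V1, V2, σ, hE⟩ := exists_ext hp (not_all_same hrun (by omega))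
    obtain ⟨x, hx, hlen, k, hk, σ', hσ', hS⟩ := exists_sits hf hE
    exact ⟨x, k, σ', hx, by omega, by omega, hσ', hS⟩
  choose X K Sg hGD hlen hk hσ hS using key
  have hT : ((s.attach.image X).card : ℝ) ≤ G := by
    apply hG
    intro x hx
    rw [Finset.mem_image] at hx
    obtain ⟨w, -, rfl⟩ := hx
    exact ⟨hGD w, hlen w⟩
  have hcard : s.card ≤ ((s.attach.image X) ×ˢ (Finset.range (m + 2) ×ˢ
      ({1, -1} : Finset ℝ))).card := by
    rw [← Finset.card_attach]
    apply Finset.card_le_card_of_injOn (fun w => (X w, K w, Sg w))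
    · intro w hw
      simp only [Finset.coe_product, Set.mem_prod, Finset.mem_coe, Finset.mem_image,
        Finset.mem_range, Finset.mem_insert, Finset.mem_singleton]
      exact ⟨⟨w, Finset.mem_attach _ _, rfl⟩, hk w, hσ w⟩
    · intro w _ w' _ hww
      simp only [Prod.mk.injEq] at hww
      obtain ⟨h1, h2, h3⟩ := hww
      apply Subtype.ext
      have h4 := hS w
      rw [h1, h2, h3] at h4
      exact sits_unique h4 (hS w') ((hs w.1 w.2).1.trans (hs w'.1 w'.2).1.symm)
  rw [Finset.card_product, Finset.card_product, Finset.card_range] at hcard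
  have h2 : ({1, -1} : Finset ℝ).card ≤ 2 := Finset.card_le_two
  have hcard' : (s.card : ℝ) ≤ ((s.attach.image X).card : ℝ) * ((m + 2) * 2) := by
    have h3 : s.card ≤ (s.attach.image X).card * ((m + 2) * 2) :=
      hcard.trans (Nat.mul_le_mul_left _ (Nat.mul_le_mul_left _ h2))
    exact_mod_cast h3
  calc (s.card : ℝ) ≤ ((s.attach.image X).card : ℝ) * ((m + 2) * 2) := hcard'
    _ ≤ G * ((m + 2) * 2) := by gcongr
    _ = 2 * (m + 2) * G := by ring

end Pool.Agent.BGD
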