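import Pool.Agent.BGD.StA

/-!
# Polynomial bound for generalized diagonals: the number of door words (helper60)
-/

set_option autoImplicit false

namespace Pool.Agent.BGD

/-- the door words with at most `N` doors, with their start rooms -/
def WS (S : Rooms) (N : ℕ) : Set (S.R × List S.D) :=
  {X | X.2.length ≤ N ∧ ∃ p v, v ≠ 0 ∧ Run S X.1 p v X.2}

theorem words_poly (hPOLY : Stmt_POLY) (hWRD : Stmt_WRD) : ∃ d0 : ℕ, ∀ (S : Rooms) (k : ℕ),
    LabBound S k → ∃ C : ℝ, 0 < C ∧ ∀ N : ℕ, ((WS S N).ncard : ℝ) ≤ C * (N + 1) ^ (2 * k + d0) := by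
  classical
  obtain ⟨d0, hd0⟩ := hPOLY
  refine ⟨d0 + 2, fun S k hL => ?_⟩
  obtain ⟨C, hC, hpoly⟩ := hd0 S k hL
  let _ := S.fD
  let _ := S.fR
  set a : ℝ := Fintype.card S.R * (1 + Fintype.card S.D) with ha
  have ha0 : 0 ≤ a := by positivity
  refine ⟨2 * a + Fintype.card S.R * (4 * C) + 1, by positivity, fun N => ?_⟩
  have hN1 : (1 : ℝ) ≤ (N : ℝ) + 1 := by
    have : (0 : ℝ) ≤ N := Nat.cast_nonneg N
    linarith
  -- finiteness of the words of length l
  have hfinl : ∀ l : ℕ, {w : List S.D | w.length = l}.Finite := fun l =>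
    List.finite_length_eq S.D l
  set W : ℕ → Finset (List S.D) := fun l => ((hfinl l).toFinset).filter fun w =>
    ∃ r p v, v ≠ 0 ∧ Run S r p v w with hW
  have hWl : ∀ m : ℕ, m ≤ N → ((W (m + 2)).card : ℝ) ≤ 2 * C * (N + 1) ^ (2 * k + d0 + 1) * 2 := by
    intro m hm
    have h1 := hWRD S m (C * (m + 1) ^ (2 * k + d0)) (fun s hs => hpoly m s hs) (W (m + 2)) (by
      intro w hw
      rw [hW, Finset.mem_filter, Set.Finite.mem_toFinset] at hw
      exact hw)
    refine h1.trans ?_
    have hm' : (m : ℝ) ≤ N := by exact_mod_cast hm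
    have hm0 : (0 : ℝ) ≤ m := Nat.cast_nonneg m
    calc 2 * ((m : ℝ) + 2) * (C * (m + 1) ^ (2 * k + d0))
        ≤ 2 * (2 * ((N : ℝ) + 1)) * (C * (N + 1) ^ (2 * k + d0)) := by
          gcongr
          linarith
      _ = 2 * C * (N + 1) ^ (2 * k + d0 + 1) * 2 := by rw [pow_succ]; ring
  have hsub : WS S N ⊆ ((Finset.univ : Finset S.R) ×ˢ
      ((Finset.range (N + 1)).biUnion W) : Finset (S.R × List S.D)) := by
    rintro ⟨r, w⟩ ⟨hl, p, v, hv, hrun⟩
    rw [Finset.mem_coe, Finset.mem_product]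
    refine ⟨Finset.mem_univ _, ?_⟩
    rw [Finset.mem_biUnion]
    refine ⟨w.length, Finset.mem_range.2 (by simp only at hl; omega), ?_⟩
    rw [hW, Finset.mem_filter, Set.Finite.mem_toFinset]
    exact ⟨rfl, r, p, v, hv, hrun⟩
  have hcard : (WS S N).ncard ≤ Fintype.card S.R * ∑ l ∈ Finset.range (N + 1), (W l).card := by
    refine (Set.ncard_le_ncard hsub (Finset.finite_toSet _)).trans ?_
    rw [Set.ncard_coe_finset, Finset.card_product, Finset.card_univ]
    exact Nat.mul_le_mul_left _ Finset.card_biUnion_le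
  have hcard' : ((WS S N).ncard : ℝ) ≤
      Fintype.card S.R * ∑ l ∈ Finset.range (N + 1), ((W l).card : ℝ) := by exact_mod_cast hcard
  -- small lengths
  have h0 : ((W 0).card : ℝ) ≤ 1 := by
    have : (W 0).card ≤ 1 := by
      rw [Finset.card_le_one]
      intro x hx y hy
      rw [hW, Finset.mem_filter, Set.Finite.mem_toFinset] at hx hy
      rw [List.length_eq_zero_iff.1 hx.1, List.length_eq_zero_iff.1 hy.1]
    exact_mod_cast this
  have h1 : ((W 1).card : ℝ) ≤ Fintype.card S.D := by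
    have : (W 1).card ≤ Fintype.card S.D := by
      have hs : W 1 ⊆ Finset.univ.image (fun d : S.D => [d]) := by
        intro x hx
        rw [hW, Finset.mem_filter, Set.Finite.mem_toFinset] at hx
        obtain ⟨d, hd⟩ := List.length_eq_one_iff.1 hx.1
        rw [Finset.mem_image]
        exact ⟨d, Finset.mem_univ _, hd.symm⟩
      exact (Finset.card_le_card hs).trans (Finset.card_image_le.trans (by simp))
    exact_mod_cast this
  have hb : ∀ l ∈ Finset.range (N + 1), ((W l).card : ℝ) ≤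
      (1 + Fintype.card S.D) * (if l < 2 then 1 else 0) +
        2 * C * (N + 1) ^ (2 * k + d0 + 1) * 2 := by
    intro l hl
    rw [Finset.mem_range] at hl
    have hpos : 0 ≤ 2 * C * ((N : ℝ) + 1) ^ (2 * k + d0 + 1) * 2 := by positivity
    have hD : (0 : ℝ) ≤ Fintype.card S.D := Nat.cast_nonneg _
    rcases Nat.lt_or_ge l 2 with h | h
    · rw [if_pos h]
      interval_cases l
      · linarith
      · linarith
    · rw [if_neg (by omega)]
      have h2 := hWl (l - 2) (by omega)
      have h3 : l - 2 + 2 = l := by omega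
      rw [h3] at h2
      linarith
  have hsum : ∑ l ∈ Finset.range (N + 1), ((W l).card : ℝ) ≤
      2 * (1 + Fintype.card S.D) + (N + 1) * (2 * C * (N + 1) ^ (2 * k + d0 + 1) * 2) := by
    refine (Finset.sum_le_sum hb).trans ?_
    rw [Finset.sum_add_distrib, ← Finset.mul_sum, Finset.sum_const, Finset.card_range,
      nsmul_eq_mul]
    have h5 : ∑ l ∈ Finset.range (N + 1), (if l < 2 then (1 : ℝ) else 0) ≤ 2 := by
      rw [← Finset.sum_filter, Finset.sum_const, nsmul_eq_mul, mul_one]
      have : ((Finset.range (N + 1)).filter fun l => l < 2).card ≤ (Finset.range 2).card := by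
        apply Finset.card_le_card
        intro l hl
        rw [Finset.mem_filter] at hl
        exact Finset.mem_range.2 hl.2
      rw [Finset.card_range] at this
      exact_mod_cast this
    have hD : (0 : ℝ) ≤ 1 + Fintype.card S.D := by positivity
    have h6 := mul_le_mul_of_nonneg_left h5 hD
    push_cast
    linarith
  refine hcard'.trans ?_
  have hR : (0 : ℝ) ≤ Fintype.card S.R := Nat.cast_nonneg _
  refine (mul_le_mul_of_nonneg_left hsum hR).trans ?_
  have hM : (1 : ℝ) ≤ ((N : ℝ) + 1) ^ (2 * k + (d0 + 2)) := one_le_pow₀ hN1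
  have e1 : ((N : ℝ) + 1) * (2 * C * (N + 1) ^ (2 * k + d0 + 1) * 2) =
      4 * C * ((N : ℝ) + 1) ^ (2 * k + (d0 + 2)) := by
    have : 2 * k + (d0 + 2) = (2 * k + d0 + 1) + 1 := by ring
    rw [this, pow_succ]
    ring
  rw [e1, mul_add]
  have h9 : (Fintype.card S.R : ℝ) * (2 * (1 + Fintype.card S.D)) = 2 * a := by rw [ha]; ring
  rw [h9]
  have h10 : 2 * a ≤ 2 * a * ((N : ℝ) + 1) ^ (2 * k + (d0 + 2)) :=
    le_mul_of_one_le_right (by positivity) hM
  linarith

end Pool.Agent.BGD
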