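import Pool.Agent.BGD.Glue2
import Pool.Agent.BGD.Words
import Pool.Agent.BGD.WRD
import Pool.Agent.BGD.PACK
import Pool.Agent.BGD.CLR
import Pool.Agent.BGD.LEN
import Pool.Agent.BGD.FIN
import Pool.Agent.BGD.Split3
import Pool.Agent.BGD.LABR
import Pool.Agent.BGD.StR

/-!
# Polynomial bound for the billiard complexity: assembly (helper60)
-/

set_option autoImplicit false

open scoped ComplexConjugate

namespace Pool.Agent.BGD

open Pool.Agent.Billiard Pool.Agent.Lib_helper45.Bil Pool.Agent.BCX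

theorem x_SPLIT : Stmt_SPLIT := fun S => by
  obtain ⟨r0, h0, h⟩ := split_exists S
  refine ⟨r0, h0, fun x hx q hq hm hl => ?_⟩
  obtain ⟨y, z, a, h1, h2, h3⟩ := h x hx q hq hm hl
  exact ⟨⟨y, z, a, h1⟩, h2, h3⟩

/-- the number of generalized diagonals with at most `N` doors is polynomial in `N` -/
theorem x_POLY : Stmt_POLY := m_POLY x_SPLIT m_LEN m_CLR x_PACK m_FINA

/-- the polynomial bound for the complexity of every polygon, the exponent depends only on the rank -/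
theorem poly_rank (hSTR : Str.Stmt_STR) : ∃ d0 : ℕ, ∀ (P : Polygon) (r : ℕ), RankLE P r →
    ∃ C : ℝ, 0 < C ∧ ∀ n : ℕ, 1 ≤ n → (P.complexity n : ℝ) ≤ C * (n : ℝ) ^ (2 * r + d0) := by
  obtain ⟨d0, h⟩ := words_poly x_POLY m_WRD
  refine ⟨d0, fun P r hR => ?_⟩
  obtain ⟨S, C, hlp, hc⟩ := hSTR P
  obtain ⟨C', hC', hw⟩ := h S r (labBound_rank hlp hR)
  refine ⟨C' * ((C : ℝ) + 1) ^ (2 * r + d0), by positivity, fun n hn => ?_⟩
  have hn' : (1 : ℝ) ≤ n := by exact_mod_cast hn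
  have h1 : (P.complexity n : ℝ) ≤ ((WS S (C * n)).ncard : ℝ) := by
    have := hc n
    exact_mod_cast this
  refine h1.trans ((hw (C * n)).trans ?_)
  rw [mul_assoc, ← mul_pow]
  have hC0 : (0 : ℝ) ≤ C := Nat.cast_nonneg C
  push_cast
  gcongr
  linarith

end Pool.Agent.BGD
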