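import Pool.Agent.BGD.Sgn
import Pool.Agent.BGD.Cells

/-!
# Two diagonals attached to `u` whose lines are in one cell are equal (helper82)
-/

set_option autoImplicit false

open InnerProductGeometry

namespace Pool.Agent.BGD

variable {S : Rooms}

/-- (END, helper54) a door end close to the diagonal is over it -/
def EndAll (S : Rooms) (rE : ℝ) : Prop :=
  0 < rE ∧ ∀ x : Obj S, x.GD → ∀ q ∈ x.ends, |x.ht q| < rE → 0 < x.tm q ∧ x.tm q < ‖x.hol‖

/-- direction of `x` in the chart of its part after the doors `a` -/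
noncomputable def dirU (x : Obj S) (a : List S.D) : ℂ := ((frame S a)⁻¹).lin x.hol / ‖x.hol‖

/-- signed distance of the start of `u` from the line of `x` in the chart of `u` -/
noncomputable def offU (x u : Obj S) (a : List S.D) : ℝ :=
  cx (dirU x a) (u.A - ((frame S a)⁻¹).ap x.A)

/-- direction of `u` -/
noncomputable def uni (u : Obj S) : ℂ := u.hol / ‖u.hol‖

/-- slope of `x` over `u` -/
noncomputable def sinU (x u : Obj S) (a : List S.D) : ℝ := cx (uni u) (dirU x a)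

/-- signed distance of a point from the line of `x` in the chart of `u` -/
noncomputable def HU (x u : Obj S) (a : List S.D) (q : ℂ) : ℝ := offU x u a + cx (dirU x a) (q - u.A)

theorem sg_abs (m : Mot) : |m.sg| = 1 := by
  rw [Mot.sg]; split <;> simp

theorem norm_uni {u : Obj S} (h : u.hol ≠ 0) : ‖uni u‖ = 1 := by
  have hn : 0 < ‖u.hol‖ := norm_pos_iff.2 h
  rw [uni, norm_div, Complex.norm_real, norm_norm, div_self hn.ne']

theorem norm_dirU {x : Obj S} (h : x.hol ≠ 0) (a : List S.D) : ‖dirU x a‖ = 1 := by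
  have hn : 0 < ‖x.hol‖ := norm_pos_iff.2 h
  rw [dirU, norm_div, Complex.norm_real, norm_norm, Mot.norm_lin, div_self hn.ne']

theorem cx_div_left (p q : ℂ) (n : ℝ) : cx (p / n) q = cx p q / n := by
  simp only [cx, Complex.div_ofReal_re, Complex.div_ofReal_im]; ring

theorem dt_div_left (p q : ℂ) (n : ℝ) : dt (p / n) q = dt p q / n := by
  simp only [dt, Complex.div_ofReal_re, Complex.div_ofReal_im]; ring

/-- the height in the chart of `u` -/
theorem HU_eq (x u : Obj S) (a : List S.D) (q : ℂ) :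
    HU x u a q = cx (((frame S a)⁻¹).lin x.hol) (q - ((frame S a)⁻¹).ap x.A) / ‖x.hol‖ := by
  rw [HU, offU, ← cx_add_right, dirU, cx_div_left]
  congr 2
  ring

theorem HU_ht (x u : Obj S) (a : List S.D) (q : ℂ) :
    HU x u a (((frame S a)⁻¹).ap q) = (frame S a).sg * x.ht q := by
  rw [HU_eq, cx_chart, Obj.ht]; ring

theorem HU_ht' (x u : Obj S) (a : List S.D) (q : ℂ) :
    HU x u a q = (frame S a).sg * x.ht ((frame S a).ap q) := by
  rw [← HU_ht x u a, Mot.ap_inv_ap]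

theorem dirU_tm (x : Obj S) (a : List S.D) (q q' : ℂ) :
    dt (dirU x a) (q - q') = x.tm ((frame S a).ap q) - x.tm ((frame S a).ap q') := by
  rw [Obj.tm_sub, Mot.ap_sub_ap, dirU, dt_div_left]
  congr 1
  have := ((frame S a)⁻¹).dt_lin x.hol ((frame S a).lin (q - q'))
  rw [Mot.lin_inv_lin] at this
  exact this

/-- all the facts about `x` over `u` -/
structure Over (x u : Obj S) (a b : List S.D) (D R : ℝ) : Prop where
  gx : x.GD
  gu : u.GD
  att : Att x u a b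
  le : ‖x.hol‖ ≤ R
  ang : angle (uni u) (dirU x a) ≤ D
  off : |offU x u a| ≤ D * R
  t0 : 0 ≤ x.tm ((frame S a).ap u.A)
  t1 : x.tm ((frame S a).ap u.A) ≤ ‖x.hol‖
  near : ‖(frame S a).ap u.A - x.A‖ ≤ 2 * R

theorem over_of_desc {c : ℝ} (hc : c ≤ 1 / 100) {x u : Obj S} {a : List S.D} {V D R : ℝ}
    (hx : x.GD) (h : Desc c x u a V) (hV : V ≤ D) (hD : D ≤ 1 / 100) (hR : ‖x.hol‖ ≤ R) :
    ∃ b, Over x u a b D R := by
  obtain ⟨gu, ⟨b, hb⟩, hV0, hn, hang, hA, hQ, ht⟩ := att (by linarith) hx h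
  obtain ⟨t0, t1, t2⟩ := ht (by linarith)
  have hxn : 0 < ‖x.hol‖ := norm_pos_iff.2 hx.ne
  have hun : 0 < ‖u.hol‖ := norm_pos_iff.2 gu.ne
  have hD0 : 0 ≤ D := hV0.trans hV
  have hVR : V * ‖x.hol‖ ≤ D * R := mul_le_mul hV hR hxn.le hD0
  refine ⟨b, ⟨hx, gu, hb, hR, ?_, ?_, t0, t1.trans t2, ?_⟩⟩
  · have e1 : uni u = (‖u.hol‖⁻¹ : ℝ) • u.hol := by
      rw [uni, Complex.real_smul]; push_cast; field_simp
    have e2 : dirU x a = (‖x.hol‖⁻¹ : ℝ) • ((frame S a)⁻¹).lin x.hol := by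
      rw [dirU, Complex.real_smul]; push_cast; field_simp
    rw [e1, e2, angle_smul_left_of_pos _ _ (by positivity), angle_smul_right_of_pos _ _ (by positivity),
      angle_comm, ← angle_lin (frame S a), Mot.lin_lin_inv]
    exact hang.trans hV
  · have : offU x u a = HU x u a u.A := by rw [HU, sub_self]; simp [cx]
    rw [this, HU_ht', abs_mul, sg_abs, one_mul]
    exact hA.trans hVR
  · set z := (frame S a).ap u.A
    have h1 := cx_sq_add_dt_sq x.hol (z - x.A)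
    have h2 : cx x.hol (z - x.A) = x.ht z * ‖x.hol‖ := by rw [Obj.ht]; field_simp
    have h3 : dt x.hol (z - x.A) = x.tm z * ‖x.hol‖ := by rw [Obj.tm]; field_simp
    rw [h2, h3] at h1
    have h4 : ‖z - x.A‖ ^ 2 = x.ht z ^ 2 + x.tm z ^ 2 := by
      have h5 : (x.ht z ^ 2 + x.tm z ^ 2) * ‖x.hol‖ ^ 2 = ‖z - x.A‖ ^ 2 * ‖x.hol‖ ^ 2 := by
        linear_combination h1
      exact (mul_right_cancel₀ (pow_ne_zero 2 hxn.ne') h5).symm
    have h6 : x.ht z ^ 2 ≤ R ^ 2 := by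
      apply sq_le_sq'
      · have := (abs_le.1 hA).1
        nlinarith
      · have := (abs_le.1 hA).2
        nlinarith
    have h7 : x.tm z ^ 2 ≤ R ^ 2 := pow_le_pow_left₀ t0 ((t1.trans t2).trans hR) 2
    apply le_of_sq_le_sq _ (by linarith)
    nlinarith

variable {κ rE Dm : ℝ}

/-- the difference of the heights, crude -/
theorem crude {x x' u : Obj S} {a b a' b' : List S.D} {D R : ℝ} (hx : Over x u a b D R)
    (hx' : Over x' u a' b' D R) (hD : D ≤ 1 / 2) (q : ℂ) :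
    ‖dirU x a - dirU x' a'‖ ≤ 2 * D ∧
    |HU x u a q - HU x' u a' q| ≤ 2 * D * R + 2 * D * ‖q - u.A‖ := by
  have f1 := unit_angle (norm_uni hx.gu.ne) (norm_dirU hx.gx.ne a) hx.ang hD
  have f2 := unit_angle (norm_uni hx'.gu.ne) (norm_dirU hx'.gx.ne a') hx'.ang hD
  have h1 : ‖dirU x a - dirU x' a'‖ ≤ 2 * D := by
    calc ‖dirU x a - dirU x' a'‖ = ‖(dirU x a - uni u) + (uni u - dirU x' a')‖ := by congr 1; ring
      _ ≤ ‖dirU x a - uni u‖ + ‖uni u - dirU x' a'‖ := norm_add_le _ _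
      _ ≤ 2 * D := by rw [norm_sub_rev]; linarith [f1.2.2, f2.2.2]
  refine ⟨h1, ?_⟩
  have h2 := cx_diff_crude (dirU x a) (dirU x' a') (q - u.A)
  have h3 : ‖dirU x a - dirU x' a'‖ * ‖q - u.A‖ ≤ 2 * D * ‖q - u.A‖ :=
    mul_le_mul_of_nonneg_right h1 (norm_nonneg _)
  have h4 : HU x u a q - HU x' u a' q = (offU x u a - offU x' u a') +
      (cx (dirU x a) (q - u.A) - cx (dirU x' a') (q - u.A)) := by rw [HU, HU]; ring
  rw [h4]
  have h5 := abs_add_le (offU x u a - offU x' u a')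
    (cx (dirU x a) (q - u.A) - cx (dirU x' a') (q - u.A))
  have h6 := abs_sub (offU x u a) (offU x' u a')
  have h7 := hx.off
  have h8 := hx'.off
  linarith

/-- same signs at the door ends -/
theorem signs {x x' u : Obj S} {a b a' b' : List S.D} {D R h : ℝ} (hE : EndAll S rE)
    (hDm : ∀ r, ∀ p ∈ S.V r, ∀ q ∈ S.V r, ‖p - q‖ ≤ Dm) (hx : Over x u a b D R)
    (hx' : Over x' u a' b' D R) (hD0 : 0 < D) (hD : D ≤ 1 / 100) (hR0 : 0 < R) (h0 : 0 < h)
    (hcl : x.Clear h) (L : ℝ) (hL : Dm * x.ds.length + 2 * R ≤ L) (hRL : R ≤ L)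
    (hsmall : 4 * D * L < rE)
    (ho : |offU x u a - offU x' u a'| < h / 8) (hs : |sinU x u a - sinU x' u a'| < h / (16 * R)) :
    ∀ q ∈ x.ends, 0 < HU x u a (((frame S a)⁻¹).ap q) * HU x' u a' (((frame S a)⁻¹).ap q) := by
  intro q hq
  set q0 := ((frame S a)⁻¹).ap q with hq0
  have hqe : (frame S a).ap q0 = q := Mot.ap_ap_inv _ _
  have hHq : |HU x u a q0| = |x.ht q| := by rw [hq0, HU_ht, abs_mul, sg_abs, one_mul]
  have f1 := unit_angle (norm_uni hx.gu.ne) (norm_dirU hx.gx.ne a) hx.ang (by linarith)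
  have f2 := unit_angle (norm_uni hx'.gu.ne) (norm_dirU hx'.gx.ne a') hx'.ang (by linarith)
  obtain ⟨c1, c2⟩ := crude hx hx' (by linarith) q0
  by_cases hc : |x.ht q| < rE
  · obtain ⟨t0, t1⟩ := hE.2 x hx.gx q hq hc
    have hdir := dir_close (norm_uni hx.gu.ne) (norm_dirU hx.gx.ne a) (norm_dirU hx'.gx.ne a')
      f1.1 f2.1 (f1.2.1.trans (by linarith)) (f2.2.1.trans (by linarith))
    have hdir' : ‖dirU x a - dirU x' a'‖ ≤ h / (8 * R) := by
      have h1 : 2 * |sinU x u a - sinU x' u a'| ≤ 2 * (h / (16 * R)) := by linarith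
      have h2 : 2 * (h / (16 * R)) = h / (8 * R) := by field_simp; ring
      rw [h2] at h1
      exact hdir.trans h1
    refine sign_keep (R := R) (norm_dirU hx.gx.ne a) (norm_dirU hx'.gx.ne a') h0 ho.le ?_
      (by linarith) ?_ ?_ ?_
    · calc R * ‖dirU x a - dirU x' a'‖ ≤ R * (h / (8 * R)) :=
            mul_le_mul_of_nonneg_left hdir' hR0.le
        _ = h / 8 := by field_simp
    · rw [dirU_tm, hqe, abs_le]
      have := hx.t0
      have := hx.t1
      have := hx.le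
      constructor <;> linarith
    · have := hx.off
      nlinarith
    · have : offU x u a + cx (dirU x a) (q0 - u.A) = HU x u a q0 := rfl
      rw [this, hHq]
      exact hcl q hq
  · push Not at hc
    apply same_sign_of_close
    rw [hHq]
    have h1 : ‖q0 - u.A‖ ≤ L := by
      have e1 : ‖q0 - u.A‖ = ‖q - (frame S a).ap u.A‖ := by
        rw [← hqe, Mot.ap_sub_ap, Mot.norm_lin]
      have e2 := ends_dist hDm x.ds x.r x.A x.hol x.A hx.gx.run hx.gx.memA q hq
      have e3 := hx.near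
      have e4 : ‖q - (frame S a).ap u.A‖ ≤ ‖q - x.A‖ + ‖(frame S a).ap u.A - x.A‖ := by
        calc ‖q - (frame S a).ap u.A‖ = ‖(q - x.A) - ((frame S a).ap u.A - x.A)‖ := by
              congr 1; ring
          _ ≤ _ := norm_sub_le _ _
      rw [e1]
      linarith
    have h2 : 2 * D * R ≤ 2 * D * L := by nlinarith
    have h3 : 2 * D * ‖q0 - u.A‖ ≤ 2 * D * L := by nlinarith
    linarith

/-- CELL: two diagonals over `u` whose lines are in one cell are equal -/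
theorem cell_eq {x x' u : Obj S} {a b a' b' : List S.D} {D R h : ℝ} (hκ : Pk.KapOK S κ)
    (hE : EndAll S rE)
    (hDm : ∀ r, ∀ p ∈ S.V r, ∀ q ∈ S.V r, ‖p - q‖ ≤ Dm) (hx : Over x u a b D R)
    (hx' : Over x' u a' b' D R) (hD0 : 0 < D) (hD : D ≤ 1 / 100) (hR0 : 0 < R) (h0 : 0 < h)
    (hcl : x.Clear h) (hcl' : x'.Clear h) (L : ℝ) (hL : Dm * x.ds.length + 2 * R ≤ L)
    (hL' : Dm * x'.ds.length + 2 * R ≤ L) (hRL : 3 * R ≤ L)
    (hsmall : 4 * D * L < rE) (hsmall' : 4 * D * L < κ / 2)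
    (ho : |offU x u a - offU x' u a'| < h / 8) (hs : |sinU x u a - sinU x' u a'| < h / (16 * R)) :
    x = x' ∧ a = a' := by
  have s1 := signs hE hDm hx hx' hD0 hD hR0 h0 hcl L hL (by linarith) hsmall ho hs
  have s2 := signs hE hDm hx' hx hD0 hD hR0 h0 hcl' L hL' (by linarith) hsmall
    (by rw [abs_sub_comm]; exact ho) (by rw [abs_sub_comm]; exact hs)
  have hxn : 0 < ‖x.hol‖ := norm_pos_iff.2 hx.gx.ne
  have hxn' : 0 < ‖x'.hol‖ := norm_pos_iff.2 hx'.gx.ne
  -- the sign conditions in the chart of the first room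
  have key : ∀ (x x' : Obj S) (a a' : List S.D), 0 < ‖x.hol‖ → 0 < ‖x'.hol‖ →
      (∀ q ∈ x.ends, 0 < HU x u a (((frame S a)⁻¹).ap q) * HU x' u a' (((frame S a)⁻¹).ap q)) →
      ∀ q ∈ x.ends, 0 < cx x.hol (q - x.A) * cx ((frame S a).lin (((frame S a')⁻¹).lin x'.hol))
        (q - (frame S a).ap (((frame S a')⁻¹).ap x'.A)) := by
    intro x x' a a' hn hn' hs q hq
    have h1 := hs q hq
    rw [HU_eq, HU_eq, cx_chart] at h1
    have h2 := cx_chart' (frame S a)⁻¹ (((frame S a')⁻¹).lin x'.hol) q (((frame S a')⁻¹).ap x'.A)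
    rw [_root_.inv_inv, Mot.sg_inv] at h2
    rw [h2]
    have hsg := (frame S a).sg_sq
    set A := cx x.hol (q - x.A)
    set B := cx (((frame S a')⁻¹).lin x'.hol) (((frame S a)⁻¹).ap q - ((frame S a')⁻¹).ap x'.A)
    have h3 : (frame S a).sg * A / ‖x.hol‖ * (B / ‖x'.hol‖) =
        (A * ((frame S a).sg * B)) * (1 / (‖x.hol‖ * ‖x'.hol‖)) := by field_simp
    rw [h3] at h1
    have h4 : 0 < 1 / (‖x.hol‖ * ‖x'.hol‖) := by positivity
    exact pos_of_mul_pos_left h1 h4.le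
  obtain ⟨F, G⟩ := runs_of_signs hx.gx hx.att (key x x' a a' hxn hxn' s1)
  obtain ⟨F', G'⟩ := runs_of_signs hx'.gx hx'.att (key x' x a' a hxn' hxn s2)
  -- the end vertices
  have fin : ∀ (x x' : Obj S) (a a' b b' : List S.D), Over x u a b D R → Over x' u a' b' D R →
      ∀ z, x'.ht z = 0 → ‖z - x'.A‖ ≤ R →
      |Pk.hgt (((frame S a)⁻¹).ap x.A) (((frame S a)⁻¹).lin x.hol) (((frame S a')⁻¹).ap z)| <
        κ / 2 := by
    intro x x' a a' b b' hx hx' z hz hzR
    have e1 : Pk.hgt (((frame S a)⁻¹).ap x.A) (((frame S a)⁻¹).lin x.hol)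
        (((frame S a')⁻¹).ap z) = HU x u a (((frame S a')⁻¹).ap z) := by
      rw [Pk.hgt, HU_eq, Mot.norm_lin]
    have e2 : HU x' u a' (((frame S a')⁻¹).ap z) = 0 := by rw [HU_ht, hz, mul_zero]
    have e3 := (crude hx hx' (by linarith) (((frame S a')⁻¹).ap z)).2
    rw [e2, sub_zero] at e3
    have e4 : ‖((frame S a')⁻¹).ap z - u.A‖ ≤ L := by
      have k1 : ‖((frame S a')⁻¹).ap z - u.A‖ = ‖z - (frame S a').ap u.A‖ := by
        have : u.A = ((frame S a')⁻¹).ap ((frame S a').ap u.A) := (Mot.ap_inv_ap _ _).symm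
        rw [this, Mot.ap_sub_ap, Mot.norm_lin, Mot.ap_ap_inv]
      have k2 := hx'.near
      have k3 : ‖z - (frame S a').ap u.A‖ ≤ ‖z - x'.A‖ + ‖(frame S a').ap u.A - x'.A‖ := by
        calc ‖z - (frame S a').ap u.A‖ = ‖(z - x'.A) - ((frame S a').ap u.A - x'.A)‖ := by
              congr 1; ring
          _ ≤ _ := norm_sub_le _ _
      rw [k1]
      linarith
    rw [e1]
    have h2 : 2 * D * R ≤ 2 * D * L := by nlinarith
    have h3 : 2 * D * ‖((frame S a')⁻¹).ap z - u.A‖ ≤ 2 * D * L := by nlinarith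
    linarith
  have hQR : ∀ x : Obj S, ‖x.hol‖ ≤ R → ‖x.Q - x.A‖ ≤ R := fun x h => h
  have hAR : ∀ x : Obj S, ‖x.A - x.A‖ ≤ R := fun x => by rw [sub_self, norm_zero]; exact hR0.le
  have hdt : 0 < dt (((frame S a)⁻¹).lin x.hol) (((frame S a')⁻¹).lin x'.hol) := by
    have g1 := norm_dirU hx.gx.ne a
    have g2 := norm_dirU hx'.gx.ne a'
    have g3 := (crude hx hx' (by linarith) 0).1
    have g4 : ‖dirU x a - dirU x' a'‖ ^ 2 = 2 - 2 * dt (dirU x a) (dirU x' a') := by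
      have k1 : ‖dirU x a‖ ^ 2 = 1 := by rw [g1]; norm_num
      have k2 : ‖dirU x' a'‖ ^ 2 = 1 := by rw [g2]; norm_num
      rw [norm_sq_eq] at k1 k2 ⊢
      simp only [dt, Complex.sub_re, Complex.sub_im]
      linear_combination k1 + k2
    have g5 : ‖dirU x a - dirU x' a'‖ ≤ 1 / 2 := by linarith
    have g6 : ‖dirU x a - dirU x' a'‖ ^ 2 ≤ (1 / 2) ^ 2 := pow_le_pow_left₀ (norm_nonneg _) g5 2
    have g7 : 0 < dt (dirU x a) (dirU x' a') := by nlinarith
    rw [dirU, dt_div_left, dt_comm, dirU, dt_div_left, dt_comm] at g7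
    have g8 := (div_pos_iff_of_pos_right hxn).1 g7
    exact (div_pos_iff_of_pos_right hxn').1 g8
  obtain ⟨r1, r2, -⟩ := Pk.core hκ hx.gx hx'.gx hx.att hx'.att rfl rfl rfl rfl F F' G G'
    (fin x x' a a' b b' hx hx' _ (x'.ht_Q) (hQR _ hx'.le))
    (fin x' x a' a b' b hx' hx _ (x.ht_Q) (hQR _ hx.le))
    (fin x x' a a' b b' hx hx' _ (x'.ht_A) (hAR _))
    (fin x' x a' a b' b hx' hx _ (x.ht_A) (hAR _)) hdt
  exact ⟨r1, r2⟩

end Pool.Agent.BGD
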