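import Pool.Agent.BGD.PkR

/-!
# Packing, part B: two lines with the same signs (helper92)

`run_prefix`: two runs of one line are prefixes of each other. `Entr`: the line has entered the room
before the vertex `B`. `stop`: then it leaves the room through no door. `fwd_eq`, `end_eq`, `core`.
-/

set_option autoImplicit false

open scoped ComplexConjugate

namespace Pool.Agent.BGD

namespace Pk

variable {S : Rooms}

/-- two runs of the same line -/
theorem run_prefix {r : S.R} {p v : ℂ} {a b : List S.D} (ha : Run S r p v a)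
    (hb : Run S r p v b) : a <+: b ∨ b <+: a := by
  induction a generalizing r p v b with
  | nil => exact Or.inl (List.nil_prefix)
  | cons d a ih =>
    cases b with
    | nil => exact Or.inr (List.nil_prefix)
    | cons d' b =>
      obtain ⟨h1, h2, h3, h4⟩ := ha
      obtain ⟨h1', h2', h3', h4'⟩ := hb
      have e : d = d' := exit_unique (h1.trans h1'.symm) h2 h3 h2' h3'
      subst e
      rcases ih h4 h4' with h | h
      · exact Or.inl (List.cons_prefix_cons.2 ⟨rfl, h⟩)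
      · exact Or.inr (List.cons_prefix_cons.2 ⟨rfl, h⟩)

/-- the line has entered the room before it passes through `B` -/
def Entr (S : Rooms) (r : S.R) (p v B : ℂ) : Prop :=
  ∃ c ∈ convexHull ℝ ((S.V r : Set ℂ) \ {B}), cx v (c - p) = 0 ∧ 0 < dt v (B - c)

/-- the crossing point with a door -/
theorem cross_pt {d : S.D} {p v : ℂ} (h1 : cx v (S.pb d - p) < 0) (h2 : 0 < cx v (S.pa d - p)) :
    ∃ t : ℝ, 0 ≤ t ∧ t ≤ 1 ∧ cx v (((1 - t : ℝ) * S.pb d + (t : ℝ) * S.pa d : ℂ) - p) = 0 := by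
  have h3 : 0 < cx v (S.pa d - p) - cx v (S.pb d - p) := by linarith
  refine ⟨-cx v (S.pb d - p) / (cx v (S.pa d - p) - cx v (S.pb d - p)),
    div_nonneg (by linarith) h3.le, (div_le_one h3).2 (by linarith), ?_⟩
  set t := -cx v (S.pb d - p) / (cx v (S.pa d - p) - cx v (S.pb d - p)) with ht
  have h4 : t * (cx v (S.pa d - p) - cx v (S.pb d - p)) = -cx v (S.pb d - p) := by
    rw [ht]; field_simp
  have e : ((1 - t : ℝ) * S.pb d + (t : ℝ) * S.pa d : ℂ) - p =
      (1 - t : ℝ) * (S.pb d - p) + (t : ℝ) * (S.pa d - p) := by push_cast; ring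
  rw [e, cx_add, cx_smul, cx_smul]
  linarith

theorem cx_dt_id (v w z : ℂ) : ‖v‖ ^ 2 * cx w z = -(dt v z * cx v w) + cx v z * dt v w := by
  rw [Complex.sq_norm, Complex.normSq_apply]
  simp only [cx, dt]
  ring

/-- the crossing point of an exit door is beyond the vertices of the room on the line -/
theorem beyond {d : S.D} {p v B : ℂ} (h1 : cx v (S.pb d - p) < 0) (h2 : 0 < cx v (S.pa d - p))
    (hB : B ∈ S.V (S.src d)) (hB0 : cx v (B - p) = 0) :
    ∃ c ∈ convexHull ℝ ((S.V (S.src d) : Set ℂ) \ {B}), cx v (c - p) = 0 ∧ 0 < dt v (c - B) := by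
  obtain ⟨t, ht0, ht1, hc⟩ := cross_pt h1 h2
  have hBa : B ≠ S.pa d := by rintro rfl; linarith
  have hBb : B ≠ S.pb d := by rintro rfl; linarith
  have hb : S.pb d ∈ (S.V (S.src d) : Set ℂ) \ {B} := ⟨S.mem_b d, hBb.symm⟩
  have ha : S.pa d ∈ (S.V (S.src d) : Set ℂ) \ {B} := ⟨S.mem_a d, hBa.symm⟩
  refine ⟨_, comb_mem (convex_convexHull ℝ _) (subset_convexHull ℝ _ hb)
    (subset_convexHull ℝ _ ha) ht0 ht1, hc, ?_⟩
  set q : ℂ := ((1 - t : ℝ) * S.pb d + (t : ℝ) * S.pa d : ℂ) with hq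
  have hside := S.side d B hB hBa hBb
  have e1 : cx (S.pa d - S.pb d) (q - S.pb d) = 0 := by
    rw [hq]
    simp only [cx, Complex.add_re, Complex.add_im, Complex.sub_re, Complex.sub_im,
      Complex.mul_re, Complex.mul_im, Complex.ofReal_re, Complex.ofReal_im]
    ring
  have e2 : cx (S.pa d - S.pb d) (B - q) = cx (S.pa d - S.pb d) (B - S.pb d) := by
    have : B - q = (B - S.pb d) - (q - S.pb d) := by ring
    rw [this, cx_sub, e1, sub_zero]
  have e3 : cx v (B - q) = 0 := by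
    have : B - q = (B - p) - (q - p) := by ring
    rw [this, cx_sub, hB0, hc, sub_zero]
  have e4 := cx_dt_id v (S.pa d - S.pb d) (B - q)
  rw [e3, zero_mul, add_zero, e2] at e4
  have e5 : 0 < cx v (S.pa d - S.pb d) := by
    have : S.pa d - S.pb d = (S.pa d - p) - (S.pb d - p) := by ring
    rw [this, cx_sub]; linarith
  have hv : v ≠ 0 := by
    rintro rfl
    simp [cx] at h2
  have e6 : 0 < ‖v‖ ^ 2 * cx (S.pa d - S.pb d) (B - S.pb d) :=
    mul_pos (pow_pos (norm_pos_iff.2 hv) 2) hside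
  have e7 : dt v (q - B) = -dt v (B - q) := by
    have : q - B = 0 - (B - q) := by ring
    rw [this, dt_sub]
    simp [dt]
  rw [e7]
  by_contra hcon
  push Not at hcon
  have : 0 ≤ dt v (B - q) * cx v (S.pa d - S.pb d) := mul_nonneg (by linarith) e5.le
  linarith

/-- a room entered through a door -/
theorem entr_door {d : S.D} {p v B : ℂ} (h1 : cx v (S.pb d - p) < 0) (h2 : 0 < cx v (S.pa d - p))
    (hB : B ∈ S.V (S.dst d))
    (hB0 : cx (((S.M d)⁻¹).lin v) (B - ((S.M d)⁻¹).ap p) = 0) :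
    Entr S (S.dst d) (((S.M d)⁻¹).ap p) (((S.M d)⁻¹).lin v) B := by
  obtain ⟨e1, e2⟩ := entered h1 h2
  have hs : S.src (S.inv d) = S.dst d := S.src_inv d
  obtain ⟨c, hc, hc0, hct⟩ := beyond (d := S.inv d) (v := -((S.M d)⁻¹).lin v)
    (p := ((S.M d)⁻¹).ap p) (B := B) (by rw [cx_neg_left]; linarith) (by rw [cx_neg_left]; linarith)
    (by rw [hs]; exact hB) (by rw [cx_neg_left, hB0, neg_zero])
  rw [hs] at hc
  rw [cx_neg_left, neg_eq_zero] at hc0
  refine ⟨c, hc, hc0, ?_⟩
  rw [dt_neg_left] at hct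
  have : B - c = 0 - (c - B) := by ring
  rw [this, dt_sub]
  have h0 : dt (((S.M d)⁻¹).lin v) 0 = 0 := by simp [dt]
  rw [h0]
  linarith

/-- a line which has entered the room and passes through the vertex `B` leaves it through no door -/
theorem stop {r : S.R} {p v B : ℂ} (hB : B ∈ S.V r) (hB0 : cx v (B - p) = 0)
    (he : Entr S r p v B) {d : S.D} (hd : S.src d = r) (h1 : cx v (S.pb d - p) < 0)
    (h2 : 0 < cx v (S.pa d - p)) : False := by
  subst hd
  obtain ⟨c, hc, hc0, hct⟩ := he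
  obtain ⟨c', hc', hc0', hct'⟩ := beyond h1 h2 hB hB0
  have hv : v ≠ 0 := by
    rintro rfl
    simp [cx] at h2
  have hn : 0 < ‖v‖ ^ 2 := pow_pos (norm_pos_iff.2 hv) 2
  -- `B` is between `c` and `c'`
  set α := dt v (B - c) with hα
  set β := dt v (c' - B) with hβ
  have hab : 0 < α + β := by linarith
  have key : (α + β) * B = β * c + α * c' := by
    -- all three points are on the line
    have k1 : ∀ z : ℂ, cx v z = 0 → (‖v‖ ^ 2 : ℝ) * z = dt v z * v := by
      intro z hz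
      rw [Complex.sq_norm, Complex.normSq_apply]
      simp only [cx] at hz
      apply Complex.ext
      · simp only [dt, Complex.mul_re, Complex.ofReal_re, Complex.ofReal_im]
        linear_combination (-v.im) * hz
      · simp only [dt, Complex.mul_im, Complex.ofReal_re, Complex.ofReal_im]
        linear_combination (v.re) * hz
    have k2 : cx v (B - c) = 0 := by
      have : B - c = (B - p) - (c - p) := by ring
      rw [this, cx_sub, hB0, hc0, sub_zero]
    have k3 : cx v (c' - B) = 0 := by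
      have : c' - B = (c' - p) - (B - p) := by ring
      rw [this, cx_sub, hB0, hc0', sub_zero]
    have k4 := k1 _ k2
    have k5 := k1 _ k3
    rw [← hα] at k4
    rw [← hβ] at k5
    have hn' : ((‖v‖ ^ 2 : ℝ) : ℂ) ≠ 0 := by exact_mod_cast hn.ne'
    apply mul_left_cancel₀ hn'
    linear_combination (-(α : ℂ)) * k5 + (β : ℂ) * k4
  apply S.extr (S.src d) B hB
  have h3 : B = ((1 - α / (α + β) : ℝ) * c + ((α / (α + β) : ℝ) : ℂ) * c' : ℂ) := by
    have h4 : ((α + β : ℝ) : ℂ) ≠ 0 := by exact_mod_cast hab.ne'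
    push_cast at h4 ⊢
    field_simp
    linear_combination key
  rw [h3]
  exact comb_mem (convex_convexHull ℝ _) (by rw [← h3]; exact hc) (by rw [← h3]; exact hc')
    (div_nonneg hct.le hab.le) ((div_le_one hab).2 (by linarith))

/-- the line in the coordinates of the last room has entered it before the vertex `B` -/
theorem entr_run {r : S.R} {p v : ℂ} {a : List S.D} (ha : Run S r p v a) (hne : a ≠ []) {B : ℂ}
    (hB : B ∈ S.V (endR S r a))
    (hB0 : cx (((frame S a)⁻¹).lin v) (B - ((frame S a)⁻¹).ap p) = 0) :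
    Entr S (endR S r a) (((frame S a)⁻¹).ap p) (((frame S a)⁻¹).lin v) B := by
  induction a generalizing r p v with
  | nil => exact absurd rfl hne
  | cons d a ih =>
    obtain ⟨h1, h2, h3, h4⟩ := ha
    rw [frame_cons, mul_inv_rev, Mot.ap_mul, Mot.lin_mul] at hB0 ⊢
    rw [endR_cons] at hB ⊢
    by_cases ha : a = []
    · subst ha
      have e1 : frame S ([] : List S.D) = 1 := rfl
      rw [e1, inv_one, Mot.ap_one, Mot.lin_one] at hB0 ⊢
      exact entr_door h2 h3 hB hB0
    · exact ih h4 ha hB hB0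

/-- Forward comparison. `L = (p, v)` runs through `ds` and ends in `B`, `L' = (p', v')` runs through
`ds'` and ends in `B'`; `L'` also runs through `ds`, and `L` through `ds'`. -/
theorem fwd_prefix {r : S.R} {p' v' : ℂ} {ds ds' : List S.D} (h1 : Run S r p' v' ds')
    (h2 : Run S r p' v' ds) {B' : ℂ} (hB : B' ∈ S.V (endR S r ds'))
    (hB0 : cx (((frame S ds')⁻¹).lin v') (B' - ((frame S ds')⁻¹).ap p') = 0)
    (he : ds' = [] → Entr S r p' v' B') : ds <+: ds' := by
  rcases run_prefix h2 h1 with h | h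
  · exact h
  · obtain ⟨c, hc⟩ := h
    cases c with
    | nil => rw [List.append_nil] at hc; rw [hc]
    | cons d c =>
      exfalso
      rw [← hc, Run_append] at h2
      obtain ⟨-, g1, g2, g3, -⟩ := h2
      refine stop hB hB0 ?_ g1 g2 g3
      by_cases h3 : ds' = []
      · subst h3
        have := he rfl
        have e1 : frame S ([] : List S.D) = 1 := rfl
        rw [e1, inv_one, Mot.ap_one, Mot.lin_one]
        exact this
      · exact entr_run h1 h3 hB hB0

/-- two vertices of a room on two close lines, both entered before -/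
theorem end_eq {κ : ℝ} (hκ : KapOK S κ) {r : S.R} {p v p' v' B B' : ℂ} (hv : v ≠ 0) (hv' : v' ≠ 0)
    (hB : B ∈ S.V r) (hB' : B' ∈ S.V r) (hB0 : cx v (B - p) = 0) (hB0' : cx v' (B' - p') = 0)
    (he : Entr S r p v B) (he' : Entr S r p' v' B') (hc : |hgt p v B'| < κ / 2)
    (hc' : |hgt p' v' B| < κ / 2) (hdt : 0 < dt v v') : B = B' := by
  by_contra hne
  have hne' : B' ≠ B := fun h => hne h.symm
  have hκ0 := hκ.1
  -- one case
  have main : ∀ (p v B B' : ℂ), v ≠ 0 → B ∈ S.V r → B' ∈ S.V r → B' ≠ B → cx v (B - p) = 0 →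
      Entr S r p v B → |hgt p v B'| < κ / 2 → 0 ≤ dt v (B' - B) → False := by
    intro p v B B' hv hB hB' hne' hB0 he hc h0
    have hn : 0 < ‖v‖ := norm_pos_iff.2 hv
    obtain ⟨c, hcm, hc0, hct⟩ := he
    have t1 : tim p v c ≤ tim p v B := by
      have := tim_sub p v B c
      have h2 : 0 < dt v (B - c) / ‖v‖ := div_pos hct hn
      linarith
    have t2 : tim p v B ≤ tim p v B' := by
      have := tim_sub p v B' B
      have h2 : 0 ≤ dt v (B' - B) / ‖v‖ := div_nonneg h0 hn.le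
      linarith
    obtain ⟨m, hm, t, ht0, ht1, hmh, hd⟩ := vert_near hv (convex_convexHull ℝ _) hcm
      (subset_convexHull ℝ _ ⟨hB', hne'⟩ : B' ∈ convexHull ℝ ((S.V r : Set ℂ) \ {B})) t1 t2
    have h3 := hκ.2 r B hB m hm
    have h4 : hgt p v c = 0 := by rw [hgt, hc0, zero_div]
    have h5 : hgt p v B = 0 := by rw [hgt, hB0, zero_div]
    rw [hd, hmh, h4, h5, mul_zero, zero_add, zero_sub, abs_neg, abs_mul, abs_of_nonneg ht0] at h3
    have h6 : t * |hgt p v B'| ≤ 1 * |hgt p v B'| := mul_le_mul_of_nonneg_right ht1 (abs_nonneg _)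
    linarith
  have c1 : dt v (B' - B) < 0 := by
    by_contra h
    exact main p v B B' hv hB hB' hne' hB0 he hc (not_lt.1 h)
  have c2 : dt v' (B - B') < 0 := by
    by_contra h
    exact main p' v' B' B hv' hB' hB hne hB0' he' hc' (not_lt.1 h)
  have c3 : 0 < dt v' (B' - B) := by
    have : B - B' = 0 - (B' - B) := by ring
    rw [this, dt_sub] at c2
    have h0 : dt v' 0 = 0 := by simp [dt]
    rw [h0] at c2
    linarith
  set z := B' - B with hz
  have hzκ : κ ≤ ‖z‖ := by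
    have h1 := hκ.2 r B hB B' (subset_convexHull ℝ _ ⟨hB', hne'⟩)
    rw [dist_comm, dist_eq_norm] at h1
    exact h1
  have hn : 0 < ‖v‖ := norm_pos_iff.2 hv
  have hn' : 0 < ‖v'‖ := norm_pos_iff.2 hv'
  have d1 : |cx v z| < ‖v‖ * (‖z‖ / 2) := by
    have h1 : hgt p v B' = cx v z / ‖v‖ := by
      have h2 := hgt_sub p v B' B
      have h5 : hgt p v B = 0 := by rw [hgt, hB0, zero_div]
      rw [h5, sub_zero] at h2
      exact h2
    rw [h1, abs_div, abs_of_pos hn, div_lt_iff₀ hn] at hc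
    calc |cx v z| < κ / 2 * ‖v‖ := hc
      _ ≤ ‖z‖ / 2 * ‖v‖ := by gcongr
      _ = ‖v‖ * (‖z‖ / 2) := by ring
  have d2 : |cx v' z| < ‖v'‖ * (‖z‖ / 2) := by
    have h1 : |hgt p' v' B| = |cx v' z| / ‖v'‖ := by
      have h2 := hgt_sub p' v' B' B
      have h5 : hgt p' v' B' = 0 := by rw [hgt, hB0', zero_div]
      rw [h5, zero_sub] at h2
      rw [← abs_neg, h2, abs_div, abs_of_pos hn']
    rw [h1, div_lt_iff₀ hn'] at hc'
    calc |cx v' z| < κ / 2 * ‖v'‖ := hc'
      _ ≤ ‖z‖ / 2 * ‖v'‖ := by gcongr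
      _ = ‖v'‖ * (‖z‖ / 2) := by ring
  have s1 := sq_sum v z
  have s2 := sq_sum v' z
  have q1 : cx v z ^ 2 < (‖v‖ * (‖z‖ / 2)) ^ 2 := sq_lt_sq' (by linarith [(abs_lt.1 d1).1])
    (abs_lt.1 d1).2
  have q2 : cx v' z ^ 2 < (‖v'‖ * (‖z‖ / 2)) ^ 2 := sq_lt_sq' (by linarith [(abs_lt.1 d2).1])
    (abs_lt.1 d2).2
  have e1 : cx v z ^ 2 < dt v z ^ 2 := by nlinarith
  have e2 : cx v' z ^ 2 < dt v' z ^ 2 := by nlinarith
  have e3 : |cx v z| < |dt v z| := sq_lt_sq.1 e1
  have e4 : |cx v' z| < |dt v' z| := sq_lt_sq.1 e2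
  have e5 : |cx v z| * |cx v' z| < |dt v z| * |dt v' z| :=
    mul_lt_mul'' e3 e4 (abs_nonneg _) (abs_nonneg _)
  have e6 : |dt v z| * |dt v' z| = -(dt v z * dt v' z) := by
    rw [abs_of_neg c1, abs_of_pos c3]; ring
  have e7 : cx v z * cx v' z ≤ |cx v z| * |cx v' z| := by
    rw [← abs_mul]; exact le_abs_self _
  have e8 : dt v v' * ‖z‖ ^ 2 = dt v z * dt v' z + cx v z * cx v' z := by
    rw [Complex.sq_norm, Complex.normSq_apply]
    simp only [cx, dt]
    ring
  have hz0 : 0 < ‖z‖ := lt_of_lt_of_le hκ0 hzκ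
  have e9 : 0 < dt v v' * ‖z‖ ^ 2 := mul_pos hdt (pow_pos hz0 2)
  linarith

/-- the line of a diagonal has entered the last room before the end vertex -/
theorem gd_entr {x : Obj S} (hx : x.GD) :
    Entr S (endR S x.r x.ds) (((frame S x.ds)⁻¹).ap x.A) (((frame S x.ds)⁻¹).lin x.hol) x.B := by
  by_cases h : x.ds = []
  · have hQ : x.Q = x.B := by
      rw [Obj.Q, h]
      exact Mot.ap_one _
    have hh : x.hol = x.B - x.A := by rw [Obj.hol, hQ]
    have e1 : frame S x.ds = 1 := by rw [h]; rfl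
    have e2 : endR S x.r x.ds = x.r := by rw [h]; rfl
    rw [e1, inv_one, Mot.ap_one, Mot.lin_one, e2]
    have hAB : x.A ≠ x.B := by
      intro h1
      apply hx.ne
      rw [hh, h1, sub_self]
    refine ⟨x.A, subset_convexHull ℝ _ ⟨hx.memA, hAB⟩, by rw [sub_self, cx_zero], ?_⟩
    rw [← hh]
    have h3 : x.hol ≠ 0 := hx.ne
    have h4 : dt x.hol x.hol = Complex.normSq x.hol := by rw [Complex.normSq_apply, dt]
    rw [h4]
    exact Complex.normSq_pos.2 h3
  · refine entr_run hx.run h hx.memB ?_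
    rw [cx_next]
    have : (frame S x.ds).ap x.B - x.A = x.hol := rfl
    rw [this, cx_self, mul_zero]

/-- heights in the coordinates of a later room -/
theorem hgt_next (m : Mot) (p v q : ℂ) :
    |hgt ((m⁻¹).ap p) ((m⁻¹).lin v) q| = |hgt p v (m.ap q)| := by
  rw [hgt, hgt, cx_next, Mot.norm_lin, abs_div, abs_div, abs_mul]
  have : |m.sg| = 1 := by rw [Mot.sg]; cases m.fl <;> simp
  rw [this, one_mul]

/-- Forward comparison of two diagonals, from a common room on. -/
theorem half {κ : ℝ} (hκ : KapOK S κ) {x x' : Obj S} (gx : x.GD) (gx' : x'.GD)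
    {a f a' f' : List S.D} (hx : x.ds = a ++ f) (hx' : x'.ds = a' ++ f') {r : S.R}
    (hr : endR S x.r a = r) (hr' : endR S x'.r a' = r) {p v p' v' : ℂ}
    (hp : p = ((frame S a)⁻¹).ap x.A) (hv : v = ((frame S a)⁻¹).lin x.hol)
    (hp' : p' = ((frame S a')⁻¹).ap x'.A) (hv' : v' = ((frame S a')⁻¹).lin x'.hol)
    (F : Run S r p' v' f) (F' : Run S r p v f')
    (hc : |hgt p v (((frame S a')⁻¹).ap x'.Q)| < κ / 2)
    (hc' : |hgt p' v' (((frame S a)⁻¹).ap x.Q)| < κ / 2) (hdt : 0 < dt v v') :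
    f = f' ∧ x.B = x'.B := by
  have g : ∀ (x : Obj S) (a f : List S.D) (p v : ℂ), x.GD → x.ds = a ++ f → endR S x.r a = r →
      p = ((frame S a)⁻¹).ap x.A → v = ((frame S a)⁻¹).lin x.hol →
      Run S r p v f ∧ x.B ∈ S.V (endR S r f) ∧
      (frame S f).ap x.B = ((frame S a)⁻¹).ap x.Q ∧
      cx (((frame S f)⁻¹).lin v) (x.B - ((frame S f)⁻¹).ap p) = 0 ∧
      Entr S (endR S r f) (((frame S f)⁻¹).ap p) (((frame S f)⁻¹).lin v) x.B ∧ v ≠ 0 := by
    intro x a f p v gx hx hr hp hv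
    have h1 := gx.run
    rw [hx, Run_append, hr, ← hp, ← hv] at h1
    have h2 := gx.memB
    rw [hx, endR_append, hr] at h2
    have h3 : (frame S f).ap x.B = ((frame S a)⁻¹).ap x.Q := by
      rw [Obj.Q, hx, frame_append, Mot.ap_mul, Mot.ap_inv_ap]
    have h4 := gd_entr gx
    rw [hx, frame_append, mul_inv_rev, Mot.ap_mul, Mot.lin_mul, endR_append, hr, ← hp, ← hv] at h4
    refine ⟨h1.2, h2, h3, ?_, h4, ?_⟩
    · rw [cx_next, h3, hp, Mot.ap_sub_ap, hv]
      have : x.Q - x.A = x.hol := rfl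
      rw [this, cx_self, mul_zero]
    · rw [hv]
      intro h5
      apply gx.ne
      have h6 := congrArg (frame S a).lin h5
      rwa [Mot.lin_lin_inv, Mot.lin_zero] at h6
  obtain ⟨r1, m1, q1, c1, e1, n1⟩ := g x a f p v gx hx hr hp hv
  obtain ⟨r2, m2, q2, c2, e2, n2⟩ := g x' a' f' p' v' gx' hx' hr' hp' hv'
  have hff : f = f' := by
    have h1 : f <+: f' := fwd_prefix r2 F m2 c2 (fun h => by
      rw [h] at e2
      have e0 : frame S ([] : List S.D) = 1 := rfl
      rw [e0, inv_one, Mot.ap_one, Mot.lin_one] at e2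
      exact e2)
    have h2 : f' <+: f := fwd_prefix r1 F' m1 c1 (fun h => by
      rw [h] at e1
      have e0 : frame S ([] : List S.D) = 1 := rfl
      rw [e0, inv_one, Mot.ap_one, Mot.lin_one] at e1
      exact e1)
    exact h1.eq_of_length (le_antisymm h1.length_le h2.length_le)
  subst hff
  refine ⟨rfl, ?_⟩
  have nz : ∀ w : ℂ, w ≠ 0 → ((frame S f)⁻¹).lin w ≠ 0 := by
    intro w hw h5
    apply hw
    have h6 := congrArg (frame S f).lin h5
    rwa [Mot.lin_lin_inv, Mot.lin_zero] at h6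
  refine end_eq hκ (nz v n1) (nz v' n2) m1 m2 c1 c2 e1 e2 ?_ ?_ ?_
  · rw [hgt_next, q2]; exact hc
  · rw [hgt_next, q1]; exact hc'
  · rw [Mot.dt_lin]; exact hdt

/-- The core of the packing. `x`, `x'` are attached to `u`; in the chart of `u` their lines are
p, v, p', v'. If each line runs through the doors of the other one and passes at distance
`< κ / 2` of its end points, then `x = x'`. -/
theorem core {κ : ℝ} (hκ : KapOK S κ) {x x' u : Obj S} (gx : x.GD) (gx' : x'.GD)
    {a b a' b' : List S.D} (hx : Att x u a b) (hx' : Att x' u a' b') {p v p' v' : ℂ}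
    (hp : p = ((frame S a)⁻¹).ap x.A) (hv : v = ((frame S a)⁻¹).lin x.hol)
    (hp' : p' = ((frame S a')⁻¹).ap x'.A) (hv' : v' = ((frame S a')⁻¹).lin x'.hol)
    (F : Run S u.r p' v' (u.ds ++ b)) (F' : Run S u.r p v (u.ds ++ b'))
    (G : Run S u.r p' (-v') (rev S a)) (G' : Run S u.r p (-v) (rev S a'))
    (hQ : |hgt p v (((frame S a')⁻¹).ap x'.Q)| < κ / 2)
    (hQ' : |hgt p' v' (((frame S a)⁻¹).ap x.Q)| < κ / 2)
    (hA : |hgt p v (((frame S a')⁻¹).ap x'.A)| < κ / 2)
    (hA' : |hgt p' v' (((frame S a)⁻¹).ap x.A)| < κ / 2) (hdt : 0 < dt v v') :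
    x = x' ∧ a = a' ∧ b = b' := by
  have h1 : x.ds = a ++ (u.ds ++ b) := by rw [hx.ds, List.append_assoc]
  have h1' : x'.ds = a' ++ (u.ds ++ b') := by rw [hx'.ds, List.append_assoc]
  obtain ⟨e1, e2⟩ := half hκ gx gx' h1 h1' hx.r.symm hx'.r.symm hp hv hp' hv' F F' hQ hQ' hdt
  have e3 : b = b' := List.append_cancel_left e1
  -- the reversed diagonals
  have key : ∀ (x : Obj S) (a b : List S.D) (p v : ℂ), x.GD → Att x u a b →
      p = ((frame S a)⁻¹).ap x.A → v = ((frame S a)⁻¹).lin x.hol →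
      x.rev.ds = rev S (u.ds ++ b) ++ rev S a ∧ endR S x.rev.r (rev S (u.ds ++ b)) = u.r ∧
      ((frame S (rev S (u.ds ++ b)))⁻¹).ap x.rev.A = ((frame S a)⁻¹).ap x.Q ∧
      ((frame S (rev S (u.ds ++ b)))⁻¹).lin x.rev.hol = -v ∧
      ((frame S (rev S (u.ds ++ b)))⁻¹).ap x.rev.Q = ((frame S a)⁻¹).ap x.A ∧
      cx v (((frame S a)⁻¹).ap x.Q - p) = 0 := by
    intro x a b p v gx hx hp hv
    have h1 : x.ds = a ++ (u.ds ++ b) := by rw [hx.ds, List.append_assoc]
    have hrun := gx.run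
    rw [h1, Run_append, ← hx.r] at hrun
    have f1 : (frame S x.ds) = frame S a * frame S (u.ds ++ b) := by rw [h1, frame_append]
    refine ⟨?_, ?_, ?_, ?_, ?_, ?_⟩
    · show rev S x.ds = _
      rw [h1, rev_append]
    · show endR S (endR S x.r x.ds) (rev S (u.ds ++ b)) = u.r
      rw [h1, endR_append, ← hx.r]
      exact endR_rev hrun.2
    · rw [frame_rev, _root_.inv_inv, Obj.rev_A, f1, mul_inv_rev, Mot.ap_mul, Mot.ap_ap_inv]
    · rw [frame_rev, _root_.inv_inv, Obj.rev_hol, f1, mul_inv_rev, Mot.lin_mul, Mot.lin_neg,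
        Mot.lin_lin_inv, hv]
    · rw [frame_rev, _root_.inv_inv]
      have : x.rev.Q = ((frame S x.ds)⁻¹).ap x.A := by
        show (frame S (rev S x.ds)).ap x.A = _
        rw [frame_rev]
      rw [this, f1, mul_inv_rev, Mot.ap_mul, Mot.ap_ap_inv]
    · rw [hp, Mot.ap_sub_ap, hv]
      have : x.Q - x.A = x.hol := rfl
      rw [this, cx_self]
  obtain ⟨k1, k2, k3, k4, k5, k6⟩ := key x a b p v gx hx hp hv
  obtain ⟨l1, l2, l3, l4, l5, l6⟩ := key x' a' b' p' v' gx' hx' hp' hv'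
  have bs : ∀ (p v q w : ℂ), cx v (q - p) = 0 → hgt q v w = hgt p v w := by
    intro p v q w h
    rw [hgt, hgt]
    have : w - q = (w - p) - (q - p) := by ring
    rw [this, cx_sub, h, sub_zero]
  obtain ⟨g1, g2⟩ := half hκ gx.rev gx'.rev k1 l1 k2 l2 k3.symm k4.symm l3.symm l4.symm
    (Run_base (by rw [cx_neg_left, l6, neg_zero]) G) (Run_base (by rw [cx_neg_left, k6, neg_zero]) G')
    (by rw [l5, hgt_neg, abs_neg, bs _ _ _ _ k6]; exact hA)
    (by rw [k5, hgt_neg, abs_neg, bs _ _ _ _ l6]; exact hA')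
    (by
      have : dt (-v) (-v') = dt v v' := by simp [dt]
      rw [this]; exact hdt)
  have e4 : a = a' := by rw [← rev_rev a, g1, rev_rev]
  have e5 : x.A = x'.A := g2
  have e6 : x.r = x'.r := by
    have h2 := gx.run
    have h2' := gx'.run
    rw [hx.ds, List.append_assoc, Run_append] at h2
    rw [hx'.ds, List.append_assoc, Run_append] at h2'
    rw [← endR_rev h2.1, ← endR_rev h2'.1, ← hx.r, ← hx'.r, e4]
  refine ⟨?_, e4, e3⟩
  have e7 : x.ds = x'.ds := by rw [h1, h1', e4, e3]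
  cases x
  cases x'
  simp only at e5 e6 e7 e2
  subst e5 e6 e7 e2
  rfl

end Pk

end Pool.Agent.BGD
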