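import Pool.Agent.BGD.PkB

/-!
# Packing, part C: the core with signs at the ends of the doors (helper92)
-/

set_option autoImplicit false

open scoped ComplexConjugate

namespace Pool.Agent.BGD

namespace Pk

variable {S : Rooms}

/-- two lines with the same signs at the ends of the doors run through the same doors -/
theorem run_of_signs {r : S.R} {p v p' v' : ℂ} {f : List S.D} (h : Run S r p v f)
    (hs : ∀ i, ∀ hi : i < f.length, ∀ q : ℂ, (q = (frame S (f.take i)).ap (S.pa f[i]) ∨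
      q = (frame S (f.take i)).ap (S.pb f[i])) → 0 < cx v (q - p) * cx v' (q - p')) :
    Run S r p' v' f := by
  induction f generalizing r p v p' v' with
  | nil => trivial
  | cons d f ih =>
    obtain ⟨h1, h2, h3, h4⟩ := h
    have e0 : ∀ z, (frame S ((d :: f).take 0)).ap z = z := fun z => Mot.ap_one z
    have sb := hs 0 (by simp) (S.pb d) (Or.inr (by rw [e0]; rfl))
    have sa := hs 0 (by simp) (S.pa d) (Or.inl (by rw [e0]; rfl))
    refine ⟨h1, ?_, ?_, ih h4 ?_⟩
    · by_contra hcon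
      push Not at hcon
      have := mul_nonpos_of_nonpos_of_nonneg h2.le hcon
      linarith
    · by_contra hcon
      push Not at hcon
      have := mul_nonpos_of_nonneg_of_nonpos h3.le hcon
      linarith
    · intro i hi q hq
      have key : 0 < cx v ((S.M d).ap q - p) * cx v' ((S.M d).ap q - p') := by
        refine hs (i + 1) (by simpa using hi) ((S.M d).ap q) ?_
        rcases hq with rfl | rfl
        · left
          rw [List.take_succ_cons, frame_cons, Mot.ap_mul]
          rfl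
        · right
          rw [List.take_succ_cons, frame_cons, Mot.ap_mul]
          rfl
      rw [cx_next, cx_next]
      have e : (S.M d).sg * cx v ((S.M d).ap q - p) * ((S.M d).sg * cx v' ((S.M d).ap q - p')) =
          ((S.M d).sg * (S.M d).sg) * (cx v ((S.M d).ap q - p) * cx v' ((S.M d).ap q - p')) := by
        ring
      rw [e, Mot.sg_sq, one_mul]
      exact key

/-- close unit directions -/
theorem dt_pos_of_dir {v v' : ℂ} (hv : v ≠ 0) (hv' : v' ≠ 0)
    (h : ‖v / (‖v‖ : ℂ) - v' / (‖v'‖ : ℂ)‖ ≤ 1 / 2) : 0 < dt v v' := by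
  have hn : 0 < ‖v‖ := norm_pos_iff.2 hv
  have hn' : 0 < ‖v'‖ := norm_pos_iff.2 hv'
  have e1 : ‖v / (‖v‖ : ℂ)‖ = 1 := by
    rw [norm_div, Complex.norm_real, norm_norm, div_self hn.ne']
  have e2 : ‖v' / (‖v'‖ : ℂ)‖ = 1 := by
    rw [norm_div, Complex.norm_real, norm_norm, div_self hn'.ne']
  have e3 : dt v v' = ‖v‖ * ‖v'‖ * dt (v / (‖v‖ : ℂ)) (v' / (‖v'‖ : ℂ)) := by
    have f1 : v = (‖v‖ : ℝ) * (v / (‖v‖ : ℂ)) := by
      have : (‖v‖ : ℂ) ≠ 0 := by exact_mod_cast hn.ne'
      field_simp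
    have f2 : v' = (‖v'‖ : ℝ) * (v' / (‖v'‖ : ℂ)) := by
      have : (‖v'‖ : ℂ) ≠ 0 := by exact_mod_cast hn'.ne'
      field_simp
    have f3 : ∀ (a : ℝ) (z w : ℂ), dt (a * z) w = a * dt z w := by
      intro a z w
      simp only [dt, Complex.mul_re, Complex.mul_im, Complex.ofReal_re, Complex.ofReal_im]
      ring
    conv_lhs => rw [f1, f2]
    rw [f3, dt_smul]
    ring
  have e4 : ‖v / (‖v‖ : ℂ) - v' / (‖v'‖ : ℂ)‖ ^ 2 = 2 - 2 * dt (v / (‖v‖ : ℂ)) (v' / (‖v'‖ : ℂ)) := by
    set z := v / (‖v‖ : ℂ) with hz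
    set w := v' / (‖v'‖ : ℂ) with hw
    have g1 : z.re * z.re + z.im * z.im = 1 := by
      have := Complex.sq_norm z
      rw [e1, Complex.normSq_apply] at this
      linarith
    have g2 : w.re * w.re + w.im * w.im = 1 := by
      have := Complex.sq_norm w
      rw [e2, Complex.normSq_apply] at this
      linarith
    rw [Complex.sq_norm, Complex.normSq_apply, Complex.sub_re, Complex.sub_im, dt]
    linear_combination g1 + g2
  have e5 : ‖v / (‖v‖ : ℂ) - v' / (‖v'‖ : ℂ)‖ ^ 2 ≤ (1 / 2) ^ 2 :=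
    pow_le_pow_left₀ (norm_nonneg _) h 2
  rw [e3]
  exact mul_pos (mul_pos hn hn') (by linarith)

/-- The core of the packing, with the signs at the ends of the doors. -/
theorem core_signs {κ : ℝ} (hκ : KapOK S κ) {x x' u : Obj S} (gx : x.GD) (gx' : x'.GD)
    {a b a' b' : List S.D} (hx : Att x u a b) (hx' : Att x' u a' b') {p v p' v' : ℂ}
    (hp : p = ((frame S a)⁻¹).ap x.A) (hv : v = ((frame S a)⁻¹).lin x.hol)
    (hp' : p' = ((frame S a')⁻¹).ap x'.A) (hv' : v' = ((frame S a')⁻¹).lin x'.hol)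
    (hs : ∀ q : ℂ, ((frame S a).ap q ∈ x.ends ∨ (frame S a').ap q ∈ x'.ends) →
      0 < cx v (q - p) * cx v' (q - p'))
    (hQ : |hgt p v (((frame S a')⁻¹).ap x'.Q)| < κ / 2)
    (hQ' : |hgt p' v' (((frame S a)⁻¹).ap x.Q)| < κ / 2)
    (hA : |hgt p v p'| < κ / 2) (hA' : |hgt p' v' p| < κ / 2) (hdt : 0 < dt v v') :
    x = x' ∧ a = a' ∧ b = b' := by
  have key : ∀ (x : Obj S) (a b : List S.D) (p v p' v' : ℂ), x.GD → Att x u a b →
      p = ((frame S a)⁻¹).ap x.A → v = ((frame S a)⁻¹).lin x.hol →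
      (∀ q : ℂ, (frame S a).ap q ∈ x.ends → 0 < cx v (q - p) * cx v' (q - p')) →
      Run S u.r p' v' (u.ds ++ b) ∧ Run S u.r p' (-v') (rev S a) := by
    intro x a b p v p' v' gx hx hp hv hs
    have h1 : Run S x.r ((frame S a).ap p') ((frame S a).lin v') x.ds := by
      refine run_of_signs gx.run ?_
      intro i hi q hq
      have h2 : (frame S a).ap (((frame S a)⁻¹).ap q) ∈ x.ends := by
        rw [Mot.ap_ap_inv]
        exact ⟨i, hi, hq⟩
      have h3 := hs _ h2
      have e1 : cx v (((frame S a)⁻¹).ap q - p) = (frame S a).sg * cx x.hol (q - x.A) := by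
        rw [hv, hp, Mot.ap_sub_ap, Mot.cx_lin, Mot.sg_inv]
      have e2 : cx v' (((frame S a)⁻¹).ap q - p') =
          (frame S a).sg * cx ((frame S a).lin v') (q - (frame S a).ap p') := by
        have e3 : cx ((frame S a).lin v') (q - (frame S a).ap p') =
            (frame S a).sg * cx v' (((frame S a)⁻¹).ap q - p') := by
          rw [← Mot.cx_lin, ← Mot.ap_sub_ap, Mot.ap_ap_inv]
        rw [e3, ← mul_assoc, Mot.sg_sq, one_mul]
      rw [e1, e2] at h3
      have e4 : (frame S a).sg * cx x.hol (q - x.A) *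
          ((frame S a).sg * cx ((frame S a).lin v') (q - (frame S a).ap p')) =
          ((frame S a).sg * (frame S a).sg) *
            (cx x.hol (q - x.A) * cx ((frame S a).lin v') (q - (frame S a).ap p')) := by ring
      rwa [e4, Mot.sg_sq, one_mul] at h3
    rw [hx.ds, List.append_assoc, Run_append, ← hx.r, Mot.ap_inv_ap, Mot.lin_inv_lin] at h1
    have h2 := Run_rev h1.1
    rw [← hx.r, Mot.ap_inv_ap, Mot.lin_inv_lin] at h2
    exact ⟨h1.2, h2⟩
  obtain ⟨F, G⟩ := key x a b p v p' v' gx hx hp hv (fun q hq => hs q (Or.inl hq))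
  obtain ⟨F', G'⟩ := key x' a' b' p' v' p v gx' hx' hp' hv'
    (fun q hq => by rw [mul_comm]; exact hs q (Or.inr hq))
  refine core hκ gx gx' hx hx' hp hv hp' hv' F F' G G' hQ hQ' ?_ ?_ hdt
  · rw [← hp']; exact hA
  · rw [← hp]; exact hA'

end Pk

end Pool.Agent.BGD
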