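import Pool.Agent.BGD.PkA

/-!
# Reversal of runs and objects (helper92)

`rev a`: the doors `a` backwards. `Run_rev`: the reversed line runs through the reversed doors.
`Obj.rev`, `GD.rev`: the reversed diagonal.
-/

set_option autoImplicit false

open scoped ComplexConjugate

namespace Pool.Agent.BGD

variable {S : Rooms}

/-- the doors backwards -/
def rev (S : Rooms) (a : List S.D) : List S.D := (a.map S.inv).reverse

theorem rev_nil : rev S [] = [] := rfl

theorem rev_cons (d : S.D) (a : List S.D) : rev S (d :: a) = rev S a ++ [S.inv d] := by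
  simp [rev]

theorem rev_append (a b : List S.D) : rev S (a ++ b) = rev S b ++ rev S a := by
  simp [rev]

theorem rev_length (a : List S.D) : (rev S a).length = a.length := by simp [rev]

theorem frame_cons (d : S.D) (a : List S.D) : frame S (d :: a) = S.M d * frame S a := rfl

theorem frame_nil : frame S [] = 1 := rfl

theorem frame_single (d : S.D) : frame S [d] = S.M d := by
  show S.M d * 1 = S.M d
  rw [mul_one]

theorem frame_rev (a : List S.D) : frame S (rev S a) = (frame S a)⁻¹ := by
  induction a with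
  | nil => simp [rev, frame]
  | cons d a ih => rw [rev_cons, frame_append, ih, frame_single, S.M_inv, frame_cons, mul_inv_rev]

theorem inv_inv (d : S.D) : S.inv (S.inv d) = d := by
  have h1 : S.src (S.inv (S.inv d)) = S.src d := by rw [S.src_inv, S.dst_inv]
  have ha := S.a_inv (S.inv d)
  have hb := S.b_inv (S.inv d)
  have ha' := S.a_inv d
  have hb' := S.b_inv d
  have hfl : (S.M (S.inv d)).fl = (S.M d).fl := by rw [S.M_inv]; rfl
  have e : ∀ z, (S.M d).ap ((S.M (S.inv d)).ap z) = z := fun z => by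
    rw [S.M_inv, Mot.ap_ap_inv]
  have ea := congrArg (S.M d).ap ha
  have eb := congrArg (S.M d).ap hb
  rw [e] at ea eb
  rw [hfl] at ea eb
  apply S.inj _ _ h1
  · rw [ea]
    cases hf : (S.M d).fl
    · rw [hf] at hb'
      simpa using hb'
    · rw [hf] at ha'
      simpa using ha'
  · rw [eb]
    cases hf : (S.M d).fl
    · rw [hf] at ha'
      simpa using ha'
    · rw [hf] at hb'
      simpa using hb'

theorem rev_rev (a : List S.D) : rev S (rev S a) = a := by
  induction a with
  | nil => rfl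
  | cons d a ih => rw [rev_cons, rev_append, ih, rev_cons, rev_nil]; simp [inv_inv]

/-- the cross product in the coordinates of the next room -/
theorem cx_next (m : Mot) (v q p : ℂ) :
    cx ((m⁻¹).lin v) (q - (m⁻¹).ap p) = m.sg * cx v (m.ap q - p) := by
  have h1 : q - (m⁻¹).ap p = (m⁻¹).lin (m.ap q - p) := by
    rw [← Mot.ap_sub_ap, Mot.ap_inv_ap]
  rw [h1, Mot.cx_lin, Mot.sg_inv]

theorem dt_next (m : Mot) (v q p : ℂ) :
    dt ((m⁻¹).lin v) (q - (m⁻¹).ap p) = dt v (m.ap q - p) := by
  have h1 : q - (m⁻¹).ap p = (m⁻¹).lin (m.ap q - p) := by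
    rw [← Mot.ap_sub_ap, Mot.ap_inv_ap]
  rw [h1, Mot.dt_lin]

/-- the ends of the door `inv d`, seen from the line in the coordinates of the room `dst d` -/
theorem cx_inv_door (d : S.D) (p v : ℂ) :
    cx (((S.M d)⁻¹).lin v) (S.pa (S.inv d) - ((S.M d)⁻¹).ap p) =
        (if (S.M d).fl then -cx v (S.pa d - p) else cx v (S.pb d - p)) ∧
      cx (((S.M d)⁻¹).lin v) (S.pb (S.inv d) - ((S.M d)⁻¹).ap p) =
        (if (S.M d).fl then -cx v (S.pb d - p) else cx v (S.pa d - p)) := by
  rw [cx_next, cx_next, S.a_inv, S.b_inv, Mot.sg]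
  cases (S.M d).fl <;> simp

/-- after a door: the line has entered the new room through `inv d` -/
theorem entered {d : S.D} {p v : ℂ} (h1 : cx v (S.pb d - p) < 0) (h2 : 0 < cx v (S.pa d - p)) :
    cx (((S.M d)⁻¹).lin v) (S.pa (S.inv d) - ((S.M d)⁻¹).ap p) < 0 ∧
      0 < cx (((S.M d)⁻¹).lin v) (S.pb (S.inv d) - ((S.M d)⁻¹).ap p) := by
  obtain ⟨e1, e2⟩ := cx_inv_door d p v
  rw [e1, e2]
  cases (S.M d).fl
  · simp only [Bool.false_eq_true, if_false]
    exact ⟨h1, h2⟩
  · simp only [if_true]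
    exact ⟨by linarith, by linarith⟩

theorem Run_cons (r : S.R) (p v : ℂ) (d : S.D) (ds : List S.D) : Run S r p v (d :: ds) ↔
    S.src d = r ∧ cx v (S.pb d - p) < 0 ∧ 0 < cx v (S.pa d - p) ∧
      Run S (S.dst d) (((S.M d)⁻¹).ap p) (((S.M d)⁻¹).lin v) ds := Iff.rfl

theorem endR_cons (r : S.R) (d : S.D) (ds : List S.D) : endR S r (d :: ds) = endR S (S.dst d) ds :=
  rfl

/-- the room before the doors `a`, from the one after them -/
theorem endR_rev {r : S.R} {p v : ℂ} {a : List S.D} (h : Run S r p v a) :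
    endR S (endR S r a) (rev S a) = r := by
  induction a generalizing r p v with
  | nil => rfl
  | cons d a ih =>
    obtain ⟨h1, -, -, h4⟩ := h
    rw [rev_cons, endR_append]
    show S.dst (S.inv d) = r
    rw [S.dst_inv, h1]

/-- the reversed line runs through the reversed doors -/
theorem Run_rev {r : S.R} {p v : ℂ} {a : List S.D} (h : Run S r p v a) :
    Run S (endR S r a) (((frame S a)⁻¹).ap p) (-((frame S a)⁻¹).lin v) (rev S a) := by
  induction a generalizing r p v with
  | nil => trivial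
  | cons d a ih =>
    obtain ⟨h1, h2, h3, h4⟩ := h
    have h5 := ih h4
    rw [rev_cons, Run_append, frame_cons, mul_inv_rev, Mot.ap_mul, Mot.lin_mul, endR_cons,
      endR_rev h4, frame_rev, _root_.inv_inv, Mot.ap_ap_inv, Mot.lin_neg, Mot.lin_lin_inv]
    refine ⟨h5, S.src_inv d, ?_, ?_, trivial⟩
    · rw [Pk.cx_neg_left]
      linarith [(entered h2 h3).2]
    · rw [Pk.cx_neg_left]
      linarith [(entered h2 h3).1]

namespace Obj

/-- the reversed object -/
def rev (x : Obj S) : Obj S := ⟨endR S x.r x.ds, x.B, BGD.rev S x.ds, x.A⟩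

theorem rev_hol (x : Obj S) : x.rev.hol = -((frame S x.ds)⁻¹).lin x.hol := by
  show (frame S (BGD.rev S x.ds)).ap x.A - x.B = _
  rw [frame_rev, ← Mot.lin_neg, hol, Q, neg_sub, ← Mot.ap_sub_ap, Mot.ap_inv_ap]

theorem rev_A (x : Obj S) : x.rev.A = ((frame S x.ds)⁻¹).ap x.Q := by
  rw [Q, Mot.ap_inv_ap]; rfl

/-- the line through `x.A` in the direction of the diagonal passes through `x.Q` -/
theorem cx_hol_Q (x : Obj S) : cx x.hol (x.Q - x.A) = 0 := Pk.cx_self _

/-- moving the base point along the line does not change a run -/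
theorem _root_.Pool.Agent.BGD.Run_base {r : S.R} {p p' v : ℂ} {a : List S.D}
    (h : cx v (p' - p) = 0) (hr : Run S r p v a) : Run S r p' v a := by
  induction a generalizing r p p' v with
  | nil => trivial
  | cons d a ih =>
    obtain ⟨h1, h2, h3, h4⟩ := hr
    have e : ∀ q, cx v (q - p') = cx v (q - p) := fun q => by
      have h6 : q - p' = (q - p) - (p' - p) := by ring
      rw [h6, Pk.cx_sub, h, sub_zero]
    refine ⟨h1, by rw [e]; exact h2, by rw [e]; exact h3, ih ?_ h4⟩
    rw [Mot.ap_sub_ap, Mot.cx_lin, h, mul_zero]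

theorem GD.rev {x : Obj S} (h : x.GD) : x.rev.GD := by
  refine ⟨h.memB, ?_, ?_, ?_⟩
  · show x.A ∈ S.V (endR S (endR S x.r x.ds) (BGD.rev S x.ds))
    rw [endR_rev h.run]
    exact h.memA
  · rw [rev_hol]
    intro h1
    apply h.ne
    have h2 := congrArg (frame S x.ds).lin (neg_eq_zero.1 h1)
    rwa [Mot.lin_lin_inv, Mot.lin_zero] at h2
  · rw [rev_hol]
    refine Run_base ?_ (Run_rev h.run)
    have h1 : x.rev.A - ((frame S x.ds)⁻¹).ap x.A = ((frame S x.ds)⁻¹).lin x.hol := by
      rw [rev_A, Mot.ap_sub_ap]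
      rfl
    rw [h1, Pk.cx_neg_left, Pk.cx_self, neg_zero]

theorem rev_rev {x : Obj S} (h : x.GD) : x.rev.rev = x := by
  show (⟨endR S (endR S x.r x.ds) (BGD.rev S x.ds), x.A, BGD.rev S (BGD.rev S x.ds), x.B⟩ : Obj S) = x
  rw [endR_rev h.run, BGD.rev_rev]

end Obj

end Pool.Agent.BGD
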