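import Pool.Agent.BGD.Abs

/-!
# Polynomial bound for generalized diagonals: rooms, doors, runs, diagonals (helper67)

A finite system of convex rooms in the plane, glued along doors by plane motions. A directed line runs
through a list of doors if the left end point `pa` of every door is on its left and the right end point
`pb` on its right, in the coordinates of the current room. These are finitely many sign conditions.
-/

set_option autoImplicit false

open scoped ComplexConjugate

namespace Pool.Agent.BGD

/-- cross product, positive if `q` points to the left of `p` -/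
noncomputable def cx (p q : ℂ) : ℝ := p.re * q.im - p.im * q.re

/-- scalar product -/
noncomputable def dt (p q : ℂ) : ℝ := p.re * q.re + p.im * q.im

/-- a plane motion `z ↦ u z + t`, or `z ↦ u conj z + t` if `fl` -/
@[ext] structure Mot where
  fl : Bool
  u : ℂ
  t : ℂ
  hu : ‖u‖ = 1

namespace Mot

/-- the linear part -/
noncomputable def lin (m : Mot) (z : ℂ) : ℂ := m.u * (if m.fl then conj z else z)

/-- the motion applied to a point -/
noncomputable def ap (m : Mot) (z : ℂ) : ℂ := m.lin z + m.t

/-- the sign of the determinant -/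
noncomputable def sg (m : Mot) : ℝ := if m.fl then -1 else 1

noncomputable instance : One Mot := ⟨⟨false, 1, 0, by simp⟩⟩

noncomputable instance : Mul Mot :=
  ⟨fun m m' => ⟨xor m.fl m'.fl, m.u * (if m.fl then conj m'.u else m'.u), m.ap m'.t, by
    by_cases h : m.fl <;> simp [h, m.hu, m'.hu]⟩⟩

noncomputable instance : Inv Mot :=
  ⟨fun m => ⟨m.fl, if m.fl then m.u else conj m.u, -(if m.fl then m.u * conj m.t else conj m.u * m.t), by
    by_cases h : m.fl <;> simp [h, m.hu]⟩⟩

theorem mul_fl (m m' : Mot) : (m * m').fl = xor m.fl m'.fl := rfl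
theorem mul_u (m m' : Mot) : (m * m').u = m.u * (if m.fl then conj m'.u else m'.u) := rfl
theorem mul_t (m m' : Mot) : (m * m').t = m.ap m'.t := rfl
theorem one_fl : (1 : Mot).fl = false := rfl
theorem one_u : (1 : Mot).u = 1 := rfl
theorem one_t : (1 : Mot).t = 0 := rfl
theorem inv_fl (m : Mot) : (m⁻¹).fl = m.fl := rfl
theorem inv_u (m : Mot) : (m⁻¹).u = if m.fl then m.u else conj m.u := rfl
theorem inv_t (m : Mot) : (m⁻¹).t = -(if m.fl then m.u * conj m.t else conj m.u * m.t) := rfl

theorem conj_mul_self (m : Mot) : conj m.u * m.u = 1 := by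
  rw [mul_comm, Complex.mul_conj, Complex.normSq_eq_norm_sq, m.hu]; simp

theorem self_mul_conj (m : Mot) : m.u * conj m.u = 1 := by
  rw [Complex.mul_conj, Complex.normSq_eq_norm_sq, m.hu]; simp

noncomputable instance : Group Mot :=
  Group.ofLeftAxioms
    (by
      intro a b c
      ext
      · rw [mul_fl, mul_fl, mul_fl, mul_fl]; cases a.fl <;> cases b.fl <;> cases c.fl <;> rfl
      · rw [mul_u, mul_u, mul_u, mul_u, mul_fl]
        cases ha : a.fl <;> cases hb : b.fl <;> simp <;> ring
      · simp only [mul_t, ap, lin, mul_u, mul_fl]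
        by_cases ha : a.fl = true <;> by_cases hb : b.fl = true <;> simp [ha, hb] <;> ring)
    (by
      intro a
      ext
      · rw [mul_fl, one_fl]; simp
      · rw [mul_u, one_fl, one_u]; simp
      · rw [mul_t, ap, lin, one_fl, one_u, one_t]; simp)
    (by
      intro a
      have h1 := a.conj_mul_self
      have h2 := a.self_mul_conj
      ext
      · rw [mul_fl, inv_fl, one_fl]; simp
      · rw [mul_u, inv_fl, inv_u, one_u]
        cases ha : a.fl <;> simp [h1, h2]
      · rw [mul_t, ap, lin, inv_fl, inv_u, inv_t, one_t]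
        cases ha : a.fl <;> simp)

theorem ap_mul (m m' : Mot) (z : ℂ) : (m * m').ap z = m.ap (m'.ap z) := by
  simp only [mul_t, ap, lin, mul_u, mul_fl]
  by_cases ha : m.fl = true <;> by_cases hb : m'.fl = true <;> simp [ha, hb] <;> ring

theorem lin_mul (m m' : Mot) (z : ℂ) : (m * m').lin z = m.lin (m'.lin z) := by
  simp only [lin, mul_u, mul_fl]
  by_cases ha : m.fl = true <;> by_cases hb : m'.fl = true <;> simp [ha, hb] <;> ring

theorem ap_one (z : ℂ) : (1 : Mot).ap z = z := by
  rw [ap, lin, one_fl, one_u, one_t]; simp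

theorem lin_one (z : ℂ) : (1 : Mot).lin z = z := by
  rw [lin, one_fl, one_u]; simp

theorem ap_inv_ap (m : Mot) (z : ℂ) : (m⁻¹).ap (m.ap z) = z := by
  rw [← ap_mul, inv_mul_cancel, ap_one]

theorem ap_ap_inv (m : Mot) (z : ℂ) : m.ap ((m⁻¹).ap z) = z := by
  rw [← ap_mul, mul_inv_cancel, ap_one]

theorem lin_inv_lin (m : Mot) (z : ℂ) : (m⁻¹).lin (m.lin z) = z := by
  rw [← lin_mul, inv_mul_cancel, lin_one]

theorem lin_lin_inv (m : Mot) (z : ℂ) : m.lin ((m⁻¹).lin z) = z := by
  rw [← lin_mul, mul_inv_cancel, lin_one]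

theorem lin_add (m : Mot) (z w : ℂ) : m.lin (z + w) = m.lin z + m.lin w := by
  rw [lin, lin, lin]; cases m.fl <;> simp <;> ring

theorem lin_neg (m : Mot) (z : ℂ) : m.lin (-z) = -m.lin z := by
  rw [lin, lin]; cases m.fl <;> simp

theorem lin_sub (m : Mot) (z w : ℂ) : m.lin (z - w) = m.lin z - m.lin w := by
  rw [sub_eq_add_neg, lin_add, lin_neg, ← sub_eq_add_neg]

theorem lin_smul (m : Mot) (a : ℝ) (z : ℂ) : m.lin (a * z) = a * m.lin z := by
  rw [lin, lin]; cases m.fl <;> simp <;> ring

theorem lin_zero (m : Mot) : m.lin 0 = 0 := by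
  rw [lin]; cases m.fl <;> simp

theorem ap_sub_ap (m : Mot) (z w : ℂ) : m.ap z - m.ap w = m.lin (z - w) := by
  rw [ap, ap, lin_sub]; ring

theorem norm_lin (m : Mot) (z : ℂ) : ‖m.lin z‖ = ‖z‖ := by
  rw [lin, norm_mul, m.hu, one_mul]; cases m.fl <;> simp

theorem sg_mul (m m' : Mot) : (m * m').sg = m.sg * m'.sg := by
  rw [sg, sg, sg, mul_fl]; cases m.fl <;> cases m'.fl <;> simp

theorem sg_inv (m : Mot) : (m⁻¹).sg = m.sg := rfl

theorem sg_sq (m : Mot) : m.sg * m.sg = 1 := by
  rw [sg]; cases m.fl <;> simp

theorem cx_lin (m : Mot) (z w : ℂ) : cx (m.lin z) (m.lin w) = m.sg * cx z w := by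
  have h := m.conj_mul_self
  have h1 : m.u.re * m.u.re + m.u.im * m.u.im = 1 := by
    have := congrArg Complex.re h
    simpa using this
  rw [cx, cx, lin, lin, sg]
  cases m.fl
  · simp
    linear_combination (z.re * w.im - z.im * w.re) * h1
  · simp
    linear_combination (-(z.re * w.im) + z.im * w.re) * h1

theorem dt_lin (m : Mot) (z w : ℂ) : dt (m.lin z) (m.lin w) = dt z w := by
  have h := m.conj_mul_self
  have h1 : m.u.re * m.u.re + m.u.im * m.u.im = 1 := by
    have := congrArg Complex.re h
    simpa using this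
  rw [dt, dt, lin, lin]
  cases m.fl
  · simp
    linear_combination (z.re * w.re + z.im * w.im) * h1
  · simp
    linear_combination (z.re * w.re + z.im * w.im) * h1

/-- the linear part as a motion -/
noncomputable def lp (m : Mot) : Mot := ⟨m.fl, m.u, 0, m.hu⟩

theorem lp_lin (m : Mot) (z : ℂ) : m.lp.lin z = m.lin z := rfl

end Mot

/-- A finite system of convex rooms. The room `src d` is on the left of the directed segment from
`pb d` to `pa d`; a line that leaves it through the door `d` has `pa d` on its left and `pb d` on its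
right. `M d` maps the coordinates of the room `dst d` to those of `src d`. -/
structure Rooms where
  R : Type
  D : Type
  fR : Fintype R
  fD : Fintype D
  V : R → Finset ℂ
  src : D → R
  dst : D → R
  pa : D → ℂ
  pb : D → ℂ
  M : D → Mot
  inv : D → D
  ne : ∀ d, pa d ≠ pb d
  mem_a : ∀ d, pa d ∈ V (src d)
  mem_b : ∀ d, pb d ∈ V (src d)
  side : ∀ d, ∀ p ∈ V (src d), p ≠ pa d → p ≠ pb d → 0 < cx (pa d - pb d) (p - pb d)
  three : ∀ r, 3 ≤ (V r).card
  extr : ∀ r, ∀ p ∈ V r, p ∉ convexHull ℝ ((V r : Set ℂ) \ {p})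
  inj : ∀ d d', src d = src d' → pa d = pa d' → pb d = pb d' → d = d'
  src_inv : ∀ d, src (inv d) = dst d
  dst_inv : ∀ d, dst (inv d) = src d
  M_inv : ∀ d, M (inv d) = (M d)⁻¹
  a_inv : ∀ d, (M d).ap (pa (inv d)) = if (M d).fl then pa d else pb d
  b_inv : ∀ d, (M d).ap (pb (inv d)) = if (M d).fl then pb d else pa d

variable {S : Rooms}

/-- the line `p + τ v` runs through the doors `ds`, starting in the room `r` -/
def Run (S : Rooms) : S.R → ℂ → ℂ → List S.D → Prop
  | _, _, _, [] => True
  | r, p, v, d :: ds => S.src d = r ∧ cx v (S.pb d - p) < 0 ∧ 0 < cx v (S.pa d - p) ∧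
      Run S (S.dst d) ((S.M d)⁻¹.ap p) ((S.M d)⁻¹.lin v) ds

/-- from the coordinates of the last room to those of the first one -/
noncomputable def frame (S : Rooms) : List S.D → Mot
  | [] => 1
  | d :: ds => S.M d * frame S ds

/-- the last room -/
def endR (S : Rooms) : S.R → List S.D → S.R
  | r, [] => r
  | _, d :: ds => endR S (S.dst d) ds

theorem frame_append (a b : List S.D) : frame S (a ++ b) = frame S a * frame S b := by
  induction a with
  | nil => simp [frame]
  | cons d a ih => simp only [List.cons_append, frame, ih, mul_assoc]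

theorem endR_append (r : S.R) (a b : List S.D) : endR S r (a ++ b) = endR S (endR S r a) b := by
  induction a generalizing r with
  | nil => rfl
  | cons d a ih => simp only [List.cons_append, endR, ih]

theorem Run_append (r : S.R) (p v : ℂ) (a b : List S.D) : Run S r p v (a ++ b) ↔
    Run S r p v a ∧ Run S (endR S r a) ((frame S a)⁻¹.ap p) ((frame S a)⁻¹.lin v) b := by
  induction a generalizing r p v with
  | nil => simp [Run, frame, endR, Mot.ap_one, Mot.lin_one]
  | cons d a ih =>
    simp only [List.cons_append, Run, frame, endR, ih, mul_inv_rev, Mot.ap_mul, Mot.lin_mul]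
    tauto

/-- A generalized diagonal candidate: start room, start vertex (in its coordinates), list of doors,
end vertex in the coordinates of the last room. -/
structure Obj (S : Rooms) where
  r : S.R
  A : ℂ
  ds : List S.D
  B : ℂ

namespace Obj

/-- the end vertex in the coordinates of the first room -/
noncomputable def Q (x : Obj S) : ℂ := (frame S x.ds).ap x.B

/-- the holonomy vector -/
noncomputable def hol (x : Obj S) : ℂ := x.Q - x.A

/-- generalized diagonals -/
structure GD (x : Obj S) : Prop where
  memA : x.A ∈ S.V x.r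
  memB : x.B ∈ S.V (endR S x.r x.ds)
  ne : x.hol ≠ 0
  run : Run S x.r x.A x.hol x.ds

/-- the end points of the crossed doors, in the coordinates of the first room -/
def ends (x : Obj S) : Set ℂ :=
  {q | ∃ i, ∃ h : i < x.ds.length,
    q = (frame S (x.ds.take i)).ap (S.pa x.ds[i]) ∨ q = (frame S (x.ds.take i)).ap (S.pb x.ds[i])}

/-- the distance of `q` from the line of `x` (positive on the left) -/
noncomputable def ht (x : Obj S) (q : ℂ) : ℝ := cx x.hol (q - x.A) / ‖x.hol‖

/-- the abscissa of `q` on the line of `x` -/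
noncomputable def tm (x : Obj S) (q : ℂ) : ℝ := dt x.hol (q - x.A) / ‖x.hol‖

/-- all end points of the crossed doors have distance at least `h` from the line of `x` -/
def Clear (x : Obj S) (h : ℝ) : Prop := ∀ q ∈ x.ends, h ≤ |x.ht q|

end Obj

/-- The vertex `q` of the corridor of `x` splits `x` into `y` and `z`: `y` goes from `x.A` to `q`,
`z` from `q` to the end of `x`, the doors `a` come before the start room of `z`. -/
structure Split (x : Obj S) (q : ℂ) (y z : Obj S) (a : List S.D) : Prop where
  mem : q ∈ x.ends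
  gy : y.GD
  gz : z.GD
  yr : y.r = x.r
  yA : y.A = x.A
  yQ : y.Q = q
  ya : y.ds <+: a
  ax : x.ds = a ++ z.ds
  zr : z.r = endR S x.r a
  zA : (frame S a).ap z.A = q
  zB : z.B = x.B

/-- `u` sits in the corridor of `x`, after the doors `a` and before the doors `b` -/
structure Att (x u : Obj S) (a b : List S.D) : Prop where
  ds : x.ds = a ++ u.ds ++ b
  r : u.r = endR S x.r a

end Pool.Agent.BGD
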