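import Pool.Agent.BGD.StR

/-!
# Block STR: four lemmas on arrangements (helper60)
-/

set_option autoImplicit false

open Set Filter Topology
open scoped ComplexConjugate

namespace Pool.Agent.BGD.Str.H60

open Pool.Agent.Billiard Pool.Agent.Lib_helper45.Bil

theorem m_XFIN : Stmt_XFIN := by
  intro A
  have h : A.X ⊆ ⋃ q : {q : A.I × A.I // q.1 ≠ q.2},
      {z | A.f q.1.1 z = 0 ∧ A.f q.1.2 z = 0} := by
    rintro z ⟨i, j, hij, h1, h2⟩
    exact Set.mem_iUnion.2 ⟨⟨(i, j), hij⟩, h1, h2⟩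
  refine (Set.finite_iUnion fun q => ?_).subset h
  apply Set.Subsingleton.finite
  rintro z ⟨h1, h2⟩ w ⟨h3, h4⟩
  exact A.sub q.1.1 q.1.2 q.2 z w h1 h2 h3 h4

theorem m_CLO : Stmt_CLO := by
  rintro A σ ⟨q, hq⟩ p hp
  have hcont : Continuous fun t : ℝ => p + t * (q - p) := by fun_prop
  have htend : Tendsto (fun t : ℝ => p + t * (q - p)) (𝓝[>] 0) (𝓝 p) := by
    have h1 : Tendsto (fun t : ℝ => p + t * (q - p)) (𝓝 0) (𝓝 (p + ((0 : ℝ) : ℂ) * (q - p))) :=
      hcont.tendsto 0
    simp only [Complex.ofReal_zero, zero_mul, add_zero] at h1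
    exact h1.mono_left nhdsWithin_le_nhds
  refine mem_closure_of_tendsto htend ?_
  have h2 : ∀ᶠ t : ℝ in 𝓝[>] 0, 0 < t ∧ t < 1 := by
    have := Ioo_mem_nhdsGT (show (0 : ℝ) < 1 by norm_num)
    filter_upwards [this] with t ht using ht
  filter_upwards [h2] with t ht i
  have e : p + t * (q - p) = (1 - t) • p + t • q := by
    simp only [Complex.real_smul]; push_cast; ring
  rw [e, Arr.f_comb i p q (1 - t) t (by ring)]
  have h3 : sn (σ i) * ((1 - t) * A.f i p + t * A.f i q) =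
      (1 - t) * (sn (σ i) * A.f i p) + t * (sn (σ i) * A.f i q) := by ring
  rw [h3]
  have h4 := mul_nonneg (show 0 ≤ 1 - t by linarith) (hp i)
  have h5 := mul_pos ht.1 (hq i)
  linarith

theorem m_ENDX : Stmt_ENDX := by
  rintro A σ i ⟨a, b⟩ ⟨⟨l, hl, hab⟩, hface⟩
  simp only at hab hface ⊢
  have hne : a ≠ b := by
    intro h
    rw [h, sub_self] at hab
    have : ((l * sn (σ i) : ℝ) : ℂ) * A.d i ≠ 0 :=
      mul_ne_zero (Complex.ofReal_ne_zero.2 (mul_ne_zero hl.ne' (sn_ne _))) (A.d_ne i)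
    exact this hab.symm
  have ha : a ∈ A.face σ i := by rw [hface]; exact right_mem_segment ℝ b a
  have hb : b ∈ A.face σ i := by rw [hface]; exact left_mem_segment ℝ b a
  -- extreme points
  have key : ∀ x ∈ A.ccell σ, ∀ y ∈ A.ccell σ, ∀ z, z ∈ A.face σ i → z ∈ openSegment ℝ x y →
      x ∈ segment ℝ b a ∧ y ∈ segment ℝ b a := by
    rintro x hx y hy z hz ⟨s, t, hs, ht, hst, rfl⟩
    have h1 := hz.1
    rw [Arr.f_comb i x y s t hst] at h1
    have h2 : s * (sn (σ i) * A.f i x) + t * (sn (σ i) * A.f i y) = 0 := by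
      have : s * (sn (σ i) * A.f i x) + t * (sn (σ i) * A.f i y) =
        sn (σ i) * (s * A.f i x + t * A.f i y) := by ring
      rw [this, h1, mul_zero]
    have h3 := mul_nonneg hs.le (hx i)
    have h4 := mul_nonneg ht.le (hy i)
    have h5 : sn (σ i) * A.f i x = 0 := by
      have : s * (sn (σ i) * A.f i x) = 0 := by linarith
      exact (mul_eq_zero.1 this).resolve_left hs.ne'
    have h6 : sn (σ i) * A.f i y = 0 := by
      have : t * (sn (σ i) * A.f i y) = 0 := by linarith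
      exact (mul_eq_zero.1 this).resolve_left ht.ne'
    have h7 : A.f i x = 0 := (mul_eq_zero.1 h5).resolve_left (sn_ne _)
    have h8 : A.f i y = 0 := (mul_eq_zero.1 h6).resolve_left (sn_ne _)
    rw [← hface]
    exact ⟨⟨h7, hx⟩, ⟨h8, hy⟩⟩
  -- real parameters
  have par : ∀ x ∈ segment ℝ b a, ∃ α : ℝ, 0 ≤ α ∧ α ≤ 1 ∧ x = b + (α : ℂ) * (a - b) := by
    rintro x ⟨s, t, hs, ht, hst, rfl⟩
    refine ⟨t, ht, by linarith, ?_⟩
    have : s = 1 - t := by linarith
    subst this
    simp only [Complex.real_smul]; push_cast; ring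
  have hab0 : a - b ≠ 0 := sub_ne_zero.2 hne
  have inj : ∀ α β : ℝ, b + (α : ℂ) * (a - b) = b + (β : ℂ) * (a - b) → α = β := by
    intro α β h
    have h1 := mul_right_cancel₀ hab0 (add_left_cancel h)
    exact_mod_cast h1
  have exa : a ∈ (A.ccell σ).extremePoints ℝ := by
    rw [mem_extremePoints]
    refine ⟨ha.2, fun x hx y hy hz => ?_⟩
    obtain ⟨h1, h2⟩ := key x hx y hy a ha hz
    obtain ⟨α, hα0, hα1, rfl⟩ := par x h1
    obtain ⟨β, hβ0, hβ1, rfl⟩ := par y h2
    obtain ⟨s, t, hs, ht, hst, he⟩ := hz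
    have h3 : s * α + t * β = 1 := by
      apply inj
      have e1 : (s : ℝ) • (b + (α : ℂ) * (a - b)) + (t : ℝ) • (b + (β : ℂ) * (a - b)) =
          b + ((s * α + t * β : ℝ) : ℂ) * (a - b) := by
        have : s = 1 - t := by linarith
        subst this
        simp only [Complex.real_smul]; push_cast; ring
      rw [← e1, he]; simp
    have h4 : s * (1 - α) + t * (1 - β) = 0 := by linarith
    have h5 := mul_nonneg hs.le (show 0 ≤ 1 - α by linarith)
    have h6 := mul_nonneg ht.le (show 0 ≤ 1 - β by linarith)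
    have h7 : 1 - α = 0 := (mul_eq_zero.1 (show s * (1 - α) = 0 by linarith)).resolve_left hs.ne'
    have h8 : 1 - β = 0 := (mul_eq_zero.1 (show t * (1 - β) = 0 by linarith)).resolve_left ht.ne'
    have h9 : α = 1 := by linarith
    have h10 : β = 1 := by linarith
    rw [h9, h10]; simp
  have exb : b ∈ (A.ccell σ).extremePoints ℝ := by
    rw [mem_extremePoints]
    refine ⟨hb.2, fun x hx y hy hz => ?_⟩
    obtain ⟨h1, h2⟩ := key x hx y hy b hb hz
    obtain ⟨α, hα0, hα1, rfl⟩ := par x h1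
    obtain ⟨β, hβ0, hβ1, rfl⟩ := par y h2
    obtain ⟨s, t, hs, ht, hst, he⟩ := hz
    have h3 : s * α + t * β = 0 := by
      apply inj
      have e1 : (s : ℝ) • (b + (α : ℂ) * (a - b)) + (t : ℝ) • (b + (β : ℂ) * (a - b)) =
          b + ((s * α + t * β : ℝ) : ℂ) * (a - b) := by
        have : s = 1 - t := by linarith
        subst this
        simp only [Complex.real_smul]; push_cast; ring
      rw [← e1, he]; simp
    have h5 := mul_nonneg hs.le hα0
    have h6 := mul_nonneg ht.le hβ0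
    have h9 : α = 0 := (mul_eq_zero.1 (show s * α = 0 by linarith)).resolve_left hs.ne'
    have h10 : β = 0 := (mul_eq_zero.1 (show t * β = 0 by linarith)).resolve_left ht.ne'
    rw [h9, h10]; simp
  refine ⟨hne, exa, exb, fun q hq hqa hqb => ?_⟩
  have hqc : q ∈ A.ccell σ := hq.1
  have hfb : A.f i b = 0 := hb.1
  have e1 : cx (a - b) (q - b) = l * (sn (σ i) * A.f i q) := by
    rw [hab, cx_rmul_left]
    have : cx (A.d i) (q - b) = A.f i q - A.f i b := by
      unfold Arr.f
      rw [← cx_sub_right]; congr 1; ring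
    rw [this, hfb]; ring
  rw [e1]
  rcases (hqc i).lt_or_eq with h | h
  · exact mul_pos hl h
  · exfalso
    have h1 : A.f i q = 0 := (mul_eq_zero.1 h.symm).resolve_left (sn_ne _)
    have h2 : q ∈ segment ℝ b a := by rw [← hface]; exact ⟨h1, hqc⟩
    have h3 : q ∈ openSegment ℝ b a := mem_openSegment_of_ne_left_right (Ne.symm hqb) (Ne.symm hqa) h2
    have h4 := (mem_extremePoints.1 hq).2 b hb.2 a ha.2 h3
    exact hqb h4.1.symm

theorem m_EXIT : Stmt_EXIT := by
  classical
  intro A σ z u t hbd hu hgen hin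
  have e0 : ∀ i (τ : ℝ), sn (σ i) * A.f i (z + τ * u) =
      sn (σ i) * A.f i (z + t * u) + (τ - t) * (sn (σ i) * cx (A.d i) u) := by
    intro i τ
    rw [Arr.f_line, Arr.f_line]; ring
  -- some line is approached
  have hex : ∃ i, sn (σ i) * cx (A.d i) u < 0 := by
    by_contra hc
    push Not at hc
    have hall : ∀ τ : ℝ, t ≤ τ → z + τ * u ∈ A.cell σ := by
      intro τ hτ i
      rw [e0]
      have := mul_nonneg (show 0 ≤ τ - t by linarith) (hc i)
      have := hin i
      linarith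
    obtain ⟨R, hR⟩ := hbd.subset_closedBall (0 : ℂ)
    have hun : 0 < ‖u‖ := norm_pos_iff.2 hu
    have h1 := hR (hall (t + (|R| + ‖z + t * u‖ + 1) / ‖u‖) (by
      have : 0 ≤ (|R| + ‖z + t * u‖ + 1) / ‖u‖ := by positivity
      linarith))
    rw [mem_closedBall_zero_iff] at h1
    have h2 : z + ((t + (|R| + ‖z + t * u‖ + 1) / ‖u‖ : ℝ) : ℂ) * u =
        (z + t * u) + (((|R| + ‖z + t * u‖ + 1) / ‖u‖ : ℝ) : ℂ) * u := by
      push_cast; ring
    rw [h2] at h1
    have h3 : ‖((((|R| + ‖z + t * u‖ + 1) / ‖u‖ : ℝ) : ℂ)) * u‖ = |R| + ‖z + t * u‖ + 1 := by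
      rw [norm_mul, Complex.norm_real, Real.norm_eq_abs, abs_of_nonneg (by positivity)]
      field_simp
    have h4 := norm_sub_le ((z + t * u) + (((|R| + ‖z + t * u‖ + 1) / ‖u‖ : ℝ) : ℂ) * u)
      (z + t * u)
    rw [add_sub_cancel_left, h3] at h4
    have h5 := le_abs_self R
    linarith
  -- the first zero
  set N : Finset A.I := Finset.univ.filter fun i => sn (σ i) * cx (A.d i) u < 0 with hN
  have hNne : N.Nonempty := by
    obtain ⟨i, hi⟩ := hex
    exact ⟨i, by rw [hN, Finset.mem_filter]; exact ⟨Finset.mem_univ _, hi⟩⟩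
  obtain ⟨i, hiN, hmin⟩ := Finset.exists_min_image N
    (fun j => sn (σ j) * A.f j (z + t * u) / (-(sn (σ j) * cx (A.d j) u))) hNne
  have hi : sn (σ i) * cx (A.d i) u < 0 := by
    rw [hN, Finset.mem_filter] at hiN; exact hiN.2
  set T := sn (σ i) * A.f i (z + t * u) / (-(sn (σ i) * cx (A.d i) u)) with hT
  have hT0 : 0 < T := div_pos (hin i) (by linarith)
  have hTi : sn (σ i) * A.f i (z + t * u) + T * (sn (σ i) * cx (A.d i) u) = 0 := by
    have h1 : -(sn (σ i) * cx (A.d i) u) ≠ 0 := by linarith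
    have h2 : T * -(sn (σ i) * cx (A.d i) u) = sn (σ i) * A.f i (z + t * u) :=
      div_mul_cancel₀ _ h1
    linarith
  have hlow : ∀ j (s : ℝ), 0 ≤ s → s ≤ T →
      0 ≤ sn (σ j) * A.f j (z + t * u) + s * (sn (σ j) * cx (A.d j) u) ∧
      (s < T → 0 < sn (σ j) * A.f j (z + t * u) + s * (sn (σ j) * cx (A.d j) u)) := by
    intro j s hs hsT
    by_cases hj : sn (σ j) * cx (A.d j) u < 0
    · have h1 := hmin j (by rw [hN, Finset.mem_filter]; exact ⟨Finset.mem_univ _, hj⟩)
      have h2 : T * (-(sn (σ j) * cx (A.d j) u)) ≤ sn (σ j) * A.f j (z + t * u) := by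
        rw [← le_div_iff₀ (by linarith)]; exact h1
      have h3 : s * (-(sn (σ j) * cx (A.d j) u)) ≤ T * (-(sn (σ j) * cx (A.d j) u)) :=
        mul_le_mul_of_nonneg_right hsT (by linarith)
      refine ⟨by linarith, fun h4 => ?_⟩
      have h5 : s * (-(sn (σ j) * cx (A.d j) u)) < T * (-(sn (σ j) * cx (A.d j) u)) :=
        mul_lt_mul_of_pos_right h4 (by linarith)
      linarith
    · push Not at hj
      have h1 := hin j
      have h2 := mul_nonneg hs hj
      exact ⟨by linarith, fun _ => by linarith⟩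
  refine ⟨i, t + T, by linarith, ?_, ⟨?_, ?_⟩, hi⟩
  · intro τ h1 h2 j
    rw [e0]
    exact (hlow j (τ - t) (by linarith) (by linarith)).2 (by linarith)
  · have h1 := e0 i (t + T)
    have h2 : t + T - t = T := by ring
    rw [h2, hTi] at h1
    exact (mul_eq_zero.1 h1).resolve_left (sn_ne _)
  · intro j hj
    have h1 := e0 j (t + T)
    have h2 : t + T - t = T := by ring
    rw [h2] at h1
    have h3 := (hlow j T hT0.le le_rfl).1
    rw [← h1] at h3
    refine lt_of_le_of_ne h3 fun h4 => ?_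
    have h5 : A.f j (z + ((t + T : ℝ) : ℂ) * u) = 0 := (mul_eq_zero.1 h4.symm).resolve_left (sn_ne _)
    have h6 : A.f i (z + ((t + T : ℝ) : ℂ) * u) = 0 := by
      have h7 := e0 i (t + T)
      rw [h2, hTi] at h7
      exact (mul_eq_zero.1 h7).resolve_left (sn_ne _)
    exact hgen (t + T) ⟨i, j, hj.symm, h6, h5⟩

end Pool.Agent.BGD.Str.H60
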