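import Pool.Agent.BGD.StR

/-!
# Block STR, module ARRP: the arrangement of a polygon
-/

set_option autoImplicit false

open Set Filter Topology
open scoped ComplexConjugate

namespace Pool.Agent.BGD.Str

open Pool.Agent.Billiard Pool.Agent.Lib_helper45.Bil

namespace Arrp_

theorem H_eq (P : Polygon) (a : ZMod P.k) (z : ℂ) :
    H P a z = cx (dir P a) (z - P.vertex a) := by
  simp only [H, cx, Complex.mul_im, Complex.conj_re, Complex.conj_im, Complex.sub_re,
    Complex.sub_im]
  ring

theorem cx_I_self (d : ℂ) : cx (Complex.I * d) d = -(d.re ^ 2 + d.im ^ 2) := by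
  simp only [cx, Complex.mul_re, Complex.mul_im, Complex.I_re, Complex.I_im]
  ring

theorem sq_pos_of_ne {d : ℂ} (h : d ≠ 0) : 0 < d.re ^ 2 + d.im ^ 2 := by
  rcases eq_or_ne d.re 0 with h0 | h0
  · have h1 : d.im ≠ 0 := by
      intro h1
      exact h (Complex.ext h0 h1)
    positivity
  · positivity

end Arrp_

open Arrp_

theorem m_ARRP (hLINES : Stmt_LINES) : Stmt_ARRP := by
  intro P
  classical
  let J := ZMod P.k × Bool
  let c : J → ℂ := fun j => P.vertex j.1
  let d : J → ℂ := fun j => if j.2 then Complex.I * dir P j.1 else dir P j.1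
  have hd : ∀ j, d j ≠ 0 := by
    rintro ⟨a, b⟩
    cases b
    · exact dir_ne a
    · exact mul_ne_zero Complex.I_ne_zero (dir_ne a)
  obtain ⟨A, ι', hι⟩ := hLINES J c d hd
  have h0 : ∀ a z, A.f (ι' (a, false)) z = 0 ↔ cx (dir P a) (z - P.vertex a) = 0 :=
    fun a z => hι (a, false) z
  have h1 : ∀ a z, A.f (ι' (a, true)) z = 0 ↔
      cx (Complex.I * dir P a) (z - P.vertex a) = 0 := fun a z => hι (a, true) z
  refine ⟨{ A := A, ι := fun a => ι' (a, false), side_iff := ?_, vert := ?_ }⟩
  · intro a z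
    rw [h0, H_eq]
  · intro a
    refine ⟨ι' (a, false), ι' (a, true), ?_, ?_, ?_⟩
    · intro h
      have h2 : A.f (ι' (a, false)) (P.vertex a + dir P a) = 0 := by
        rw [h0, add_sub_cancel_left, cx_self]
      rw [h, h1, add_sub_cancel_left, cx_I_self] at h2
      have := sq_pos_of_ne (dir_ne a)
      linarith
    · rw [h0, sub_self, cx_zero_right]
    · rw [h1, sub_self, cx_zero_right]

end Pool.Agent.BGD.Str
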