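import Pool.Agent.BGD.StR

/-!
# Block STR: module DOORU, a nonempty open face of a room is a part of a side or leads to a room
-/

set_option autoImplicit false

open Set Filter Topology
open scoped ComplexConjugate

namespace Pool.Agent.BGD.Str

open Pool.Agent.Billiard Pool.Agent.Lib_helper45.Bil

namespace Dooru_

/-- a point of an open face is not a crossing point -/
theorem not_mem_X {A : Arr} {σ : A.I → Bool} {i : A.I} {x : ℂ} (hx : x ∈ A.oface σ i) : x ∉ A.X := by
  rintro ⟨j, k, hjk, hj, hk⟩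
  have key : ∀ l : A.I, A.f l x = 0 → l = i := by
    intro l hl
    by_contra hli
    have := hx.2 l hli
    rw [hl, mul_zero] at this
    exact lt_irrefl _ this
  exact hjk ((key j hj).trans (key k hk).symm)

theorem cx_I (d : ℂ) (hd : d ≠ 0) : 0 < cx d (Complex.I * d) := by
  have h : cx d (Complex.I * d) = d.re * d.re + d.im * d.im := by
    simp only [cx, Complex.mul_re, Complex.mul_im, Complex.I_re, Complex.I_im]
    ring
  rw [h, ← Complex.normSq_apply]
  exact Complex.normSq_pos.mpr hd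

end Dooru_

open Dooru_ in
theorem m_DOORU (hCLO : Stmt_CLO) (hENTER : Stmt_ENTER) (hROOMU : Stmt_ROOMU) : Stmt_DOORU := by
  intro P Q σ i hroom hne
  by_cases hG : ∃ z ∈ Q.A.oface σ i, z ∈ Gam P
  · -- the face lies on a side
    left
    obtain ⟨z, hz, hzG⟩ := hG
    have hnv : ∀ x ∈ Q.A.oface σ i, ∀ j, x ≠ P.vertex j := by
      intro x hx j h
      exact not_mem_X hx (h ▸ Q.vert j)
    obtain ⟨a, ha⟩ := exists_rel_of_Gam hzG (hnv z hz)
    have hia : Q.ι a = i := by
      by_contra h
      have h1 := hz.2 (Q.ι a) h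
      rw [(Q.side_iff a z).mpr (H_of_mem_rel ha), mul_zero] at h1
      exact lt_irrefl _ h1
    have hH : ∀ x ∈ Q.A.oface σ i, H P a x = 0 := by
      intro x hx
      rw [← Q.side_iff, hia]
      exact hx.1
    have hpre : IsPreconnected (K P a '' Q.A.oface σ i) :=
      (Q.A.convex_oface σ i).isPreconnected.image _ (continuous_K a).continuousOn
    have hoc := hpre.ordConnected
    obtain ⟨-, hz0, hz1⟩ := mem_rel_iff'.mp ha
    refine ⟨a, hia.symm, fun x hx => mem_rel_iff'.mpr ⟨hH x hx, ?_, ?_⟩⟩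
    · by_contra h
      push Not at h
      have h0 : (0 : ℝ) ∈ K P a '' Q.A.oface σ i :=
        hoc.out (mem_image_of_mem _ hx) (mem_image_of_mem _ hz) ⟨h, hz0.le⟩
      obtain ⟨y, hy, hy0⟩ := h0
      apply hnv y hy a
      rw [eq_line (hH y hy), hy0]
      simp
    · by_contra h
      push Not at h
      have h1 : (1 : ℝ) ∈ K P a '' Q.A.oface σ i :=
        hoc.out (mem_image_of_mem _ hz) (mem_image_of_mem _ hx) ⟨hz1.le, h⟩
      obtain ⟨y, hy, hy1⟩ := h1
      apply hnv y hy (a + 1)
      rw [vertex_succ_eq, eq_line (hH y hy), hy1]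
  · -- the face lies in the open polygon
    right
    push Not at hG
    have hreg : Q.A.oface σ i ⊆ P.region := by
      intro x hx
      rw [← closure_U]
      have h1 : x ∈ Q.A.ccell σ := (Q.A.oface_subset σ i hx).2
      exact closure_mono hroom.2 (hCLO Q.A σ hroom.1 h1)
    have hU : Q.A.oface σ i ⊆ U P := by
      intro x hx
      by_contra h
      apply hG x hx
      rw [Gam_eq]
      exact ⟨hreg hx, h⟩
    refine ⟨hU, ?_⟩
    apply hROOMU
    obtain ⟨z, hz⟩ := hne
    set s : ℝ := sn (Q.A.flip σ i i) with hs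
    set u : ℂ := (s : ℂ) * (Complex.I * Q.A.d i) with hu
    have hpos : 0 < s * cx (Q.A.d i) u := by
      rw [hu, cx_rmul_right, ← mul_assoc, hs, sn_sq, one_mul]
      exact cx_I _ (Q.A.d_ne i)
    have hz' : z + ((0 : ℝ) : ℂ) * u ∈ Q.A.oface (Q.A.flip σ i) i := by
      rw [Q.A.oface_flip]
      simpa using hz
    obtain ⟨ε, hε, hcell⟩ := hENTER Q.A (Q.A.flip σ i) i z u 0 hz' hpos
    have hcont : Continuous fun τ : ℝ => z + (τ : ℂ) * u := by fun_prop
    have hopen : IsOpen ((fun τ : ℝ => z + (τ : ℂ) * u) ⁻¹' U P) := isOpen_U.preimage hcont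
    have h0 : (0 : ℝ) ∈ (fun τ : ℝ => z + (τ : ℂ) * u) ⁻¹' U P := by
      show z + ((0 : ℝ) : ℂ) * u ∈ U P
      simpa using hU hz
    obtain ⟨δ, hδ, hball⟩ := Metric.isOpen_iff.mp hopen 0 h0
    have hm : 0 < min ε δ := lt_min hε hδ
    refine ⟨z + ((min ε δ / 2 : ℝ) : ℂ) * u, hcell _ (by linarith) ?_, ?_⟩
    · have := min_le_left ε δ
      linarith
    · apply hball
      rw [Metric.mem_ball, Real.dist_eq, sub_zero, abs_of_pos (by linarith)]
      have := min_le_right ε δ
      linarith

end Pool.Agent.BGD.Str
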