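import Pool.Agent.BGD.StR

/-!
# Block STR: module ENDS, the end points of a face
-/

set_option autoImplicit false

open Set Filter Topology
open scoped ComplexConjugate

namespace Pool.Agent.BGD.Str

open Pool.Agent.Billiard Pool.Agent.Lib_helper45.Bil

namespace Ends_

theorem dt_sub (p q r : ℂ) : dt p (q - r) = dt p q - dt p r := by
  simp only [dt, Complex.sub_re, Complex.sub_im]; ring

theorem dt_add_self (p q : ℂ) (t : ℝ) : dt p (q + t * p) = dt p q + t * dt p p := by
  simp only [dt, Complex.add_re, Complex.add_im, Complex.re_ofReal_mul, Complex.im_ofReal_mul]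
  ring

theorem dt_self_pos {p : ℂ} (h : p ≠ 0) : 0 < dt p p := by
  have h1 : dt p p = Complex.normSq p := by
    rw [Complex.normSq_apply]
    rfl
  rw [h1]
  exact Complex.normSq_pos.2 h

theorem continuous_dt (p : ℂ) : Continuous (dt p) := by
  unfold dt; fun_prop

/-- a vector parallel to `e` -/
theorem par {e w : ℂ} (he : e ≠ 0) (h : cx e w = 0) :
    w = ((dt e w / dt e e : ℝ) : ℂ) * e := by
  have hN := (dt_self_pos he).ne'
  have key : ∀ x y : ℝ, x * dt e e = dt e w * y → x = dt e w / dt e e * y := by
    intro x y hxy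
    rw [div_mul_eq_mul_div, eq_div_iff hN]
    exact hxy
  apply Complex.ext
  · rw [Complex.re_ofReal_mul]
    apply key
    simp only [cx] at h
    simp only [dt]
    linear_combination (-e.im) * h
  · rw [Complex.im_ofReal_mul]
    apply key
    simp only [cx] at h
    simp only [dt]
    linear_combination e.re * h

end Ends_

open Ends_ in
/-- ENDS. -/
theorem m_ENDS (hCLO : Stmt_CLO) : Stmt_ENDS := by
  intro A σ i hne hbd hof
  set e : ℂ := ((sn (σ i) : ℝ) : ℂ) * A.d i with he
  have he0 : e ≠ 0 := by
    rw [he]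
    exact mul_ne_zero (Complex.ofReal_ne_zero.2 (sn_ne _)) (A.d_ne i)
  have hN := dt_self_pos he0
  have hcx : ∀ z w : ℂ, A.f i z = 0 → A.f i w = 0 → cx e (z - w) = 0 := by
    intro z w hz hw
    have e1 : z - w = (z - A.c i) - (w - A.c i) := by ring
    unfold Arr.f at hz hw
    rw [e1, cx_sub_right, he, cx_rmul_left, cx_rmul_left, hz, hw]
    ring
  have hclosed : IsClosed (A.face σ i) := by
    have : A.face σ i = {z | A.f i z = 0} ∩ A.ccell σ := rfl
    rw [this]
    exact (isClosed_eq (Arr.continuous_f i) continuous_const).inter (Arr.isClosed_ccell σ)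
  have hbdF : Bornology.IsBounded (A.face σ i) :=
    hbd.closure.subset fun z hz => hCLO A σ hne hz.2
  have hcomp : IsCompact (A.face σ i) := Metric.isCompact_of_isClosed_isBounded hclosed hbdF
  have hneF : (A.face σ i).Nonempty := hof.mono (Arr.oface_subset σ i)
  have hconv : Convex ℝ (A.face σ i) := by
    intro z hz w hw a b ha hb hab
    refine ⟨?_, Arr.convex_ccell σ hz.2 hw.2 ha hb hab⟩
    rw [Arr.f_comb i z w a b hab, hz.1, hw.1]
    ring
  obtain ⟨a, haF, hamax⟩ := hcomp.exists_isMaxOn hneF (continuous_dt e).continuousOn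
  obtain ⟨b, hbF, hbmin⟩ := hcomp.exists_isMinOn hneF (continuous_dt e).continuousOn
  have hab : dt e b < dt e a := by
    obtain ⟨q, hq⟩ := hof
    have ev : ∀ᶠ t : ℝ in 𝓝 0, ∀ j, j ≠ i → 0 < sn (σ j) * A.f j (q + t * e) := by
      rw [eventually_all]
      intro j
      by_cases hj : j = i
      · exact Eventually.of_forall fun t h => absurd hj h
      · have hc : Continuous fun t : ℝ => sn (σ j) * A.f j (q + t * e) := by
          have := Arr.continuous_f (A := A) j
          fun_prop
        have h0 : 0 < sn (σ j) * A.f j (q + ((0 : ℝ) : ℂ) * e) := by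
          rw [Complex.ofReal_zero, zero_mul, add_zero]
          exact hq.2 j hj
        exact (hc.continuousAt.eventually (lt_mem_nhds h0)).mono fun t h _ => h
    obtain ⟨t, ht, ht0⟩ := ((ev.filter_mono nhdsWithin_le_nhds).and
      (self_mem_nhdsWithin (s := Ioi (0 : ℝ)))).exists
    have ht0' : 0 < t := ht0
    have hmem : q + t * e ∈ A.face σ i := by
      apply Arr.oface_subset
      refine ⟨?_, ht⟩
      have e2 : (t : ℂ) * e = ((t * sn (σ i) : ℝ) : ℂ) * A.d i := by
        rw [he]
        push_cast
        ring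
      rw [e2, Arr.f_dir]
      exact hq.1
    have h1 : dt e (q + t * e) ≤ dt e a := hamax hmem
    have h2 : dt e b ≤ dt e q := hbmin (Arr.oface_subset σ i hq)
    rw [dt_add_self] at h1
    have := mul_pos ht0' hN
    linarith
  have hz : ∀ z ∈ A.face σ i, z - b = (((dt e z - dt e b) / dt e e : ℝ) : ℂ) * e := by
    intro z hz
    have h1 := par he0 (hcx z b hz.1 hbF.1)
    rw [dt_sub] at h1
    exact h1
  refine ⟨(a, b), ⟨(dt e a - dt e b) / dt e e, div_pos (by linarith) hN, ?_⟩, ?_⟩
  · change a - b = _
    rw [hz a haF, he]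
    push_cast
    ring
  · change A.face σ i = segment ℝ b a
    apply Set.Subset.antisymm
    · intro z hzF
      rw [segment_eq_image']
      have h1 : dt e z ≤ dt e a := hamax hzF
      have h2 : dt e b ≤ dt e z := hbmin hzF
      have h3 : 0 < dt e a - dt e b := by linarith
      refine ⟨(dt e z - dt e b) / (dt e a - dt e b), ⟨div_nonneg (by linarith) h3.le, ?_⟩, ?_⟩
      · rw [div_le_one h3]
        linarith
      · change b + ((dt e z - dt e b) / (dt e a - dt e b)) • (a - b) = z
        rw [hz a haF, Complex.real_smul, ← mul_assoc, ← Complex.ofReal_mul,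
          div_mul_div_cancel₀ h3.ne', ← hz z hzF]
        ring
    · exact hconv.segment_subset hbF haF

end Pool.Agent.BGD.Str
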