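import Pool.Agent.BGD.StR

/-!
# Block STR: ENTER (helper95)
-/

set_option autoImplicit false

open Set Filter Topology
open scoped ComplexConjugate

namespace Pool.Agent.BGD.Str

open Pool.Agent.Billiard Pool.Agent.Lib_helper45.Bil

theorem m_ENTER : Stmt_ENTER := by
  intro A σ i z u t hz hu
  have hcont : ∀ j, Continuous fun τ : ℝ => sn (σ j) * A.f j (z + τ * u) := fun j => by
    have h : (fun τ : ℝ => sn (σ j) * A.f j (z + τ * u)) =
        fun τ : ℝ => sn (σ j) * (A.f j z + τ * cx (A.d j) u) := by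
      funext τ
      rw [Arr.f_line]
    rw [h]
    fun_prop
  have hev : ∀ᶠ τ : ℝ in 𝓝 t, ∀ j, j ≠ i → 0 < sn (σ j) * A.f j (z + τ * u) := by
    rw [eventually_all]
    intro j
    by_cases hj : j = i
    · exact Eventually.of_forall fun τ h => absurd hj h
    · have h1 : 0 < sn (σ j) * A.f j (z + t * u) := hz.2 j hj
      have h2 := (hcont j).continuousAt.eventually (lt_mem_nhds h1)
      exact h2.mono fun τ h _ => h
  obtain ⟨ε, hε, hball⟩ := Metric.eventually_nhds_iff.1 hev
  refine ⟨ε, hε, fun τ h1 h2 j => ?_⟩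
  by_cases hj : j = i
  · subst hj
    have h3 := hz.1
    rw [Arr.f_line] at h3 ⊢
    have h4 : A.f j z + τ * cx (A.d j) u = (τ - t) * cx (A.d j) u := by
      linear_combination h3
    rw [h4]
    have h5 : sn (σ j) * ((τ - t) * cx (A.d j) u) = (τ - t) * (sn (σ j) * cx (A.d j) u) := by ring
    rw [h5]
    exact mul_pos (sub_pos.2 h1) hu
  · refine hball ?_ j hj
    rw [Real.dist_eq, abs_of_pos (sub_pos.2 h1)]
    linarith

end Pool.Agent.BGD.Str
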