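import Pool.Agent.BGD.StR

/-!
# Block STR, module EXTX (helper83): extreme points of a closed cell are crossing points
-/

set_option autoImplicit false

open Set Filter Topology
open scoped ComplexConjugate

namespace Pool.Agent.BGD.Str

open Pool.Agent.Billiard Pool.Agent.Lib_helper45.Bil

namespace Extx_

theorem small (A : Arr) (σ : A.I → Bool) (p : ℂ) (i : A.I)
    (h : ∀ j, j ≠ i → 0 < sn (σ j) * A.f j p) :
    ∃ t : ℝ, 0 < t ∧ (∀ j, j ≠ i → 0 < sn (σ j) * A.f j (p + t * A.d i)) ∧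
      ∀ j, j ≠ i → 0 < sn (σ j) * A.f j (p + ((-t : ℝ) : ℂ) * A.d i) := by
  have hev : ∀ᶠ t : ℝ in 𝓝 0, ∀ j, j ≠ i → 0 < sn (σ j) * A.f j (p + t * A.d i) := by
    refine eventually_all.2 fun j => ?_
    by_cases hj : j = i
    · exact Eventually.of_forall fun t h => absurd hj h
    · have hc : Continuous fun t : ℝ => sn (σ j) * A.f j (p + t * A.d i) :=
        continuous_const.mul ((Arr.continuous_f j).comp
          (continuous_const.add (Complex.continuous_ofReal.mul continuous_const)))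
      have h0 : 0 < (fun t : ℝ => sn (σ j) * A.f j (p + t * A.d i)) 0 := by
        simpa using h j hj
      have := hc.continuousAt.eventually (lt_mem_nhds h0)
      exact this.mono fun t ht _ => ht
  obtain ⟨ε, hε, hb⟩ := Metric.eventually_nhds_iff.1 hev
  refine ⟨ε / 2, half_pos hε, hb ?_, hb ?_⟩
  · rw [Real.dist_eq, sub_zero, abs_of_pos (half_pos hε)]
    exact half_lt_self hε
  · rw [Real.dist_eq, sub_zero, abs_neg, abs_of_pos (half_pos hε)]
    exact half_lt_self hε

end Extx_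

open Extx_ in
theorem m_EXTX : Stmt_EXTX := by
  rintro A σ ⟨i₀⟩ p hp
  by_contra hX
  obtain ⟨hpc, hext⟩ := mem_extremePoints.1 hp
  obtain ⟨i, hi⟩ : ∃ i : A.I, ∀ j, j ≠ i → A.f j p ≠ 0 := by
    by_cases h : ∃ i, A.f i p = 0
    · obtain ⟨i, hi⟩ := h
      exact ⟨i, fun j hj h0 => hX ⟨j, i, hj, h0, hi⟩⟩
    · exact ⟨i₀, fun j _ h0 => h ⟨j, h0⟩⟩
  have hpos : ∀ j, j ≠ i → 0 < sn (σ j) * A.f j p := fun j hj =>
    lt_of_le_of_ne (hpc j) (mul_ne_zero (sn_ne _) (hi j hj)).symm
  obtain ⟨t, ht, h1, h2⟩ := small A σ p i hpos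
  have m1 : p + t * A.d i ∈ A.ccell σ := by
    intro j
    by_cases hj : j = i
    · subst hj
      rw [Arr.f_dir]
      exact hpc j
    · exact (h1 j hj).le
  have m2 : p + ((-t : ℝ) : ℂ) * A.d i ∈ A.ccell σ := by
    intro j
    by_cases hj : j = i
    · subst hj
      rw [Arr.f_dir]
      exact hpc j
    · exact (h2 j hj).le
  have hseg : p ∈ openSegment ℝ (p + t * A.d i) (p + ((-t : ℝ) : ℂ) * A.d i) := by
    refine ⟨1 / 2, 1 / 2, by norm_num, by norm_num, by norm_num, ?_⟩
    simp only [Complex.real_smul]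
    push_cast
    ring
  have h3 := (hext _ m1 _ m2 hseg).1
  have h4 : (t : ℂ) * A.d i = 0 := by linear_combination h3
  rcases mul_eq_zero.1 h4 with h | h
  · exact ht.ne' (by exact_mod_cast h)
  · exact A.d_ne i h

end Pool.Agent.BGD.Str
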