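import Pool.Agent.BGD.StR

/-!
# Module GNR (block STR): every code has a generic realisation that starts in a room
-/

set_option autoImplicit false

open Set Filter Topology
open scoped ComplexConjugate

namespace Pool.Agent.BGD.Str

open Pool.Agent.Billiard Pool.Agent.Lib_helper45.Bil

namespace Gnr_

theorem cx_lrefl {P : Polygon} (a : ZMod P.k) (u v : ℂ) :
    cx (lrefl P a u) (lrefl P a v) = -cx u v := by
  have h : ∀ z, lrefl P a z = (rM P a).lin z := by
    intro z
    show dir P a * conj z / conj (dir P a) = (rM P a).lin z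
    simp only [Mot.lin, rM, if_true]
    ring
  rw [h, h, Mot.cx_lin]
  simp [Mot.sg, rM]

theorem fin_sol (c s : ℝ) (hs : s ≠ 0) : {e : ℝ | c + e * s = 0}.Finite := by
  refine (Set.finite_singleton (-c / s)).subset ?_
  intro e he
  have he' : c + e * s = 0 := he
  rw [Set.mem_singleton_iff, eq_div_iff hs]
  linarith

theorem cx_basis {d u v : ℂ} (hd : d ≠ 0) (huv : cx u v ≠ 0) (h : cx d u = 0) : cx d v ≠ 0 := by
  intro h2
  apply hd
  simp only [cx] at h h2 huv
  apply Complex.ext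
  · have : (u.re * v.im - u.im * v.re) * d.re = 0 := by
      linear_combination u.re * h2 - v.re * h
    simpa using (mul_eq_zero.1 this).resolve_left huv
  · have : (u.re * v.im - u.im * v.re) * d.im = 0 := by
      linear_combination u.im * h2 - v.im * h
    simpa using (mul_eq_zero.1 this).resolve_left huv

theorem fin_gen {P : Polygon} (Q : ArrP P) (hX : Q.A.X.Finite) :
    ∀ (w : List (ZMod P.k)) (z u v : ℂ), cx u v ≠ 0 →
      {e : ℝ | ¬ GenW Q (z + e * v) u w}.Finite := by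
  have base : ∀ (z u v : ℂ), cx u v ≠ 0 → {e : ℝ | ¬ Q.A.Gen (z + e * v) u}.Finite := by
    intro z u v huv
    have h1 : (⋃ x ∈ Q.A.X, {e : ℝ | cx u (z - x) + e * cx u v = 0}).Finite :=
      hX.biUnion fun x _ => fin_sol _ _ huv
    refine h1.subset ?_
    intro e he
    have he' : ¬ Q.A.Gen (z + e * v) u := he
    unfold Arr.Gen at he'
    push Not at he'
    obtain ⟨τ, hτ⟩ := he'
    refine Set.mem_biUnion hτ ?_
    show cx u (z - (z + e * v + τ * u)) + e * cx u v = 0
    have h2 : z - (z + e * v + τ * u) = ((-e : ℝ) : ℂ) * v + ((-τ : ℝ) : ℂ) * u := by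
      push_cast; ring
    rw [h2, cx_add_right, cx_rmul_right, cx_rmul_right, cx_self]
    ring
  intro w
  induction w with
  | nil => intro z u v huv; exact base z u v huv
  | cons a w ih =>
    intro z u v huv
    have h1 := (base z u v huv).union
      (ih (refl P a z) (lrefl P a u) (lrefl P a v) (by rw [cx_lrefl]; exact neg_ne_zero.2 huv))
    refine h1.subset ?_
    intro e he
    have he' : ¬ (Q.A.Gen (z + e * v) u ∧ GenW Q (refl P a (z + e * v)) (lrefl P a u) w) := he
    rw [refl_add] at he'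
    by_cases h : Q.A.Gen (z + e * v) u
    · exact Or.inr fun h2 => he' ⟨h, h2⟩
    · exact Or.inl h

theorem fin_line (A : Arr) (z u v : ℂ) (huv : cx u v ≠ 0) :
    {e : ℝ | ∃ i, ∀ τ : ℝ, A.f i (z + e * v + τ * u) = 0}.Finite := by
  have h1 : (⋃ i : A.I, {e : ℝ | ∀ τ : ℝ, A.f i (z + e * v + τ * u) = 0}).Finite := by
    refine Set.finite_iUnion fun i => ?_
    by_cases h : cx (A.d i) u = 0
    · refine (fin_sol (A.f i z) (cx (A.d i) v) (cx_basis (A.d_ne i) huv h)).subset ?_
      intro e he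
      have h2 : A.f i (z + e * v + ((0 : ℝ) : ℂ) * u) = 0 := he 0
      rw [Arr.f_line, Arr.f_line, zero_mul, add_zero] at h2
      exact h2
    · refine Set.finite_empty.subset ?_
      intro e he
      have h2 : A.f i (z + e * v + ((0 : ℝ) : ℂ) * u) = 0 := he 0
      have h3 : A.f i (z + e * v + ((1 : ℝ) : ℂ) * u) = 0 := he 1
      rw [Arr.f_line] at h2 h3
      exact absurd (by linarith) h
  refine h1.subset ?_
  rintro e ⟨i, hi⟩
  exact Set.mem_iUnion.2 ⟨i, hi⟩

theorem fin_zero (A : Arr) (z u : ℂ) (h : ¬ ∃ i, ∀ τ : ℝ, A.f i (z + τ * u) = 0) :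
    {τ : ℝ | ∃ i, A.f i (z + τ * u) = 0}.Finite := by
  have h1 : (⋃ i : A.I, {τ : ℝ | A.f i (z + τ * u) = 0}).Finite := by
    refine Set.finite_iUnion fun i => ?_
    by_cases h0 : cx (A.d i) u = 0
    · refine Set.finite_empty.subset ?_
      intro τ hτ
      have hτ' : A.f i (z + τ * u) = 0 := hτ
      apply h
      refine ⟨i, fun s => ?_⟩
      rw [Arr.f_line, h0, mul_zero, add_zero] at hτ' ⊢
      exact hτ'
    · refine (fin_sol (A.f i z) (cx (A.d i) u) h0).subset ?_
      intro τ hτ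
      have hτ' : A.f i (z + τ * u) = 0 := hτ
      rw [Arr.f_line] at hτ'
      exact hτ'
  refine h1.subset ?_
  rintro e ⟨i, hi⟩
  exact Set.mem_iUnion.2 ⟨i, hi⟩

theorem cx_I (u : ℂ) (hu : u ≠ 0) : cx u (Complex.I * u) ≠ 0 := by
  have h : cx u (Complex.I * u) = Complex.normSq u := by
    simp only [cx, Complex.mul_re, Complex.mul_im, Complex.I_re, Complex.I_im,
      Complex.normSq_apply]
    ring
  rw [h]
  exact fun h0 => hu (Complex.normSq_eq_zero.1 h0)

end Gnr_

open Gnr_ in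
theorem m_GNR (hXFIN : Stmt_XFIN) (hROOMU : Stmt_ROOMU) : Stmt_GNR := by
  intro P Q w hw
  obtain ⟨z, u, t, hu, hU, hp⟩ := isCode_iff.1 hw
  have hcx := cx_I u hu
  generalize hv : Complex.I * u = v at hcx
  have hev1 : ∀ᶠ e : ℝ in 𝓝 0, Path P (z + e * v) u t w := by
    have hc : Continuous fun e : ℝ => (z + (e : ℂ) * v, u) := by fun_prop
    have h1 := hc.tendsto 0
    simp only [Complex.ofReal_zero, zero_mul, add_zero] at h1
    exact h1.eventually (hp.eventually hU)
  have hev2 : ∀ᶠ e : ℝ in 𝓝 0, z + e * v + t * u ∈ U P := by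
    have hc : Continuous fun e : ℝ => z + (e : ℂ) * v + t * u := by fun_prop
    have h1 := hc.tendsto 0
    simp only [Complex.ofReal_zero, zero_mul, add_zero] at h1
    exact h1.eventually (isOpen_U.mem_nhds hU)
  have hinf := infinite_of_mem_nhds (0 : ℝ) (hev1.and hev2)
  obtain ⟨e, ⟨he1, he2⟩, he3⟩ := (hinf.sdiff
    ((fin_gen Q (hXFIN Q.A) w z u v hcx).union (fin_line Q.A z u v hcx))).nonempty
  have he4 : GenW Q (z + e * v) u w := by
    by_contra h
    exact he3 (Or.inl h)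
  have he5 : ¬ ∃ i, ∀ τ : ℝ, Q.A.f i (z + e * v + τ * u) = 0 := fun h => he3 (Or.inr h)
  generalize z + (e : ℂ) * v = z' at he1 he2 he4 he5
  have hcont : Continuous fun τ : ℝ => z' + (τ : ℂ) * u := by fun_prop
  have hN : ∀ᶠ τ : ℝ in 𝓝 t, z' + (τ : ℂ) * u ∈ U P :=
    (hcont.tendsto t).eventually (isOpen_U.mem_nhds he2)
  obtain ⟨δ, hδ, hball⟩ := Metric.eventually_nhds_iff.1 hN
  have hinf2 : (Ioo t (t + δ)).Infinite := Ioo_infinite (by linarith)
  obtain ⟨t₀, ht₀, hz⟩ := (hinf2.sdiff (fin_zero Q.A z' u he5)).nonempty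
  have hz' : ∀ i, Q.A.f i (z' + t₀ * u) ≠ 0 := fun i hi => hz ⟨i, hi⟩
  have hUt : ∀ τ ∈ Ioc t t₀, z' + τ * u ∈ U P := by
    intro τ hτ
    apply hball
    rw [Real.dist_eq, abs_lt]
    exact ⟨by linarith [hτ.1], by linarith [hτ.2, ht₀.2]⟩
  have hcell : z' + t₀ * u ∈ Q.A.cell (fun i => decide (0 < Q.A.f i (z' + t₀ * u))) := by
    intro i
    by_cases h : 0 < Q.A.f i (z' + t₀ * u)
    · simp only [h, decide_true, sn_true, one_mul]
    · have h2 : Q.A.f i (z' + t₀ * u) < 0 := lt_of_le_of_ne (not_lt.1 h) (hz' i)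
      simp only [h, decide_false, sn_false]
      linarith
  exact ⟨z', u, t₀, _, hu, he4, hROOMU P Q _ ⟨_, hcell, hUt t₀ ⟨ht₀.1, le_rfl⟩⟩, hcell,
    he1.of_start ht₀.1.le hUt⟩

end Pool.Agent.BGD.Str
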