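import Pool.Agent.BGD.StR

/-!
# Block STR: the arrangement of the lines of a finite family (helper73)
-/

set_option autoImplicit false

namespace Pool.Agent.BGD.Str

/-- a vector with cross product zero with `d` is a real multiple of `d` -/
theorem Lines_mul (d e : ℂ) (hd : d ≠ 0) (h : cx d e = 0) : ∃ t : ℝ, e = (t : ℂ) * d := by
  have hn : 0 < d.re * d.re + d.im * d.im := by
    rw [← Complex.normSq_apply]
    exact Complex.normSq_pos.2 hd
  refine ⟨(d.re * e.re + d.im * e.im) / (d.re * d.re + d.im * d.im), ?_⟩
  have h' : d.re * e.im - d.im * e.re = 0 := h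
  apply Complex.ext
  · rw [Complex.re_ofReal_mul, div_mul_eq_mul_div, eq_div_iff hn.ne']
    linear_combination (-d.im) * h'
  · rw [Complex.im_ofReal_mul, div_mul_eq_mul_div, eq_div_iff hn.ne']
    linear_combination d.re * h'

/-- a line is determined by two different points of it -/
theorem Lines_iff (c d z w x : ℂ) (hd : d ≠ 0) (hzw : z ≠ w) (hz : cx d (z - c) = 0)
    (hw : cx d (w - c) = 0) : cx d (x - c) = 0 ↔ cx (w - z) (x - z) = 0 := by
  have h1 : cx d (w - z) = 0 := by
    have : w - z = (w - c) - (z - c) := by ring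
    rw [this, cx_sub_right, hz, hw, sub_zero]
  obtain ⟨t, ht⟩ := Lines_mul d (w - z) hd h1
  have ht0 : t ≠ 0 := by
    intro h
    rw [h, Complex.ofReal_zero, zero_mul, sub_eq_zero] at ht
    exact hzw ht.symm
  have h2 : cx (w - z) (x - z) = t * cx d (x - c) := by
    have h3 : x - z = (x - c) - (z - c) := by ring
    rw [ht, cx_rmul_left, h3, cx_sub_right, hz, sub_zero]
  rw [h2, mul_eq_zero, or_iff_right ht0]

theorem m_LINES : Stmt_LINES := by
  intro J _ c d hd
  classical
  let F : J → Set ℂ := fun j => {z | cx (d j) (z - c j) = 0}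
  let r : Set.range F → J := fun L => L.2.choose
  have hr : ∀ L : Set.range F, F (r L) = L.1 := fun L => L.2.choose_spec
  refine ⟨{ I := Set.range F
            fI := (Set.finite_range F).fintype
            dI := Classical.decEq _
            c := fun L => c (r L)
            d := fun L => d (r L)
            d_ne := fun L => hd _
            sub := ?_ }, fun j => ⟨F j, j, rfl⟩, ?_⟩
  · intro i j hij z w h1 h2 h3 h4
    by_contra hzw
    apply hij
    apply Subtype.ext
    rw [← hr i, ← hr j]
    ext x
    exact (Lines_iff _ _ z w x (hd _) hzw h1 h3).trans (Lines_iff _ _ z w x (hd _) hzw h2 h4).symm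
  · intro j z
    have h := hr ⟨F j, j, rfl⟩
    exact Set.ext_iff.1 h z

end Pool.Agent.BGD.Str
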