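import Pool.Agent.BGD.StR

/-!
# BGD, block STR, module OSEG: the open face is the open segment (helper2)
-/

set_option autoImplicit false

open Set Filter Topology
open scoped ComplexConjugate

namespace Pool.Agent.BGD.Str

open Pool.Agent.Billiard Pool.Agent.Lib_helper45.Bil

/-- OSEG: the open face of a cell is the open segment between its end points -/
theorem m_OSEG (hENDX : Stmt_ENDX) (hEXTX : Stmt_EXTX) : Stmt_OSEG := by
  intro A σ i p hp
  obtain ⟨hne, h1, h2, -⟩ := hENDX A σ i p hp
  have hI : Nonempty A.I := ⟨i⟩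
  have hX1 := hEXTX A σ hI h1
  have hX2 := hEXTX A σ hI h2
  apply Set.Subset.antisymm
  · intro q hq
    have hqX : q ∉ A.X := by
      rintro ⟨a, b, hab, ha, hb⟩
      by_cases h : a = i
      · have hbi : b ≠ i := fun h' => hab (h.trans h'.symm)
        have := hq.2 b hbi
        rw [hb, mul_zero] at this
        exact lt_irrefl _ this
      · have := hq.2 a h
        rw [ha, mul_zero] at this
        exact lt_irrefl _ this
    have hqf : q ∈ segment ℝ p.2 p.1 := by
      rw [← hp.2]
      exact Arr.oface_subset σ i hq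
    exact mem_openSegment_of_ne_left_right (fun h => hqX (h ▸ hX2)) (fun h => hqX (h ▸ hX1)) hqf
  · rintro z ⟨a, b, ha, hb, hab, rfl⟩
    have hf2 : p.2 ∈ A.face σ i := by rw [hp.2]; exact left_mem_segment ℝ _ _
    have hf1 : p.1 ∈ A.face σ i := by rw [hp.2]; exact right_mem_segment ℝ _ _
    refine ⟨?_, fun j hj => ?_⟩
    · rw [Arr.f_comb i _ _ a b hab, hf2.1, hf1.1]; ring
    · rw [Arr.f_comb j _ _ a b hab]
      have e : sn (σ j) * (a * A.f j p.2 + b * A.f j p.1) =
          a * (sn (σ j) * A.f j p.2) + b * (sn (σ j) * A.f j p.1) := by ring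
      have g1 := hf1.2 j
      have g2 := hf2.2 j
      rw [e]
      rcases eq_or_lt_of_le g1 with h | h
      · rcases eq_or_lt_of_le g2 with h' | h'
        · exfalso
          apply hne
          have z1 : A.f j p.1 = 0 := (mul_eq_zero.1 h.symm).resolve_left (sn_ne _)
          have z2 : A.f j p.2 = 0 := (mul_eq_zero.1 h'.symm).resolve_left (sn_ne _)
          exact A.sub i j (Ne.symm hj) p.1 p.2 hf1.1 z1 hf2.1 z2
        · have h3 := mul_pos ha h'
          have h4 := mul_nonneg hb.le g1
          linarith
      · have h3 := mul_pos hb h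
        have h4 := mul_nonneg ha.le g2
        linarith

end Pool.Agent.BGD.Str
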