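import Pool.Agent.BGD.StR

/-!
# Block STR, module RM: the reflection in a side as a motion
-/

set_option autoImplicit false

open Set Filter Topology
open scoped ComplexConjugate

namespace Pool.Agent.BGD.Str

open Pool.Agent.Billiard Pool.Agent.Lib_helper45.Bil

theorem m_RM : Stmt_RM := by
  intro P a
  have h1 := (rM P a).self_mul_conj
  have hlin : ∀ z, (rM P a).lin z = lrefl P a z := by
    intro z
    simp only [Mot.lin, rM, lrefl, reflectDir, if_true]
    ring
  refine ⟨fun z => ?_, hlin, ?_⟩
  · simp only [Mot.ap, Mot.lin, rM, Pool.Agent.Lib_helper45.Bil.refl, reflectDir, if_true, map_sub]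
    ring
  · ext
    · rfl
    · rw [Mot.inv_u]
      rfl
    · rw [Mot.inv_t]
      have e : (rM P a).t = P.vertex a - (rM P a).u * conj (P.vertex a) := rfl
      have f : (rM P a).fl = true := rfl
      rw [f, if_pos rfl, e, map_sub, map_mul, Complex.conj_conj]
      linear_combination (P.vertex a) * h1

end Pool.Agent.BGD.Str
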