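import Pool.Agent.BGD.StR

/-!
# Block STR, module ROOMU (helper23)
-/

set_option autoImplicit false

open Set Filter Topology
open scoped ComplexConjugate

namespace Pool.Agent.BGD.Str

open Pool.Agent.Billiard Pool.Agent.Lib_helper45.Bil

theorem m_ROOMU : Stmt_ROOMU := by
  intro P Q σ h
  refine ⟨h.mono Set.inter_subset_left, ?_⟩
  refine subset_U (Arr.convex_cell σ).isPreconnected (fun z hz hG => ?_) h
  obtain ⟨a, ha⟩ := mem_Gam_iff.1 hG
  have h1 : Q.A.f (Q.ι a) z = 0 := (Q.side_iff a z).2 (H_of_mem_side ha)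
  have h2 := hz (Q.ι a)
  rw [h1, mul_zero] at h2
  exact lt_irrefl _ h2

end Pool.Agent.BGD.Str
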