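import Pool.Agent.BGD.StR

/-!
# Block STR, module STG: one stage (helper14)
-/

set_option autoImplicit false

open Set Filter Topology
open scoped ComplexConjugate

namespace Pool.Agent.BGD.Str

open Pool.Agent.Billiard Pool.Agent.Lib_helper45.Bil

namespace Stg_

theorem par {p q : ℂ} (hp : p ≠ 0) (h : cx p q = 0) : ∃ c : ℝ, q = (c : ℂ) * p := by
  have h0 : p.re ^ 2 + p.im ^ 2 ≠ 0 := by
    intro h0
    apply hp
    apply Complex.ext
    · simp only [Complex.zero_re]
      nlinarith [sq_nonneg p.re, sq_nonneg p.im]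
    · simp only [Complex.zero_im]
      nlinarith [sq_nonneg p.re, sq_nonneg p.im]
  unfold cx at h
  refine ⟨(p.re * q.re + p.im * q.im) / (p.re ^ 2 + p.im ^ 2), ?_⟩
  apply Complex.ext
  · rw [Complex.re_ofReal_mul, div_mul_eq_mul_div, eq_div_iff h0]
    linear_combination -p.im * h
  · rw [Complex.im_ofReal_mul, div_mul_eq_mul_div, eq_div_iff h0]
    linear_combination p.re * h

theorem tr_cx {P : Polygon} (a : ZMod P.k) (u : ℂ) : tr P a u = cx (dir P a) u := by
  unfold tr cx
  rw [Complex.mul_im, Complex.conj_re, Complex.conj_im]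
  ring

/-- the slope changes its sign by the reflection -/
theorem slope_refl {P : Polygon} (Q : ArrP P) (a : ZMod P.k) (u : ℂ) :
    cx (Q.A.d (Q.ι a)) (lrefl P a u) = -cx (Q.A.d (Q.ι a)) u := by
  have h1 : Q.A.f (Q.ι a) (P.vertex a) = 0 := (Q.side_iff a _).2 (H_vertex a)
  have h2 : Q.A.f (Q.ι a) (P.vertex a + dir P a) = 0 := by
    refine (Q.side_iff a _).2 ?_
    have := H_line a 1
    rwa [Complex.ofReal_one, one_mul] at this
  rw [Arr.f_add, h1, zero_add] at h2
  have h3 : cx (dir P a) (u + lrefl P a u) = 0 := by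
    rw [cx_add_right, ← tr_cx, ← tr_cx, tr_lrefl, add_neg_cancel]
  obtain ⟨c, hc⟩ := par (dir_ne a) h3
  have h4 : cx (Q.A.d (Q.ι a)) (u + lrefl P a u) = 0 := by
    rw [hc, cx_rmul_right, h2, mul_zero]
  rw [cx_add_right] at h4
  linarith

/-- the set of the lines with a negative slope -/
noncomputable def neg (A : Arr) (σ : A.I → Bool) (u : ℂ) : Finset A.I :=
  Finset.univ.filter fun i => sn (σ i) * cx (A.d i) u < 0

theorem mem_neg (A : Arr) (σ : A.I → Bool) (u : ℂ) (i : A.I) :
    i ∈ neg A σ u ↔ sn (σ i) * cx (A.d i) u < 0 := by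
  simp [neg]

theorem neg_flip (A : Arr) (σ : A.I → Bool) (u : ℂ) (i : A.I) (h : i ∈ neg A σ u) :
    (neg A (A.flip σ i) u).card + 1 = (neg A σ u).card := by
  have h1 : neg A (A.flip σ i) u = (neg A σ u).erase i := by
    ext j
    rw [Finset.mem_erase, mem_neg, mem_neg]
    by_cases hj : j = i
    · subst hj
      rw [mem_neg] at h
      rw [Arr.flip_same, sn_not]
      constructor
      · intro h2
        linarith
      · intro h2
        exact absurd rfl h2.1
    · rw [Arr.flip_other σ hj]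
      simp [hj]
  rw [h1, Finset.card_erase_of_mem h]
  have : 0 < (neg A σ u).card := Finset.card_pos.2 ⟨i, h⟩
  omega

theorem bdd {P : Polygon} {Q : ArrP P} {σ : Q.A.I → Bool} (h : IsRoom Q σ) :
    Bornology.IsBounded (Q.A.cell σ) :=
  P.isCompact.isBounded.subset (h.2.trans interior_subset)

theorem aux (hENTER : Stmt_ENTER) (hEXIT : Stmt_EXIT) (hRM : Stmt_RM) {P : Polygon} (Z : PR P)
    (z u : ℂ) (t' : ℝ) (a : ZMod P.k) (hu : u ≠ 0) (hg : Z.Q.A.Gen z u)
    (hrel : z + t' * u ∈ rel P a) (n : ℕ) :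
    ∀ (r : Z.S.R) (t : ℝ), (neg Z.Q.A (Z.sig r) u).card ≤ n → t < t' → Starts Z r z u t →
      (∀ τ : ℝ, t < τ → τ < t' → z + τ * u ∈ U P) →
      ∃ r', Starts Z r' (refl P a z) (lrefl P a u) t' ∧
        ∀ ds', Run Z.S r' (refl P a z) (lrefl P a u) ds' →
          ∃ ds, Run Z.S r z u ds ∧
            ds.length ≤ (neg Z.Q.A (Z.sig r) u).card + ds'.length ∧
            ds.filterMap Z.lab = a :: ds'.filterMap Z.lab := by
  induction n with
  | zero =>
    intro r t hn htt ⟨ε, hε, hst⟩ hU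
    exfalso
    have h1 : z + ((t + ε / 2 : ℝ) : ℂ) * u ∈ Z.Q.A.cell (Z.sig r) :=
      hst _ (by linarith) (by linarith)
    obtain ⟨i, t₁, -, -, -, h2⟩ := hEXIT Z.Q.A (Z.sig r) z u (t + ε / 2) (bdd (Z.room r)) hu hg h1
    have h3 : i ∈ neg Z.Q.A (Z.sig r) u := (mem_neg _ _ _ _).2 h2
    rw [Nat.le_zero, Finset.card_eq_zero] at hn
    rw [hn] at h3
    exact absurd h3 (Finset.notMem_empty i)
  | succ n ih =>
    intro r t hn htt ⟨ε, hε, hst⟩ hU
    set t₀ : ℝ := t + min ε (t' - t) / 2 with ht₀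
    have hm : 0 < min ε (t' - t) := lt_min hε (by linarith)
    have hm1 : min ε (t' - t) ≤ ε := min_le_left _ _
    have hm2 : min ε (t' - t) ≤ t' - t := min_le_right _ _
    have h01 : t < t₀ := by rw [ht₀]; linarith
    have h02 : t₀ < t' := by rw [ht₀]; linarith
    have h03 : t₀ < t + ε := by rw [ht₀]; linarith
    obtain ⟨i, t₁, h12, h4, h5, h6⟩ := hEXIT Z.Q.A (Z.sig r) z u t₀ (bdd (Z.room r)) hu hg
      (hst t₀ h01 h03)
    have hcell : ∀ τ : ℝ, t < τ → τ < t₁ → z + τ * u ∈ Z.Q.A.cell (Z.sig r) := by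
      intro τ h7 h8
      rcases lt_or_ge τ t₀ with h9 | h9
      · exact hst τ h7 (by linarith)
      · exact h4 τ h9 h8
    have hnot : ¬ t' < t₁ := by
      intro h7
      exact not_mem_U_of_Gam (rel_subset_Gam a hrel) ((Z.room r).2 (hcell t' htt h7))
    have hi : i ∈ neg Z.Q.A (Z.sig r) u := (mem_neg _ _ _ _).2 h6
    obtain ⟨d, hd1, hd2⟩ := Z.door r i ⟨_, h5⟩
    subst hd1
    subst hd2
    have hseg := h5
    rw [Z.oseg d] at hseg
    obtain ⟨α, β, hα, hβ, hαβ, hq⟩ := hseg
    obtain ⟨⟨l, hl, hpq⟩, -⟩ := Z.ends d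
    simp only at hpq
    have hcx : 0 < cx u (Z.S.pa d - Z.S.pb d) := by
      rw [hpq, cx_rmul_right, cx_comm]
      have h7 : 0 < l * -(sn (Z.sig (Z.S.src d) (Z.idx d)) * cx (Z.Q.A.d (Z.idx d)) u) :=
        mul_pos hl (by linarith)
      linarith
    have hα' : α = 1 - β := by linarith
    have hzq : z = β • (Z.S.pa d - Z.S.pb d) + Z.S.pb d - t₁ * u := by
      have : z = α • Z.S.pb d + β • Z.S.pa d - t₁ * u := by
        rw [hq]
        ring
      rw [this, hα']
      simp only [Complex.real_smul]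
      push_cast
      ring
    have hb1 : cx u (Z.S.pb d - z) < 0 := by
      have h7 : Z.S.pb d - z = ((-β : ℝ) : ℂ) * (Z.S.pa d - Z.S.pb d) + t₁ * u := by
        rw [hzq]
        simp only [Complex.real_smul]
        push_cast
        ring
      rw [h7, cx_add_right, cx_rmul_right, cx_rmul_right, cx_self]
      have := mul_pos hβ hcx
      linarith
    have ha1 : 0 < cx u (Z.S.pa d - z) := by
      have h7 : Z.S.pa d - z = (α : ℂ) * (Z.S.pa d - Z.S.pb d) + t₁ * u := by
        rw [hzq, hα']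
        simp only [Complex.real_smul]
        push_cast
        ring
      rw [h7, cx_add_right, cx_rmul_right, cx_rmul_right, cx_self]
      have := mul_pos hα hcx
      linarith
    have hqs : z + t₁ * u ∈ openSegment ℝ (Z.S.pb d) (Z.S.pa d) := ⟨α, β, hα, hβ, hαβ, hq⟩
    cases hlab : Z.lab d with
    | none =>
      obtain ⟨hM, hsig, hsub⟩ := Z.intr d hlab
      have hqU : z + t₁ * u ∈ U P := hsub hqs
      have h1' : t₁ < t' := by
        refine lt_of_le_of_ne (not_lt.1 hnot) ?_
        intro h7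
        rw [h7] at hqU
        exact not_mem_U_of_Gam (rel_subset_Gam a hrel) hqU
      have hcard : (neg Z.Q.A (Z.sig (Z.S.dst d)) u).card + 1 =
          (neg Z.Q.A (Z.sig (Z.S.src d)) u).card := by
        rw [hsig]
        exact neg_flip _ _ _ _ hi
      have hst' : Starts Z (Z.S.dst d) z u t₁ := by
        unfold Starts
        rw [hsig]
        refine hENTER Z.Q.A _ (Z.idx d) z u t₁ ?_ ?_
        · rw [Arr.oface_flip]
          exact h5
        · rw [Arr.flip_same, sn_not]
          linarith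
      obtain ⟨r', hr1, hr2⟩ := ih (Z.S.dst d) t₁ (by omega) h1' hst'
        (fun τ h7 h8 => hU τ (by linarith) h8)
      refine ⟨r', hr1, fun ds' hds' => ?_⟩
      obtain ⟨ds, hds1, hds2, hds3⟩ := hr2 ds' hds'
      refine ⟨d :: ds, ⟨rfl, hb1, ha1, ?_⟩, ?_, ?_⟩
      · rw [hM, inv_one, Mot.ap_one, Mot.lin_one]
        exact hds1
      · rw [List.length_cons]
        omega
      · rw [List.filterMap_cons_none hlab]
        exact hds3
    | some b =>
      obtain ⟨hidx, hM, hdst, hsub⟩ := Z.bdry d b hlab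
      have hqb : z + t₁ * u ∈ rel P b := hsub hqs
      have h1' : t₁ = t' := by
        refine le_antisymm (not_lt.1 hnot) ?_
        by_contra h7
        rw [not_le] at h7
        exact not_mem_U_of_Gam (rel_subset_Gam b hqb) (hU t₁ (by linarith) h7)
      subst h1'
      have hba : b = a := rel_unique hqb hrel
      subst hba
      refine ⟨Z.S.dst d, ?_, fun ds' hds' => ?_⟩
      · unfold Starts
        rw [hdst]
        refine hENTER Z.Q.A _ (Z.idx d) _ _ t₁ ?_ ?_
        · rw [refl_line hrel]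
          exact h5
        · rw [hidx, slope_refl, ← hidx]
          linarith
      · refine ⟨d :: ds', ⟨rfl, hb1, ha1, ?_⟩, ?_, ?_⟩
        · obtain ⟨hr1, hr2, hr3⟩ := hRM P b
          rw [hM, hr3, hr1, hr2]
          exact hds'
        · rw [List.length_cons]
          have : 0 < (neg Z.Q.A (Z.sig (Z.S.src d)) u).card := Finset.card_pos.2 ⟨_, hi⟩
          omega
        · rw [List.filterMap_cons_some hlab]

end Stg_

theorem m_STG (hENTER : Stmt_ENTER) (hEXIT : Stmt_EXIT) (hRM : Stmt_RM) : Stmt_STG := by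
  intro P Z r z u t t' a hu hg htt hst hU hrel
  obtain ⟨r', hr1, hr2⟩ := Stg_.aux hENTER hEXIT hRM Z z u t' a hu hg hrel _ r t le_rfl htt hst hU
  refine ⟨r', hr1, fun ds' hds' => ?_⟩
  obtain ⟨ds, h1, h2, h3⟩ := hr2 ds' hds'
  refine ⟨ds, h1, h2.trans ?_, h3⟩
  have : (Stg_.neg Z.Q.A (Z.sig r) u).card ≤ Fintype.card Z.Q.A.I := Finset.card_le_univ _
  omega

end Pool.Agent.BGD.Str
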