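import Pool.Agent.BGD.StR

/-!
# Codes of a polygon are counted by runs (helper63)
-/

set_option autoImplicit false

open Set Filter Topology
open scoped ComplexConjugate

namespace Pool.Agent.BGD.Str

open Pool.Agent.Billiard Pool.Agent.Lib_helper45.Bil

theorem runs_finite (S : Rooms) (N : ℕ) :
    {X : S.R × List S.D | X.2.length ≤ N ∧ ∃ p v, v ≠ 0 ∧ Run S X.1 p v X.2}.Finite := by
  haveI := S.fR
  haveI := S.fD
  have h1 : {l : List S.D | l.length ≤ N}.Finite := List.finite_length_le S.D N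
  have h2 : ((Set.univ : Set S.R) ×ˢ {l : List S.D | l.length ≤ N}).Finite :=
    Set.Finite.prod Set.finite_univ h1
  exact h2.subset fun X hX => ⟨trivial, hX.1⟩

theorem m_STR (hPRE : Stmt_PRE) (hWRD : Stmt_WRD) (hGNR : Stmt_GNR) : Stmt_STR := by
  intro P
  obtain ⟨Z⟩ := hPRE P
  refine ⟨Z.S, Fintype.card Z.Q.A.I, ?_, ?_⟩
  · intro d
    cases h : Z.lab d with
    | none =>
      left
      rw [(Z.intr d h).1]
      rfl
    | some a =>
      right
      exact ⟨a, by rw [(Z.bdry d a h).2.1]⟩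
  · intro n
    have hfin := runs_finite Z.S (Fintype.card Z.Q.A.I * n)
    rw [complexity_eq]
    have hsub : WS P n ⊆ (fun X : Z.S.R × List Z.S.D => X.2.filterMap Z.lab) ''
        {X : Z.S.R × List Z.S.D | X.2.length ≤ Fintype.card Z.Q.A.I * n ∧
          ∃ p v, v ≠ 0 ∧ Run Z.S X.1 p v X.2} := by
      rintro w ⟨hl, hw⟩
      obtain ⟨z, u, t, σ, hu, hgen, hroom, hcell, hpath⟩ := hGNR P Z.Q w hw
      obtain ⟨r, hr⟩ := Z.surj σ hroom
      have hst : Starts Z r z u t := by
        have hc : Continuous fun τ : ℝ => z + (τ : ℂ) * u := by fun_prop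
        have h1 : ∀ᶠ τ : ℝ in 𝓝 t, z + (τ : ℂ) * u ∈ Z.Q.A.cell σ :=
          (hc.tendsto t).eventually ((Arr.isOpen_cell σ).mem_nhds hcell)
        obtain ⟨ε, hε, h2⟩ := Metric.eventually_nhds_iff.1 h1
        refine ⟨ε, hε, fun τ h3 h4 => ?_⟩
        rw [hr]
        apply h2
        rw [Real.dist_eq, abs_lt]
        constructor <;> linarith
      obtain ⟨ds, h1, h2, h3⟩ := hWRD P Z w r z u t hu hgen hst hpath
      exact ⟨(r, ds), ⟨by rw [← hl]; exact h2, z, u, hu, h1⟩, h3⟩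
    calc (WS P n).ncard ≤ _ := Set.ncard_le_ncard hsub (hfin.image _)
      _ ≤ _ := Set.ncard_image_le hfin

end Pool.Agent.BGD.Str
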