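import Pool.Agent.BGD.StR

/-!
# Block STR, statement THR (helper22): a closed cell has at least three extreme points
-/

set_option autoImplicit false

open Set Filter Topology
open scoped ComplexConjugate

namespace Pool.Agent.BGD.Str

open Pool.Agent.Billiard Pool.Agent.Lib_helper45.Bil

namespace Thr_

theorem sub_pair {E : Set ℂ} (hE : E.Finite) (hne : E.Nonempty) (h : E.ncard < 3) :
    ∃ p q, E ⊆ {p, q} := by
  have h0 : E.ncard ≠ 0 := by
    intro h0
    rw [Set.ncard_eq_zero hE] at h0
    exact hne.ne_empty h0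
  have h12 : E.ncard = 1 ∨ E.ncard = 2 := by omega
  rcases h12 with h1 | h2
  · obtain ⟨p, hp⟩ := Set.ncard_eq_one.1 h1
    exact ⟨p, p, by rw [hp]; intro x hx; left; exact hx⟩
  · obtain ⟨p, q, -, hpq⟩ := Set.ncard_eq_two.1 h2
    exact ⟨p, q, by rw [hpq]⟩

theorem cx_segment {p q z : ℂ} (hz : z ∈ segment ℝ p q) : cx (q - p) (z - p) = 0 := by
  rw [segment_eq_image'] at hz
  obtain ⟨θ, -, rfl⟩ := hz
  have e : p + θ • (q - p) - p = (θ : ℂ) * (q - p) := by
    rw [Complex.real_smul]; ring
  change cx (q - p) (p + θ • (q - p) - p) = 0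
  rw [e, cx_rmul_right, cx_self, mul_zero]

end Thr_

open Thr_ in
theorem m_THR (hCLO : Stmt_CLO) : Stmt_THR := by
  intro A σ hne hb hfin
  by_contra hlt
  push Not at hlt
  have hcb : Bornology.IsBounded (A.ccell σ) := hb.closure.subset (hCLO A σ hne)
  have hcomp : IsCompact (A.ccell σ) :=
    Metric.isCompact_of_isClosed_isBounded (Arr.isClosed_ccell σ) hcb
  have hconv : Convex ℝ (A.ccell σ) := Arr.convex_ccell σ
  have hnek : (A.ccell σ).Nonempty := hne.mono (Arr.cell_subset σ)
  have hEne : ((A.ccell σ).extremePoints ℝ).Nonempty := hcomp.extremePoints_nonempty hnek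
  have hK : convexHull ℝ ((A.ccell σ).extremePoints ℝ) = A.ccell σ := by
    have h1 := closure_convexHull_extremePoints hcomp hconv
    have h2 : IsCompact (convexHull ℝ ((A.ccell σ).extremePoints ℝ)) :=
      hfin.isCompact_convexHull ℝ
    rw [h2.isClosed.closure_eq] at h1
    exact h1
  obtain ⟨p, q, hpq⟩ := sub_pair hfin hEne hlt
  have hseg : ∀ z ∈ A.ccell σ, cx (q - p) (z - p) = 0 := by
    intro z hz
    apply cx_segment
    rw [← hK] at hz
    have := convexHull_mono hpq hz
    rwa [convexHull_pair] at this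
  obtain ⟨z₀, hz₀⟩ := hne
  obtain ⟨ε, hε, hball⟩ := Metric.isOpen_iff.1 (Arr.isOpen_cell σ) z₀ hz₀
  have hmem : ∀ w : ℂ, ‖w‖ < ε → z₀ + w ∈ A.ccell σ := by
    intro w hw
    apply Arr.cell_subset σ
    apply hball
    rw [Metric.mem_ball, dist_eq_norm]
    simpa using hw
  have hc0 := hseg z₀ (Arr.cell_subset σ hz₀)
  have key : ∀ w : ℂ, ‖w‖ < ε → cx (q - p) w = 0 := by
    intro w hw
    have h1 := hseg (z₀ + w) (hmem w hw)
    have e : z₀ + w - p = (z₀ - p) + w := by ring
    rw [e, cx_add_right, hc0, zero_add] at h1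
    exact h1
  have hn1 : ‖((ε / 2 : ℝ) : ℂ)‖ < ε := by
    rw [Complex.norm_real, Real.norm_eq_abs, abs_of_pos (by linarith)]
    linarith
  have hn2 : ‖((ε / 2 : ℝ) : ℂ) * Complex.I‖ < ε := by
    rw [norm_mul, Complex.norm_I, mul_one]
    exact hn1
  have k1 := key _ hn1
  have k2 := key _ hn2
  have hqp : q - p = 0 := by
    simp only [cx, Complex.ofReal_re, Complex.ofReal_im, mul_zero, Complex.re_ofReal_mul,
      Complex.im_ofReal_mul, Complex.I_re, Complex.I_im, mul_one, sub_zero, zero_sub] at k1 k2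
    apply Complex.ext
    · simp only [Complex.zero_re]
      have : (q - p).re * (ε / 2) = 0 := by linarith
      rcases mul_eq_zero.1 this with h | h
      · exact h
      · linarith
    · simp only [Complex.zero_im]
      have : (q - p).im * (ε / 2) = 0 := by linarith
      rcases mul_eq_zero.1 this with h | h
      · exact h
      · linarith
  have hpq' : q = p := sub_eq_zero.1 hqp
  subst hpq'
  have hone : ∀ z ∈ A.ccell σ, z = q := by
    intro z hz
    rw [← hK] at hz
    have := convexHull_mono hpq hz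
    rw [convexHull_pair, segment_same] at this
    exact this
  have h1 := hone z₀ (Arr.cell_subset σ hz₀)
  have h2 := hone _ (hmem _ hn1)
  rw [h1] at h2
  have h3 : ((ε / 2 : ℝ) : ℂ) = 0 := by
    have := congrArg (fun x => x - q) h2
    simpa using this
  rw [Complex.ofReal_eq_zero] at h3
  linarith

end Pool.Agent.BGD.Str
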