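import Pool.Agent.BGD.StR

/-!
# Block STR, module UNQ: the end points of a face are unique (helper55)
-/

set_option autoImplicit false

open Set Filter Topology
open scoped ComplexConjugate

namespace Pool.Agent.BGD.Str

open Pool.Agent.Billiard Pool.Agent.Lib_helper45.Bil

namespace Unq_

lemma aux {A : Arr} {σ : A.I → Bool} {i : A.I} {p q : ℂ × ℂ} {l m : ℝ} (hm : 0 < m)
    (hl : p.1 - p.2 = ((l * sn (σ i) : ℝ) : ℂ) * A.d i)
    (hq : q.1 - q.2 = ((m * sn (σ i) : ℝ) : ℂ) * A.d i)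
    (h1 : p.1 ∈ segment ℝ q.2 q.1) (h2 : p.2 ∈ segment ℝ q.2 q.1) :
    ∃ θ φ : ℝ, 0 ≤ θ ∧ θ ≤ 1 ∧ 0 ≤ φ ∧ φ ≤ 1 ∧ p.1 = q.2 + (θ : ℂ) * (q.1 - q.2) ∧
      p.2 = q.2 + (φ : ℂ) * (q.1 - q.2) ∧ l = (θ - φ) * m := by
  rw [segment_eq_image'] at h1 h2
  obtain ⟨θ, hθ, e1⟩ := h1
  obtain ⟨φ, hφ, e2⟩ := h2
  simp only [Complex.real_smul] at e1 e2
  refine ⟨θ, φ, hθ.1, hθ.2, hφ.1, hφ.2, e1.symm, e2.symm, ?_⟩
  have h3 : ((l * sn (σ i) : ℝ) : ℂ) * A.d i =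
      (((θ - φ) * m * sn (σ i) : ℝ) : ℂ) * A.d i := by
    rw [← hl, ← e1, ← e2, hq]
    push_cast
    ring
  have h4 := mul_right_cancel₀ (A.d_ne i) h3
  have h5 : l * sn (σ i) = (θ - φ) * m * sn (σ i) := by exact_mod_cast h4
  exact mul_right_cancel₀ (sn_ne (σ i)) h5

end Unq_

theorem m_UNQ : Stmt_UNQ := by
  constructor
  · rintro A σ i p q ⟨⟨l, hl, el⟩, hp⟩ ⟨⟨m, hm, em⟩, hq⟩
    have hs : segment ℝ p.2 p.1 = segment ℝ q.2 q.1 := hp.symm.trans hq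
    have p1 : p.1 ∈ segment ℝ q.2 q.1 := hs ▸ right_mem_segment ℝ p.2 p.1
    have p2 : p.2 ∈ segment ℝ q.2 q.1 := hs ▸ left_mem_segment ℝ p.2 p.1
    have q1 : q.1 ∈ segment ℝ p.2 p.1 := hs ▸ right_mem_segment ℝ q.2 q.1
    have q2 : q.2 ∈ segment ℝ p.2 p.1 := hs ▸ left_mem_segment ℝ q.2 q.1
    obtain ⟨θ, φ, hθ0, hθ1, hφ0, hφ1, e1, e2, e3⟩ := Unq_.aux hm el em p1 p2
    obtain ⟨θ', φ', hθ0', hθ1', hφ0', hφ1', -, -, e3'⟩ := Unq_.aux hl em el q1 q2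
    have h1 : (θ - φ) ≤ 1 := by linarith
    have h2 : (θ' - φ') ≤ 1 := by linarith
    have h3 : l ≤ m := by rw [e3]; nlinarith
    have h4 : m ≤ l := by rw [e3']; nlinarith
    have h5 : l = m := le_antisymm h3 h4
    have h6 : θ - φ = 1 := by
      rw [h5] at e3
      have : (θ - φ) * m = 1 * m := by rw [one_mul]; exact e3.symm
      exact mul_right_cancel₀ hm.ne' this
    have h7 : θ = 1 := by linarith
    have h8 : φ = 0 := by linarith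
    rw [h7] at e1
    rw [h8] at e2
    refine Prod.ext ?_ ?_
    · rw [e1]; push_cast; ring
    · rw [e2]; push_cast; ring
  · rintro A σ i p ⟨⟨l, hl, el⟩, hp⟩
    refine ⟨⟨l, hl, ?_⟩, ?_⟩
    · show p.2 - p.1 = _
      rw [Arr.flip_same, sn_not, ← neg_sub, el]
      push_cast
      ring
    · rw [Arr.face_flip, hp]
      exact segment_symm ℝ p.2 p.1

end Pool.Agent.BGD.Str
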