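import Pool.Agent.BGD.StR

/-!
# WRD (module BGDS_WRD): from a path to a run
-/

set_option autoImplicit false

open Set Filter Topology
open scoped ComplexConjugate

namespace Pool.Agent.BGD.Str

open Pool.Agent.Billiard Pool.Agent.Lib_helper45.Bil

theorem m_WRD (hSTG : Stmt_STG) : Stmt_WRD := by
  intro P Z w
  induction w with
  | nil =>
    intro r z u t _ _ _ _
    exact ⟨[], trivial, by simp, rfl⟩
  | cons a w ih =>
    intro r z u t hu hg hs hp
    obtain ⟨hg1, hg2⟩ := hg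
    obtain ⟨t', ht, hU, hrel, hp'⟩ := hp
    obtain ⟨r', hs', hds⟩ := hSTG P Z r z u t t' a hu hg1 ht hs (fun τ h1 h2 => hU τ ⟨h1, h2⟩) hrel
    obtain ⟨ds', h1, h2, h3⟩ := ih r' (refl P a z) (lrefl P a u) t' (lrefl_ne_zero a hu) hg2 hs' hp'
    obtain ⟨ds, k1, k2, k3⟩ := hds ds' h1
    refine ⟨ds, k1, ?_, ?_⟩
    · rw [List.length_cons, Nat.mul_add, Nat.mul_one]
      omega
    · rw [k3, h3]

end Pool.Agent.BGD.Str
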