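import Pool.Agent.BGD.S4h60
import Pool.Agent.BGD.S_EXTX
import Pool.Agent.BGD.S_THR
import Pool.Agent.BGD.S_ENDS
import Pool.Agent.BGD.S_OSEG
import Pool.Agent.BGD.S_UNQ
import Pool.Agent.BGD.S_ENTER
import Pool.Agent.BGD.S_LINES
import Pool.Agent.BGD.S_ARRP
import Pool.Agent.BGD.S_ROOMU
import Pool.Agent.BGD.S_DOORU
import Pool.Agent.BGD.S_RM
import Pool.Agent.BGD.S_STG
import Pool.Agent.BGD.S_WRD
import Pool.Agent.BGD.S_GNR
import Pool.Agent.BGD.S_PRE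
import Pool.Agent.BGD.S_STR
import Pool.Agent.BGD.Main
import Pool.Agent.BCX.RANK

/-!
# Polynomial bound for the billiard complexity of every polygon (final theorem)
-/

set_option autoImplicit false

namespace Pool.Agent.BGD

open Pool.Agent.Billiard Pool.Agent.Lib_helper45.Bil Pool.Agent.BCX

theorem x_STR : Str.Stmt_STR :=
  Str.m_STR
    (Str.m_PRE Str.H60.m_XFIN Str.m_EXTX (Str.m_THR Str.H60.m_CLO) (Str.m_ENDS Str.H60.m_CLO) Str.H60.m_ENDX
      (Str.m_OSEG Str.H60.m_ENDX Str.m_EXTX) Str.m_UNQ (Str.m_ARRP Str.m_LINES)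
      (Str.m_DOORU Str.H60.m_CLO Str.m_ENTER Str.m_ROOMU) Str.m_RM)
    (Str.m_WRD (Str.m_STG Str.m_ENTER Str.H60.m_EXIT Str.m_RM))
    (Str.m_GNR Str.H60.m_XFIN Str.m_ROOMU)

/-- The dimension of the vector space over `ℚ` spanned by `π` and the exterior angles of `P`. -/
noncomputable def angleDim (P : Polygon) : ℕ :=
  Module.finrank ℚ (Submodule.span ℚ (insert Real.pi (Set.range (extAngle P))))

theorem polynomial_bound : ∃ d : ℕ, ∀ P : Polygon, angleDim P ≤ P.k ∧ ∃ C : ℝ, ∀ n : ℕ, 1 ≤ n →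
    (P.complexity n : ℝ) ≤ C * (n : ℝ) ^ (2 * angleDim P + d) := by
  obtain ⟨d, h⟩ := poly_rank x_STR
  refine ⟨d, fun P => ⟨m_RANK.2.2 P, ?_⟩⟩
  obtain ⟨C, -, hC⟩ := h P (angleDim P) (m_RANK.2.1 P (angleDim P) (Nat.le_succ _))
  exact ⟨C, hC⟩

end Pool.Agent.BGD
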