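import Pool.Agent.BGD.StR

/-!
# Block STR, module ENDX (helper1): the end points of a face are extreme points
-/

set_option autoImplicit false

open Set Filter Topology
open scoped ComplexConjugate

namespace Pool.Agent.BGD.Str

open Pool.Agent.Billiard Pool.Agent.Lib_helper45.Bil

namespace Endx_

/-- two points of the closed cell with a point of line `i` strictly between them lie on line `i` -/
theorem both_face (A : Arr) (σ : A.I → Bool) (i : A.I) {x y z : ℂ} (hx : x ∈ A.ccell σ)
    (hy : y ∈ A.ccell σ) (hz : A.f i z = 0) (h : z ∈ openSegment ℝ x y) :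
    x ∈ A.face σ i ∧ y ∈ A.face σ i := by
  obtain ⟨a, b, ha, hb, hab, rfl⟩ := h
  rw [Arr.f_comb i x y a b hab] at hz
  have h1 : a * (sn (σ i) * A.f i x) + b * (sn (σ i) * A.f i y) = 0 := by
    linear_combination sn (σ i) * hz
  have h2 := mul_nonneg ha.le (hx i)
  have h3 := mul_nonneg hb.le (hy i)
  have h4 : a * (sn (σ i) * A.f i x) = 0 := by linarith
  have h5 : b * (sn (σ i) * A.f i y) = 0 := by linarith
  refine ⟨⟨?_, hx⟩, ⟨?_, hy⟩⟩
  · exact (mul_eq_zero.1 ((mul_eq_zero.1 h4).resolve_left ha.ne')).resolve_left (sn_ne _)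
  · exact (mul_eq_zero.1 ((mul_eq_zero.1 h5).resolve_left hb.ne')).resolve_left (sn_ne _)

/-- an end point of a segment is not strictly between two points of the segment -/
theorem end_ext {p q x y : ℂ} (hpq : p ≠ q) (hx : x ∈ segment ℝ p q) (hy : y ∈ segment ℝ p q)
    (h : q ∈ openSegment ℝ x y) : x = q ∧ y = q := by
  obtain ⟨a, b, ha, hb, hab, hq⟩ := h
  obtain ⟨a1, b1, ha1, hb1, hab1, rfl⟩ := hx
  obtain ⟨a2, b2, ha2, hb2, hab2, rfl⟩ := hy
  obtain rfl : b = 1 - a := by linarith
  obtain rfl : b1 = 1 - a1 := by linarith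
  obtain rfl : b2 = 1 - a2 := by linarith
  have h1 : ((a * a1 + (1 - a) * a2 : ℝ) : ℂ) * (p - q) = 0 := by
    simp only [Complex.real_smul] at hq
    push_cast at hq ⊢
    linear_combination hq
  have h2 : a * a1 + (1 - a) * a2 = 0 := by
    rcases mul_eq_zero.1 h1 with h | h
    · exact_mod_cast h
    · exact absurd (sub_eq_zero.1 h) hpq
  have h3 := mul_nonneg ha.le ha1
  have h4 := mul_nonneg hb.le ha2
  have h5 : a1 = 0 := (mul_eq_zero.1 (by linarith : a * a1 = 0)).resolve_left ha.ne'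
  have h6 : a2 = 0 := (mul_eq_zero.1 (by linarith : (1 - a) * a2 = 0)).resolve_left hb.ne'
  subst h5 h6
  simp

end Endx_

open Endx_ in
theorem m_ENDX : Stmt_ENDX := by
  rintro A σ i ⟨P, Q⟩ ⟨⟨l, hl, he⟩, hseg⟩
  simp only at he hseg ⊢
  have hne : P ≠ Q := by
    intro h
    rw [h, sub_self] at he
    rcases mul_eq_zero.1 he.symm with h1 | h1
    · have h3 : l * sn (σ i) = 0 := by exact_mod_cast h1
      rcases mul_eq_zero.1 h3 with h2 | h2
      · exact hl.ne' h2
      · exact sn_ne _ h2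
    · exact A.d_ne i h1
  have hP : P ∈ A.face σ i := by rw [hseg]; exact right_mem_segment ℝ Q P
  have hQ : Q ∈ A.face σ i := by rw [hseg]; exact left_mem_segment ℝ Q P
  refine ⟨hne, ?_, ?_, ?_⟩
  · refine mem_extremePoints.2 ⟨hP.2, fun x hx y hy h => ?_⟩
    obtain ⟨h1, h2⟩ := both_face A σ i hx hy hP.1 h
    rw [hseg] at h1 h2
    exact end_ext hne.symm h1 h2 h
  · refine mem_extremePoints.2 ⟨hQ.2, fun x hx y hy h => ?_⟩
    obtain ⟨h1, h2⟩ := both_face A σ i hx hy hQ.1 h
    rw [hseg, segment_symm] at h1 h2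
    exact end_ext hne h1 h2 h
  · intro q hq h1 h2
    have key : cx (P - Q) (q - Q) = l * (sn (σ i) * A.f i q) := by
      rw [he, cx_rmul_left]
      have h3 : cx (A.d i) (q - Q) = A.f i q - A.f i Q := by
        unfold Arr.f
        simp only [cx, Complex.sub_re, Complex.sub_im]
        ring
      rw [h3, hQ.1]
      ring
    rw [key]
    obtain ⟨hqc, hext⟩ := mem_extremePoints.1 hq
    refine mul_pos hl (lt_of_le_of_ne (hqc i) fun h0 => ?_)
    have hf : A.f i q = 0 := (mul_eq_zero.1 h0.symm).resolve_left (sn_ne _)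
    have hqf : q ∈ A.face σ i := ⟨hf, hqc⟩
    rw [hseg] at hqf
    have h4 := mem_openSegment_of_ne_left_right h2.symm h1.symm hqf
    exact h1 (hext Q hQ.2 P hP.2 h4).2.symm

end Pool.Agent.BGD.Str
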