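import Pool.Agent.BGD.StR

/-!
# Block STR: EXIT (helper79)
-/

set_option autoImplicit false

open Set Filter Topology
open scoped ComplexConjugate

namespace Pool.Agent.BGD.Str

open Pool.Agent.Billiard Pool.Agent.Lib_helper45.Bil

theorem m_EXIT : Stmt_EXIT := by
  intro A σ z u t hbd hu hgen hz
  -- the linear functions
  obtain ⟨s, hs⟩ : ∃ s : A.I → ℝ, ∀ j, s j = sn (σ j) * cx (A.d j) u := ⟨_, fun _ => rfl⟩
  obtain ⟨a, ha⟩ : ∃ a : A.I → ℝ, ∀ j, a j = sn (σ j) * A.f j (z + t * u) := ⟨_, fun _ => rfl⟩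
  have hg : ∀ (j : A.I) (τ : ℝ), sn (σ j) * A.f j (z + τ * u) = a j + (τ - t) * s j := by
    intro j τ
    rw [hs, ha, Arr.f_line, Arr.f_line]
    ring
  have ha0 : ∀ j, 0 < a j := fun j => by
    rw [ha]
    exact hz j
  by_cases hN : ∃ j, s j < 0
  · obtain ⟨j₀, hj₀⟩ := hN
    obtain ⟨i, hi, hmin⟩ := Finset.exists_min_image (Finset.univ.filter fun j => s j < 0)
      (fun j => a j / -s j) ⟨j₀, Finset.mem_filter.2 ⟨Finset.mem_univ _, hj₀⟩⟩
    have hsi : s i < 0 := (Finset.mem_filter.1 hi).2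
    have hpos : 0 < a i / -s i := div_pos (ha0 i) (by linarith)
    have hle : ∀ j, s j < 0 → ∀ x : ℝ, x ≤ a i / -s i → 0 ≤ a j + x * s j := by
      intro j hj x hx
      have h1 := hx.trans (hmin j (Finset.mem_filter.2 ⟨Finset.mem_univ _, hj⟩))
      rw [le_div_iff₀ (by linarith)] at h1
      linarith
    have hlt : ∀ j, s j < 0 → ∀ x : ℝ, x < a i / -s i → 0 < a j + x * s j := by
      intro j hj x hx
      have h1 := hx.trans_le (hmin j (Finset.mem_filter.2 ⟨Finset.mem_univ _, hj⟩))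
      rw [lt_div_iff₀ (by linarith)] at h1
      linarith
    have hge : ∀ j, 0 ≤ s j → ∀ x : ℝ, 0 ≤ x → 0 < a j + x * s j := by
      intro j hj x hx
      have h1 := ha0 j
      have h2 := mul_nonneg hx hj
      linarith
    have hzero : A.f i (z + ((t + a i / -s i : ℝ) : ℂ) * u) = 0 := by
      have h1 := hg i (t + a i / -s i)
      have h2 : a i + (t + a i / -s i - t) * s i = 0 := by
        have h3 : a i / -s i * s i = -a i := by
          rw [div_neg, neg_mul, div_mul_cancel₀ _ hsi.ne]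
        linear_combination h3
      rw [h2] at h1
      exact (mul_eq_zero.1 h1).resolve_left (sn_ne _)
    refine ⟨i, t + a i / -s i, by linarith, ?_, ⟨hzero, ?_⟩, ?_⟩
    · intro τ h1 h2 j
      rw [hg]
      rcases lt_or_ge (s j) 0 with hj | hj
      · exact hlt j hj _ (by linarith)
      · exact hge j hj _ (by linarith)
    · intro j hji
      have h1 := hg j (t + a i / -s i)
      have h2 : 0 ≤ sn (σ j) * A.f j (z + ((t + a i / -s i : ℝ) : ℂ) * u) := by
        rw [h1]
        rcases lt_or_ge (s j) 0 with hj | hj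
        · exact hle j hj _ (by linarith)
        · exact (hge j hj _ (by linarith)).le
      refine lt_of_le_of_ne h2 fun h3 => ?_
      have h4 : A.f j (z + ((t + a i / -s i : ℝ) : ℂ) * u) = 0 :=
        (mul_eq_zero.1 h3.symm).resolve_left (sn_ne _)
      exact hgen _ ⟨j, i, hji, h4, hzero⟩
    · rw [← hs]
      exact hsi
  · push Not at hN
    exfalso
    obtain ⟨R, hR⟩ := hbd.exists_norm_le
    have hu0 : 0 < ‖u‖ := norm_pos_iff.2 hu
    obtain ⟨τ, hτ⟩ : ∃ τ : ℝ, τ = max (max t 0) ((R + ‖z‖ + 1) / ‖u‖) := ⟨_, rfl⟩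
    have h1 : t ≤ τ := by rw [hτ]; exact (le_max_left _ _).trans (le_max_left _ _)
    have h0 : 0 ≤ τ := by rw [hτ]; exact (le_max_right _ _).trans (le_max_left _ _)
    have h2 : (R + ‖z‖ + 1) / ‖u‖ ≤ τ := by rw [hτ]; exact le_max_right _ _
    rw [div_le_iff₀ hu0] at h2
    have h3 : z + τ * u ∈ A.cell σ := by
      intro j
      rw [hg]
      have h4 := ha0 j
      have h5 := mul_nonneg (sub_nonneg.2 h1) (hN j)
      linarith
    have h4 := hR _ h3
    have h5 : ‖(τ : ℂ) * u‖ = τ * ‖u‖ := by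
      rw [norm_mul, Complex.norm_real, Real.norm_of_nonneg h0]
    have h6 : ‖(τ : ℂ) * u‖ ≤ ‖z + τ * u‖ + ‖z‖ := by
      have h7 := norm_sub_le (z + τ * u) z
      rwa [add_sub_cancel_left] at h7
    rw [h5] at h6
    linarith

end Pool.Agent.BGD.Str
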