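import Pool.Agent.BGD.StR

/-!
# The rooms of a polygon (assembly, helper63)
-/

set_option autoImplicit false

open Set Filter Topology
open scoped ComplexConjugate

namespace Pool.Agent.BGD.Str

open Pool.Agent.Billiard Pool.Agent.Lib_helper45.Bil

namespace Pre_

variable {P : Polygon}

/-- type of rooms -/
abbrev RT (Q : ArrP P) : Type := {σ : Q.A.I → Bool // IsRoom Q σ}

/-- type of doors -/
abbrev DT (Q : ArrP P) : Type :=
  {x : (Q.A.I → Bool) × Q.A.I // IsRoom Q x.1 ∧ (Q.A.oface x.1 x.2).Nonempty}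

/-- boundary face -/
def Bd (Q : ArrP P) (σ : Q.A.I → Bool) (i : Q.A.I) : Prop :=
  ∃ a, i = Q.ι a ∧ Q.A.oface σ i ⊆ rel P a

theorem Bd_flip (Q : ArrP P) (σ : Q.A.I → Bool) (i : Q.A.I) :
    Bd Q (Q.A.flip σ i) i ↔ Bd Q σ i := by
  unfold Bd
  rw [Arr.oface_flip]

theorem room_bdd {Q : ArrP P} {σ : Q.A.I → Bool} (h : IsRoom Q σ) :
    Bornology.IsBounded (Q.A.cell σ) :=
  P.isCompact.isBounded.subset (h.2.trans interior_subset)

theorem nonempty_I (Q : ArrP P) : Nonempty Q.A.I := ⟨Q.ι 0⟩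

end Pre_

open Pre_ Classical in
theorem m_PRE (hXFIN : Stmt_XFIN) (hEXTX : Stmt_EXTX) (hTHR : Stmt_THR) (hENDS : Stmt_ENDS)
    (hENDX : Stmt_ENDX) (hOSEG : Stmt_OSEG) (hUNQ : Stmt_UNQ) (hARRP : Stmt_ARRP)
    (hDOORU : Stmt_DOORU) (hRM : Stmt_RM) : Stmt_PRE := by
  intro P
  obtain ⟨Q⟩ := hARRP P
  have hfin : ∀ σ : Q.A.I → Bool, ((Q.A.ccell σ).extremePoints ℝ).Finite := fun σ =>
    (hXFIN Q.A).subset (hEXTX Q.A σ (nonempty_I Q))
  have hE : ∀ x : DT Q, ∃ p, Q.A.Ends x.1.1 x.1.2 p := fun x =>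
    hENDS Q.A x.1.1 x.1.2 x.2.1.1 (room_bdd x.2.1) x.2.2
  choose E hE using hE
  have hnb : ∀ x : DT Q, ¬ Bd Q x.1.1 x.1.2 → Q.A.oface x.1.1 x.1.2 ⊆ U P ∧
      IsRoom Q (Q.A.flip x.1.1 x.1.2) := by
    intro x hx
    rcases hDOORU P Q x.1.1 x.1.2 x.2.1 x.2.2 with h | h
    · exact absurd h hx
    · exact h
  let inv : DT Q → DT Q := fun x => if h : Bd Q x.1.1 x.1.2 then x else
    ⟨(Q.A.flip x.1.1 x.1.2, x.1.2), (hnb x h).2, by
      show (Q.A.oface (Q.A.flip x.1.1 x.1.2) x.1.2).Nonempty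
      rw [Arr.oface_flip]; exact x.2.2⟩
  let src : DT Q → RT Q := fun x => ⟨x.1.1, x.2.1⟩
  let dst : DT Q → RT Q := fun x => src (inv x)
  let M : DT Q → Mot := fun x => if h : Bd Q x.1.1 x.1.2 then rM P h.choose else 1
  let lab : DT Q → Option (ZMod P.k) := fun x =>
    if h : Bd Q x.1.1 x.1.2 then some h.choose else none
  have hinv1 : ∀ x : DT Q, Bd Q x.1.1 x.1.2 → inv x = x := fun x h => dif_pos h
  have hinv0 : ∀ x : DT Q, ∀ h : ¬ Bd Q x.1.1 x.1.2, (inv x).1 = (Q.A.flip x.1.1 x.1.2, x.1.2) := by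
    intro x h
    simp only [inv, dif_neg h]
  have hBinv : ∀ x : DT Q, Bd Q (inv x).1.1 (inv x).1.2 ↔ Bd Q x.1.1 x.1.2 := by
    intro x
    by_cases h : Bd Q x.1.1 x.1.2
    · rw [hinv1 x h]
    · rw [hinv0 x h]
      exact Bd_flip Q _ _
  have hinvinv : ∀ x : DT Q, inv (inv x) = x := by
    intro x
    by_cases h : Bd Q x.1.1 x.1.2
    · rw [hinv1 x h, hinv1 x h]
    · have h2 : ¬ Bd Q (inv x).1.1 (inv x).1.2 := fun h3 => h ((hBinv x).1 h3)
      apply Subtype.ext
      rw [hinv0 _ h2, hinv0 x h]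
      simp only [Arr.flip_flip]
  have hfacea : ∀ x : DT Q, (E x).1 ∈ Q.A.face x.1.1 x.1.2 := by
    intro x
    rw [(hE x).2]
    exact right_mem_segment _ _ _
  have hfaceb : ∀ x : DT Q, (E x).2 ∈ Q.A.face x.1.1 x.1.2 := by
    intro x
    rw [(hE x).2]
    exact left_mem_segment _ _ _
  have hM1 : ∀ x : DT Q, ∀ h : Bd Q x.1.1 x.1.2, M x = rM P h.choose := fun x h => dif_pos h
  have hM0 : ∀ x : DT Q, ¬ Bd Q x.1.1 x.1.2 → M x = 1 := fun x h => dif_neg h
  have hEinv : ∀ x : DT Q, ¬ Bd Q x.1.1 x.1.2 → E (inv x) = ((E x).2, (E x).1) := by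
    intro x h
    have h1 := hE (inv x)
    rw [hinv0 x h] at h1
    have h2 := hUNQ.2 Q.A x.1.1 x.1.2 (E x) (hE x)
    exact hUNQ.1 Q.A _ _ _ _ h1 h2
  have hfix : ∀ x : DT Q, ∀ h : Bd Q x.1.1 x.1.2, ∀ p ∈ Q.A.face x.1.1 x.1.2,
      (rM P h.choose).ap p = p := by
    intro x h p hp
    rw [(hRM P _).1]
    apply refl_fix
    rw [← Q.side_iff, ← h.choose_spec.1]
    exact hp.1
  let S : Rooms :=
    { R := RT Q
      D := DT Q
      fR := Fintype.ofFinite _
      fD := Fintype.ofFinite _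
      V := fun r => (hfin r.1).toFinset
      src := src
      dst := dst
      pa := fun x => (E x).1
      pb := fun x => (E x).2
      M := M
      inv := inv
      ne := fun x => (hENDX Q.A _ _ _ (hE x)).1
      mem_a := fun x => (hfin _).mem_toFinset.2 (hENDX Q.A _ _ _ (hE x)).2.1
      mem_b := fun x => (hfin _).mem_toFinset.2 (hENDX Q.A _ _ _ (hE x)).2.2.1
      side := fun x p hp h1 h2 =>
        (hENDX Q.A _ _ _ (hE x)).2.2.2 p ((hfin _).mem_toFinset.1 hp) h1 h2
      three := fun r => by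
        rw [← Set.ncard_eq_toFinset_card _ (hfin r.1)]
        exact hTHR Q.A r.1 r.2.1 (room_bdd r.2) (hfin _)
      extr := fun r p hp => by
        rw [Set.Finite.coe_toFinset]
        have h1 := (hfin r.1).mem_toFinset.1 hp
        have h2 := (Arr.convex_ccell r.1).mem_extremePoints_iff_mem_sdiff_convexHull_sdiff.1 h1
        intro h3
        exact h2.2 (convexHull_mono (Set.sdiff_subset_sdiff_left extremePoints_subset) h3)
      inj := by
        rintro ⟨⟨σ, i⟩, hx⟩ ⟨⟨τ, j⟩, hy⟩ h0 h1 h2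
        have h3 : σ = τ := congrArg Subtype.val h0
        subst h3
        have h4 : i = j := by
          by_contra hij
          have ha := hfacea ⟨(σ, i), hx⟩
          have hb := hfaceb ⟨(σ, i), hx⟩
          have ha' := hfacea ⟨(σ, j), hy⟩
          have hb' := hfaceb ⟨(σ, j), hy⟩
          rw [← h1] at ha'
          rw [← h2] at hb'
          exact (hENDX Q.A _ _ _ (hE ⟨(σ, i), hx⟩)).1
            (Q.A.sub i j hij _ _ ha.1 ha'.1 hb.1 hb'.1)
        subst h4
        rfl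
      src_inv := fun _ => rfl
      dst_inv := fun x => by
        show src (inv (inv x)) = src x
        rw [hinvinv]
      M_inv := fun x => by
        by_cases h : Bd Q x.1.1 x.1.2
        · rw [hinv1 x h, hM1 x h]
          exact ((hRM P _).2.2).symm
        · rw [hM0 x h, hM0 _ (fun h3 => h ((hBinv x).1 h3)), inv_one]
      a_inv := fun x => by
        by_cases h : Bd Q x.1.1 x.1.2
        · rw [hinv1 x h, hM1 x h, hfix x h _ (hfacea x)]
          rfl
        · rw [hM0 x h, hEinv x h, Mot.ap_one]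
          rfl
      b_inv := fun x => by
        by_cases h : Bd Q x.1.1 x.1.2
        · rw [hinv1 x h, hM1 x h, hfix x h _ (hfaceb x)]
          rfl
        · rw [hM0 x h, hEinv x h, Mot.ap_one]
          rfl }
  refine ⟨{ Q := Q, S := S, sig := fun r => r.1, room := fun r => r.2,
            surj := fun σ h => ⟨⟨σ, h⟩, rfl⟩, inj := fun r r' h => Subtype.ext h,
            idx := fun x => x.1.2, lab := lab,
            oseg := fun x => hOSEG Q.A _ _ _ (hE x), ends := fun x => hE x,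
            door := fun r i h => ⟨⟨(r.1, i), r.2, h⟩, rfl, rfl⟩,
            bdry := ?_, intr := ?_ }⟩
  · intro x a hx
    have h : Bd Q x.1.1 x.1.2 := by
      by_contra h
      have : lab x = none := dif_neg h
      rw [this] at hx
      simp at hx
    have h1 : lab x = some h.choose := dif_pos h
    rw [h1] at hx
    have h2 : h.choose = a := Option.some.inj hx
    subst h2
    refine ⟨h.choose_spec.1, hM1 x h, ?_, ?_⟩
    · show src (inv x) = src x
      rw [hinv1 x h]
    · have h3 := hOSEG Q.A _ _ _ (hE x)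
      show openSegment ℝ (E x).2 (E x).1 ⊆ _
      rw [← h3]
      exact h.choose_spec.2
  · intro x hx
    have h : ¬ Bd Q x.1.1 x.1.2 := by
      intro h
      have : lab x = some h.choose := dif_pos h
      rw [this] at hx
      simp at hx
    refine ⟨hM0 x h, ?_, ?_⟩
    · show (inv x).1.1 = _
      rw [hinv0 x h]
    · have h3 := hOSEG Q.A _ _ _ (hE x)
      show openSegment ℝ (E x).2 (E x).1 ⊆ _
      rw [← h3]
      exact (hnb x h).1

end Pool.Agent.BGD.Str
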