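import Pool.Agent.BGD.StR

/-!
# Module BGDS_XFIN (helper7): the set of crossing points is finite
-/

set_option autoImplicit false

open Set Filter Topology
open scoped ComplexConjugate

namespace Pool.Agent.BGD.Str

theorem Xfin_subset (A : Arr) :
    A.X ⊆ ⋃ p : A.I × A.I, {z | p.1 ≠ p.2 ∧ A.f p.1 z = 0 ∧ A.f p.2 z = 0} := by
  rintro z ⟨i, j, hij, hi, hj⟩
  exact Set.mem_iUnion.2 ⟨(i, j), hij, hi, hj⟩

theorem m_XFIN : Stmt_XFIN := by
  intro A
  refine (Set.finite_iUnion fun p : A.I × A.I => ?_).subset (Xfin_subset A)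
  refine Set.Subsingleton.finite ?_
  rintro z ⟨hne, hz1, hz2⟩ w ⟨-, hw1, hw2⟩
  exact A.sub p.1 p.2 hne z w hz1 hz2 hw1 hw2

end Pool.Agent.BGD.Str
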