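import Pool.Agent.BGD.Att
import Pool.Agent.BGD.PkB
import Pool.Agent.BGD.Fwd

/-!
# Lines in one cell have the same signs at the door ends (helper82)
-/

set_option autoImplicit false

open InnerProductGeometry

namespace Pool.Agent.BGD

variable {S : Rooms}

/-! ### Plane geometry -/

theorem cx_sub_left (p q r : ℂ) : cx (p - q) r = cx p r - cx q r := by
  simp only [cx, Complex.sub_re, Complex.sub_im]; ring

theorem dt_sub_left (p q r : ℂ) : dt (p - q) r = dt p r - dt q r := by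
  simp only [dt, Complex.sub_re, Complex.sub_im]; ring

/-- unit vectors near `û` are determined by their sine -/
theorem dir_close {w e e' : ℂ} (hw : ‖w‖ = 1) (he : ‖e‖ = 1) (he' : ‖e'‖ = 1)
    (hc : 1 / 2 ≤ dt w e) (hc' : 1 / 2 ≤ dt w e') (hs : |cx w e| ≤ 1 / 2) (hs' : |cx w e'| ≤ 1 / 2) :
    ‖e - e'‖ ≤ 2 * |cx w e - cx w e'| := by
  have h1 := cx_sq_add_dt_sq w e
  have h2 := cx_sq_add_dt_sq w e'
  have h3 := cx_sq_add_dt_sq w (e - e')
  rw [hw, he] at h1
  rw [hw, he'] at h2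
  rw [hw, cx_sub_right, dt_sub_right] at h3
  set c := dt w e
  set c' := dt w e'
  set s := cx w e
  set s' := cx w e'
  have g1 : (c - c') ^ 2 * (c + c') ^ 2 = (s - s') ^ 2 * (s + s') ^ 2 := by
    have : (c - c') * (c + c') = -((s - s') * (s + s')) := by linear_combination h1 - h2
    calc (c - c') ^ 2 * (c + c') ^ 2 = ((c - c') * (c + c')) ^ 2 := by ring
      _ = (s - s') ^ 2 * (s + s') ^ 2 := by rw [this]; ring
  have g2 : 1 ≤ (c + c') ^ 2 := by
    have : 1 ≤ c + c' := by linarith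
    exact one_le_pow₀ this
  have a1 := abs_le.1 hs
  have a2 := abs_le.1 hs'
  have g3 : (s + s') ^ 2 ≤ 1 := by
    rw [sq_le_one_iff_abs_le_one, abs_le]
    constructor <;> linarith
  have g4 : (c - c') ^ 2 ≤ (s - s') ^ 2 := by
    have k1 : (c - c') ^ 2 * 1 ≤ (c - c') ^ 2 * (c + c') ^ 2 :=
      mul_le_mul_of_nonneg_left g2 (sq_nonneg _)
    have k2 : (s - s') ^ 2 * (s + s') ^ 2 ≤ (s - s') ^ 2 * 1 :=
      mul_le_mul_of_nonneg_left g3 (sq_nonneg _)
    linarith
  apply le_of_sq_le_sq _ (by positivity)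
  rw [mul_pow, sq_abs]
  have g5 := sq_nonneg (s - s')
  linarith

/-- the difference of the heights over two lines through one point -/
theorem cx_diff {e e' w : ℂ} (he : ‖e‖ = 1) (he' : ‖e'‖ = 1) :
    |cx e w - cx e' w| ≤ |dt e w| * ‖e - e'‖ + |cx e w| * (‖e - e'‖ ^ 2 / 2) := by
  have h1 : e.re * e.re + e.im * e.im = 1 := by rw [← norm_sq_eq, he]; norm_num
  have h1' : e'.re * e'.re + e'.im * e'.im = 1 := by rw [← norm_sq_eq, he']; norm_num
  have h0 := vec_id e (e - e') w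
  rw [he, one_pow, one_mul] at h0
  have h0' : dt e (e - e') = ‖e - e'‖ ^ 2 / 2 := by
    rw [norm_sq_eq]
    simp only [dt, Complex.sub_re, Complex.sub_im]
    linear_combination 1 / 2 * h1 - 1 / 2 * h1'
  have h0'' : cx (e - e') e = - cx e (e - e') := by
    simp only [cx]; ring
  have h2 : cx e w - cx e' w = dt e w * cx (e - e') e + cx e w * (‖e - e'‖ ^ 2 / 2) := by
    rw [← cx_sub_left, h0, h0', h0'']
    ring
  have h3 : |cx (e - e') e| ≤ ‖e - e'‖ := by
    have := abs_cx_le (e - e') e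
    rwa [he, mul_one] at this
  rw [h2]
  refine (abs_add_le _ _).trans (add_le_add ?_ ?_)
  · rw [abs_mul]
    exact mul_le_mul_of_nonneg_left h3 (abs_nonneg _)
  · rw [abs_mul, abs_of_nonneg (by positivity : 0 ≤ ‖e - e'‖ ^ 2 / 2)]

theorem cx_diff_crude (e e' w : ℂ) : |cx e w - cx e' w| ≤ ‖e - e'‖ * ‖w‖ := by
  rw [← cx_sub_left]; exact abs_cx_le _ _

theorem same_sign_of_close {H H' : ℝ} (h : |H - H'| < |H|) : 0 < H * H' := by
  rcases lt_trichotomy H 0 with h1 | h1 | h1
  · rw [abs_of_neg h1] at h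
    have := abs_lt.1 h
    exact mul_pos_of_neg_of_neg h1 (by linarith)
  · rw [h1, abs_zero] at h
    exact absurd h (not_lt.2 (abs_nonneg _))
  · rw [abs_of_pos h1] at h
    have := abs_lt.1 h
    exact mul_pos h1 (by linarith)

/-- lines of one cell have the same sign at a point at distance at least `h` -/
theorem sign_keep {e e' w : ℂ} {o o' h R : ℝ} (he : ‖e‖ = 1) (he' : ‖e'‖ = 1) (h0 : 0 < h)
    (ho : |o - o'| ≤ h / 8) (hR : R * ‖e - e'‖ ≤ h / 8) (hf : ‖e - e'‖ ≤ 1 / 2)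
    (hdt : |dt e w| ≤ R) (hoR : |o| ≤ R) (hH : h ≤ |o + cx e w|) :
    0 < (o + cx e w) * (o' + cx e' w) := by
  apply same_sign_of_close
  have h1 := cx_diff (w := w) he he'
  set f := ‖e - e'‖ with hf'
  have hf0 : 0 ≤ f := norm_nonneg _
  have hR0 : 0 ≤ R := (abs_nonneg _).trans hoR
  have h2 : |dt e w| * f ≤ h / 8 := (mul_le_mul_of_nonneg_right hdt hf0).trans hR
  have h3 : |cx e w| ≤ |o + cx e w| + |o| := by
    have : cx e w = (o + cx e w) - o := by ring
    calc |cx e w| = |(o + cx e w) - o| := by rw [← this]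
      _ ≤ |o + cx e w| + |o| := abs_sub _ _
  have h4 : |cx e w| * (f ^ 2 / 2) ≤ |o + cx e w| / 8 + h / 32 := by
    have k1 : |cx e w| * (f ^ 2 / 2) ≤ (|o + cx e w| + |o|) * (f ^ 2 / 2) :=
      mul_le_mul_of_nonneg_right h3 (by positivity)
    have k2 : f ^ 2 / 2 ≤ 1 / 8 := by nlinarith
    have k3 : |o + cx e w| * (f ^ 2 / 2) ≤ |o + cx e w| * (1 / 8) :=
      mul_le_mul_of_nonneg_left k2 (abs_nonneg _)
    have k4 : |o| * (f ^ 2 / 2) ≤ h / 32 := by
      have k5 : |o| * (f ^ 2 / 2) ≤ R * (f ^ 2 / 2) :=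
        mul_le_mul_of_nonneg_right hoR (by positivity)
      have k6 : R * (f ^ 2 / 2) = (R * f) * (f / 2) := by ring
      have k7 : (R * f) * (f / 2) ≤ (h / 8) * (f / 2) :=
        mul_le_mul_of_nonneg_right hR (by positivity)
      nlinarith
    linarith
  have h5 : |(o + cx e w) - (o' + cx e' w)| ≤ |o - o'| + |cx e w - cx e' w| := by
    have : (o + cx e w) - (o' + cx e' w) = (o - o') + (cx e w - cx e' w) := by ring
    rw [this]; exact abs_add_le _ _
  linarith

/-- small angles -/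
theorem unit_angle {w e : ℂ} {θ : ℝ} (hw : ‖w‖ = 1) (he : ‖e‖ = 1) (h : angle w e ≤ θ)
    (hθ : θ ≤ 1 / 2) : 1 / 2 ≤ dt w e ∧ |cx w e| ≤ θ ∧ ‖w - e‖ ≤ θ := by
  have h0 := angle_nonneg w e
  have h1 := cos_angle_mul_norm_mul_norm w e
  rw [inner_eq_dt, hw, he, mul_one, mul_one] at h1
  have h2 := Real.one_sub_sq_div_two_le_cos (x := angle w e)
  have h3 : angle w e ^ 2 ≤ θ ^ 2 := pow_le_pow_left₀ h0 h 2
  refine ⟨by nlinarith, ?_, ?_⟩
  · have := abs_cx_le_angle w e
    rw [hw, he] at this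
    linarith
  · apply le_of_sq_le_sq _ (h0.trans h)
    have h4 : ‖w - e‖ ^ 2 = 2 - 2 * dt w e := by
      have k1 : ‖w‖ ^ 2 = 1 := by rw [hw]; norm_num
      have k2 : ‖e‖ ^ 2 = 1 := by rw [he]; norm_num
      rw [norm_sq_eq] at k1 k2 ⊢
      simp only [dt, Complex.sub_re, Complex.sub_im]
      linear_combination k1 + k2
    rw [h4, ← h1]
    linarith

/-! ### Runs and signs -/

/-- a line with the same signs runs through the same doors -/
theorem run_of_signs {r : S.R} {p v p' v' : ℂ} {b : List S.D} (h : Run S r p v b)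
    (hs : ∀ q ∈ endsL b, 0 < cx v (q - p) * cx v' (q - p')) : Run S r p' v' b := by
  induction b generalizing r p v p' v' with
  | nil => trivial
  | cons d b ih =>
    obtain ⟨r1, r2, r3, r4⟩ := h
    have s1 := hs _ (pb_mem_endsL d b)
    have s2 := hs _ (pa_mem_endsL d b)
    refine ⟨r1, ?_, ?_, ih r4 ?_⟩
    · by_contra h
      push Not at h
      have := mul_nonpos_of_nonpos_of_nonneg r2.le h
      linarith
    · by_contra h
      push Not at h
      have := mul_nonpos_of_nonneg_of_nonpos r3.le h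
      linarith
    · intro q hq
      rw [cx_chart', cx_chart']
      have h1 := hs _ (mem_endsL_cons (d := d) hq)
      have h2 := (S.M d).sg_sq
      nlinarith

/-- the two runs needed by the core -/
theorem runs_of_signs {x u : Obj S} {a b : List S.D} (gx : x.GD) (hx : Att x u a b) {p' v' : ℂ}
    (hs : ∀ q ∈ x.ends, 0 < cx x.hol (q - x.A) *
      cx ((frame S a).lin v') (q - (frame S a).ap p')) :
    Run S u.r p' v' (u.ds ++ b) ∧ Run S u.r p' (-v') (rev S a) := by
  have h1 : Run S x.r ((frame S a).ap p') ((frame S a).lin v') x.ds := run_of_signs gx.run hs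
  rw [hx.ds, List.append_assoc, Run_append] at h1
  obtain ⟨h2, h3⟩ := h1
  rw [Mot.ap_inv_ap, Mot.lin_inv_lin, ← hx.r] at h3
  refine ⟨h3, ?_⟩
  have h4 := Run_rev h2
  rw [Mot.ap_inv_ap, Mot.lin_inv_lin, ← hx.r] at h4
  exact h4

/-- distances in the corridor -/
theorem ends_dist {Dm : ℝ} (hD : ∀ r, ∀ p ∈ S.V r, ∀ q ∈ S.V r, ‖p - q‖ ≤ Dm) (b : List S.D) :
    ∀ (r : S.R) (p v A : ℂ), Run S r p v b → A ∈ S.V r → ∀ q ∈ endsL b, ‖q - A‖ ≤ Dm * b.length := by
  induction b with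
  | nil =>
    rintro r p v A - - q ⟨i, hi, -⟩
    simp at hi
  | cons d b ih =>
    rintro r p v A ⟨r1, -, -, r4⟩ hA q ⟨i, hi, hq⟩
    have hDm : 0 ≤ Dm := (norm_nonneg _).trans (hD r A hA A hA)
    rw [← r1] at hA
    have ea : ‖S.pa d - A‖ ≤ Dm := hD _ _ (S.mem_a d) _ hA
    have eb : ‖S.pb d - A‖ ≤ Dm := hD _ _ (S.mem_b d) _ hA
    have hlen : ((d :: b).length : ℝ) = b.length + 1 := by simp
    rw [hlen]
    have hb0 : (0 : ℝ) ≤ b.length := Nat.cast_nonneg _
    cases i with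
    | zero =>
      simp only [List.take_zero, frame, Mot.ap_one, List.getElem_cons_zero] at hq
      rcases hq with rfl | rfl <;> nlinarith
    | succ i =>
      have hi' : i < b.length := by simpa using hi
      -- a vertex of the next room over an end of `d`
      have hsrc := S.src_inv d
      have e1 := S.a_inv d
      have hm : S.pa (S.inv d) ∈ S.V (S.dst d) := hsrc ▸ S.mem_a (S.inv d)
      have e2 : ‖(S.M d).ap (S.pa (S.inv d)) - A‖ ≤ Dm := by
        rw [e1]; split <;> assumption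
      obtain ⟨q', hq', rfl⟩ : ∃ q' ∈ endsL b, q = (S.M d).ap q' := by
        simp only [List.take_succ_cons, frame, Mot.ap_mul, List.getElem_cons_succ] at hq
        rcases hq with rfl | rfl
        · exact ⟨_, ⟨i, hi', Or.inl rfl⟩, rfl⟩
        · exact ⟨_, ⟨i, hi', Or.inr rfl⟩, rfl⟩
      have h3 := ih (S.dst d) _ _ (S.pa (S.inv d)) r4 hm q' hq'
      calc ‖(S.M d).ap q' - A‖ = ‖((S.M d).ap q' - (S.M d).ap (S.pa (S.inv d))) +
            ((S.M d).ap (S.pa (S.inv d)) - A)‖ := by congr 1; ring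
        _ ≤ ‖(S.M d).ap q' - (S.M d).ap (S.pa (S.inv d))‖ +
            ‖(S.M d).ap (S.pa (S.inv d)) - A‖ := norm_add_le _ _
        _ ≤ Dm * b.length + Dm := by
            rw [Mot.ap_sub_ap, Mot.norm_lin]; exact add_le_add h3 e2
        _ = Dm * (b.length + 1) := by ring

end Pool.Agent.BGD
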