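import Pool.Agent.BGD.Rooms

/-!
# Splitting a generalized diagonal at its lowest door end (helper54)
-/

set_option autoImplicit false

open scoped ComplexConjugate

namespace Pool.Agent.BGD

namespace Spl

theorem cx_add_right (v a b : ℂ) : cx v (a + b) = cx v a + cx v b := by
  simp [cx]; ring

theorem cx_sub_right (v a b : ℂ) : cx v (a - b) = cx v a - cx v b := by
  simp [cx]; ring

theorem cx_zero_right (v : ℂ) : cx v 0 = 0 := by simp [cx]

/-- right of the next door implies right of the door -/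
theorem prop_right {v A P Q P' Q' z : ℂ}
    (hP : 0 < cx v (P - A)) (hQ : cx v (Q - A) < 0)
    (hP' : 0 < cx v (P' - A)) (hQ' : cx v (Q' - A) < 0)
    (h1 : cx (P - Q) (P' - Q) ≤ 0) (h2 : cx (P - Q) (Q' - Q) ≤ 0)
    (hz : cx (P' - Q') (z - Q') < 0)
    (hz1 : cx v (Q' - A) ≤ cx v (z - A)) (hz2 : cx v (z - A) ≤ cx v (P' - A)) :
    cx (P - Q) (z - Q) < 0 := by
  have key : (cx v (P' - A) - cx v (Q' - A)) * cx (P - Q) (z - Q) =
      (cx v (z - A) - cx v (Q' - A)) * cx (P - Q) (P' - Q) +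
      (cx v (P' - A) - cx v (z - A)) * cx (P - Q) (Q' - Q) +
      cx (P' - Q') (z - Q') * (cx v (P - A) - cx v (Q - A)) := by
    simp only [cx, Complex.sub_re, Complex.sub_im]
    ring
  have h3 : (cx v (z - A) - cx v (Q' - A)) * cx (P - Q) (P' - Q) ≤ 0 :=
    mul_nonpos_of_nonneg_of_nonpos (by linarith) h1
  have h4 : (cx v (P' - A) - cx v (z - A)) * cx (P - Q) (Q' - Q) ≤ 0 :=
    mul_nonpos_of_nonneg_of_nonpos (by linarith) h2
  have h5 : cx (P' - Q') (z - Q') * (cx v (P - A) - cx v (Q - A)) < 0 :=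
    mul_neg_of_neg_of_pos hz (by linarith)
  have h6 : (cx v (P' - A) - cx v (Q' - A)) * cx (P - Q) (z - Q) < 0 := by linarith
  by_contra hcon
  have h7 : 0 ≤ (cx v (P' - A) - cx v (Q' - A)) * cx (P - Q) (z - Q) :=
    mul_nonneg (by linarith) (not_lt.1 hcon)
  linarith

/-- left of a door implies left of the next door -/
theorem prop_left {v A P Q P' Q' z : ℂ}
    (hP : 0 < cx v (P - A)) (hQ : cx v (Q - A) < 0)
    (hP' : 0 < cx v (P' - A)) (hQ' : cx v (Q' - A) < 0)
    (h1 : 0 ≤ cx (P' - Q') (P - Q')) (h2 : 0 ≤ cx (P' - Q') (Q - Q'))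
    (hz : 0 < cx (P - Q) (z - Q))
    (hz1 : cx v (Q - A) ≤ cx v (z - A)) (hz2 : cx v (z - A) ≤ cx v (P - A)) :
    0 < cx (P' - Q') (z - Q') := by
  have key : (cx v (P - A) - cx v (Q - A)) * cx (P' - Q') (z - Q') =
      (cx v (z - A) - cx v (Q - A)) * cx (P' - Q') (P - Q') +
      (cx v (P - A) - cx v (z - A)) * cx (P' - Q') (Q - Q') +
      cx (P - Q) (z - Q) * (cx v (P' - A) - cx v (Q' - A)) := by
    simp only [cx, Complex.sub_re, Complex.sub_im]
    ring
  have h3 : 0 ≤ (cx v (z - A) - cx v (Q - A)) * cx (P' - Q') (P - Q') :=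
    mul_nonneg (by linarith) h1
  have h4 : 0 ≤ (cx v (P - A) - cx v (z - A)) * cx (P' - Q') (Q - Q') :=
    mul_nonneg (by linarith) h2
  have h5 : 0 < cx (P - Q) (z - Q) * (cx v (P' - A) - cx v (Q' - A)) :=
    mul_pos hz (by linarith)
  have h6 : 0 < (cx v (P - A) - cx v (Q - A)) * cx (P' - Q') (z - Q') := by linarith
  by_contra hcon
  have h7 : (cx v (P - A) - cx v (Q - A)) * cx (P' - Q') (z - Q') ≤ 0 :=
    mul_nonpos_of_nonneg_of_nonpos (by linarith) (not_lt.1 hcon)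
  linarith

/-- a segment from the left to the right of a door, with heights between those of the ends, crosses
the door -/
theorem cross {v A P Q E F : ℂ}
    (hP : 0 < cx v (P - A)) (hQ : cx v (Q - A) < 0)
    (hE : 0 < cx (P - Q) (E - Q)) (hF : cx (P - Q) (F - Q) < 0)
    (hE1 : cx v (Q - A) ≤ cx v (E - A)) (hE2 : cx v (E - A) ≤ cx v (P - A))
    (hF1 : cx v (Q - A) ≤ cx v (F - A)) (hF2 : cx v (F - A) ≤ cx v (P - A))
    (h0 : cx v (E - A) = 0 ∨ cx v (F - A) = 0) :
    0 < cx (F - E) (P - E) ∧ cx (F - E) (Q - E) < 0 := by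
  have k1 : (cx v (P - A) - cx v (Q - A)) * cx (F - E) (P - E) =
      cx (P - Q) (E - Q) * (cx v (P - A) - cx v (F - A)) +
      -cx (P - Q) (F - Q) * (cx v (P - A) - cx v (E - A)) := by
    simp only [cx, Complex.sub_re, Complex.sub_im]
    ring
  have k2 : (cx v (P - A) - cx v (Q - A)) * cx (F - E) (Q - E) =
      -(cx (P - Q) (E - Q) * (cx v (F - A) - cx v (Q - A)) +
      -cx (P - Q) (F - Q) * (cx v (E - A) - cx v (Q - A))) := by
    simp only [cx, Complex.sub_re, Complex.sub_im]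
    ring
  have a1 : 0 ≤ cx (P - Q) (E - Q) * (cx v (P - A) - cx v (F - A)) :=
    mul_nonneg hE.le (by linarith)
  have a2 : 0 ≤ -cx (P - Q) (F - Q) * (cx v (P - A) - cx v (E - A)) :=
    mul_nonneg (by linarith) (by linarith)
  have a3 : 0 ≤ cx (P - Q) (E - Q) * (cx v (F - A) - cx v (Q - A)) :=
    mul_nonneg hE.le (by linarith)
  have a4 : 0 ≤ -cx (P - Q) (F - Q) * (cx v (E - A) - cx v (Q - A)) :=
    mul_nonneg (by linarith) (by linarith)
  have s1 : 0 < (cx v (P - A) - cx v (Q - A)) * cx (F - E) (P - E) := by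
    rw [k1]
    rcases h0 with h0 | h0
    · have : 0 < -cx (P - Q) (F - Q) * (cx v (P - A) - cx v (E - A)) :=
        mul_pos (by linarith) (by linarith)
      linarith
    · have : 0 < cx (P - Q) (E - Q) * (cx v (P - A) - cx v (F - A)) :=
        mul_pos hE (by linarith)
      linarith
  have s2 : (cx v (P - A) - cx v (Q - A)) * cx (F - E) (Q - E) < 0 := by
    rw [k2]
    rcases h0 with h0 | h0
    · have : 0 < -cx (P - Q) (F - Q) * (cx v (E - A) - cx v (Q - A)) :=
        mul_pos (by linarith) (by linarith)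
      linarith
    · have : 0 < cx (P - Q) (E - Q) * (cx v (F - A) - cx v (Q - A)) :=
        mul_pos hE (by linarith)
      linarith
  have hd : 0 < cx v (P - A) - cx v (Q - A) := by linarith
  refine ⟨?_, ?_⟩
  · by_contra hcon
    have := mul_nonpos_of_nonneg_of_nonpos hd.le (not_lt.1 hcon)
    linarith
  · by_contra hcon
    have := mul_nonneg hd.le (not_lt.1 hcon)
    linarith

theorem norm_sq' (v : ℂ) : ‖v‖ ^ 2 = v.re * v.re + v.im * v.im := by
  rw [← Complex.normSq_eq_norm_sq, Complex.normSq_apply]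

theorem abs_dt_le (a b : ℂ) : |dt a b| ≤ ‖a‖ * ‖b‖ := by
  have h : dt a b = (a * conj b).re := by
    simp [dt]
  rw [h]
  calc |(a * conj b).re| ≤ ‖a * conj b‖ := Complex.abs_re_le_norm _
    _ = ‖a‖ * ‖b‖ := by rw [norm_mul, RCLike.norm_conj]

theorem cx_dt_id (v n w : ℂ) :
    ‖v‖ ^ 2 * cx n w = -(dt v w * cx v n) + cx v w * dt n v := by
  rw [norm_sq']
  simp only [cx, dt]
  ring

/-- the foot of a low vertex on the right of the first door is after the start -/
theorem foot_left {v A P Q D : ℂ} {r : ℝ} (hv : v ≠ 0)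
    (hP : 0 < cx v (P - A)) (hQ : cx v (Q - A) < 0)
    (hA : r * ‖P - Q‖ ≤ cx (P - Q) (A - Q)) (hD : cx (P - Q) (D - Q) ≤ 0)
    (hlow : |cx v (D - A)| < r * ‖v‖) : 0 < dt v (D - A) := by
  by_contra hcon
  have hv0 : 0 < ‖v‖ := norm_pos_iff.2 hv
  have hPQ : P - Q ≠ 0 := by
    intro h
    have h1 : P = Q := sub_eq_zero.1 h
    rw [h1] at hP
    linarith
  have hn0 : 0 < ‖P - Q‖ := norm_pos_iff.2 hPQ
  have id := cx_dt_id v (P - Q) (D - A)
  have h1 : cx v (P - Q) = cx v (P - A) - cx v (Q - A) := by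
    rw [← cx_sub_right]; congr 1; ring
  have h2 : cx (P - Q) (D - A) = cx (P - Q) (D - Q) - cx (P - Q) (A - Q) := by
    rw [← cx_sub_right]; congr 1; ring
  have h3 : 0 ≤ -(dt v (D - A) * cx v (P - Q)) := by
    have := mul_nonneg (show 0 ≤ -dt v (D - A) by linarith) (show 0 ≤ cx v (P - Q) by linarith)
    linarith
  have h4 : -(|cx v (D - A)| * (‖P - Q‖ * ‖v‖)) ≤ cx v (D - A) * dt (P - Q) v := by
    have h5 := neg_abs_le (cx v (D - A) * dt (P - Q) v)
    rw [abs_mul] at h5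
    have h6 := mul_le_mul_of_nonneg_left (abs_dt_le (P - Q) v) (abs_nonneg (cx v (D - A)))
    linarith
  have h7 : |cx v (D - A)| * (‖P - Q‖ * ‖v‖) < r * ‖v‖ * (‖P - Q‖ * ‖v‖) :=
    mul_lt_mul_of_pos_right hlow (by positivity)
  have h8 : ‖v‖ ^ 2 * cx (P - Q) (D - A) ≤ ‖v‖ ^ 2 * (-(r * ‖P - Q‖)) := by
    apply mul_le_mul_of_nonneg_left _ (by positivity)
    linarith
  nlinarith

/-- the foot of a low vertex on the left of the last door is before the end -/
theorem foot_right {v B P Q D : ℂ} {r : ℝ} (hv : v ≠ 0)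
    (hP : 0 < cx v (P - B)) (hQ : cx v (Q - B) < 0)
    (hB : cx (P - Q) (B - Q) ≤ -(r * ‖P - Q‖)) (hD : 0 ≤ cx (P - Q) (D - Q))
    (hlow : |cx v (D - B)| < r * ‖v‖) : dt v (D - B) < 0 := by
  by_contra hcon
  have hv0 : 0 < ‖v‖ := norm_pos_iff.2 hv
  have hPQ : P - Q ≠ 0 := by
    intro h
    have h1 : P = Q := sub_eq_zero.1 h
    rw [h1] at hP
    linarith
  have hn0 : 0 < ‖P - Q‖ := norm_pos_iff.2 hPQ
  have id := cx_dt_id v (P - Q) (D - B)
  have h1 : cx v (P - Q) = cx v (P - B) - cx v (Q - B) := by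
    rw [← cx_sub_right]; congr 1; ring
  have h2 : cx (P - Q) (D - B) = cx (P - Q) (D - Q) - cx (P - Q) (B - Q) := by
    rw [← cx_sub_right]; congr 1; ring
  have h3 : -(dt v (D - B) * cx v (P - Q)) ≤ 0 := by
    have := mul_nonneg (show 0 ≤ dt v (D - B) by linarith) (show 0 ≤ cx v (P - Q) by linarith)
    linarith
  have h4 : cx v (D - B) * dt (P - Q) v ≤ |cx v (D - B)| * (‖P - Q‖ * ‖v‖) := by
    have h5 := le_abs_self (cx v (D - B) * dt (P - Q) v)
    rw [abs_mul] at h5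
    have h6 := mul_le_mul_of_nonneg_left (abs_dt_le (P - Q) v) (abs_nonneg (cx v (D - B)))
    linarith
  have h7 : |cx v (D - B)| * (‖P - Q‖ * ‖v‖) < r * ‖v‖ * (‖P - Q‖ * ‖v‖) :=
    mul_lt_mul_of_pos_right hlow (by positivity)
  have h8 : ‖v‖ ^ 2 * (r * ‖P - Q‖) ≤ ‖v‖ ^ 2 * cx (P - Q) (D - B) := by
    apply mul_le_mul_of_nonneg_left _ (by positivity)
    linarith
  nlinarith

/-- a finite family of positive numbers has a positive lower bound -/
theorem exists_pos_lb {α : Type} (s : Finset α) (f : α → ℝ) (h : ∀ a ∈ s, 0 < f a) :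
    ∃ r : ℝ, 0 < r ∧ ∀ a ∈ s, r ≤ f a := by
  classical
  induction s using Finset.induction_on with
  | empty => exact ⟨1, one_pos, by simp⟩
  | insert a s ha ih =>
    obtain ⟨r, hr, hs⟩ := ih (fun b hb => h b (Finset.mem_insert_of_mem hb))
    refine ⟨min r (f a), lt_min hr (h a (Finset.mem_insert_self _ _)), fun b hb => ?_⟩
    rcases Finset.mem_insert.1 hb with rfl | hb
    · exact min_le_right _ _
    · exact (min_le_left _ _).trans (hs b hb)

/-- the distance of the other vertices of a room from its doors -/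
theorem exists_r0 (S : Rooms) : ∃ r : ℝ, 0 < r ∧ ∀ d, ∀ p ∈ S.V (S.src d), p ≠ S.pa d →
    p ≠ S.pb d → r * ‖S.pa d - S.pb d‖ ≤ cx (S.pa d - S.pb d) (p - S.pb d) := by
  classical
  let _ := S.fD
  have h1 : ∀ d : S.D, ∃ r : ℝ, 0 < r ∧ ∀ p ∈ S.V (S.src d), p ≠ S.pa d →
      p ≠ S.pb d → r * ‖S.pa d - S.pb d‖ ≤ cx (S.pa d - S.pb d) (p - S.pb d) := by
    intro d
    have hn : 0 < ‖S.pa d - S.pb d‖ := norm_pos_iff.2 (sub_ne_zero.2 (S.ne d))
    obtain ⟨r, hr, h⟩ := exists_pos_lb ((S.V (S.src d)).filter (fun p => p ≠ S.pa d ∧ p ≠ S.pb d))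
      (fun p => cx (S.pa d - S.pb d) (p - S.pb d) / ‖S.pa d - S.pb d‖) (by
        intro p hp
        rw [Finset.mem_filter] at hp
        exact div_pos (S.side d p hp.1 hp.2.1 hp.2.2) hn)
    refine ⟨r, hr, fun p hp ha hb => ?_⟩
    have := h p (Finset.mem_filter.2 ⟨hp, ha, hb⟩)
    exact (le_div_iff₀ hn).1 this
  choose f hf hf' using h1
  obtain ⟨r, hr, h⟩ := exists_pos_lb Finset.univ f (fun d _ => hf d)
  refine ⟨r, hr, fun d p hp ha hb => le_trans ?_ (hf' d p hp ha hb)⟩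
  exact mul_le_mul_of_nonneg_right (h d (Finset.mem_univ _)) (norm_nonneg _)

end Spl

end Pool.Agent.BGD
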