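import Pool.Agent.BGD.Split

/-!
# Splitting a generalized diagonal: the corridor in the coordinates of the first room (helper54)
-/

set_option autoImplicit false

open scoped ComplexConjugate

namespace Pool.Agent.BGD

variable {S : Rooms}

namespace Spl

theorem frame_take_succ (ds : List S.D) (i : ℕ) (h : i < ds.length) :
    frame S (ds.take (i + 1)) = frame S (ds.take i) * S.M ds[i] := by
  rw [List.take_succ_eq_append_getElem h, frame_append]
  simp [frame]

theorem endR_take_succ (r : S.R) (ds : List S.D) (i : ℕ) (h : i < ds.length) :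
    endR S r (ds.take (i + 1)) = S.dst ds[i] := by
  rw [List.take_succ_eq_append_getElem h, endR_append]
  simp [endR]

/-- the end point of the door `i` on the left of the line, in the first coordinates -/
noncomputable def up (ds : List S.D) (i : ℕ) (h : i < ds.length) : ℂ :=
  (frame S (ds.take i)).ap (if (frame S (ds.take i)).fl then S.pb ds[i] else S.pa ds[i])

/-- the end point of the door `i` on the right of the line, in the first coordinates -/
noncomputable def dn (ds : List S.D) (i : ℕ) (h : i < ds.length) : ℂ :=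
  (frame S (ds.take i)).ap (if (frame S (ds.take i)).fl then S.pa ds[i] else S.pb ds[i])

/-- the vertices of the room `i`, in the first coordinates -/
def Vx (r : S.R) (ds : List S.D) (i : ℕ) : Set ℂ :=
  {z | ∃ p ∈ S.V (endR S r (ds.take i)), z = (frame S (ds.take i)).ap p}

/-- the doors fit together -/
def Fit (r : S.R) (ds : List S.D) : Prop := ∀ i (h : i < ds.length), S.src ds[i] = endR S r (ds.take i)

/-- the line passes the door `i` -/
def Ps (ds : List S.D) (A v : ℂ) (i : ℕ) (h : i < ds.length) : Prop :=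
  0 < cx v (up ds i h - A) ∧ cx v (dn ds i h - A) < 0

theorem ap_inj (m : Mot) {z w : ℂ} (h : m.ap z = m.ap w) : z = w := by
  rw [← m.ap_inv_ap z, h, m.ap_inv_ap]

theorem cx_ap (m : Mot) (a b c d : ℂ) :
    cx (m.ap a - m.ap b) (m.ap c - m.ap d) = m.sg * cx (a - b) (c - d) := by
  rw [m.ap_sub_ap, m.ap_sub_ap, m.cx_lin]

theorem up_mem (r : S.R) (ds : List S.D) (i : ℕ) (h : i < ds.length) (hf : Fit r ds) :
    up ds i h ∈ Vx r ds i := by
  unfold up
  refine ⟨_, ?_, rfl⟩
  rw [← hf i h]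
  split
  · exact S.mem_b _
  · exact S.mem_a _

theorem dn_mem (r : S.R) (ds : List S.D) (i : ℕ) (h : i < ds.length) (hf : Fit r ds) :
    dn ds i h ∈ Vx r ds i := by
  unfold dn
  refine ⟨_, ?_, rfl⟩
  rw [← hf i h]
  split
  · exact S.mem_a _
  · exact S.mem_b _

theorem pa_inv (d : S.D) : S.pa (S.inv d) = (S.M d)⁻¹.ap (if (S.M d).fl then S.pa d else S.pb d) := by
  rw [← S.a_inv, Mot.ap_inv_ap]

theorem pb_inv (d : S.D) : S.pb (S.inv d) = (S.M d)⁻¹.ap (if (S.M d).fl then S.pb d else S.pa d) := by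
  rw [← S.b_inv, Mot.ap_inv_ap]

theorem pa_next (d : S.D) : (S.M d)⁻¹.ap (S.pa d) ∈ S.V (S.dst d) := by
  rw [← S.src_inv]
  by_cases h : (S.M d).fl = true
  · have := S.mem_a (S.inv d)
    rw [pa_inv] at this
    simpa [h] using this
  · have := S.mem_b (S.inv d)
    rw [pb_inv] at this
    simpa [h] using this

theorem pb_next (d : S.D) : (S.M d)⁻¹.ap (S.pb d) ∈ S.V (S.dst d) := by
  rw [← S.src_inv]
  by_cases h : (S.M d).fl = true
  · have := S.mem_b (S.inv d)
    rw [pb_inv] at this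
    simpa [h] using this
  · have := S.mem_a (S.inv d)
    rw [pa_inv] at this
    simpa [h] using this

theorem frame_mul_inv (F : Mot) (d : S.D) (z : ℂ) : (F * S.M d).ap ((S.M d)⁻¹.ap z) = F.ap z := by
  rw [Mot.ap_mul, Mot.ap_ap_inv]

theorem up_mem' (r : S.R) (ds : List S.D) (i : ℕ) (h : i < ds.length) :
    up ds i h ∈ Vx r ds (i + 1) := by
  unfold up Vx
  rw [frame_take_succ ds i h, endR_take_succ r ds i h]
  split
  · exact ⟨_, pb_next _, by rw [frame_mul_inv]⟩
  · exact ⟨_, pa_next _, by rw [frame_mul_inv]⟩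

theorem dn_mem' (r : S.R) (ds : List S.D) (i : ℕ) (h : i < ds.length) :
    dn ds i h ∈ Vx r ds (i + 1) := by
  unfold dn Vx
  rw [frame_take_succ ds i h, endR_take_succ r ds i h]
  split
  · exact ⟨_, pa_next _, by rw [frame_mul_inv]⟩
  · exact ⟨_, pb_next _, by rw [frame_mul_inv]⟩

/-- the room before a door is on its left; `r0` version -/
theorem left_of {r0 : ℝ} (hr : ∀ d, ∀ p ∈ S.V (S.src d), p ≠ S.pa d →
      p ≠ S.pb d → r0 * ‖S.pa d - S.pb d‖ ≤ cx (S.pa d - S.pb d) (p - S.pb d))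
    (r : S.R) (ds : List S.D) (i : ℕ) (h : i < ds.length) (hf : Fit r ds) {z : ℂ}
    (hz : z ∈ Vx r ds i) (h1 : z ≠ up ds i h) (h2 : z ≠ dn ds i h) :
    r0 * ‖up ds i h - dn ds i h‖ ≤ cx (up ds i h - dn ds i h) (z - dn ds i h) := by
  obtain ⟨p, hp, rfl⟩ := hz
  rw [← hf i h] at hp
  set F := frame S (ds.take i) with hF
  have hup : up ds i h = F.ap (if F.fl then S.pb ds[i] else S.pa ds[i]) := rfl
  have hdn : dn ds i h = F.ap (if F.fl then S.pa ds[i] else S.pb ds[i]) := rfl
  by_cases hfl : F.fl = true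
  · rw [if_pos hfl] at hup hdn
    rw [hup] at h1 ⊢
    rw [hdn] at h2 ⊢
    have ha : p ≠ S.pa ds[i] := fun h => h2 (by rw [h])
    have hb : p ≠ S.pb ds[i] := fun h => h1 (by rw [h])
    have h3 := hr _ p hp ha hb
    rw [F.ap_sub_ap, F.ap_sub_ap, F.norm_lin, F.cx_lin]
    have hs : F.sg = -1 := if_pos hfl
    rw [hs, norm_sub_rev]
    have h4 : -1 * cx (S.pb ds[i] - S.pa ds[i]) (p - S.pa ds[i]) =
        cx (S.pa ds[i] - S.pb ds[i]) (p - S.pb ds[i]) := by
      simp only [cx, Complex.sub_re, Complex.sub_im]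
      ring
    rw [h4]
    exact h3
  · rw [if_neg hfl] at hup hdn
    rw [hup] at h1 ⊢
    rw [hdn] at h2 ⊢
    have ha : p ≠ S.pa ds[i] := fun h => h1 (by rw [h])
    have hb : p ≠ S.pb ds[i] := fun h => h2 (by rw [h])
    have h3 := hr _ p hp ha hb
    rw [F.ap_sub_ap, F.ap_sub_ap, F.norm_lin, F.cx_lin]
    have hs : F.sg = 1 := if_neg hfl
    rw [hs, one_mul]
    exact h3

/-- the room after a door is on its right -/
theorem right_of {r0 : ℝ} (hr : ∀ d, ∀ p ∈ S.V (S.src d), p ≠ S.pa d →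
      p ≠ S.pb d → r0 * ‖S.pa d - S.pb d‖ ≤ cx (S.pa d - S.pb d) (p - S.pb d))
    (r : S.R) (ds : List S.D) (i : ℕ) (h : i < ds.length) {z : ℂ}
    (hz : z ∈ Vx r ds (i + 1)) (h1 : z ≠ up ds i h) (h2 : z ≠ dn ds i h) :
    cx (up ds i h - dn ds i h) (z - dn ds i h) ≤ -(r0 * ‖up ds i h - dn ds i h‖) := by
  obtain ⟨p, hp, rfl⟩ := hz
  rw [frame_take_succ ds i h] at *
  rw [endR_take_succ r ds i h, ← S.src_inv] at hp
  set F := frame S (ds.take i) with hF
  set d := ds[i] with hd
  set G := F * S.M d with hG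
  -- the door ends in the coordinates of the next room
  have hup : up ds i h = G.ap (if G.fl then S.pa (S.inv d) else S.pb (S.inv d)) := by
    unfold up
    rw [← hF, ← hd, pa_inv, pb_inv, hG, Mot.mul_fl]
    by_cases h3 : F.fl = true <;> by_cases h4 : (S.M d).fl = true <;>
      simp [h3, h4, frame_mul_inv]
  have hdn : dn ds i h = G.ap (if G.fl then S.pb (S.inv d) else S.pa (S.inv d)) := by
    unfold dn
    rw [← hF, ← hd, pa_inv, pb_inv, hG, Mot.mul_fl]
    by_cases h3 : F.fl = true <;> by_cases h4 : (S.M d).fl = true <;>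
      simp [h3, h4, frame_mul_inv]
  by_cases hfl : G.fl = true
  · rw [if_pos hfl] at hup hdn
    rw [hup] at h1 ⊢
    rw [hdn] at h2 ⊢
    have ha : p ≠ S.pa (S.inv d) := fun h => h1 (by rw [h])
    have hb : p ≠ S.pb (S.inv d) := fun h => h2 (by rw [h])
    have h3 := hr _ p hp ha hb
    rw [G.ap_sub_ap, G.ap_sub_ap, G.norm_lin, G.cx_lin]
    have hs : G.sg = -1 := if_pos hfl
    rw [hs]
    linarith
  · rw [if_neg hfl] at hup hdn
    rw [hup] at h1 ⊢
    rw [hdn] at h2 ⊢
    have ha : p ≠ S.pa (S.inv d) := fun h => h2 (by rw [h])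
    have hb : p ≠ S.pb (S.inv d) := fun h => h1 (by rw [h])
    have h3 := hr _ p hp ha hb
    rw [G.ap_sub_ap, G.ap_sub_ap, G.norm_lin, G.cx_lin]
    have hs : G.sg = 1 := if_neg hfl
    rw [hs, one_mul, norm_sub_rev]
    have h4 : cx (S.pb (S.inv d) - S.pa (S.inv d)) (p - S.pa (S.inv d)) =
        -cx (S.pa (S.inv d) - S.pb (S.inv d)) (p - S.pb (S.inv d)) := by
      simp only [cx, Complex.sub_re, Complex.sub_im]
      ring
    rw [h4]
    linarith

/-- the conditions of a run at one door, in the first coordinates -/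
theorem cond_iff (ds : List S.D) (i : ℕ) (h : i < ds.length) (p v : ℂ) :
    (cx ((frame S (ds.take i))⁻¹.lin v) (S.pb ds[i] - (frame S (ds.take i))⁻¹.ap p) < 0 ∧
      0 < cx ((frame S (ds.take i))⁻¹.lin v) (S.pa ds[i] - (frame S (ds.take i))⁻¹.ap p)) ↔
    Ps ds p v i h := by
  unfold Ps up dn
  set F := frame S (ds.take i) with hF
  have h1 : ∀ q : ℂ, cx (F⁻¹.lin v) (q - F⁻¹.ap p) = F.sg * cx v (F.ap q - p) := by
    intro q
    have h2 : q - F⁻¹.ap p = F⁻¹.lin (F.ap q - p) := by
      rw [← Mot.ap_sub_ap, Mot.ap_inv_ap]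
    rw [h2, Mot.cx_lin, Mot.sg_inv]
  rw [h1, h1]
  by_cases hfl : F.fl = true
  · have hs : F.sg = -1 := by simp [Mot.sg, hfl]
    rw [hs]
    simp only [hfl, if_true]
    constructor
    · rintro ⟨h2, h3⟩; exact ⟨by linarith, by linarith⟩
    · rintro ⟨h2, h3⟩; exact ⟨by linarith, by linarith⟩
  · have hfl' : F.fl = false := by simpa using hfl
    have hs : F.sg = 1 := by simp [Mot.sg, hfl']
    rw [hs]
    simp only [hfl', Bool.false_eq_true, if_false]
    constructor
    · rintro ⟨h2, h3⟩; exact ⟨by linarith, by linarith⟩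
    · rintro ⟨h2, h3⟩; exact ⟨by linarith, by linarith⟩

theorem run_conds {r : S.R} {p v : ℂ} {ds : List S.D} (h : Run S r p v ds) :
    Fit r ds ∧ ∀ i (hi : i < ds.length), Ps ds p v i hi := by
  have h1 : ∀ i (hi : i < ds.length), S.src ds[i] = endR S r (ds.take i) ∧ Ps ds p v i hi := by
    intro i hi
    have h2 : ds = ds.take i ++ (ds[i] :: ds.drop (i + 1)) := by
      rw [List.cons_getElem_drop_succ, List.take_append_drop]
    rw [h2, Run_append] at h
    obtain ⟨h3, h4, h5, -⟩ := h.2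
    refine ⟨h3, ?_⟩
    rw [← cond_iff]
    exact ⟨h4, h5⟩
  exact ⟨fun i hi => (h1 i hi).1, fun i hi => (h1 i hi).2⟩

/-- a run through a factor of the list of doors -/
theorem run_of {r : S.R} {p v : ℂ} {ds : List S.D} (hf : Fit r ds) (a : ℕ) :
    ∀ b : ℕ, a + b ≤ ds.length → (∀ i (hi : i < ds.length), a ≤ i → i < a + b → Ps ds p v i hi) →
      Run S (endR S r (ds.take a)) ((frame S (ds.take a))⁻¹.ap p) ((frame S (ds.take a))⁻¹.lin v)
        ((ds.drop a).take b) := by
  intro b
  induction b with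
  | zero => intro _ _; simp [Run]
  | succ b ih =>
    intro hb hc
    have h0 : a + b < ds.length := by omega
    have h1 : b < (ds.drop a).length := by rw [List.length_drop]; omega
    have h2 : (ds.drop a)[b] = ds[a + b] := by rw [List.getElem_drop]
    rw [List.take_succ_eq_append_getElem h1, Run_append]
    refine ⟨ih (by omega) (fun i hi h3 h4 => hc i hi h3 (by omega)), ?_⟩
    have h3 : ds.take (a + b) = ds.take a ++ (ds.drop a).take b := List.take_add
    have h4 : frame S (ds.take (a + b)) = frame S (ds.take a) * frame S ((ds.drop a).take b) := by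
      rw [h3, frame_append]
    have h5 : endR S r (ds.take (a + b)) =
        endR S (endR S r (ds.take a)) ((ds.drop a).take b) := by
      rw [h3, endR_append]
    have h6 := hc (a + b) h0 (by omega) (by omega)
    rw [← cond_iff, h4, mul_inv_rev, Mot.ap_mul, Mot.lin_mul] at h6
    rw [h2]
    refine ⟨?_, h6.1, h6.2, trivial⟩
    rw [← h5]
    exact hf _ h0

end Spl

end Pool.Agent.BGD
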