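import Pool.Agent.BGD.Abs

/-!
# BGD: from vectors to the abstract system (helper27)

The geometry supplies for every diagonal its vector in the absolute frame, and for every composite
one its shorter and its longer part. Lengths, directions and angles are defined from the vectors,
and all the axioms of the abstract discharging theorem follow.
-/

set_option autoImplicit false

open scoped ComplexConjugate

namespace Pool.Agent.BGD

open InnerProductGeometry

/-- the geometric data: `vec x` is the vector from the start to the end of `x` in the absolute frame,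
`K x` says that `x` is composite (it has a lowest vertex), `e x`, `g x` are the shorter and the
longer part -/
structure VSys (A : Type) where
  vec : A → ℂ
  e : A → A
  g : A → A
  K : A → Prop
  c0 : ℝ
  n : ℝ
  r1 : ℝ

/-- the facts which the geometry has to supply -/
structure VAx {A : Type} (V : VSys A) : Prop where
  c0pos : 0 < V.c0
  r1pos : 0 < V.r1
  r1le : V.r1 ≤ 1 / 100
  lc : ∀ x, V.c0 ≤ ‖V.vec x‖
  ln : ∀ x, ‖V.vec x‖ ≤ V.n
  add : ∀ x, V.K x → V.vec x = V.vec (V.e x) + V.vec (V.g x)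
  le : ∀ x, V.K x → ‖V.vec (V.e x)‖ ≤ ‖V.vec (V.g x)‖
  np : ∀ x, V.K x → (V.vec (V.e x) * conj (V.vec (V.g x))).im ≠ 0

open scoped Classical in
/-- the abstract system -/
noncomputable def VSys.toSys {A : Type} (V : VSys A) : Sys A where
  l x := ‖V.vec x‖
  rho x := if V.K x then angle (V.vec (V.e x)) (V.vec (V.g x)) else 1
  d x y := angle (V.vec x) (V.vec y)
  e := V.e
  g := V.g
  c0 := V.c0
  n := V.n
  r1 := V.r1

namespace Vec

theorem sin_cr (p q : ℂ) : Real.sin (angle p q) * (‖p‖ * ‖q‖) = |(p * conj q).im| := by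
  rw [sin_angle_mul_norm_mul_norm, ← Real.sqrt_sq_eq_abs]
  congr 1
  simp only [Complex.inner, Complex.mul_re, Complex.mul_im, Complex.conj_re, Complex.conj_im]
  ring

theorem cos_re (p q : ℂ) : Real.cos (angle p q) * (‖p‖ * ‖q‖) = (p * conj q).re := by
  rw [cos_angle_mul_norm_mul_norm]
  simp only [Complex.inner, Complex.mul_re, Complex.conj_re, Complex.conj_im]
  ring

theorem cr_add (y z : ℂ) : (y * conj (y + z)).im = (y * conj z).im := by
  simp only [map_add, Complex.mul_im, Complex.add_re, Complex.add_im, Complex.conj_re,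
    Complex.conj_im]
  ring

theorem cr_add' (y z : ℂ) : (z * conj (y + z)).im = -(y * conj z).im := by
  simp only [map_add, Complex.mul_im, Complex.add_re, Complex.add_im, Complex.conj_re,
    Complex.conj_im]
  ring

theorem ne_of_cr {y z : ℂ} (h : (y * conj z).im ≠ 0) : y ≠ 0 ∧ z ≠ 0 ∧ y + z ≠ 0 := by
  refine ⟨?_, ?_, ?_⟩
  · rintro rfl; simp at h
  · rintro rfl; simp at h
  · intro h1
    rw [← cr_add, h1] at h
    simp at h

/-- the facts about a triangle -/
structure Tri (y z : ℂ) (α β ρ : ℝ) : Prop where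
  sum : α + β = ρ
  a : |‖y + z‖ * Real.sin α - ‖z‖ * Real.sin ρ| = 0
  b : |‖y + z‖ * Real.sin β - ‖y‖ * Real.sin ρ| = 0
  apos : 0 < α
  bpos : 0 < β
  rpi : ρ < Real.pi

theorem angle_pos {p q : ℂ} (h : (p * conj q).im ≠ 0) : 0 < angle p q ∧ angle p q < Real.pi := by
  have h1 := sin_cr p q
  have h2 : angle p q ≠ 0 := by
    intro h3
    rw [h3, Real.sin_zero, zero_mul] at h1
    exact h (abs_eq_zero.1 h1.symm)
  have h4 : angle p q ≠ Real.pi := by
    intro h3
    rw [h3, Real.sin_pi, zero_mul] at h1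
    exact h (abs_eq_zero.1 h1.symm)
  exact ⟨lt_of_le_of_ne (angle_nonneg _ _) (Ne.symm h2), lt_of_le_of_ne (angle_le_pi _ _) h4⟩

theorem tri {y z : ℂ} (h : (y * conj z).im ≠ 0) :
    Tri y z (angle y (y + z)) (angle z (y + z)) (angle y z) := by
  obtain ⟨hy, hz, hx⟩ := ne_of_cr h
  have ny := norm_pos_iff.2 hy
  have nz := norm_pos_iff.2 hz
  have nx := norm_pos_iff.2 hx
  have s0 := sin_cr y z
  have s1 := sin_cr y (y + z)
  have s2 := sin_cr z (y + z)
  rw [cr_add] at s1
  rw [cr_add', abs_neg] at s2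
  refine ⟨(angle_eq_angle_add_add_angle_add y hz).symm, ?_, ?_, ?_, ?_, (angle_pos h).2⟩
  · rw [abs_eq_zero, sub_eq_zero]
    apply mul_left_cancel₀ ny.ne'
    linear_combination s1 - s0
  · rw [abs_eq_zero, sub_eq_zero]
    apply mul_left_cancel₀ nz.ne'
    linear_combination s2 - s0
  · exact (angle_pos (by rw [cr_add]; exact h)).1
  · exact (angle_pos (by rw [cr_add']; exact neg_ne_zero.2 h)).1

theorem cramer (p x v : ℂ) : ((p * conj v).im : ℂ) * x =
    ((x * conj v).im : ℂ) * p + ((p * conj x).im : ℂ) * v := by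
  apply Complex.ext
  · simp only [Complex.mul_re, Complex.add_re, Complex.ofReal_re, Complex.ofReal_im, Complex.mul_im,
      Complex.conj_re, Complex.conj_im]
    ring
  · simp only [Complex.add_im, Complex.ofReal_re, Complex.ofReal_im, Complex.mul_im,
      Complex.conj_re, Complex.conj_im]
    ring

theorem cr_norm (p x v : ℂ) : (p * conj v).im * (x * conj x).re =
    (p * conj x).im * (x * conj v).re + (p * conj x).re * (x * conj v).im := by
  simp only [Complex.mul_re, Complex.mul_im, Complex.conj_re, Complex.conj_im]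
  ring

/-- `x` is between `p` and `v` -/
theorem far_one {p x v : ℂ} (hx : x ≠ 0) (h1 : 0 < (p * conj x).im * (x * conj v).im)
    (h2 : 0 < (p * conj x).re) (h3 : 0 < (x * conj v).re) :
    angle p v = angle p x + angle x v := by
  have hn : 0 < (x * conj x).re := by
    rw [Complex.mul_conj, Complex.ofReal_re]
    exact Complex.normSq_pos.2 hx
  have hc := cr_norm p x v
  set s := (p * conj v).im with hs
  set a := (x * conj v).im with ha
  set b := (p * conj x).im with hb
  have hsa : 0 < s * a := by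
    have h4 : 0 < s * (x * conj x).re * a := by
      rw [hc]
      have h5 : 0 < a ^ 2 := by
        have : a ≠ 0 := by
          intro h6
          rw [h6, mul_zero] at h1
          exact lt_irrefl _ h1
        positivity
      have h6 : (b * (x * conj v).re + (p * conj x).re * a) * a =
          (b * a) * (x * conj v).re + (p * conj x).re * a ^ 2 := by ring
      rw [h6]
      positivity
    have h5 : s * (x * conj x).re * a = (s * a) * (x * conj x).re := by ring
    rw [h5] at h4
    exact pos_of_mul_pos_left h4 hn.le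
  have hs0 : s ≠ 0 := by
    intro h
    rw [h, zero_mul] at hsa
    exact lt_irrefl _ hsa
  have hab : 0 < b * a := h1
  have ha' : 0 ≤ a / s := by
    have : a / s = (s * a) / s ^ 2 := by
      field_simp
    rw [this]
    positivity
  have hb' : 0 ≤ b / s := by
    have h4 : 0 < (b * a) * (s * a) := mul_pos hab hsa
    have h5 : (b * a) * (s * a) = (b * s) * a ^ 2 := by ring
    rw [h5] at h4
    have h6 : 0 < b * s := pos_of_mul_pos_left h4 (sq_nonneg a)
    have : b / s = (b * s) / s ^ 2 := by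
      field_simp
    rw [this]
    positivity
  apply angle_eq_angle_add_add_angle_add_of_mem_span hx
  rw [Submodule.mem_span_pair]
  refine ⟨Real.toNNReal (a / s), Real.toNNReal (b / s), ?_⟩
  have hcr := cramer p x v
  rw [← hs, ← ha, ← hb] at hcr
  have hs0' : (s : ℂ) ≠ 0 := by exact_mod_cast hs0
  rw [NNReal.smul_def, NNReal.smul_def, Complex.real_smul, Complex.real_smul,
    Real.coe_toNNReal _ ha', Real.coe_toNNReal _ hb', Complex.ofReal_div, Complex.ofReal_div]
  apply mul_left_cancel₀ hs0'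
  rw [hcr]
  field_simp

theorem re_pos_of_angle {p q : ℂ} (hp : p ≠ 0) (hq : q ≠ 0) (h : angle p q < Real.pi / 2) :
    0 < (p * conj q).re := by
  rw [← cos_re]
  have h1 : 0 < Real.cos (angle p q) :=
    Real.cos_pos_of_mem_Ioo ⟨by linarith [angle_nonneg p q, Real.pi_pos], h⟩
  have := norm_pos_iff.2 hp
  have := norm_pos_iff.2 hq
  positivity

theorem cr_conj (p q : ℂ) : (q * conj p).im = -(p * conj q).im := by
  simp only [Complex.mul_im, Complex.conj_re, Complex.conj_im]
  ring

/-- the direction of `y + z` is between those of `y`, `z` and all other directions are farther from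
one of them -/
theorem far {y z v : ℂ} (h : (y * conj z).im ≠ 0) (hr : angle y z < Real.pi / 2) (hv : v ≠ 0)
    (h0 : 0 < angle (y + z) v) (h1 : angle (y + z) v < Real.pi / 2) :
    angle y v = angle (y + z) v + angle y (y + z) ∨
      angle z v = angle (y + z) v + angle z (y + z) := by
  obtain ⟨hy, hz, hx⟩ := ne_of_cr h
  have T := tri h
  have hS := T.sum
  have ha := T.apos
  have hb := T.bpos
  have hyx := re_pos_of_angle hy hx (by linarith)
  have hzx := re_pos_of_angle hz hx (by linarith)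
  have hxv := re_pos_of_angle hx hv h1
  have hne : ((y + z) * conj v).im ≠ 0 := by
    intro h3
    have h4 := sin_cr (y + z) v
    rw [h3, abs_zero] at h4
    have h5 : 0 < Real.sin (angle (y + z) v) :=
      Real.sin_pos_of_pos_of_lt_pi h0 (by linarith [Real.pi_pos])
    have := norm_pos_iff.2 hx
    have := norm_pos_iff.2 hv
    have h6 : 0 < Real.sin (angle (y + z) v) * (‖y + z‖ * ‖v‖) := by positivity
    linarith
  rcases lt_or_gt_of_ne (mul_ne_zero h hne) with h5 | h5
  · right
    rw [far_one hx _ hzx hxv, add_comm]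
    rw [cr_add']
    linarith
  · left
    rw [far_one hx _ hyx hxv, add_comm]
    rw [cr_add]
    exact h5

/-! ### real inequalities -/

theorem sin_low {t : ℝ} (h0 : 0 ≤ t) (h1 : t ≤ 1 / 100) : 99 / 100 * t ≤ Real.sin t := by
  rcases h0.eq_or_lt with h | h
  · rw [← h]; simp
  · have h2 := Real.sin_gt_sub_cube h
    have h3 : t ^ 3 ≤ t * (1 / 100) ^ 2 := by
      have : t ^ 3 = t * t ^ 2 := by ring
      rw [this]
      gcongr
    linarith

variable {X Y Z α β ρ : ℝ}

theorem half (hX : 0 < X) (h1 : X * Real.sin α = Z * Real.sin ρ)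
    (h2 : X * Real.sin β = Y * Real.sin ρ) (hs : α + β = ρ) (ha : 0 < α) (hb : 0 < β)
    (hr : ρ ≤ Real.pi / 2 ∨ (α < Real.pi / 2 ∧ β < Real.pi / 2 ∧ ρ < Real.pi)) (hYZ : Y ≤ Z) :
    ρ / 2 ≤ α := by
  have hr' : α < Real.pi / 2 ∧ β < Real.pi / 2 ∧ ρ < Real.pi := by
    rcases hr with h | h
    · exact ⟨by linarith, by linarith, by linarith [Real.pi_pos]⟩
    · exact h
  obtain ⟨ha', hb', hr⟩ := hr'
  have h0 : 0 < Real.sin ρ := Real.sin_pos_of_pos_of_lt_pi (by linarith) hr
  have h3 : X * Real.sin β ≤ X * Real.sin α := by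
    rw [h1, h2]
    exact mul_le_mul_of_nonneg_right hYZ h0.le
  have h4 : Real.sin β ≤ Real.sin α := le_of_mul_le_mul_left h3 hX
  by_contra hc
  push Not at hc
  have h5 : α < β := by linarith
  have h6 := Real.sin_lt_sin_of_lt_of_le_pi_div_two (by linarith) hb'.le h5
  linarith

theorem le51 (hX : 0 < X) (h1 : X * Real.sin α = Z * Real.sin ρ)
    (h2 : X * Real.sin β = Y * Real.sin ρ) (hs : α + β = ρ) (ha : 0 < α) (hb : 0 < β)
    (hr : ρ < 1 / 100) (hYZ : Y ≤ Z) : Y ≤ 51 / 100 * X := by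
  have hp := Real.pi_gt_three
  have h3 := half hX h1 h2 hs ha hb (Or.inl (by linarith)) hYZ
  have h4 : β ≤ ρ / 2 := by linarith
  have h5 : Real.sin β ≤ Real.sin (ρ / 2) :=
    Real.sin_le_sin_of_le_of_le_pi_div_two (by linarith) (by linarith) h4
  have h6 : Real.sin ρ = 2 * Real.sin (ρ / 2) * Real.cos (ρ / 2) := by
    rw [← Real.sin_two_mul]
    congr 1
    ring
  have h7 : 0 < Real.sin (ρ / 2) := Real.sin_pos_of_pos_of_lt_pi (by linarith) (by linarith)
  have h8 : (Y * (2 * Real.cos (ρ / 2))) * Real.sin (ρ / 2) ≤ X * Real.sin (ρ / 2) := by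
    calc (Y * (2 * Real.cos (ρ / 2))) * Real.sin (ρ / 2) = Y * Real.sin ρ := by rw [h6]; ring
      _ = X * Real.sin β := h2.symm
      _ ≤ X * Real.sin (ρ / 2) := mul_le_mul_of_nonneg_left h5 hX.le
  have h9 : Y * (2 * Real.cos (ρ / 2)) ≤ X := le_of_mul_le_mul_right h8 h7
  have h10 := Real.one_sub_sq_div_two_le_cos (x := ρ / 2)
  have h11 : (ρ / 2) ^ 2 ≤ (1 / 200) ^ 2 := pow_le_pow_left₀ (by linarith) (by linarith) 2
  have h12 : 199 / 200 ≤ Real.cos (ρ / 2) := by linarith
  rcases le_or_gt Y 0 with hY | hY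
  · linarith
  · have h13 : Y * (2 * (199 / 200)) ≤ Y * (2 * Real.cos (ρ / 2)) :=
      mul_le_mul_of_nonneg_left (by linarith) hY.le
    linarith

theorem glt (hX : 0 < X) (h1 : X * Real.sin α = Z * Real.sin ρ) (hs : α + β = ρ)
    (ha : 0 < α) (hb : 0 < β) (hr : ρ < 1 / 100) : Z < X := by
  have hp := Real.pi_gt_three
  have h3 : Real.sin α < Real.sin ρ :=
    Real.sin_lt_sin_of_lt_of_le_pi_div_two (by linarith) (by linarith) (by linarith)
  have h0 : 0 < Real.sin ρ := Real.sin_pos_of_pos_of_lt_pi (by linarith) (by linarith)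
  have h4 : Z * Real.sin ρ < X * Real.sin ρ := by
    rw [← h1]
    exact mul_lt_mul_of_pos_left h3 hX
  exact lt_of_mul_lt_mul_right h4 h0.le

theorem dpart (hX : 0 < X) (h2 : X * Real.sin β = Y * Real.sin ρ) (hs : α + β = ρ)
    (ha : 0 < α) (hb : 0 < β) (hr : ρ < 1 / 100) : α ≤ 2 * ρ * (1 - Y / X) := by
  have hp := Real.pi_gt_three
  have h0 : 0 < Real.sin ρ := Real.sin_pos_of_pos_of_lt_pi (by linarith) (by linarith)
  have h3 : Y / X = Real.sin β / Real.sin ρ := by
    rw [div_eq_div_iff hX.ne' h0.ne']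
    linarith
  have h4 : 1 - Y / X = (Real.sin ρ - Real.sin β) / Real.sin ρ := by
    rw [h3]
    field_simp
  have h5 : Real.sin ρ - Real.sin β = 2 * Real.sin ((ρ - β) / 2) * Real.cos ((ρ + β) / 2) :=
    Real.sin_sub_sin ρ β
  have h6 : (ρ - β) / 2 = α / 2 := by linarith
  rw [h6] at h5
  have h7 := sin_low (t := α / 2) (by linarith) (by linarith)
  have h8 := Real.one_sub_sq_div_two_le_cos (x := (ρ + β) / 2)
  have h9 : ((ρ + β) / 2) ^ 2 ≤ (1 / 100) ^ 2 := pow_le_pow_left₀ (by linarith) (by linarith) 2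
  have h10 : 99 / 100 ≤ Real.cos ((ρ + β) / 2) := by linarith
  have h11 : 97 / 100 * α ≤ Real.sin ρ - Real.sin β := by
    rw [h5]
    calc 97 / 100 * α ≤ 2 * (99 / 100 * (α / 2)) * (99 / 100) := by linarith
      _ ≤ 2 * Real.sin (α / 2) * Real.cos ((ρ + β) / 2) := by
          apply mul_le_mul (by linarith) h10 (by norm_num)
          have : 0 ≤ 99 / 100 * (α / 2) := by positivity
          linarith
  have h12 : Real.sin ρ ≤ ρ := (Real.sin_lt (by linarith)).le
  have h13 : (Real.sin ρ - Real.sin β) ≤ ρ * ((Real.sin ρ - Real.sin β) / Real.sin ρ) := by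
    rw [mul_div_assoc', le_div_iff₀ h0, mul_comm]
    exact mul_le_mul_of_nonneg_right h12 (by linarith)
  rw [h4]
  linarith

end Vec

/-- vectors give an abstract system -/
theorem VAx.ax {A : Type} {V : VSys A} (h : VAx V) : Ax V.toSys := by
  classical
  have hp := Real.pi_gt_three
  have hr1 := h.r1le
  have hne : ∀ x, V.vec x ≠ 0 := by
    intro x h0
    have := h.lc x
    rw [h0, norm_zero] at this
    linarith [h.c0pos]
  have hK : ∀ x, V.toSys.rho x < V.toSys.r1 → V.K x ∧
      angle (V.vec (V.e x)) (V.vec (V.g x)) = V.toSys.rho x := by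
    intro x hx
    by_cases hk : V.K x
    · refine ⟨hk, ?_⟩
      simp only [VSys.toSys, if_pos hk]
    · exfalso
      simp only [VSys.toSys, if_neg hk] at hx
      linarith
  -- the triangle of a composite element
  have hT : ∀ x, V.toSys.rho x < V.toSys.r1 →
      ‖V.vec (V.e x)‖ ≤ ‖V.vec (V.g x)‖ ∧
      ‖V.vec x‖ * Real.sin (angle (V.vec (V.e x)) (V.vec x)) =
        ‖V.vec (V.g x)‖ * Real.sin (V.toSys.rho x) ∧
      ‖V.vec x‖ * Real.sin (angle (V.vec (V.g x)) (V.vec x)) =
        ‖V.vec (V.e x)‖ * Real.sin (V.toSys.rho x) ∧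
      angle (V.vec (V.e x)) (V.vec x) + angle (V.vec (V.g x)) (V.vec x) = V.toSys.rho x ∧
      0 < angle (V.vec (V.e x)) (V.vec x) ∧ 0 < angle (V.vec (V.g x)) (V.vec x) ∧
      V.toSys.rho x < 1 / 100 := by
    intro x hx
    obtain ⟨hk, he⟩ := hK x hx
    have T := Vec.tri (h.np x hk)
    rw [← h.add x hk, he] at T
    have hx' : V.toSys.rho x < V.r1 := hx
    have Ta := T.a
    have Tb := T.b
    rw [← h.add x hk] at Ta Tb
    exact ⟨h.le x hk, sub_eq_zero.1 (abs_eq_zero.1 Ta), sub_eq_zero.1 (abs_eq_zero.1 Tb), T.sum,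
      T.apos, T.bpos, by linarith⟩
  have hX : ∀ x, 0 < ‖V.vec x‖ := fun x => norm_pos_iff.2 (hne x)
  refine
    { c0pos := h.c0pos
      r1pos := h.r1pos
      r1le := h.r1le
      lc := h.lc
      ln := h.ln
      rpos := ?_
      dself := fun x => angle_self (hne x)
      dsymm := fun x y => angle_comm _ _
      dtri := fun x y z => angle_le_angle_add_angle _ _ _
      le51 := ?_
      glt := ?_
      dlow := ?_
      dup := ?_
      dpart := ?_
      far := ?_ }
  · intro x
    by_cases hk : V.K x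
    · simp only [VSys.toSys, if_pos hk]
      exact (Vec.angle_pos (h.np x hk)).1
    · simp only [VSys.toSys, if_neg hk]
      norm_num
  · intro x hx
    obtain ⟨t1, t2, t3, t4, t5, t6, t7⟩ := hT x hx
    exact Vec.le51 (hX x) t2 t3 t4 t5 t6 t7 t1
  · intro x hx
    obtain ⟨t1, t2, t3, t4, t5, t6, t7⟩ := hT x hx
    exact Vec.glt (hX x) t2 t4 t5 t6 t7
  · intro x hx
    obtain ⟨t1, t2, t3, t4, t5, t6, t7⟩ := hT x hx
    have h1 := Vec.half (hX x) t2 t3 t4 t5 t6 (Or.inl (by linarith)) t1
    have h2 : 0 < V.toSys.rho x := by linarith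
    show 49 / 100 * V.toSys.rho x ≤ angle (V.vec (V.e x)) (V.vec x)
    linarith
  · intro x hx
    obtain ⟨t1, t2, t3, t4, t5, t6, t7⟩ := hT x hx
    have h2 : 0 < V.toSys.rho x := by linarith
    show angle (V.vec (V.e x)) (V.vec x) ≤ 101 / 100 * V.toSys.rho x
    linarith
  · intro x p hx hpp
    obtain ⟨t1, t2, t3, t4, t5, t6, t7⟩ := hT x hx
    rcases hpp with rfl | rfl
    · exact Vec.dpart (hX x) t3 t4 t5 t6 t7
    · exact Vec.dpart (hX x) t2 (by rw [add_comm]; exact t4) t6 t5 t7
  · intro x z hx h0 h1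
    obtain ⟨hk, he⟩ := hK x hx
    obtain ⟨t1, t2, t3, t4, t5, t6, t7⟩ := hT x hx
    have h0' : 0 < angle (V.vec (V.e x) + V.vec (V.g x)) (V.vec z) := by
      rw [← h.add x hk]; exact h0
    have h1' : angle (V.vec (V.e x) + V.vec (V.g x)) (V.vec z) < Real.pi / 2 := by
      rw [← h.add x hk]
      have h1'' : angle (V.vec x) (V.vec z) ≤ V.r1 := h1
      linarith
    have h2 := Vec.far (h.np x hk) (by rw [he]; linarith) (hne z) h0' h1'
    rw [← h.add x hk] at h2
    rcases h2 with h2 | h2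
    · exact ⟨V.e x, Or.inl rfl, h2⟩
    · exact ⟨V.g x, Or.inr rfl, h2⟩

/-- the height of the lowest vertex over a composite diagonal -/
theorem VAx.height {A : Type} {V : VSys A} (h : VAx V) (x : A) (hk : V.K x)
    (he : 0 < (V.vec (V.e x) * conj (V.vec x)).re) (hg : 0 < (V.vec (V.g x) * conj (V.vec x)).re) :
    V.toSys.rho x * ‖V.vec (V.e x)‖ ≤
      4 * (|(V.vec (V.e x) * conj (V.vec x)).im| / ‖V.vec x‖) := by
  classical
  have hp := Real.pi_gt_three
  have hp4 : Real.pi < 4 := by linarith [Real.pi_lt_d2]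
  have T := Vec.tri (h.np x hk)
  have hadd := h.add x hk
  rw [← hadd] at T
  have Ta := T.a
  have Tb := T.b
  rw [← hadd] at Ta Tb
  obtain ⟨ny, nz, nx⟩ := Vec.ne_of_cr (h.np x hk)
  rw [← hadd] at nx
  have hX := norm_pos_iff.2 nx
  have hY := norm_pos_iff.2 ny
  have hZ := norm_pos_iff.2 nz
  have hlt : ∀ p : ℂ, p ≠ 0 → 0 < (p * conj (V.vec x)).re → angle p (V.vec x) < Real.pi / 2 := by
    intro p hp0 hpp
    rw [← Vec.cos_re] at hpp
    have h1 : 0 < ‖p‖ * ‖V.vec x‖ := mul_pos (norm_pos_iff.2 hp0) hX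
    have h2 : 0 < Real.cos (angle p (V.vec x)) := pos_of_mul_pos_left hpp h1.le
    by_contra hc
    push Not at hc
    have h3 := Real.cos_nonpos_of_pi_div_two_le_of_le hc (by linarith [angle_le_pi p (V.vec x)])
    linarith
  have ha := hlt _ ny he
  have hb := hlt _ nz hg
  have h1 := Vec.half hX (sub_eq_zero.1 (abs_eq_zero.1 Ta)) (sub_eq_zero.1 (abs_eq_zero.1 Tb)) T.sum
    T.apos T.bpos (Or.inr ⟨ha, hb, T.rpi⟩) (h.le x hk)
  have hr : V.toSys.rho x = angle (V.vec (V.e x)) (V.vec (V.g x)) := by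
    simp only [VSys.toSys, if_pos hk]
  have h2 := Real.mul_le_sin (angle_nonneg (V.vec (V.e x)) (V.vec x)) ha.le
  have h3 := Vec.sin_cr (V.vec (V.e x)) (V.vec x)
  have h4 : |(V.vec (V.e x) * conj (V.vec x)).im| / ‖V.vec x‖ =
      Real.sin (angle (V.vec (V.e x)) (V.vec x)) * ‖V.vec (V.e x)‖ := by
    rw [← h3]
    field_simp
  rw [h4, hr]
  have h5 : angle (V.vec (V.e x)) (V.vec (V.g x)) ≤
      4 * Real.sin (angle (V.vec (V.e x)) (V.vec x)) := by
    have h6 : (1 / 2 : ℝ) ≤ 2 / Real.pi := by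
      rw [div_le_div_iff₀ (by norm_num) (by linarith)]
      linarith
    have h7 : 1 / 2 * angle (V.vec (V.e x)) (V.vec x) ≤
        2 / Real.pi * angle (V.vec (V.e x)) (V.vec x) :=
      mul_le_mul_of_nonneg_right h6 (angle_nonneg _ _)
    linarith
  calc angle (V.vec (V.e x)) (V.vec (V.g x)) * ‖V.vec (V.e x)‖
      ≤ (4 * Real.sin (angle (V.vec (V.e x)) (V.vec x))) * ‖V.vec (V.e x)‖ :=
        mul_le_mul_of_nonneg_right h5 hY.le
    _ = 4 * (Real.sin (angle (V.vec (V.e x)) (V.vec x)) * ‖V.vec (V.e x)‖) := by ring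

end Pool.Agent.BGD
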