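import Pool.Agent.BGD.Rooms
import Pool.Agent.BGD.Vec

/-!
# Polynomial bound for generalized diagonals: the finite type of lifted diagonals, statements (helper60)

A lifted diagonal is an `Obj` with a linear part `g` (the linear part of the frame of its start room).
`LA S N` is the finite type of the lifted diagonals of size at most `N`; it is closed under parts.
-/

set_option autoImplicit false

open scoped ComplexConjugate

namespace Pool.Agent.BGD

variable {S : Rooms}

/-- a diagonal candidate together with the linear part of the frame of its start room -/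
@[ext] structure Lift (S : Rooms) where
  g : Mot
  x : Obj S

/-- lifted diagonals of size at most `N` -/
structure InA (S : Rooms) (N : ℕ) (X : Lift S) : Prop where
  gd : X.x.GD
  lab : ∃ w : List S.D, X.g = (frame S w).lp ∧ w.length + X.x.ds.length ≤ N

/-- the type of the lifted diagonals of size at most `N` -/
abbrev LA (S : Rooms) (N : ℕ) : Type := {X : Lift S // InA S N X}

/-- the vector of a lifted diagonal in the absolute frame -/
noncomputable def Lift.vec (X : Lift S) : ℂ := X.g.lin X.x.hol

/-- `Y` (first) and `Z` (second) are the parts of `X` at the door end `q` -/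
def Parts (X Y Z : Lift S) (q : ℂ) : Prop :=
  ∃ a : List S.D, Split X.x q Y.x Z.x a ∧ Y.g = X.g ∧ Z.g = X.g * (frame S a).lp

/-- `x` has a door end closer than `r0` -/
def Low (S : Rooms) (r0 : ℝ) (x : Obj S) : Prop := ∃ q ∈ x.ends, |x.ht q| < r0

/-- the functions `e`, `g` (shorter, longer part) split every composite `X` at a lowest door end -/
def PSpec (S : Rooms) (N : ℕ) (r0 : ℝ) (e g : LA S N → LA S N) : Prop :=
  ∀ X : LA S N, Low S r0 X.1.x → ∃ q ∈ X.1.x.ends, (∀ q' ∈ X.1.x.ends, |X.1.x.ht q| ≤ |X.1.x.ht q'|) ∧
    |X.1.x.ht q| < r0 ∧ 0 < X.1.x.tm q ∧ X.1.x.tm q < ‖X.1.x.hol‖ ∧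
    (Parts X.1 (e X).1 (g X).1 q ∨ Parts X.1 (g X).1 (e X).1 q) ∧ ‖(e X).1.vec‖ ≤ ‖(g X).1.vec‖

/-- the system with vectors -/
noncomputable def VS (S : Rooms) (N : ℕ) (r0 c0 C1 r1 : ℝ) (e g : LA S N → LA S N) :
    VSys (LA S N) where
  vec X := X.1.vec
  e := e
  g := g
  K X := Low S r0 X.1.x
  c0 := c0
  n := C1 * (N + 1)
  r1 := r1

/-- (SPLIT, helper54) every diagonal splits at a lowest door end, if this end is low -/
def Stmt_SPLIT : Prop := ∀ S : Rooms, ∃ r0 : ℝ, 0 < r0 ∧ ∀ x : Obj S, x.GD → ∀ q ∈ x.ends,
  (∀ q' ∈ x.ends, |x.ht q| ≤ |x.ht q'|) → |x.ht q| < r0 →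
    (∃ y z a, Split x q y z a) ∧ 0 < x.tm q ∧ x.tm q < ‖x.hol‖

/-- (LEN) lengths of diagonals.

PROOF. Upper bound: `Dm` = largest distance of two vertices of a room. `‖p - B‖ ≤ Dm (k+1)` in the frame
of the first room for every vertex `p` of the first room, induction over the doors: `pa d` is a vertex of
`src d` and the image of `pa (inv d)` or `pb (inv d)`, vertices of the next room (`a_inv`, `b_inv`).
Lower bound: without doors: smallest distance of two different vertices of a room. With doors: the line
through the first door `d` has distance `≥ c > 0` from `A` (`side`: `A` is not an end of `d`, as the ends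
are strictly on the two sides of the line of `x`; finitely many pairs), and `Q` is on the other closed side
of it (crossing times are monotone, SLICE lemma of the block SPLIT of helper54; or by induction over the
doors: the rest of the corridor and the end vertex are beyond the line of `d`). -/
def Stmt_LEN : Prop := ∀ S : Rooms, ∃ c0 C1 : ℝ, 0 < c0 ∧ 0 < C1 ∧ ∀ x : Obj S, x.GD →
  c0 ≤ ‖x.hol‖ ∧ ‖x.hol‖ ≤ C1 * (x.ds.length + 1)

/-- (LAB) the number of linear parts of words of length at most `N`.

PROOF. `frame (d :: w) = M d * frame w`, so the linear part has `u = u_d * (u' or conj u')`. By induction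
`u = ∏_d (M d).u ^ (e d)` with integers `|e d| ≤ w.length` (`conj u = u⁻¹`), the flip is a `Bool`. So the
linear parts are in the image of `Bool × (D → {-N..N})`: at most `2 (2N+1)^(card D)`. -/
def Stmt_LAB : Prop := ∀ S : Rooms, ∃ C : ℝ, ∃ k : ℕ, 0 < C ∧ ∀ (N : ℕ) (s : Finset Mot),
  (∀ g ∈ s, ∃ w : List S.D, w.length ≤ N ∧ g = (frame S w).lp) → (s.card : ℝ) ≤ C * (N + 1) ^ k

/-- (CLR) the number of clear diagonals.

PROOF. `kap` = smallest distance of a vertex `p` of a room from the convex hull of the other vertices
(`> 0` by `extr`), `h ≤ kap` without restriction. Fix the start room and the start vertex. Two diagonals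
`x`, `x'` with `|ht_x q - ht_x' q| < h` for all `q` in the ball of radius `C1 (N+2)` around `A` are equal:
go forward door by door (helper92's ROOM lemma, PkA.lean): in a room both leave through the same door or
end in the same vertex. `|ht_x q - ht_x' q| ≤ ‖q - A‖ * ‖hol/‖hol‖ - hol'/‖hol'‖‖`, so it is enough that
the unit vectors are in the same square of size `h/(4 C1 (N+2))`: naively `C ((N+1)/h)^2` squares, which
is enough here. -/
def Stmt_CLR : Prop := ∀ S : Rooms, ∃ C : ℝ, 0 < C ∧ ∀ (N : ℕ) (h : ℝ), 0 < h → h ≤ 1 →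
  ∀ s : Finset (Obj S), (∀ x ∈ s, x.GD ∧ x.ds.length ≤ N ∧ x.Clear h) →
    (s.card : ℝ) ≤ C * ((N + 1) / h) ^ 2

/-- (PACK, helper82) the packing inequality for the system of the lifted diagonals, with an absolute
constant. `C` must not depend on `S`, `N`. -/
def Stmt_PACK : Prop := ∃ C : ℝ, 1 ≤ C ∧ ∀ S : Rooms, ∃ kap : ℝ, 0 < kap ∧
  ∀ r0 c0 C1 : ℝ, 0 < r0 → r0 ≤ kap → 0 < c0 → 0 < C1 → ∃ c1 : ℝ, 0 < c1 ∧
    ∀ (N : ℕ) (e g : LA S N → LA S N) (r1 : ℝ), 0 < r1 → r1 ≤ c1 / (N + 1) → PSpec S N r0 e g →
      VAx (VS S N r0 c0 C1 r1 e g) → Pack (VS S N r0 c0 C1 r1 e g).toSys C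

/-- the number of linear parts of words of length at most `N` is at most `CL (N+1)^k` -/
def LabBound (S : Rooms) (k : ℕ) : Prop := ∃ CL : ℝ, 0 < CL ∧ ∀ (N : ℕ) (s : Finset Mot),
  (∀ g ∈ s, ∃ w : List S.D, w.length ≤ N ∧ g = (frame S w).lp) → (s.card : ℝ) ≤ CL * (N + 1) ^ k

/-- the number of diagonals with at most `N` doors is polynomial in `N`, with exponent `2 k + d0`, `d0`
absolute, if the number of linear parts grows with exponent `k` -/
def Stmt_POLY : Prop := ∃ d0 : ℕ, ∀ (S : Rooms) (k : ℕ), LabBound S k → ∃ C : ℝ, 0 < C ∧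
  ∀ (N : ℕ) (s : Finset (Obj S)),
    (∀ x ∈ s, x.GD ∧ x.ds.length ≤ N) → (s.card : ℝ) ≤ C * (N + 1) ^ (2 * k + d0)

/-- (WRD) the number of door words is bounded by the number of diagonals.

PROOF. Let `w = d_0 .. d_(m+1)` be run through by the line `(p, v)`. In the frame of the first room let
`P_i` (above) and `Q_i` (below) be the ends of the door `i`; coordinates `(t, h)` along `v`. `P_i` and `Q_j`
do not all have the same abscissa: doors `0`, `1` are different edges of one room. Say `t(P_i) > t(Q_j)` for
some `i`, `j` (otherwise reflect `t`). `β* = min (h(P_i) - h(Q_j))/(t(P_i) - t(Q_j))` over these pairs is the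
largest slope of a line `L*` weakly between the `P`'s and the `Q`'s; `L*` touches some `Q` and some `P`, all
touched `Q`'s are before all touched `P`'s. `V1` = last touched `Q`, `V2` = first touched `P`, `j1` = last
index with `Q_j1 = V1`, `j2` = first index with `P_j2 = V2`. Crossing points of `L*` with the doors are in
order (slice lemma), so `j1 < j2` and the doors strictly between are crossed strictly: `x` = (room
`dst d_j1`, `V1`, `d_(j1+1) .. d_(j2-1)`, `V2`) is a `GD`. All lines obtained from `L*` by a small rotation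
which decreases the slope around a point strictly between `V1`, `V2` run through `w`. If `w'` of the same
length gives the same `x`, the same `j1`, the same type (max / min), then a common line runs through both
words, from the room `dst d_j1` on forwards and backwards; exits and entries of a convex room are unique:
`w = w'`. So at most `2 (m+2)` words per diagonal with at most `m` doors. -/
def Stmt_WRD : Prop := ∀ (S : Rooms) (m : ℕ) (G : ℝ),
  (∀ s : Finset (Obj S), (∀ x ∈ s, x.GD ∧ x.ds.length ≤ m) → (s.card : ℝ) ≤ G) →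
  ∀ s : Finset (List S.D), (∀ w ∈ s, w.length = m + 2 ∧ ∃ r p v, v ≠ 0 ∧ Run S r p v w) →
    (s.card : ℝ) ≤ 2 * (m + 2) * G

end Pool.Agent.BGD
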