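import Pool.Agent.BGD.StA
import Pool.Agent.BGD.Split3
import Pool.Agent.BGD.PkR

/-!
# Door words and diagonals: planar part (helper60)
-/

set_option autoImplicit false

open scoped ComplexConjugate

namespace Pool.Agent.BGD

namespace Wrd

/-- the extreme weakly separating line -/
theorem lp {ι : Type} [Fintype ι] (hP tP hQ tQ : ι → ℝ) (pP : ∀ i, 0 < hP i)
    (pQ : ∀ i, hQ i < 0) (hex : ∃ i j, tQ j < tP i) :
    ∃ i0 j0 β, 0 < β ∧ tQ j0 < tP i0 ∧ hP i0 - hQ j0 = β * (tP i0 - tQ j0) ∧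
      (∀ i, 0 ≤ hP i - hQ j0 - β * (tP i - tQ j0)) ∧
      (∀ j, hQ j - hQ j0 - β * (tQ j - tQ j0) ≤ 0) ∧
      (∀ i, hP i - hQ j0 - β * (tP i - tQ j0) = 0 → tP i0 ≤ tP i) ∧
      (∀ j, hQ j - hQ j0 - β * (tQ j - tQ j0) = 0 → tQ j ≤ tQ j0) := by
  classical
  obtain ⟨i', j', hij⟩ := hex
  have hne : (Finset.univ.filter fun z : ι × ι => tQ z.2 < tP z.1).Nonempty :=
    ⟨(i', j'), by simpa using hij⟩
  obtain ⟨⟨i1, j1⟩, h1, hmin⟩ := Finset.exists_min_image _
    (fun z : ι × ι => (hP z.1 - hQ z.2) / (tP z.1 - tQ z.2)) hne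
  simp only [Finset.mem_filter, Finset.mem_univ, true_and, Prod.forall] at h1 hmin
  set β := (hP i1 - hQ j1) / (tP i1 - tQ j1) with hβ
  have hd : 0 < tP i1 - tQ j1 := by linarith
  have hβ0 : 0 < β := div_pos (by linarith [pP i1, pQ j1]) hd
  have e1 : hP i1 - hQ j1 = β * (tP i1 - tQ j1) := by rw [hβ]; field_simp
  have key : ∀ i j, β * (tP i - tQ j) ≤ hP i - hQ j := by
    intro i j
    rcases lt_or_ge (tQ j) (tP i) with h | h
    · have h2 := hmin i j h
      have h3 : 0 < tP i - tQ j := by linarith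
      rwa [le_div_iff₀ h3] at h2
    · have h2 : β * (tP i - tQ j) ≤ 0 := mul_nonpos_of_nonneg_of_nonpos hβ0.le (by linarith)
      linarith [pP i, pQ j]
  -- the touched points
  have hneP : (Finset.univ.filter fun i : ι => hP i - hQ j1 - β * (tP i - tQ j1) = 0).Nonempty :=
    ⟨i1, by simp only [Finset.mem_filter, Finset.mem_univ, true_and]; linarith⟩
  have hneQ : (Finset.univ.filter fun j : ι => hQ j - hQ j1 - β * (tQ j - tQ j1) = 0).Nonempty :=
    ⟨j1, by simp⟩
  obtain ⟨i0, hi0, hi0m⟩ := Finset.exists_min_image _ tP hneP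
  obtain ⟨j0, hj0, hj0m⟩ := Finset.exists_max_image _ tQ hneQ
  simp only [Finset.mem_filter, Finset.mem_univ, true_and] at hi0 hi0m hj0 hj0m
  have e2 : hP i0 - hQ j0 = β * (tP i0 - tQ j0) := by linarith
  refine ⟨i0, j0, β, hβ0, ?_, e2, ?_, ?_, ?_, ?_⟩
  · have h3 : 0 < β * (tP i0 - tQ j0) := by rw [← e2]; linarith [pP i0, pQ j0]
    have := (mul_pos_iff_of_pos_left hβ0).1 h3
    linarith
  · intro i
    have := key i j0
    linarith
  · intro j
    have := key i0 j
    linarith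
  · intro i hi
    exact hi0m i (by linarith)
  · intro j hj
    exact hj0m j (by linarith)

theorem cx_id (v a z : ℂ) : ‖v‖ ^ 2 * cx a z = dt v a * cx v z - cx v a * dt v z := by
  rw [Spl.norm_sq']
  simp only [cx, dt]
  ring

theorem dt_id (v a z : ℂ) : ‖v‖ ^ 2 * dt a z = dt v a * dt v z + cx v a * cx v z := by
  rw [Spl.norm_sq']
  simp only [cx, dt]
  ring

theorem dt_sub' (v a b : ℂ) : dt v (a - b) = dt v a - dt v b := by
  simp only [dt, Complex.sub_re, Complex.sub_im]; ring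

theorem cx_sub' (v a b : ℂ) : cx v (a - b) = cx v a - cx v b := by
  simp only [cx, Complex.sub_re, Complex.sub_im]; ring

/-- the extreme line, in the plane -/
theorem ext_pts {ι : Type} [Fintype ι] (U W : ι → ℂ) (p v : ℂ) (hv : v ≠ 0) (s : ℝ)
    (hs : s = 1 ∨ s = -1) (hU : ∀ i, 0 < s * cx v (U i - p)) (hW : ∀ i, s * cx v (W i - p) < 0)
    (hex : ∃ i j, dt v (W j - p) < dt v (U i - p)) :
    ∃ i0 j0, U i0 ≠ W j0 ∧ (∀ i, 0 ≤ s * cx (U i0 - W j0) (U i - W j0)) ∧
      (∀ i, s * cx (U i0 - W j0) (W i - W j0) ≤ 0) ∧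
      (∀ i, cx (U i0 - W j0) (U i - W j0) = 0 → 0 ≤ dt (U i0 - W j0) (U i - U i0)) ∧
      (∀ i, cx (U i0 - W j0) (W i - W j0) = 0 → dt (U i0 - W j0) (W i - W j0) ≤ 0) := by
  have hs2 : s * s = 1 := by rcases hs with h | h <;> rw [h] <;> norm_num
  have hs0 : s ≠ 0 := by intro h; rw [h] at hs2; norm_num at hs2
  obtain ⟨i0, j0, β, hβ, hlt, e0, hP, hQ, tP, tQ⟩ := lp (fun i => s * cx v (U i - p))
    (fun i => dt v (U i - p)) (fun i => s * cx v (W i - p)) (fun i => dt v (W i - p)) hU hW hex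
  set V1 := W j0 with hV1
  set V2 := U i0 with hV2
  have hN : 0 < ‖v‖ ^ 2 := by
    have := norm_pos_iff.2 hv
    positivity
  set T := dt v (V2 - p) - dt v (V1 - p) with hT
  have hT0 : 0 < T := by rw [hT]; linarith
  have ea : dt v (V2 - V1) = T := by
    rw [hT, ← dt_sub']; congr 1; ring
  have eb : s * cx v (V2 - V1) = β * T := by
    have : cx v (V2 - V1) = cx v (V2 - p) - cx v (V1 - p) := by rw [← cx_sub']; congr 1; ring
    rw [this, mul_sub]; exact e0
  have eb' : cx v (V2 - V1) = s * (β * T) := by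
    rw [← eb, ← mul_assoc, hs2, one_mul]
  -- the coordinates of a point
  have kc : ∀ z : ℂ, ‖v‖ ^ 2 * (s * cx (V2 - V1) (z - V1)) =
      T * (s * cx v (z - p) - s * cx v (V1 - p) - β * (dt v (z - p) - dt v (V1 - p))) := by
    intro z
    have h1 := cx_id v (V2 - V1) (z - V1)
    have h2 : cx v (z - V1) = cx v (z - p) - cx v (V1 - p) := by rw [← cx_sub']; congr 1; ring
    have h3 : dt v (z - V1) = dt v (z - p) - dt v (V1 - p) := by rw [← dt_sub']; congr 1; ring
    rw [ea, eb', h2, h3] at h1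
    calc ‖v‖ ^ 2 * (s * cx (V2 - V1) (z - V1)) = s * (‖v‖ ^ 2 * cx (V2 - V1) (z - V1)) := by ring
      _ = s * (T * (cx v (z - p) - cx v (V1 - p)) -
            s * (β * T) * (dt v (z - p) - dt v (V1 - p))) := by rw [h1]
      _ = T * (s * cx v (z - p) - s * cx v (V1 - p)) -
            (s * s) * (β * T) * (dt v (z - p) - dt v (V1 - p)) := by ring
      _ = _ := by rw [hs2]; ring
  have kd : ∀ z w : ℂ, cx (V2 - V1) (z - V1) = 0 → cx (V2 - V1) (w - V1) = 0 →
      ‖v‖ ^ 2 * dt (V2 - V1) (z - w) = T * (1 + β ^ 2) * (dt v (z - p) - dt v (w - p)) := by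
    intro z w hz hw
    have z1 := kc z
    have w1 := kc w
    rw [hz, mul_zero, mul_zero] at z1
    rw [hw, mul_zero, mul_zero] at w1
    have z2 := (mul_eq_zero.1 z1.symm).resolve_left hT0.ne'
    have w2 := (mul_eq_zero.1 w1.symm).resolve_left hT0.ne'
    have h1 := dt_id v (V2 - V1) (z - w)
    have h2 : cx v (z - w) = cx v (z - p) - cx v (w - p) := by rw [← cx_sub']; congr 1; ring
    have h3 : dt v (z - w) = dt v (z - p) - dt v (w - p) := by rw [← dt_sub']; congr 1; ring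
    have h4 : s * (cx v (z - p) - cx v (w - p)) = β * (dt v (z - p) - dt v (w - p)) := by
      linarith
    rw [h1, ea, eb', h2, h3]
    calc T * (dt v (z - p) - dt v (w - p)) + s * (β * T) * (cx v (z - p) - cx v (w - p)) =
        T * (dt v (z - p) - dt v (w - p)) + β * T * (s * (cx v (z - p) - cx v (w - p))) := by ring
      _ = _ := by rw [h4]; ring
  have zV1 : cx (V2 - V1) (V1 - V1) = 0 := by simp [cx]
  have zV2 : cx (V2 - V1) (V2 - V1) = 0 := by simp [cx]; ring
  refine ⟨i0, j0, ?_, ?_, ?_, ?_, ?_⟩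
  · intro h
    have : T = 0 := by rw [← ea, hV1, hV2, h]; simp [dt]
    linarith
  · intro i
    have h1 := kc (U i)
    have h2 := mul_nonneg hT0.le (hP i)
    rw [← h1] at h2
    exact nonneg_of_mul_nonneg_right h2 hN
  · intro i
    have h1 := kc (W i)
    have h2 := mul_nonpos_of_nonneg_of_nonpos hT0.le (hQ i)
    rw [← h1] at h2
    by_contra hc
    push Not at hc
    have := mul_pos hN hc
    linarith
  · intro i hi
    have h1 := kd (U i) V2 hi zV2
    have h0 := kc (U i)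
    rw [hi, mul_zero, mul_zero] at h0
    have h2 := tP i ((mul_eq_zero.1 h0.symm).resolve_left hT0.ne')
    have h3 : 0 ≤ T * (1 + β ^ 2) * (dt v (U i - p) - dt v (V2 - p)) := by
      apply mul_nonneg (by positivity)
      linarith
    rw [← h1] at h3
    exact nonneg_of_mul_nonneg_right h3 hN
  · intro i hi
    have h1 := kd (W i) V1 hi zV1
    have h0 := kc (W i)
    rw [hi, mul_zero, mul_zero] at h0
    have h2 := tQ i ((mul_eq_zero.1 h0.symm).resolve_left hT0.ne')
    have h3 : T * (1 + β ^ 2) * (dt v (W i - p) - dt v (V1 - p)) ≤ 0 := by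
      apply mul_nonpos_of_nonneg_of_nonpos (by positivity)
      linarith
    rw [← h1] at h3
    by_contra hc
    push Not at hc
    have := mul_pos hN hc
    linarith

/-- small perturbations of the extreme line -/
theorem pert {ι : Type} [Fintype ι] (f g : ι → ℝ) (κ : ℝ) (h0 : ∀ i, 0 ≤ f i)
    (h1 : ∀ i, f i = 0 → κ ≤ g i) :
    ∃ ε0 : ℝ, 0 < ε0 ∧ ∀ ε, 0 < ε → ε ≤ ε0 → ∀ i, ε * κ ≤ f i + ε * g i := by
  have key : ∀ i, ∃ e : ℝ, 0 < e ∧ ∀ ε, 0 < ε → ε ≤ e → ε * κ ≤ f i + ε * g i := by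
    intro i
    rcases (h0 i).eq_or_lt with h | h
    · refine ⟨1, one_pos, fun ε he _ => ?_⟩
      rw [← h, zero_add]
      exact mul_le_mul_of_nonneg_left (h1 i h.symm) he.le
    · refine ⟨f i / (|κ - g i| + 1), by positivity, fun ε he hle => ?_⟩
      rw [le_div_iff₀ (by positivity)] at hle
      have h2 := le_abs_self (κ - g i)
      have h3 : ε * (κ - g i) ≤ ε * (|κ - g i| + 1) := mul_le_mul_of_nonneg_left (by linarith) he.le
      linarith
  choose e he hle using key
  obtain ⟨ε0, h2, h3⟩ := Spl.exists_pos_lb Finset.univ e (fun i _ => he i)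
  exact ⟨ε0, h2, fun ε h4 h5 i => hle i ε h4 (h5.trans (h3 i (Finset.mem_univ _)))⟩

/-- a segment from the left to the right of a door crosses it -/
theorem cross2 {v A P Q E F : ℂ}
    (hP : 0 < cx v (P - A)) (hQ : cx v (Q - A) < 0)
    (hE : 0 < cx (P - Q) (E - Q)) (hF : cx (P - Q) (F - Q) < 0)
    (hE1 : cx v (Q - A) ≤ cx v (E - A)) (hE2 : cx v (E - A) ≤ cx v (P - A))
    (hF1 : cx v (Q - A) ≤ cx v (F - A)) (hF2 : cx v (F - A) ≤ cx v (P - A))
    (h1 : cx v (E - A) < cx v (P - A) ∨ cx v (F - A) < cx v (P - A))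
    (h2 : cx v (Q - A) < cx v (E - A) ∨ cx v (Q - A) < cx v (F - A)) :
    0 < cx (F - E) (P - E) ∧ cx (F - E) (Q - E) < 0 := by
  have k1 : (cx v (P - A) - cx v (Q - A)) * cx (F - E) (P - E) =
      cx (P - Q) (E - Q) * (cx v (P - A) - cx v (F - A)) +
      -cx (P - Q) (F - Q) * (cx v (P - A) - cx v (E - A)) := by
    simp only [cx, Complex.sub_re, Complex.sub_im]
    ring
  have k2 : (cx v (P - A) - cx v (Q - A)) * cx (F - E) (Q - E) =
      -(cx (P - Q) (E - Q) * (cx v (F - A) - cx v (Q - A)) +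
      -cx (P - Q) (F - Q) * (cx v (E - A) - cx v (Q - A))) := by
    simp only [cx, Complex.sub_re, Complex.sub_im]
    ring
  have a1 : 0 ≤ cx (P - Q) (E - Q) * (cx v (P - A) - cx v (F - A)) :=
    mul_nonneg hE.le (by linarith)
  have a2 : 0 ≤ -cx (P - Q) (F - Q) * (cx v (P - A) - cx v (E - A)) :=
    mul_nonneg (by linarith) (by linarith)
  have a3 : 0 ≤ cx (P - Q) (E - Q) * (cx v (F - A) - cx v (Q - A)) :=
    mul_nonneg hE.le (by linarith)
  have a4 : 0 ≤ -cx (P - Q) (F - Q) * (cx v (E - A) - cx v (Q - A)) :=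
    mul_nonneg (by linarith) (by linarith)
  have s1 : 0 < (cx v (P - A) - cx v (Q - A)) * cx (F - E) (P - E) := by
    rw [k1]
    rcases h1 with h0 | h0
    · have : 0 < -cx (P - Q) (F - Q) * (cx v (P - A) - cx v (E - A)) :=
        mul_pos (by linarith) (by linarith)
      linarith
    · have : 0 < cx (P - Q) (E - Q) * (cx v (P - A) - cx v (F - A)) :=
        mul_pos hE (by linarith)
      linarith
  have s2 : (cx v (P - A) - cx v (Q - A)) * cx (F - E) (Q - E) < 0 := by
    rw [k2]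
    rcases h2 with h0 | h0
    · have : 0 < -cx (P - Q) (F - Q) * (cx v (E - A) - cx v (Q - A)) :=
        mul_pos (by linarith) (by linarith)
      linarith
    · have : 0 < cx (P - Q) (E - Q) * (cx v (F - A) - cx v (Q - A)) :=
        mul_pos hE (by linarith)
      linarith
  have hd : 0 < cx v (P - A) - cx v (Q - A) := by linarith
  refine ⟨?_, ?_⟩
  · by_contra hcon
    have := mul_nonpos_of_nonneg_of_nonpos hd.le (not_lt.1 hcon)
    linarith
  · by_contra hcon
    have := mul_nonneg hd.le (not_lt.1 hcon)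
    linarith

/-- the perturbed direction -/
noncomputable def dir (a : ℂ) (σ ε : ℝ) : ℂ := a * (1 - (σ * ε : ℝ) * Complex.I)

theorem cx_dir (a z : ℂ) (σ ε : ℝ) : cx (dir a σ ε) z = cx a z + ε * (σ * dt a z) := by
  simp only [cx, dt, dir, Complex.mul_re, Complex.mul_im, Complex.sub_re, Complex.sub_im,
    Complex.one_re, Complex.one_im, Complex.I_re, Complex.I_im, Complex.ofReal_re,
    Complex.ofReal_im]
  ring

end Wrd

end Pool.Agent.BGD
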