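import Pool.Agent.BGD.WRD1
import Pool.Agent.BGD.Att

/-!
# Door words and diagonals: the diagonal of a word (helper60)
-/

set_option autoImplicit false

open scoped ComplexConjugate

namespace Pool.Agent.BGD

variable {S : Rooms}

namespace Wrd

open Spl

/-- two runs of one line with the same number of doors are equal -/
theorem run_eq {r : S.R} {p v : ℂ} {a b : List S.D} (ha : Run S r p v a) (hb : Run S r p v b)
    (hl : a.length = b.length) : a = b := by
  induction a generalizing r p v b with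
  | nil => exact (List.length_eq_zero_iff.1 hl.symm).symm
  | cons d a ih =>
    cases b with
    | nil => simp at hl
    | cons d' b =>
      obtain ⟨h1, h2, h3, h4⟩ := ha
      obtain ⟨h1', h2', h3', h4'⟩ := hb
      have hd : d = d' := Pk.exit_unique (h1.trans h1'.symm) h2 h3 h2' h3'
      subst hd
      rw [ih h4 h4' (by simpa using hl)]

/-- `z` is an end of the door `i` -/
def IsEnd (w : List S.D) (i : ℕ) (z : ℂ) : Prop := ∃ h : i < w.length, z = up w i h ∨ z = dn w i h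

theorem IsEnd.lt {w : List S.D} {i : ℕ} {z : ℂ} (h : IsEnd w i z) : i < w.length := h.1

theorem IsEnd.mem {r : S.R} {w : List S.D} (hf : Fit r w) {i : ℕ} {z : ℂ} (h : IsEnd w i z) :
    z ∈ Vx r w i := by
  obtain ⟨hi, h | h⟩ := h
  · rw [h]; exact up_mem r w i hi hf
  · rw [h]; exact dn_mem r w i hi hf

theorem IsEnd.mem' {r : S.R} {w : List S.D} {i : ℕ} {z : ℂ} (h : IsEnd w i z) :
    z ∈ Vx r w (i + 1) := by
  obtain ⟨hi, h | h⟩ := h
  · rw [h]; exact up_mem' r w i hi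
  · rw [h]; exact dn_mem' r w i hi

theorem last_end {w : List S.D} {z : ℂ} (h : ∃ i, IsEnd w i z) :
    ∃ j, IsEnd w j z ∧ ∀ i, j < i → ¬ IsEnd w i z := by
  classical
  obtain ⟨j, hj⟩ := h
  have hne : ((Finset.range w.length).filter fun i => IsEnd w i z).Nonempty :=
    ⟨j, Finset.mem_filter.2 ⟨Finset.mem_range.2 hj.lt, hj⟩⟩
  refine ⟨_, (Finset.mem_filter.1 (Finset.max'_mem _ hne)).2, fun i hi hIs => ?_⟩
  have h2 := Finset.le_max' ((Finset.range w.length).filter fun i => IsEnd w i z) i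
    (Finset.mem_filter.2 ⟨Finset.mem_range.2 hIs.lt, hIs⟩)
  omega

theorem first_end {w : List S.D} {z : ℂ} (h : ∃ i, IsEnd w i z) :
    ∃ j, IsEnd w j z ∧ ∀ i < j, ¬ IsEnd w i z := by
  classical
  exact ⟨Nat.find h, Nat.find_spec h, fun i hi => Nat.find_min h hi⟩

/-- a point in the range of all doors which is an end of the door `j` is an end of, or strictly on
the left of, all later doors -/
theorem weak_all {r0 : ℝ} (h0 : 0 < r0) (hr : R0 S r0) {r : S.R} {w : List S.D} (hf : Fit r w)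
    {A v : ℂ} (hp : ∀ i (h : i < w.length), Ps w A v i h) {z : ℂ} (hz : Rng w A v z) {j : ℕ}
    (hj : IsEnd w j z) : ∀ i (h : i < w.length), j ≤ i → IsEnd w i z ∨
      0 < cx (up w i h - dn w i h) (z - dn w i h) := by
  intro i h hji
  induction i, hji using Nat.le_induction with
  | base => exact Or.inl hj
  | succ i hji ih =>
    have hi : i < w.length := by omega
    rcases ih hi with h1 | h1
    · by_cases h2 : IsEnd w (i + 1) z
      · exact Or.inl h2
      · right
        exact left_all h0 hr hf hp hz (i + 1) h h1.mem' (fun he => h2 ⟨h, Or.inl he⟩)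
          (fun he => h2 ⟨h, Or.inr he⟩) (i + 1) h le_rfl
    · right
      exact prop_left (hp i hi).1 (hp i hi).2 (hp (i + 1) h).1 (hp (i + 1) h).2
        (weak_left h0 hr hf (i + 1) h (up_mem' r w i hi))
        (weak_left h0 hr hf (i + 1) h (dn_mem' r w i hi)) h1 (hz i hi).1 (hz i hi).2

/-- an extreme line of the doors `w` -/
structure Ext (w : List S.D) (V1 V2 : ℂ) (σ : ℝ) : Prop where
  ne : V2 ≠ V1
  s1 : σ = 1 ∨ σ = -1
  e1 : ∃ i, IsEnd w i V1
  e2 : ∃ i, IsEnd w i V2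
  u0 : ∀ i (h : i < w.length), 0 ≤ cx (V2 - V1) (up w i h - V1)
  d0 : ∀ i (h : i < w.length), cx (V2 - V1) (dn w i h - V1) ≤ 0
  u1 : ∀ i (h : i < w.length), cx (V2 - V1) (up w i h - V1) = 0 →
    dt (V2 - V1) (V2 - V1) / 2 ≤ σ * dt (V2 - V1) (up w i h - (V1 + V2) / 2)
  d1 : ∀ i (h : i < w.length), cx (V2 - V1) (dn w i h - V1) = 0 →
    dt (V2 - V1) (V2 - V1) / 2 ≤ -(σ * dt (V2 - V1) (dn w i h - (V1 + V2) / 2))

theorem dt_mid1 (a b z : ℂ) : dt (b - a) (z - (a + b) / 2) =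
    dt (b - a) (z - b) + dt (b - a) (b - a) / 2 := by
  simp only [dt, Complex.sub_re, Complex.sub_im, Complex.div_ofNat_re, Complex.div_ofNat_im,
    Complex.add_re, Complex.add_im]
  ring

theorem dt_mid2 (a b z : ℂ) : dt (b - a) (z - (a + b) / 2) =
    dt (b - a) (z - a) - dt (b - a) (b - a) / 2 := by
  simp only [dt, Complex.sub_re, Complex.sub_im, Complex.div_ofNat_re, Complex.div_ofNat_im,
    Complex.add_re, Complex.add_im]
  ring

theorem cx_mid (a b z : ℂ) : cx (b - a) (z - (a + b) / 2) = cx (b - a) (z - a) := by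
  simp only [cx, Complex.sub_re, Complex.sub_im, Complex.div_ofNat_re, Complex.div_ofNat_im,
    Complex.add_re, Complex.add_im]
  ring

/-- the extreme line exists if not all ends have the same abscissa -/
theorem exists_ext {w : List S.D} {p v : ℂ} (hp : ∀ i (h : i < w.length), Ps w p v i h)
    (hex : ∃ i j, ∃ (hi : i < w.length) (hj : j < w.length),
      dt v (up w i hi - p) ≠ dt v (dn w j hj - p)) : ∃ V1 V2 σ, Ext w V1 V2 σ := by
  have hv : v ≠ 0 := by
    rintro rfl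
    obtain ⟨i, j, hi, hj, h⟩ := hex
    apply h
    simp [dt]
  let U : Fin w.length → ℂ := fun i => up w i.1 i.2
  let W : Fin w.length → ℂ := fun i => dn w i.1 i.2
  by_cases hc : ∃ i j : Fin w.length, dt v (W j - p) < dt v (U i - p)
  · obtain ⟨i0, j0, hne, c1, c2, c3, c4⟩ := ext_pts U W p v hv 1 (Or.inl rfl)
      (fun i => by rw [one_mul]; exact (hp i.1 i.2).1) (fun i => by rw [one_mul]; exact (hp i.1 i.2).2) hc
    simp only [one_mul] at c1 c2
    refine ⟨W j0, U i0, 1, hne, Or.inl rfl, ⟨j0.1, j0.2, Or.inr rfl⟩, ⟨i0.1, i0.2, Or.inl rfl⟩,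
      fun i h => c1 ⟨i, h⟩, fun i h => c2 ⟨i, h⟩, fun i h hz => ?_, fun i h hz => ?_⟩
    · have := c3 ⟨i, h⟩ hz
      rw [one_mul, dt_mid1]
      linarith
    · have := c4 ⟨i, h⟩ hz
      rw [one_mul, dt_mid2]
      linarith
  · have hc' : ∃ i j : Fin w.length, dt v (U j - p) < dt v (W i - p) := by
      push Not at hc
      obtain ⟨i, j, hi, hj, h⟩ := hex
      refine ⟨⟨j, hj⟩, ⟨i, hi⟩, lt_of_le_of_ne (hc ⟨i, hi⟩ ⟨j, hj⟩) h⟩
    obtain ⟨i0, j0, hne, c1, c2, c3, c4⟩ := ext_pts W U p v hv (-1) (Or.inr rfl)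
      (fun i => by have := (hp i.1 i.2).2; show 0 < -1 * cx v (dn w i.1 i.2 - p); linarith)
      (fun i => by have := (hp i.1 i.2).1; show -1 * cx v (up w i.1 i.2 - p) < 0; linarith) hc'
    refine ⟨U j0, W i0, -1, hne, Or.inr rfl, ⟨j0.1, j0.2, Or.inl rfl⟩, ⟨i0.1, i0.2, Or.inr rfl⟩,
      fun i h => ?_, fun i h => ?_, fun i h hz => ?_, fun i h hz => ?_⟩
    · have := c2 ⟨i, h⟩
      linarith
    · have := c1 ⟨i, h⟩
      linarith
    · have := c4 ⟨i, h⟩ hz
      rw [dt_mid2]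
      linarith
    · have := c3 ⟨i, h⟩ hz
      rw [dt_mid1]
      linarith

/-- two doors are never on one line perpendicular to the line which crosses them -/
theorem not_all_same {r : S.R} {w : List S.D} {p v : ℂ} (h : Run S r p v w) (hl : 2 ≤ w.length) :
    ∃ i j, ∃ (hi : i < w.length) (hj : j < w.length),
      dt v (up w i hi - p) ≠ dt v (dn w j hj - p) := by
  classical
  obtain ⟨r0, h0, hr⟩ := exists_r0 S
  obtain ⟨hf, hp⟩ := run_conds h
  by_contra hcon
  push Not at hcon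
  have hi0 : 0 < w.length := by omega
  have hi1 : 1 < w.length := by omega
  have e00 := hcon 0 0 hi0 hi0
  have e01 := hcon 0 1 hi0 hi1
  have e10 := hcon 1 0 hi1 hi0
  have hv : v ≠ 0 := by
    rintro rfl
    have := (hp 0 hi0).1
    simp [cx] at this
  have hN : 0 < ‖v‖ ^ 2 := by
    have := norm_pos_iff.2 hv
    positivity
  -- collinear points
  have col : ∀ z : ℂ, dt v (z - p) = dt v (dn w 0 hi0 - p) →
      cx (up w 0 hi0 - dn w 0 hi0) (z - dn w 0 hi0) = 0 := by
    intro z hz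
    have h1 := cx_id v (up w 0 hi0 - dn w 0 hi0) (z - dn w 0 hi0)
    have h2 : dt v (up w 0 hi0 - dn w 0 hi0) = 0 := by
      have : dt v (up w 0 hi0 - dn w 0 hi0) = dt v (up w 0 hi0 - p) - dt v (dn w 0 hi0 - p) := by
        rw [← dt_sub']; congr 1; ring
      rw [this, e00, sub_self]
    have h3 : dt v (z - dn w 0 hi0) = 0 := by
      have : dt v (z - dn w 0 hi0) = dt v (z - p) - dt v (dn w 0 hi0 - p) := by
        rw [← dt_sub']; congr 1; ring
      rw [this, hz, sub_self]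
    rw [h2, h3, zero_mul, mul_zero, sub_zero] at h1
    exact (mul_eq_zero.1 h1).resolve_left hN.ne'
  have hnorm := norm_ud_pos (hp 0 hi0)
  have mem1 : ∀ z : ℂ, z ∈ Vx r w 1 → dt v (z - p) = dt v (dn w 0 hi0 - p) →
      z = up w 0 hi0 ∨ z = dn w 0 hi0 := by
    intro z hz hzz
    by_contra hc
    push Not at hc
    have h1 := right_of hr r w 0 hi0 hz hc.1 hc.2
    rw [col z hzz] at h1
    have : 0 < r0 * ‖up w 0 hi0 - dn w 0 hi0‖ := by positivity
    linarith
  have hu1 := mem1 _ (up_mem r w 1 hi1 hf) e10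
  have hd1 := mem1 _ (dn_mem r w 1 hi1 hf) (by rw [← e01, e00])
  have eu : up w 1 hi1 = up w 0 hi0 := by
    rcases hu1 with h1 | h1
    · exact h1
    · exfalso
      have h2 := (hp 1 hi1).1
      rw [h1] at h2
      linarith [(hp 0 hi0).2]
  have ed : dn w 1 hi1 = dn w 0 hi0 := by
    rcases hd1 with h1 | h1
    · exfalso
      have h2 := (hp 1 hi1).2
      rw [h1] at h2
      linarith [(hp 0 hi0).1]
    · exact h1
  -- a third vertex of the room
  obtain ⟨z, hz, hz1, hz2⟩ : ∃ z ∈ Vx r w 1, z ≠ up w 0 hi0 ∧ z ≠ dn w 0 hi0 := by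
    by_contra hcon2
    push Not at hcon2
    have h3 := S.three (endR S r (w.take 1))
    have hsub : (S.V (endR S r (w.take 1))).image (fun q => (frame S (w.take 1)).ap q) ⊆
        {up w 0 hi0, dn w 0 hi0} := by
      intro z hz
      rw [Finset.mem_image] at hz
      obtain ⟨q, hq, rfl⟩ := hz
      rw [Finset.mem_insert, Finset.mem_singleton]
      by_cases h4 : (frame S (w.take 1)).ap q = up w 0 hi0
      · exact Or.inl h4
      · exact Or.inr (hcon2 _ ⟨q, hq, rfl⟩ h4)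
    have h4 := Finset.card_le_card hsub
    rw [Finset.card_image_of_injective _ (fun a b hab => ap_inj _ hab)] at h4
    have h5 : ({up w 0 hi0, dn w 0 hi0} : Finset ℂ).card ≤ 2 := Finset.card_le_two
    omega
  have h6 := right_of hr r w 0 hi0 hz hz1 hz2
  have h7 := left_of hr r w 1 hi1 hf hz (by rw [eu]; exact hz1) (by rw [ed]; exact hz2)
  rw [eu, ed] at h7
  have : 0 < r0 * ‖up w 0 hi0 - dn w 0 hi0‖ := by positivity
  linarith

/-- the perturbed extreme line passes all doors -/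
theorem ext_pert {w : List S.D} {V1 V2 : ℂ} {σ : ℝ} (h : Ext w V1 V2 σ) :
    ∃ ε0 : ℝ, 0 < ε0 ∧ ∀ ε, 0 < ε → ε ≤ ε0 →
      (∀ i (hi : i < w.length), Ps w ((V1 + V2) / 2) (dir (V2 - V1) σ ε) i hi) ∧
      Rng w ((V1 + V2) / 2) (dir (V2 - V1) σ ε) V1 ∧
      Rng w ((V1 + V2) / 2) (dir (V2 - V1) σ ε) V2 ∧
      cx (dir (V2 - V1) σ ε) (V1 - (V1 + V2) / 2) * cx (dir (V2 - V1) σ ε) (V2 - (V1 + V2) / 2)
        < 0 := by
  set κ := dt (V2 - V1) (V2 - V1) / 2 with hκ
  have hκ0 : 0 < κ := by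
    rw [hκ, dt_self]
    have := norm_pos_iff.2 (sub_ne_zero.2 h.ne)
    positivity
  obtain ⟨e1, he1, hu⟩ := pert (fun i : Fin w.length => cx (V2 - V1) (up w i.1 i.2 - V1))
    (fun i => σ * dt (V2 - V1) (up w i.1 i.2 - (V1 + V2) / 2)) κ (fun i => h.u0 i.1 i.2)
    (fun i hi => h.u1 i.1 i.2 hi)
  obtain ⟨e2, he2, hd⟩ := pert (fun i : Fin w.length => -cx (V2 - V1) (dn w i.1 i.2 - V1))
    (fun i => -(σ * dt (V2 - V1) (dn w i.1 i.2 - (V1 + V2) / 2))) κ
    (fun i => by have := h.d0 i.1 i.2; linarith)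
    (fun i hi => h.d1 i.1 i.2 (by linarith))
  refine ⟨min e1 e2, lt_min he1 he2, fun ε hε hle => ?_⟩
  have hu' : ∀ i (hi : i < w.length), ε * κ ≤
      cx (dir (V2 - V1) σ ε) (up w i hi - (V1 + V2) / 2) := by
    intro i hi
    rw [cx_dir, cx_mid]
    exact hu ε hε (hle.trans (min_le_left _ _)) ⟨i, hi⟩
  have hd' : ∀ i (hi : i < w.length),
      cx (dir (V2 - V1) σ ε) (dn w i hi - (V1 + V2) / 2) ≤ -(ε * κ) := by
    intro i hi
    rw [cx_dir, cx_mid]
    have := hd ε hε (hle.trans (min_le_right _ _)) ⟨i, hi⟩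
    linarith
  have c1 : cx (dir (V2 - V1) σ ε) (V1 - (V1 + V2) / 2) = -(ε * (σ * κ)) := by
    rw [cx_dir, cx_mid, dt_mid2, sub_self]
    simp only [cx, dt, Complex.zero_re, Complex.zero_im, hκ]
    ring
  have c2 : cx (dir (V2 - V1) σ ε) (V2 - (V1 + V2) / 2) = ε * (σ * κ) := by
    rw [cx_dir, cx_mid, dt_mid1, sub_self]
    simp only [cx, dt, Complex.zero_re, Complex.zero_im, hκ]
    ring
  have hεκ : 0 < ε * κ := by positivity
  have hσ : |σ| = 1 := by rcases h.s1 with h1 | h1 <;> rw [h1] <;> simp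
  have hb : |ε * (σ * κ)| = ε * κ := by
    rw [abs_mul, abs_mul, hσ, abs_of_pos hε, abs_of_pos hκ0, one_mul]
  have hb1 := neg_abs_le (ε * (σ * κ))
  have hb2 := le_abs_self (ε * (σ * κ))
  rw [hb] at hb1 hb2
  refine ⟨fun i hi => ⟨by linarith [hu' i hi], by linarith [hd' i hi]⟩, fun i hi => ?_,
    fun i hi => ?_, ?_⟩
  · rw [c1]
    exact ⟨by linarith [hd' i hi], by linarith [hu' i hi]⟩
  · rw [c2]
    exact ⟨by linarith [hd' i hi], by linarith [hu' i hi]⟩
  · rw [c1, c2]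
    have h3 : 0 < (ε * (σ * κ)) ^ 2 := by
      rw [← sq_abs, hb]
      positivity
    linarith [h3, sq (ε * (σ * κ))]

end Wrd

end Pool.Agent.BGD
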